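import Pool.Agent.BQN.App

/-! Table 1. -/

namespace BQN

def tab1_0 : List E := [
  ⟨1, 14, 15, ⟨8, 0, 0, 0⟩, ⟨16, 4, 0, 0⟩, ⟨16, 0, -4, 0⟩, ⟨36, 6, -4, -2⟩⟩,
  ⟨1, 17, 15, ⟨10, 2, 0, 0⟩, ⟨16, 0, -4, 0⟩, ⟨32, -4, -4, 0⟩, ⟨34, 6, -6, -2⟩⟩,
  ⟨3, 7, 5, ⟨10, 2, 0, 0⟩, ⟨14, 2, -2, -2⟩, ⟨14, -2, 2, -2⟩, ⟨16, 0, -4, 0⟩⟩,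
  ⟨1, 29, 15, ⟨14, 2, 0, 0⟩, ⟨24, 4, 0, 0⟩, ⟨16, 0, -4, 0⟩, ⟨32, 0, -8, 0⟩⟩,
  ⟨3, 11, 5, ⟨14, 2, 0, 0⟩, ⟨16, 0, -4, 0⟩, ⟨22, 2, -2, -2⟩, ⟨24, 0, 2, -2⟩⟩,
  ⟨1, 37, 15, ⟨8, 0, 0, 0⟩, ⟨14, 2, 0, 0⟩, ⟨14, -2, 0, 0⟩, ⟨16, 0, -4, 0⟩⟩,
  ⟨1, 41, 15, ⟨8, 0, 0, 0⟩, ⟨14, 2, 0, 0⟩, ⟨14, -2, 0, 0⟩, ⟨16, 0, -4, 0⟩⟩,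
  ⟨1, 53, 15, ⟨18, 2, 0, 0⟩, ⟨32, 4, 0, 0⟩, ⟨16, 0, -4, 0⟩, ⟨32, 0, -8, 0⟩⟩,
  ⟨3, 19, 5, ⟨18, 2, 0, 0⟩, ⟨16, 0, -4, 0⟩, ⟨28, 0, 2, -2⟩, ⟨30, -2, 6, -2⟩⟩,
  ⟨1, 2, 17, ⟨8, 4, 0, 0⟩, ⟨10, 0, -2, 0⟩, ⟨14, 6, -2, -2⟩, ⟨14, -6, 2, -2⟩⟩]

theorem tab1_0_ok : allB tab1_0 E.ok = true := by decide +kernel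

def tab1_1 : List E := [
  ⟨1, 3, 17, ⟨8, 4, 0, 0⟩, ⟨10, 0, -2, 0⟩, ⟨18, 6, -2, -2⟩, ⟨18, -6, 2, -2⟩⟩,
  ⟨1, 5, 17, ⟨10, 0, -2, 0⟩, ⟨10, 0, 2, 0⟩, ⟨13, 1, -1, -1⟩, ⟨13, -1, -1, 1⟩⟩,
  ⟨1, 13, 17, ⟨10, 2, 0, 0⟩, ⟨10, 0, -2, 0⟩, ⟨16, -2, -2, 0⟩, ⟨17, 3, -3, -1⟩⟩,
  ⟨1, 2, 19, ⟨8, 4, 0, 0⟩, ⟨16, -2, 0, -2⟩, ⟨16, 2, 0, -2⟩, ⟨20, 10, -4, -2⟩⟩,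
  ⟨1, 5, 19, ⟨20, 4, -2, -2⟩, ⟨20, 0, -4, 0⟩, ⟨22, -2, -4, 0⟩, ⟨22, 2, -4, 0⟩⟩,
  ⟨1, 6, 19, ⟨12, 4, 0, 0⟩, ⟨20, 8, 0, 0⟩, ⟨20, 0, -4, 0⟩, ⟨28, 4, -4, 0⟩⟩,
  ⟨1, 7, 19, ⟨8, 0, 0, 0⟩, ⟨12, 4, 0, 0⟩, ⟨16, 2, -2, 0⟩, ⟨20, 0, -4, 0⟩⟩,
  ⟨1, 10, 19, ⟨16, 4, 0, 0⟩, ⟨28, 8, 0, 0⟩, ⟨20, 0, -4, 0⟩, ⟨32, 6, -4, -2⟩⟩,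
  ⟨1, 11, 19, ⟨8, 0, 0, 0⟩, ⟨28, 8, 0, 0⟩, ⟨16, 2, -2, 0⟩, ⟨16, 2, 2, 0⟩⟩,
  ⟨1, 13, 19, ⟨10, 2, 0, 0⟩, ⟨20, 0, -4, 0⟩, ⟨32, -4, -4, 0⟩, ⟨34, 2, -2, -2⟩⟩]

theorem tab1_1_ok : allB tab1_1 E.ok = true := by decide +kernel

def tab1_2 : List E := [
  ⟨1, 14, 19, ⟨16, 4, 0, 0⟩, ⟨20, 0, -4, 0⟩, ⟨40, -6, 4, -2⟩, ⟨40, -10, 8, -2⟩⟩,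
  ⟨1, 15, 19, ⟨16, 4, 0, 0⟩, ⟨20, 0, -4, 0⟩, ⟨20, -2, -2, 0⟩, ⟨32, -6, -2, 0⟩⟩,
  ⟨1, 17, 19, ⟨8, 0, 0, 0⟩, ⟨10, 2, 0, 0⟩, ⟨26, -2, -4, 0⟩, ⟨36, 0, -8, 0⟩⟩,
  ⟨1, 21, 19, ⟨8, 0, 0, 0⟩, ⟨10, 2, 0, 0⟩, ⟨36, 0, -8, 0⟩, ⟨36, -4, -4, 0⟩⟩,
  ⟨1, 29, 19, ⟨14, 2, 0, 0⟩, ⟨24, 4, 0, 0⟩, ⟨20, 0, -4, 0⟩, ⟨36, 0, -8, 0⟩⟩,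
  ⟨1, 33, 19, ⟨8, 0, 0, 0⟩, ⟨24, 4, 0, 0⟩, ⟨30, 2, -4, 0⟩, ⟨36, 0, -8, 0⟩⟩,
  ⟨1, 37, 19, ⟨8, 0, 0, 0⟩, ⟨14, 2, 0, 0⟩, ⟨30, -2, -4, 0⟩, ⟨36, 0, -8, 0⟩⟩,
  ⟨1, 41, 19, ⟨8, 0, 0, 0⟩, ⟨14, 2, 0, 0⟩, ⟨14, -2, 0, 0⟩, ⟨36, 0, -8, 0⟩⟩,
  ⟨1, 53, 19, ⟨18, 2, 0, 0⟩, ⟨32, 4, 0, 0⟩, ⟨20, 0, -4, 0⟩, ⟨36, 0, -8, 0⟩⟩,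
  ⟨1, 61, 19, ⟨18, 2, 0, 0⟩, ⟨32, 4, 0, 0⟩, ⟨34, 2, -4, 0⟩, ⟨36, 0, -8, 0⟩⟩]

theorem tab1_2_ok : allB tab1_2 E.ok = true := by decide +kernel

def tab1_3 : List E := [
  ⟨1, 65, 19, ⟨8, 0, 0, 0⟩, ⟨18, 2, 0, 0⟩, ⟨34, -2, -4, 0⟩, ⟨36, 0, -8, 0⟩⟩,
  ⟨1, 69, 19, ⟨8, 0, 0, 0⟩, ⟨18, 2, 0, 0⟩, ⟨18, -2, 0, 0⟩, ⟨36, 0, -8, 0⟩⟩,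
  ⟨1, 73, 19, ⟨8, 0, 0, 0⟩, ⟨18, 2, 0, 0⟩, ⟨18, -2, 0, 0⟩, ⟨36, 0, -8, 0⟩⟩,
  ⟨1, 2, 21, ⟨8, 4, 0, 0⟩, ⟨10, 0, -2, 0⟩, ⟨14, 6, -2, -2⟩, ⟨14, -6, 2, -2⟩⟩,
  ⟨3, 1, 7, ⟨8, 4, 0, 0⟩, ⟨12, 0, 0, -4⟩, ⟨12, -2, 0, -2⟩, ⟨18, 6, -2, -6⟩⟩,
  ⟨1, 5, 21, ⟨10, 0, -2, 0⟩, ⟨13, 1, -1, -1⟩, ⟨13, -1, 1, -1⟩, ⟨15, 3, -1, -1⟩⟩,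
  ⟨1, 13, 21, ⟨10, 2, 0, 0⟩, ⟨10, 0, -2, 0⟩, ⟨21, 1, -1, -1⟩, ⟨23, 3, -1, -1⟩⟩,
  ⟨1, 17, 21, ⟨8, 0, 0, 0⟩, ⟨10, 2, 0, 0⟩, ⟨10, 0, -2, 0⟩, ⟨21, 3, -3, -1⟩⟩,
  ⟨1, 3, 22, ⟨8, 4, 0, 0⟩, ⟨20, 4, -2, -2⟩, ⟨20, -4, 2, -2⟩, ⟨20, 0, -4, 0⟩⟩,
  ⟨1, 5, 22, ⟨20, 0, -4, 0⟩, ⟨24, 4, -2, -2⟩, ⟨26, 2, -2, -2⟩, ⟨26, -2, -2, 2⟩⟩]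

theorem tab1_3_ok : allB tab1_3 E.ok = true := by decide +kernel

def tab1_4 : List E := [
  ⟨1, 7, 22, ⟨12, 4, 0, 0⟩, ⟨20, 0, -4, 0⟩, ⟨28, 4, -2, -2⟩, ⟨32, 8, -6, -2⟩⟩,
  ⟨2, 5, 11, ⟨16, 4, 0, 0⟩, ⟨16, -2, -2, 0⟩, ⟨16, 2, -2, 0⟩, ⟨20, 0, -4, 0⟩⟩,
  ⟨1, 13, 22, ⟨10, 2, 0, 0⟩, ⟨20, 0, -4, 0⟩, ⟨26, -2, -4, 0⟩, ⟨26, 2, -4, 0⟩⟩,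
  ⟨1, 15, 22, ⟨16, 4, 0, 0⟩, ⟨20, 0, -4, 0⟩, ⟨40, 8, -6, -2⟩, ⟨40, -8, 6, -2⟩⟩,
  ⟨1, 17, 22, ⟨10, 2, 0, 0⟩, ⟨10, -2, 0, 0⟩, ⟨20, 0, -4, 0⟩, ⟨36, -4, -4, 0⟩⟩,
  ⟨1, 19, 22, ⟨20, 4, 0, 0⟩, ⟨20, -4, 0, 0⟩, ⟨20, 0, -4, 0⟩, ⟨20, 0, 4, 0⟩⟩,
  ⟨1, 21, 22, ⟨8, 0, 0, 0⟩, ⟨10, 2, 0, 0⟩, ⟨20, 0, -4, 0⟩, ⟨20, 0, 4, 0⟩⟩,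
  ⟨1, 29, 22, ⟨14, 2, 0, 0⟩, ⟨20, 0, -4, 0⟩, ⟨30, -2, -4, 0⟩, ⟨40, 0, -8, 0⟩⟩,
  ⟨1, 37, 22, ⟨8, 0, 0, 0⟩, ⟨14, 2, 0, 0⟩, ⟨14, -2, 0, 0⟩, ⟨20, 0, -4, 0⟩⟩,
  ⟨1, 41, 22, ⟨8, 0, 0, 0⟩, ⟨14, 2, 0, 0⟩, ⟨14, -2, 0, 0⟩, ⟨20, 0, -4, 0⟩⟩]

theorem tab1_4_ok : allB tab1_4 E.ok = true := by decide +kernel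

def tab1 : List E :=
  tab1_0 ++ (tab1_1 ++ (tab1_2 ++ (tab1_3 ++ (tab1_4))))

theorem tab1_ok : allB tab1 E.ok = true :=
  allB_append tab1_0_ok (allB_append tab1_1_ok (allB_append tab1_2_ok (allB_append tab1_3_ok
  tab1_4_ok)))

end BQN
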