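import Pool.Agent.BQN.App

/-! Table 10. -/

namespace BQN

def tab10_0 : List E := [
  ⟨2, 17, 23, ⟨8, 0, 0, 0⟩, ⟨24, 4, 0, 0⟩, ⟨24, -4, 0, 0⟩, ⟨28, 0, -4, 0⟩⟩,
  ⟨2, 19, 23, ⟨28, 4, 0, 0⟩, ⟨28, 0, -4, 0⟩, ⟨28, 2, -2, 0⟩, ⟨42, 0, 0, -2⟩⟩,
  ⟨1, 2, 47, ⟨8, 4, 0, 0⟩, ⟨28, 14, -4, -2⟩, ⟨28, -6, 0, -2⟩, ⟨28, 6, 0, -2⟩⟩,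
  ⟨1, 7, 47, ⟨8, 0, 0, 0⟩, ⟨12, 4, 0, 0⟩, ⟨20, 2, -2, 0⟩, ⟨28, 0, -4, 0⟩⟩,
  ⟨1, 10, 47, ⟨16, 4, 0, 0⟩, ⟨28, 0, -4, 0⟩, ⟨48, 10, -4, -2⟩, ⟨48, -10, 4, -2⟩⟩,
  ⟨1, 11, 47, ⟨8, 0, 0, 0⟩, ⟨28, 8, 0, 0⟩, ⟨28, 0, -4, 0⟩, ⟨28, 0, 4, 0⟩⟩,
  ⟨1, 15, 47, ⟨16, 4, 0, 0⟩, ⟨24, -2, -2, 0⟩, ⟨24, 2, -2, 0⟩, ⟨28, 0, -4, 0⟩⟩,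
  ⟨1, 19, 47, ⟨20, 4, 0, 0⟩, ⟨24, 2, -2, 0⟩, ⟨28, 0, -4, 0⟩, ⟨40, -6, -2, 0⟩⟩,
  ⟨1, 23, 47, ⟨8, 0, 0, 0⟩, ⟨20, 4, 0, 0⟩, ⟨24, 2, -2, 0⟩, ⟨28, 0, -4, 0⟩⟩,
  ⟨1, 31, 47, ⟨8, 0, 0, 0⟩, ⟨24, 4, 0, 0⟩, ⟨28, 0, -4, 0⟩, ⟨28, 2, -2, 0⟩⟩]

theorem tab10_0_ok : allB tab10_0 E.ok = true := by decide +kernel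

def tab10_1 : List E := [
  ⟨1, 35, 47, ⟨24, 4, 0, 0⟩, ⟨28, 0, -4, 0⟩, ⟨28, -2, -2, 0⟩, ⟨28, 2, -2, 0⟩⟩,
  ⟨1, 2, 51, ⟨8, 4, 0, 0⟩, ⟨24, -2, 0, -2⟩, ⟨24, 2, 0, -2⟩, ⟨36, 10, -4, -2⟩⟩,
  ⟨1, 5, 51, ⟨8, 0, 0, 0⟩, ⟨34, 6, -2, -2⟩, ⟨34, -6, 2, -2⟩, ⟨34, -2, -4, 0⟩⟩,
  ⟨1, 7, 51, ⟨12, 4, 0, 0⟩, ⟨20, -2, -2, 0⟩, ⟨20, 2, -2, 0⟩, ⟨32, 0, -4, 0⟩⟩,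
  ⟨1, 10, 51, ⟨16, 4, 0, 0⟩, ⟨28, 8, 0, 0⟩, ⟨32, 0, 4, 0⟩, ⟨52, 10, -4, -2⟩⟩,
  ⟨1, 11, 51, ⟨16, 4, 0, 0⟩, ⟨28, 8, 0, 0⟩, ⟨24, 2, -2, 0⟩, ⟨32, 0, -4, 0⟩⟩,
  ⟨1, 13, 51, ⟨10, 2, 0, 0⟩, ⟨10, -2, 0, 0⟩, ⟨32, 0, -4, 0⟩, ⟨38, -2, -4, 0⟩⟩,
  ⟨1, 14, 51, ⟨8, 0, 0, 0⟩, ⟨16, 4, 0, 0⟩, ⟨16, -4, 0, 0⟩, ⟨44, -4, -4, 0⟩⟩,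
  ⟨1, 19, 51, ⟨20, 4, 0, 0⟩, ⟨24, -2, -2, 0⟩, ⟨24, 2, -2, 0⟩, ⟨32, 0, -4, 0⟩⟩,
  ⟨3, 7, 17, ⟨10, 2, 0, 0⟩, ⟨28, 4, -2, -2⟩, ⟨30, -2, 2, -2⟩, ⟨32, 0, 4, 0⟩⟩]

theorem tab10_1_ok : allB tab10_1 E.ok = true := by decide +kernel

def tab10_2 : List E := [
  ⟨1, 22, 51, ⟨8, 0, 0, 0⟩, ⟨20, 4, 0, 0⟩, ⟨20, -4, 0, 0⟩, ⟨32, 0, -4, 0⟩⟩,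
  ⟨1, 23, 51, ⟨20, 4, 0, 0⟩, ⟨24, -2, -2, 0⟩, ⟨24, 2, -2, 0⟩, ⟨24, -2, 2, 0⟩⟩,
  ⟨1, 26, 51, ⟨24, 4, 0, 0⟩, ⟨24, -4, 0, 0⟩, ⟨32, 0, -4, 0⟩, ⟨60, 0, -8, 0⟩⟩,
  ⟨1, 29, 51, ⟨14, 2, 0, 0⟩, ⟨24, 4, 0, 0⟩, ⟨32, 0, -4, 0⟩, ⟨32, 0, 4, 0⟩⟩,
  ⟨3, 10, 17, ⟨24, 4, 0, 0⟩, ⟨32, 0, -4, 0⟩, ⟨36, 6, -4, -2⟩, ⟨40, 2, 0, 2⟩⟩,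
  ⟨1, 31, 51, ⟨24, 4, 0, 0⟩, ⟨24, -4, 0, 0⟩, ⟨28, -2, -2, 0⟩, ⟨32, 0, -4, 0⟩⟩,
  ⟨3, 11, 17, ⟨14, 2, 0, 0⟩, ⟨24, 4, 0, 0⟩, ⟨32, 0, -4, 0⟩, ⟨34, -2, -2, 2⟩⟩,
  ⟨1, 35, 51, ⟨24, 4, 0, 0⟩, ⟨28, -2, -2, 0⟩, ⟨28, 2, -2, 0⟩, ⟨32, 0, -4, 0⟩⟩,
  ⟨1, 37, 51, ⟨8, 0, 0, 0⟩, ⟨14, 2, 0, 0⟩, ⟨14, -2, 0, 0⟩, ⟨32, 0, -4, 0⟩⟩,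
  ⟨1, 38, 51, ⟨28, 4, 0, 0⟩, ⟨28, -4, 0, 0⟩, ⟨32, 0, -4, 0⟩, ⟨60, 0, -8, 0⟩⟩]

theorem tab10_2_ok : allB tab10_2 E.ok = true := by decide +kernel

def tab10_3 : List E := [
  ⟨3, 13, 17, ⟨28, 4, 0, 0⟩, ⟨28, 2, -2, 0⟩, ⟨30, 0, 0, -2⟩, ⟨32, 0, -4, 0⟩⟩,
  ⟨1, 41, 51, ⟨8, 0, 0, 0⟩, ⟨14, 2, 0, 0⟩, ⟨14, -2, 0, 0⟩, ⟨32, 0, -4, 0⟩⟩,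
  ⟨3, 14, 17, ⟨28, 4, 0, 0⟩, ⟨32, 0, -4, 0⟩, ⟨44, -2, 0, -2⟩, ⟨44, 2, 0, -2⟩⟩,
  ⟨1, 43, 51, ⟨8, 0, 0, 0⟩, ⟨28, 4, 0, 0⟩, ⟨28, 2, -2, 0⟩, ⟨28, 2, 2, 0⟩⟩,
  ⟨1, 46, 51, ⟨28, 4, 0, 0⟩, ⟨28, -4, 0, 0⟩, ⟨32, 0, -4, 0⟩, ⟨60, 0, -8, 0⟩⟩,
  ⟨1, 47, 51, ⟨28, 4, 0, 0⟩, ⟨28, -2, -2, 0⟩, ⟨28, 2, -2, 0⟩, ⟨32, 0, -4, 0⟩⟩,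
  ⟨1, 53, 51, ⟨18, 2, 0, 0⟩, ⟨32, 4, 0, 0⟩, ⟨32, 0, -4, 0⟩, ⟨32, 0, 4, 0⟩⟩,
  ⟨3, 19, 17, ⟨18, 2, 0, 0⟩, ⟨32, 4, 0, 0⟩, ⟨32, 0, -4, 0⟩, ⟨38, 2, -2, -2⟩⟩,
  ⟨1, 61, 51, ⟨18, 2, 0, 0⟩, ⟨32, 4, 0, 0⟩, ⟨32, 0, -4, 0⟩, ⟨32, 0, 4, 0⟩⟩,
  ⟨1, 65, 51, ⟨8, 0, 0, 0⟩, ⟨18, 2, 0, 0⟩, ⟨32, 0, -4, 0⟩, ⟨46, 2, -4, 0⟩⟩]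

theorem tab10_3_ok : allB tab10_3 E.ok = true := by decide +kernel

def tab10_4 : List E := [
  ⟨3, 23, 17, ⟨18, 2, 0, 0⟩, ⟨32, 0, -4, 0⟩, ⟨42, 2, -2, -2⟩, ⟨42, -2, 2, -2⟩⟩,
  ⟨1, 73, 51, ⟨8, 0, 0, 0⟩, ⟨18, 2, 0, 0⟩, ⟨18, -2, 0, 0⟩, ⟨46, -2, -4, 0⟩⟩,
  ⟨1, 77, 51, ⟨8, 0, 0, 0⟩, ⟨18, 2, 0, 0⟩, ⟨32, 0, -4, 0⟩, ⟨32, 0, 4, 0⟩⟩,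
  ⟨1, 89, 51, ⟨22, 2, 0, 0⟩, ⟨22, -2, 0, 0⟩, ⟨32, 0, -4, 0⟩, ⟨32, 0, 4, 0⟩⟩,
  ⟨3, 31, 17, ⟨22, 2, 0, 0⟩, ⟨32, 0, 4, 0⟩, ⟨52, -4, 6, -2⟩, ⟨54, 2, -2, -2⟩⟩,
  ⟨1, 97, 51, ⟨22, 2, 0, 0⟩, ⟨22, -2, 0, 0⟩, ⟨32, 0, -4, 0⟩, ⟨32, 0, 4, 0⟩⟩,
  ⟨1, 101, 51, ⟨8, 0, 0, 0⟩, ⟨22, 2, 0, 0⟩, ⟨32, 0, -4, 0⟩, ⟨50, 2, -4, 0⟩⟩,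
  ⟨3, 35, 17, ⟨22, 2, 0, 0⟩, ⟨50, 2, -4, 0⟩, ⟨52, -4, -6, 2⟩, ⟨52, 4, 6, 2⟩⟩,
  ⟨1, 109, 51, ⟨8, 0, 0, 0⟩, ⟨22, 2, 0, 0⟩, ⟨22, -2, 0, 0⟩, ⟨32, 0, -4, 0⟩⟩,
  ⟨1, 113, 51, ⟨22, 2, 0, 0⟩, ⟨22, -2, 0, 0⟩, ⟨32, 0, -4, 0⟩, ⟨50, -2, 4, 0⟩⟩]

theorem tab10_4_ok : allB tab10_4 E.ok = true := by decide +kernel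

def tab10 : List E :=
  tab10_0 ++ (tab10_1 ++ (tab10_2 ++ (tab10_3 ++ (tab10_4))))

theorem tab10_ok : allB tab10 E.ok = true :=
  allB_append tab10_0_ok (allB_append tab10_1_ok (allB_append tab10_2_ok (allB_append tab10_3_ok
  tab10_4_ok)))

end BQN
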