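import Pool.Agent.BQN.App

/-! Table 11. -/

namespace BQN

def tab11_0 : List E := [
  ⟨3, 43, 17, ⟨26, -2, 0, 0⟩, ⟨32, 0, -4, 0⟩, ⟨60, -4, 6, -2⟩, ⟨60, 0, -8, 0⟩⟩,
  ⟨1, 133, 51, ⟨26, 2, 0, 0⟩, ⟨32, 0, -4, 0⟩, ⟨54, 2, -4, 0⟩, ⟨60, 0, -8, 0⟩⟩,
  ⟨1, 137, 51, ⟨26, 2, 0, 0⟩, ⟨26, -2, 0, 0⟩, ⟨32, 0, -4, 0⟩, ⟨60, 0, -8, 0⟩⟩,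
  ⟨3, 47, 17, ⟨26, 2, 0, 0⟩, ⟨26, -2, 0, 0⟩, ⟨32, 0, -4, 0⟩, ⟨60, 0, -8, 0⟩⟩,
  ⟨1, 145, 51, ⟨26, 2, 0, 0⟩, ⟨26, -2, 0, 0⟩, ⟨32, 0, -4, 0⟩, ⟨60, 0, -8, 0⟩⟩,
  ⟨1, 149, 51, ⟨26, 2, 0, 0⟩, ⟨26, -2, 0, 0⟩, ⟨32, 0, -4, 0⟩, ⟨60, 0, -8, 0⟩⟩,
  ⟨1, 157, 51, ⟨26, 2, 0, 0⟩, ⟨26, -2, 0, 0⟩, ⟨32, 0, -4, 0⟩, ⟨60, 0, -8, 0⟩⟩,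
  ⟨1, 161, 51, ⟨26, 2, 0, 0⟩, ⟨32, 0, -4, 0⟩, ⟨54, -2, -4, 0⟩, ⟨54, 2, 4, 0⟩⟩,
  ⟨3, 55, 17, ⟨8, 0, 0, 0⟩, ⟨26, 2, 0, 0⟩, ⟨32, 0, -4, 0⟩, ⟨60, 0, -8, 0⟩⟩,
  ⟨1, 173, 51, ⟨30, 2, 0, 0⟩, ⟨30, -2, 0, 0⟩, ⟨32, 0, -4, 0⟩, ⟨60, 0, -8, 0⟩⟩]

theorem tab11_0_ok : allB tab11_0 E.ok = true := by decide +kernel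

def tab11_1 : List E := [
  ⟨3, 59, 17, ⟨30, 2, 0, 0⟩, ⟨30, -2, 0, 0⟩, ⟨32, 0, -4, 0⟩, ⟨60, 0, -8, 0⟩⟩,
  ⟨1, 181, 51, ⟨30, 2, 0, 0⟩, ⟨30, -2, 0, 0⟩, ⟨32, 0, -4, 0⟩, ⟨60, 0, -8, 0⟩⟩,
  ⟨1, 185, 51, ⟨30, 2, 0, 0⟩, ⟨30, -2, 0, 0⟩, ⟨32, 0, -4, 0⟩, ⟨60, 0, -8, 0⟩⟩,
  ⟨1, 193, 51, ⟨30, 2, 0, 0⟩, ⟨30, -2, 0, 0⟩, ⟨32, 0, -4, 0⟩, ⟨60, 0, -8, 0⟩⟩,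
  ⟨1, 197, 51, ⟨30, 2, 0, 0⟩, ⟨30, -2, 0, 0⟩, ⟨32, 0, -4, 0⟩, ⟨60, 0, -8, 0⟩⟩,
  ⟨3, 67, 17, ⟨30, 2, 0, 0⟩, ⟨30, -2, 0, 0⟩, ⟨32, 0, -4, 0⟩, ⟨60, 0, -8, 0⟩⟩,
  ⟨1, 2, 53, ⟨8, 4, 0, 0⟩, ⟨18, 0, -2, 0⟩, ⟨22, 10, -2, -2⟩, ⟨22, -10, 2, -2⟩⟩,
  ⟨1, 3, 53, ⟨8, 4, 0, 0⟩, ⟨22, -4, -2, 0⟩, ⟨30, 6, -2, -2⟩, ⟨30, -10, 2, -2⟩⟩,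
  ⟨1, 5, 53, ⟨19, 3, -1, -1⟩, ⟨19, -3, 1, -1⟩, ⟨20, -2, -2, 0⟩, ⟨20, 2, 2, 0⟩⟩,
  ⟨1, 6, 53, ⟨12, 4, 0, 0⟩, ⟨12, -4, 0, 0⟩, ⟨20, 8, 0, 0⟩, ⟨18, 0, -2, 0⟩⟩]

theorem tab11_1_ok : allB tab11_1 E.ok = true := by decide +kernel

def tab11_2 : List E := [
  ⟨1, 7, 53, ⟨12, 4, 0, 0⟩, ⟨12, -4, 0, 0⟩, ⟨18, 0, -2, 0⟩, ⟨32, 0, -4, 0⟩⟩,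
  ⟨1, 10, 53, ⟨16, 4, 0, 0⟩, ⟨28, 8, 0, 0⟩, ⟨18, 0, -2, 0⟩, ⟨32, 0, -4, 0⟩⟩,
  ⟨1, 11, 53, ⟨16, 4, 0, 0⟩, ⟨28, 8, 0, 0⟩, ⟨18, 0, -2, 0⟩, ⟨32, 0, -4, 0⟩⟩,
  ⟨1, 13, 53, ⟨10, 2, 0, 0⟩, ⟨18, 0, 2, 0⟩, ⟨31, 3, -1, -1⟩, ⟨31, -5, 3, -1⟩⟩,
  ⟨1, 17, 53, ⟨10, 2, 0, 0⟩, ⟨10, -2, 0, 0⟩, ⟨18, 0, -2, 0⟩, ⟨32, 0, -4, 0⟩⟩,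
  ⟨1, 21, 53, ⟨8, 0, 0, 0⟩, ⟨10, 2, 0, 0⟩, ⟨24, -2, -2, 0⟩, ⟨24, 2, 2, 0⟩⟩,
  ⟨1, 29, 53, ⟨14, 2, 0, 0⟩, ⟨24, 4, 0, 0⟩, ⟨18, 0, -2, 0⟩, ⟨32, 0, -4, 0⟩⟩,
  ⟨1, 33, 53, ⟨14, 2, 0, 0⟩, ⟨24, 4, 0, 0⟩, ⟨18, 0, -2, 0⟩, ⟨32, 0, -4, 0⟩⟩,
  ⟨1, 37, 53, ⟨14, 2, 0, 0⟩, ⟨14, -2, 0, 0⟩, ⟨18, 0, -2, 0⟩, ⟨32, 0, -4, 0⟩⟩,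
  ⟨1, 41, 53, ⟨14, 2, 0, 0⟩, ⟨14, -2, 0, 0⟩, ⟨18, 0, -2, 0⟩, ⟨32, 0, -4, 0⟩⟩]

theorem tab11_2_ok : allB tab11_2 E.ok = true := by decide +kernel

def tab11_3 : List E := [
  ⟨1, 2, 55, ⟨8, 4, 0, 0⟩, ⟨24, -2, 0, -2⟩, ⟨24, 2, 0, -2⟩, ⟨32, 14, -4, -2⟩⟩,
  ⟨1, 6, 55, ⟨12, 4, 0, 0⟩, ⟨20, 8, 0, 0⟩, ⟨32, 0, -4, 0⟩, ⟨40, -4, -4, 0⟩⟩,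
  ⟨1, 7, 55, ⟨12, 4, 0, 0⟩, ⟨24, 2, -2, 0⟩, ⟨32, 0, -4, 0⟩, ⟨32, 6, -2, 0⟩⟩,
  ⟨1, 13, 55, ⟨10, 2, 0, 0⟩, ⟨10, -2, 0, 0⟩, ⟨32, 0, -4, 0⟩, ⟨38, -2, -4, 0⟩⟩,
  ⟨1, 14, 55, ⟨8, 0, 0, 0⟩, ⟨16, 4, 0, 0⟩, ⟨16, -4, 0, 0⟩, ⟨32, 0, -4, 0⟩⟩,
  ⟨1, 17, 55, ⟨10, 2, 0, 0⟩, ⟨32, 0, -4, 0⟩, ⟨38, -2, -4, 0⟩, ⟨38, 2, -4, 0⟩⟩,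
  ⟨1, 19, 55, ⟨20, 4, 0, 0⟩, ⟨24, -2, -2, 0⟩, ⟨24, 2, -2, 0⟩, ⟨32, 0, -4, 0⟩⟩,
  ⟨1, 21, 55, ⟨8, 0, 0, 0⟩, ⟨10, 2, 0, 0⟩, ⟨20, 4, 0, 0⟩, ⟨32, 0, -4, 0⟩⟩,
  ⟨1, 23, 55, ⟨20, 4, 0, 0⟩, ⟨28, 2, -2, 0⟩, ⟨32, 0, -4, 0⟩, ⟨44, -6, -2, 0⟩⟩,
  ⟨1, 26, 55, ⟨24, 4, 0, 0⟩, ⟨24, -4, 0, 0⟩, ⟨32, 0, -4, 0⟩, ⟨60, 0, -8, 0⟩⟩]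

theorem tab11_3_ok : allB tab11_3 E.ok = true := by decide +kernel

def tab11_4 : List E := [
  ⟨1, 29, 55, ⟨14, 2, 0, 0⟩, ⟨24, 4, 0, 0⟩, ⟨32, 0, -4, 0⟩, ⟨52, -4, -4, 0⟩⟩,
  ⟨5, 6, 11, ⟨24, 4, 0, 0⟩, ⟨28, 2, 0, -2⟩, ⟨36, 0, 0, -4⟩, ⟨36, -2, 4, -2⟩⟩,
  ⟨1, 31, 55, ⟨24, 4, 0, 0⟩, ⟨28, -2, -2, 0⟩, ⟨28, 2, -2, 0⟩, ⟨32, 0, -4, 0⟩⟩,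
  ⟨1, 34, 55, ⟨24, 4, 0, 0⟩, ⟨24, -4, 0, 0⟩, ⟨32, 0, -4, 0⟩, ⟨60, 0, -8, 0⟩⟩,
  ⟨1, 37, 55, ⟨14, 2, 0, 0⟩, ⟨32, 0, -4, 0⟩, ⟨42, -2, -4, 0⟩, ⟨42, 2, 4, 0⟩⟩,
  ⟨1, 38, 55, ⟨28, 4, 0, 0⟩, ⟨28, -4, 0, 0⟩, ⟨32, 0, -4, 0⟩, ⟨60, 0, -8, 0⟩⟩,
  ⟨1, 39, 55, ⟨28, 4, 0, 0⟩, ⟨28, -2, -2, 0⟩, ⟨28, 2, -2, 0⟩, ⟨32, 0, -4, 0⟩⟩,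
  ⟨1, 41, 55, ⟨8, 0, 0, 0⟩, ⟨14, -2, 0, 0⟩, ⟨32, 0, -4, 0⟩, ⟨56, -4, -4, 0⟩⟩,
  ⟨1, 42, 55, ⟨28, 4, 0, 0⟩, ⟨32, 0, -4, 0⟩, ⟨56, 4, -4, 0⟩, ⟨60, 0, -8, 0⟩⟩,
  ⟨1, 43, 55, ⟨28, 4, 0, 0⟩, ⟨28, -2, -2, 0⟩, ⟨28, 2, -2, 0⟩, ⟨32, 0, -4, 0⟩⟩]

theorem tab11_4_ok : allB tab11_4 E.ok = true := by decide +kernel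

def tab11 : List E :=
  tab11_0 ++ (tab11_1 ++ (tab11_2 ++ (tab11_3 ++ (tab11_4))))

theorem tab11_ok : allB tab11 E.ok = true :=
  allB_append tab11_0_ok (allB_append tab11_1_ok (allB_append tab11_2_ok (allB_append tab11_3_ok
  tab11_4_ok)))

end BQN
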