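import Pool.Agent.BQN.App

/-! Table 12. -/

namespace BQN

def tab12_0 : List E := [
  ⟨1, 46, 55, ⟨28, 4, 0, 0⟩, ⟨28, -4, 0, 0⟩, ⟨32, 0, -4, 0⟩, ⟨60, 0, -8, 0⟩⟩,
  ⟨1, 47, 55, ⟨28, 4, 0, 0⟩, ⟨28, -4, 0, 0⟩, ⟨32, 0, -4, 0⟩, ⟨32, -2, -2, 0⟩⟩,
  ⟨1, 51, 55, ⟨32, 4, 0, 0⟩, ⟨32, 0, -4, 0⟩, ⟨32, -2, -2, 0⟩, ⟨32, 2, -2, 0⟩⟩,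
  ⟨1, 53, 55, ⟨18, 2, 0, 0⟩, ⟨18, -2, 0, 0⟩, ⟨32, 4, 0, 0⟩, ⟨32, 0, -4, 0⟩⟩,
  ⟨1, 57, 55, ⟨8, 0, 0, 0⟩, ⟨32, 4, 0, 0⟩, ⟨32, -4, 0, 0⟩, ⟨32, 0, -4, 0⟩⟩,
  ⟨1, 61, 55, ⟨18, 2, 0, 0⟩, ⟨32, 4, 0, 0⟩, ⟨32, 0, -4, 0⟩, ⟨46, 2, -4, 0⟩⟩,
  ⟨5, 13, 11, ⟨18, 2, 0, 0⟩, ⟨26, 2, -2, -2⟩, ⟨26, -2, 2, -2⟩, ⟨32, 0, -4, 0⟩⟩,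
  ⟨1, 69, 55, ⟨8, 0, 0, 0⟩, ⟨18, 2, 0, 0⟩, ⟨18, -2, 0, 0⟩, ⟨32, 0, -4, 0⟩⟩,
  ⟨1, 73, 55, ⟨8, 0, 0, 0⟩, ⟨18, 2, 0, 0⟩, ⟨18, -2, 0, 0⟩, ⟨32, 0, -4, 0⟩⟩,
  ⟨5, 17, 11, ⟨22, 2, 0, 0⟩, ⟨32, 0, -4, 0⟩, ⟨34, 2, 2, 2⟩, ⟨44, 0, -2, 2⟩⟩]

theorem tab12_0_ok : allB tab12_0 E.ok = true := by decide +kernel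

def tab12_1 : List E := [
  ⟨1, 89, 55, ⟨22, 2, 0, 0⟩, ⟨22, -2, 0, 0⟩, ⟨32, 0, -4, 0⟩, ⟨50, -2, -4, 0⟩⟩,
  ⟨1, 93, 55, ⟨22, 2, 0, 0⟩, ⟨22, -2, 0, 0⟩, ⟨32, 0, -4, 0⟩, ⟨50, -2, -4, 0⟩⟩,
  ⟨1, 97, 55, ⟨22, 2, 0, 0⟩, ⟨22, -2, 0, 0⟩, ⟨32, 0, -4, 0⟩, ⟨50, -2, -4, 0⟩⟩,
  ⟨1, 101, 55, ⟨22, 2, 0, 0⟩, ⟨32, 0, -4, 0⟩, ⟨50, -2, -4, 0⟩, ⟨50, 2, 4, 0⟩⟩,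
  ⟨5, 21, 11, ⟨22, 2, 0, 0⟩, ⟨32, 0, -4, 0⟩, ⟨38, 2, 2, 2⟩, ⟨48, 0, -2, 2⟩⟩,
  ⟨1, 109, 55, ⟨22, 2, 0, 0⟩, ⟨22, -2, 0, 0⟩, ⟨32, 0, -4, 0⟩, ⟨60, 0, -8, 0⟩⟩,
  ⟨1, 113, 55, ⟨22, 2, 0, 0⟩, ⟨22, -2, 0, 0⟩, ⟨32, 0, -4, 0⟩, ⟨60, 0, -8, 0⟩⟩,
  ⟨1, 129, 55, ⟨26, 2, 0, 0⟩, ⟨26, -2, 0, 0⟩, ⟨32, 0, -4, 0⟩, ⟨60, 0, -8, 0⟩⟩,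
  ⟨1, 133, 55, ⟨26, 2, 0, 0⟩, ⟨32, 0, -4, 0⟩, ⟨54, -2, -4, 0⟩, ⟨60, 0, -8, 0⟩⟩,
  ⟨1, 137, 55, ⟨26, 2, 0, 0⟩, ⟨32, 0, -4, 0⟩, ⟨54, -2, -4, 0⟩, ⟨60, 0, -8, 0⟩⟩]

theorem tab12_1_ok : allB tab12_1 E.ok = true := by decide +kernel

def tab12_2 : List E := [
  ⟨1, 141, 55, ⟨26, 2, 0, 0⟩, ⟨32, 0, -4, 0⟩, ⟨54, 2, -4, 0⟩, ⟨60, 0, -8, 0⟩⟩,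
  ⟨5, 29, 11, ⟨26, 2, 0, 0⟩, ⟨32, 0, -4, 0⟩, ⟨46, 2, 2, 2⟩, ⟨52, 0, -2, 2⟩⟩,
  ⟨1, 149, 55, ⟨26, 2, 0, 0⟩, ⟨26, -2, 0, 0⟩, ⟨32, 0, -4, 0⟩, ⟨60, 0, -8, 0⟩⟩,
  ⟨1, 157, 55, ⟨26, 2, 0, 0⟩, ⟨26, -2, 0, 0⟩, ⟨32, 0, -4, 0⟩, ⟨60, 0, -8, 0⟩⟩,
  ⟨1, 161, 55, ⟨26, 2, 0, 0⟩, ⟨26, -2, 0, 0⟩, ⟨32, 0, -4, 0⟩, ⟨60, 0, -8, 0⟩⟩,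
  ⟨1, 173, 55, ⟨30, 2, 0, 0⟩, ⟨30, -2, 0, 0⟩, ⟨32, 0, -4, 0⟩, ⟨60, 0, -8, 0⟩⟩,
  ⟨1, 177, 55, ⟨30, 2, 0, 0⟩, ⟨30, -2, 0, 0⟩, ⟨32, 0, -4, 0⟩, ⟨60, 0, -8, 0⟩⟩,
  ⟨1, 181, 55, ⟨30, 2, 0, 0⟩, ⟨30, -2, 0, 0⟩, ⟨32, 0, -4, 0⟩, ⟨60, 0, -8, 0⟩⟩,
  ⟨5, 37, 11, ⟨30, 2, 0, 0⟩, ⟨32, 0, 4, 0⟩, ⟨56, 0, 2, -2⟩, ⟨58, -2, 6, -2⟩⟩,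
  ⟨1, 193, 55, ⟨30, 2, 0, 0⟩, ⟨32, 0, -4, 0⟩, ⟨58, 2, -4, 0⟩, ⟨60, 0, -8, 0⟩⟩]

theorem tab12_2_ok : allB tab12_2 E.ok = true := by decide +kernel

def tab12_3 : List E := [
  ⟨1, 197, 55, ⟨30, 2, 0, 0⟩, ⟨32, 0, -4, 0⟩, ⟨58, -2, -4, 0⟩, ⟨60, 0, -8, 0⟩⟩,
  ⟨1, 201, 55, ⟨30, 2, 0, 0⟩, ⟨30, -2, 0, 0⟩, ⟨32, 0, -4, 0⟩, ⟨60, 0, -8, 0⟩⟩,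
  ⟨5, 41, 11, ⟨30, 2, 0, 0⟩, ⟨32, 0, -4, 0⟩, ⟨58, 2, 2, 2⟩, ⟨60, 4, -6, -2⟩⟩,
  ⟨11, 19, 5, ⟨30, 2, 0, 0⟩, ⟨32, 0, -4, 0⟩, ⟨34, 2, 2, 2⟩, ⟨40, 0, 0, -4⟩⟩,
  ⟨1, 213, 55, ⟨30, 2, 0, 0⟩, ⟨30, -2, 0, 0⟩, ⟨32, 0, -4, 0⟩, ⟨60, 0, -8, 0⟩⟩,
  ⟨1, 217, 55, ⟨30, 2, 0, 0⟩, ⟨30, -2, 0, 0⟩, ⟨32, 0, -4, 0⟩, ⟨60, 0, -8, 0⟩⟩,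
  ⟨1, 2, 57, ⟨8, 4, 0, 0⟩, ⟨18, 0, -2, 0⟩, ⟨26, 10, -2, -2⟩, ⟨26, -10, -2, 2⟩⟩,
  ⟨3, 1, 19, ⟨8, 4, 0, 0⟩, ⟨16, -2, 0, -2⟩, ⟨18, 0, -2, 0⟩, ⟨22, 8, -2, -4⟩⟩,
  ⟨1, 5, 57, ⟨8, 0, 0, 0⟩, ⟨19, 3, -1, -1⟩, ⟨19, -3, 1, -1⟩, ⟨20, -2, -2, 0⟩⟩,
  ⟨3, 2, 19, ⟨12, 4, 0, 0⟩, ⟨20, 8, 0, 0⟩, ⟨18, 6, -2, -2⟩, ⟨18, 0, -2, 0⟩⟩]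

theorem tab12_3_ok : allB tab12_3 E.ok = true := by decide +kernel

def tab12_4 : List E := [
  ⟨1, 7, 57, ⟨8, 0, 0, 0⟩, ⟨12, 4, 0, 0⟩, ⟨26, -4, -2, 0⟩, ⟨32, 0, -4, 0⟩⟩,
  ⟨1, 10, 57, ⟨16, 4, 0, 0⟩, ⟨28, 8, 0, 0⟩, ⟨18, 0, -2, 0⟩, ⟨32, 0, -4, 0⟩⟩,
  ⟨1, 11, 57, ⟨16, 4, 0, 0⟩, ⟨28, 8, 0, 0⟩, ⟨18, 0, -2, 0⟩, ⟨32, 0, -4, 0⟩⟩,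
  ⟨1, 13, 57, ⟨10, 2, 0, 0⟩, ⟨30, -4, -2, 0⟩, ⟨31, 3, 1, 1⟩, ⟨32, 0, -4, 0⟩⟩,
  ⟨1, 14, 57, ⟨8, 0, 0, 0⟩, ⟨16, 4, 0, 0⟩, ⟨16, -4, 0, 0⟩, ⟨32, 0, -4, 0⟩⟩,
  ⟨1, 17, 57, ⟨8, 0, 0, 0⟩, ⟨10, 2, 0, 0⟩, ⟨24, -2, -2, 0⟩, ⟨32, 0, -4, 0⟩⟩,
  ⟨3, 7, 19, ⟨10, 2, 0, 0⟩, ⟨15, 1, -1, -1⟩, ⟨15, -1, 1, -1⟩, ⟨21, 3, -1, -1⟩⟩,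
  ⟨1, 29, 57, ⟨14, 2, 0, 0⟩, ⟨24, 4, 0, 0⟩, ⟨18, 0, -2, 0⟩, ⟨32, 0, -4, 0⟩⟩,
  ⟨3, 11, 19, ⟨14, 2, 0, 0⟩, ⟨18, 0, -2, 0⟩, ⟨19, -1, -1, 1⟩, ⟨25, 3, 1, 1⟩⟩,
  ⟨1, 37, 57, ⟨8, 0, 0, 0⟩, ⟨14, 2, 0, 0⟩, ⟨14, -2, 0, 0⟩, ⟨32, 0, -4, 0⟩⟩]

theorem tab12_4_ok : allB tab12_4 E.ok = true := by decide +kernel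

def tab12 : List E :=
  tab12_0 ++ (tab12_1 ++ (tab12_2 ++ (tab12_3 ++ (tab12_4))))

theorem tab12_ok : allB tab12 E.ok = true :=
  allB_append tab12_0_ok (allB_append tab12_1_ok (allB_append tab12_2_ok (allB_append tab12_3_ok
  tab12_4_ok)))

end BQN
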