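import Pool.Agent.BQN.App

/-! Table 13. -/

namespace BQN

def tab13_0 : List E := [
  ⟨1, 41, 57, ⟨8, 0, 0, 0⟩, ⟨14, 2, 0, 0⟩, ⟨28, -2, -2, 0⟩, ⟨32, 0, -4, 0⟩⟩,
  ⟨1, 53, 57, ⟨18, 2, 0, 0⟩, ⟨32, 4, 0, 0⟩, ⟨18, 0, -2, 0⟩, ⟨32, 0, -4, 0⟩⟩,
  ⟨1, 3, 58, ⟨8, 4, 0, 0⟩, ⟨28, 8, -2, -2⟩, ⟨28, -8, 2, -2⟩, ⟨32, 12, -2, -2⟩⟩,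
  ⟨2, 3, 29, ⟨12, 4, 0, 0⟩, ⟨20, 8, 0, 0⟩, ⟨24, 2, -2, 0⟩, ⟨32, 0, -4, 0⟩⟩,
  ⟨2, 7, 29, ⟨8, 0, 0, 0⟩, ⟨16, 4, 0, 0⟩, ⟨24, 2, -2, 0⟩, ⟨32, 0, -4, 0⟩⟩,
  ⟨2, 11, 29, ⟨8, 0, 0, 0⟩, ⟨20, -4, 0, 0⟩, ⟨32, 0, -4, 0⟩, ⟨44, -6, -2, 0⟩⟩,
  ⟨2, 13, 29, ⟨24, 4, 0, 0⟩, ⟨28, 2, -2, 0⟩, ⟨32, 0, -4, 0⟩, ⟨42, 0, 0, 2⟩⟩,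
  ⟨2, 15, 29, ⟨8, 0, 0, 0⟩, ⟨24, 4, 0, 0⟩, ⟨28, 2, -2, 0⟩, ⟨32, 0, -4, 0⟩⟩,
  ⟨2, 17, 29, ⟨8, 0, 0, 0⟩, ⟨24, 4, 0, 0⟩, ⟨28, 2, -2, 0⟩, ⟨32, 0, -4, 0⟩⟩,
  ⟨2, 19, 29, ⟨8, 0, 0, 0⟩, ⟨28, -2, -2, 0⟩, ⟨28, 2, -2, 0⟩, ⟨32, 0, -4, 0⟩⟩]

theorem tab13_0_ok : allB tab13_0 E.ok = true := by decide +kernel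

def tab13_1 : List E := [
  ⟨2, 21, 29, ⟨28, 4, 0, 0⟩, ⟨28, -4, 0, 0⟩, ⟨32, 0, -4, 0⟩, ⟨32, -2, -2, 0⟩⟩,
  ⟨2, 23, 29, ⟨8, 0, 0, 0⟩, ⟨28, 4, 0, 0⟩, ⟨28, -4, 0, 0⟩, ⟨32, 0, -4, 0⟩⟩,
  ⟨1, 2, 59, ⟨8, 4, 0, 0⟩, ⟨32, 0, -4, 0⟩, ⟨36, -10, 0, -2⟩, ⟨36, 10, 0, -2⟩⟩,
  ⟨1, 7, 59, ⟨8, 0, 0, 0⟩, ⟨12, 4, 0, 0⟩, ⟨32, 0, -4, 0⟩, ⟨32, 6, -2, 0⟩⟩,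
  ⟨1, 10, 59, ⟨16, 4, 0, 0⟩, ⟨32, 0, -4, 0⟩, ⟨52, 10, -4, -2⟩, ⟨52, -10, 4, -2⟩⟩,
  ⟨1, 11, 59, ⟨8, 0, 0, 0⟩, ⟨28, 8, 0, 0⟩, ⟨32, 0, -4, 0⟩, ⟨36, 6, -2, 0⟩⟩,
  ⟨1, 15, 59, ⟨16, 4, 0, 0⟩, ⟨24, -2, -2, 0⟩, ⟨24, 2, -2, 0⟩, ⟨32, 0, -4, 0⟩⟩,
  ⟨1, 19, 59, ⟨20, 4, 0, 0⟩, ⟨20, -4, 0, 0⟩, ⟨28, -2, -2, 0⟩, ⟨32, 0, -4, 0⟩⟩,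
  ⟨1, 23, 59, ⟨8, 0, 0, 0⟩, ⟨20, 4, 0, 0⟩, ⟨20, -4, 0, 0⟩, ⟨32, 0, -4, 0⟩⟩,
  ⟨1, 31, 59, ⟨8, 0, 0, 0⟩, ⟨24, 4, 0, 0⟩, ⟨28, 2, -2, 0⟩, ⟨32, 0, -4, 0⟩⟩]

theorem tab13_1_ok : allB tab13_1 E.ok = true := by decide +kernel

def tab13_2 : List E := [
  ⟨1, 35, 59, ⟨8, 0, 0, 0⟩, ⟨24, 4, 0, 0⟩, ⟨28, -2, -2, 0⟩, ⟨32, 0, -4, 0⟩⟩,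
  ⟨1, 39, 59, ⟨28, 4, 0, 0⟩, ⟨28, -2, -2, 0⟩, ⟨28, 2, -2, 0⟩, ⟨32, 0, -4, 0⟩⟩,
  ⟨1, 43, 59, ⟨8, 0, 0, 0⟩, ⟨28, 4, 0, 0⟩, ⟨32, 0, -4, 0⟩, ⟨32, 2, -2, 0⟩⟩,
  ⟨1, 2, 61, ⟨8, 4, 0, 0⟩, ⟨18, 0, -2, 0⟩, ⟨22, -4, -2, 0⟩, ⟨26, 10, -2, -2⟩⟩,
  ⟨1, 3, 61, ⟨8, 4, 0, 0⟩, ⟨18, 0, -2, 0⟩, ⟨30, 10, -2, -2⟩, ⟨30, -10, 2, -2⟩⟩,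
  ⟨1, 5, 61, ⟨10, 2, 0, 0⟩, ⟨18, 0, -2, 0⟩, ⟨19, 3, -1, -1⟩, ⟨19, -3, 1, -1⟩⟩,
  ⟨1, 6, 61, ⟨12, 4, 0, 0⟩, ⟨20, 8, 0, 0⟩, ⟨18, 0, -2, 0⟩, ⟨26, -4, -2, 0⟩⟩,
  ⟨1, 7, 61, ⟨12, 4, 0, 0⟩, ⟨12, -4, 0, 0⟩, ⟨18, 0, -2, 0⟩, ⟨32, 0, -4, 0⟩⟩,
  ⟨1, 10, 61, ⟨16, 4, 0, 0⟩, ⟨28, 8, 0, 0⟩, ⟨18, 0, -2, 0⟩, ⟨32, 0, -4, 0⟩⟩,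
  ⟨1, 11, 61, ⟨16, 4, 0, 0⟩, ⟨28, 8, 0, 0⟩, ⟨18, 0, -2, 0⟩, ⟨32, 0, -4, 0⟩⟩]

theorem tab13_2_ok : allB tab13_2 E.ok = true := by decide +kernel

def tab13_3 : List E := [
  ⟨1, 13, 61, ⟨10, 2, 0, 0⟩, ⟨18, 0, -2, 0⟩, ⟨32, 0, -4, 0⟩, ⟨33, 7, -3, -1⟩⟩,
  ⟨1, 14, 61, ⟨16, 4, 0, 0⟩, ⟨16, -4, 0, 0⟩, ⟨18, 0, -2, 0⟩, ⟨32, 0, -4, 0⟩⟩,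
  ⟨1, 15, 61, ⟨8, 0, 0, 0⟩, ⟨16, 4, 0, 0⟩, ⟨18, 0, -2, 0⟩, ⟨32, 0, -4, 0⟩⟩,
  ⟨1, 17, 61, ⟨10, 2, 0, 0⟩, ⟨18, 0, -2, 0⟩, ⟨24, -2, -2, 0⟩, ⟨24, 2, -2, 0⟩⟩,
  ⟨1, 21, 61, ⟨10, 2, 0, 0⟩, ⟨18, 0, -2, 0⟩, ⟨32, 0, -4, 0⟩, ⟨34, -4, -2, 0⟩⟩,
  ⟨1, 29, 61, ⟨14, 2, 0, 0⟩, ⟨24, 4, 0, 0⟩, ⟨18, 0, -2, 0⟩, ⟨32, 0, -4, 0⟩⟩,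
  ⟨1, 33, 61, ⟨24, 4, 0, 0⟩, ⟨18, 0, -2, 0⟩, ⟨28, 2, -2, 0⟩, ⟨32, 0, -4, 0⟩⟩,
  ⟨1, 37, 61, ⟨14, 2, 0, 0⟩, ⟨18, 0, -2, 0⟩, ⟨28, -2, -2, 0⟩, ⟨32, 0, -4, 0⟩⟩,
  ⟨1, 41, 61, ⟨14, 2, 0, 0⟩, ⟨14, -2, 0, 0⟩, ⟨18, 0, -2, 0⟩, ⟨32, 0, -4, 0⟩⟩,
  ⟨1, 53, 61, ⟨18, 2, 0, 0⟩, ⟨32, 4, 0, 0⟩, ⟨18, 0, -2, 0⟩, ⟨32, 0, -4, 0⟩⟩]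

theorem tab13_3_ok : allB tab13_3 E.ok = true := by decide +kernel

def tab13_4 : List E := [
  ⟨1, 57, 61, ⟨18, 2, 0, 0⟩, ⟨32, 4, 0, 0⟩, ⟨18, 0, -2, 0⟩, ⟨32, 0, -4, 0⟩⟩,
  ⟨2, 5, 31, ⟨8, 0, 0, 0⟩, ⟨16, 4, 0, 0⟩, ⟨24, 2, -2, 0⟩, ⟨32, 0, -4, 0⟩⟩,
  ⟨2, 11, 31, ⟨20, 4, 0, 0⟩, ⟨28, 2, -2, 0⟩, ⟨32, 0, -4, 0⟩, ⟨38, 0, 0, 2⟩⟩,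
  ⟨2, 13, 31, ⟨24, 4, 0, 0⟩, ⟨28, 2, -2, 0⟩, ⟨32, 0, -4, 0⟩, ⟨32, 0, 4, 0⟩⟩,
  ⟨2, 15, 31, ⟨8, 0, 0, 0⟩, ⟨24, 4, 0, 0⟩, ⟨28, 2, -2, 0⟩, ⟨32, 0, -4, 0⟩⟩,
  ⟨2, 17, 31, ⟨8, 0, 0, 0⟩, ⟨24, 4, 0, 0⟩, ⟨28, 2, -2, 0⟩, ⟨32, 0, -4, 0⟩⟩,
  ⟨1, 2, 65, ⟨8, 4, 0, 0⟩, ⟨18, 0, -2, 0⟩, ⟨22, -4, -2, 0⟩, ⟨22, 4, -2, 0⟩⟩,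
  ⟨1, 3, 65, ⟨8, 4, 0, 0⟩, ⟨18, 0, -2, 0⟩, ⟨30, 10, -2, -2⟩, ⟨30, -10, 2, -2⟩⟩,
  ⟨1, 6, 65, ⟨12, 4, 0, 0⟩, ⟨20, 8, 0, 0⟩, ⟨18, 0, -2, 0⟩, ⟨26, -4, -2, 0⟩⟩,
  ⟨1, 7, 65, ⟨8, 0, 0, 0⟩, ⟨12, 4, 0, 0⟩, ⟨18, 0, -2, 0⟩, ⟨38, 8, -2, 0⟩⟩]

theorem tab13_4_ok : allB tab13_4 E.ok = true := by decide +kernel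

def tab13 : List E :=
  tab13_0 ++ (tab13_1 ++ (tab13_2 ++ (tab13_3 ++ (tab13_4))))

theorem tab13_ok : allB tab13 E.ok = true :=
  allB_append tab13_0_ok (allB_append tab13_1_ok (allB_append tab13_2_ok (allB_append tab13_3_ok
  tab13_4_ok)))

end BQN
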