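import Pool.Agent.BQN.App

/-! Table 14. -/

namespace BQN

def tab14_0 : List E := [
  ⟨5, 2, 13, ⟨16, 4, 0, 0⟩, ⟨18, 0, -2, 0⟩, ⟨22, -2, -2, 2⟩, ⟨24, 0, 0, 4⟩⟩,
  ⟨1, 11, 65, ⟨8, 0, 0, 0⟩, ⟨28, 8, 0, 0⟩, ⟨18, 0, -2, 0⟩, ⟨30, 4, -2, 0⟩⟩,
  ⟨1, 14, 65, ⟨8, 0, 0, 0⟩, ⟨16, 4, 0, 0⟩, ⟨16, -4, 0, 0⟩, ⟨18, 0, -2, 0⟩⟩,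
  ⟨5, 3, 13, ⟨16, 4, 0, 0⟩, ⟨18, 0, -2, 0⟩, ⟨22, 2, -2, -2⟩, ⟨26, 4, -2, -4⟩⟩,
  ⟨1, 17, 65, ⟨8, 0, 0, 0⟩, ⟨10, 2, 0, 0⟩, ⟨10, -2, 0, 0⟩, ⟨18, 0, -2, 0⟩⟩,
  ⟨1, 21, 65, ⟨10, 2, 0, 0⟩, ⟨20, 4, 0, 0⟩, ⟨18, 0, -2, 0⟩, ⟨36, 0, -4, 0⟩⟩,
  ⟨1, 29, 65, ⟨8, 0, 0, 0⟩, ⟨18, 0, -2, 0⟩, ⟨28, -2, -2, 0⟩, ⟨38, -4, -2, 0⟩⟩,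
  ⟨1, 33, 65, ⟨8, 0, 0, 0⟩, ⟨24, 4, 0, 0⟩, ⟨18, 0, -2, 0⟩, ⟨28, 2, -2, 0⟩⟩,
  ⟨1, 37, 65, ⟨8, 0, 0, 0⟩, ⟨14, 2, 0, 0⟩, ⟨14, -2, 0, 0⟩, ⟨18, 0, -2, 0⟩⟩,
  ⟨1, 41, 65, ⟨8, 0, 0, 0⟩, ⟨14, 2, 0, 0⟩, ⟨14, -2, 0, 0⟩, ⟨18, 0, -2, 0⟩⟩]

theorem tab14_0_ok : allB tab14_0 E.ok = true := by decide +kernel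

def tab14_1 : List E := [
  ⟨1, 53, 65, ⟨18, 2, 0, 0⟩, ⟨32, 4, 0, 0⟩, ⟨18, 0, -2, 0⟩, ⟨36, 0, -4, 0⟩⟩,
  ⟨1, 57, 65, ⟨8, 0, 0, 0⟩, ⟨32, 4, 0, 0⟩, ⟨18, 0, -2, 0⟩, ⟨32, -2, -2, 0⟩⟩,
  ⟨1, 61, 65, ⟨18, 2, 0, 0⟩, ⟨32, 4, 0, 0⟩, ⟨18, 0, -2, 0⟩, ⟨32, 2, -2, 0⟩⟩,
  ⟨2, 7, 33, ⟨16, 4, 0, 0⟩, ⟨24, -2, -2, 0⟩, ⟨24, 2, -2, 0⟩, ⟨36, 0, -4, 0⟩⟩,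
  ⟨2, 13, 33, ⟨24, 4, 0, 0⟩, ⟨28, 2, -2, 0⟩, ⟨36, 0, -4, 0⟩, ⟨42, 0, 0, -2⟩⟩,
  ⟨2, 17, 33, ⟨24, 4, 0, 0⟩, ⟨28, -2, -2, 0⟩, ⟨28, 2, -2, 0⟩, ⟨28, -2, 2, 0⟩⟩,
  ⟨2, 19, 33, ⟨28, 4, 0, 0⟩, ⟨32, -2, -2, 0⟩, ⟨32, 2, -2, 0⟩, ⟨36, 0, -4, 0⟩⟩,
  ⟨2, 23, 33, ⟨28, 4, 0, 0⟩, ⟨28, -4, 0, 0⟩, ⟨32, -2, -2, 0⟩, ⟨36, 0, -4, 0⟩⟩,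
  ⟨2, 29, 33, ⟨8, 0, 0, 0⟩, ⟨32, 4, 0, 0⟩, ⟨32, 2, -2, 0⟩, ⟨32, 2, 2, 0⟩⟩,
  ⟨2, 31, 33, ⟨32, 4, 0, 0⟩, ⟨32, -2, -2, 0⟩, ⟨32, 2, -2, 0⟩, ⟨36, 0, -4, 0⟩⟩]

theorem tab14_1_ok : allB tab14_1 E.ok = true := by decide +kernel

def tab14_2 : List E := [
  ⟨1, 2, 67, ⟨8, 4, 0, 0⟩, ⟨32, -6, 0, -2⟩, ⟨36, 18, -4, -2⟩, ⟨36, 0, -4, 0⟩⟩,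
  ⟨1, 7, 67, ⟨12, 4, 0, 0⟩, ⟨12, -4, 0, 0⟩, ⟨24, -2, -2, 0⟩, ⟨36, 0, -4, 0⟩⟩,
  ⟨1, 10, 67, ⟨16, 4, 0, 0⟩, ⟨28, 8, 0, 0⟩, ⟨36, 0, 4, 0⟩, ⟨56, -10, 4, -2⟩⟩,
  ⟨1, 11, 67, ⟨16, 4, 0, 0⟩, ⟨28, 8, 0, 0⟩, ⟨24, 2, -2, 0⟩, ⟨36, 0, -4, 0⟩⟩,
  ⟨1, 15, 67, ⟨16, 4, 0, 0⟩, ⟨28, -2, -2, 0⟩, ⟨36, 0, -4, 0⟩, ⟨40, 6, -2, 0⟩⟩,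
  ⟨1, 19, 67, ⟨20, 4, 0, 0⟩, ⟨28, -2, -2, 0⟩, ⟨28, 2, -2, 0⟩, ⟨36, 0, -4, 0⟩⟩,
  ⟨1, 23, 67, ⟨20, 4, 0, 0⟩, ⟨20, -4, 0, 0⟩, ⟨28, -2, -2, 0⟩, ⟨36, 0, -4, 0⟩⟩,
  ⟨1, 31, 67, ⟨24, 4, 0, 0⟩, ⟨28, -2, -2, 0⟩, ⟨28, 2, -2, 0⟩, ⟨36, 0, -4, 0⟩⟩,
  ⟨1, 35, 67, ⟨24, 4, 0, 0⟩, ⟨32, -2, -2, 0⟩, ⟨32, 2, -2, 0⟩, ⟨36, 0, -4, 0⟩⟩,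
  ⟨1, 39, 67, ⟨28, 4, 0, 0⟩, ⟨32, -2, -2, 0⟩, ⟨32, 2, -2, 0⟩, ⟨36, 0, -4, 0⟩⟩]

theorem tab14_2_ok : allB tab14_2 E.ok = true := by decide +kernel

def tab14_3 : List E := [
  ⟨1, 43, 67, ⟨28, 4, 0, 0⟩, ⟨28, -4, 0, 0⟩, ⟨32, -2, -2, 0⟩, ⟨36, 0, -4, 0⟩⟩,
  ⟨1, 47, 67, ⟨8, 0, 0, 0⟩, ⟨28, 4, 0, 0⟩, ⟨32, 2, -2, 0⟩, ⟨36, 0, -4, 0⟩⟩,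
  ⟨1, 51, 67, ⟨32, 4, 0, 0⟩, ⟨32, -2, -2, 0⟩, ⟨32, 2, -2, 0⟩, ⟨36, 0, -4, 0⟩⟩,
  ⟨1, 55, 67, ⟨32, 4, 0, 0⟩, ⟨32, -2, -2, 0⟩, ⟨32, 2, -2, 0⟩, ⟨36, 0, -4, 0⟩⟩,
  ⟨1, 59, 67, ⟨8, 0, 0, 0⟩, ⟨32, 4, 0, 0⟩, ⟨32, 2, -2, 0⟩, ⟨32, 2, 2, 0⟩⟩,
  ⟨1, 2, 69, ⟨8, 4, 0, 0⟩, ⟨18, 0, -2, 0⟩, ⟨26, 10, -2, -2⟩, ⟨26, -10, 2, -2⟩⟩,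
  ⟨3, 1, 23, ⟨8, 4, 0, 0⟩, ⟨16, -2, 0, -2⟩, ⟨18, 6, -2, -2⟩, ⟨20, 0, 0, -4⟩⟩,
  ⟨1, 5, 69, ⟨8, 0, 0, 0⟩, ⟨18, 0, -2, 0⟩, ⟨25, 1, -1, -1⟩, ⟨25, -1, 1, -1⟩⟩,
  ⟨3, 2, 23, ⟨12, 4, 0, 0⟩, ⟨20, 8, 0, 0⟩, ⟨18, 6, -2, -2⟩, ⟨18, 0, -2, 0⟩⟩,
  ⟨1, 7, 69, ⟨8, 0, 0, 0⟩, ⟨12, 4, 0, 0⟩, ⟨18, 0, -2, 0⟩, ⟨38, -8, -2, 0⟩⟩]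

theorem tab14_3_ok : allB tab14_3 E.ok = true := by decide +kernel

def tab14_4 : List E := [
  ⟨1, 10, 69, ⟨16, 4, 0, 0⟩, ⟨28, 8, 0, 0⟩, ⟨18, 0, -2, 0⟩, ⟨18, 0, 2, 0⟩⟩,
  ⟨1, 11, 69, ⟨16, 4, 0, 0⟩, ⟨18, 0, -2, 0⟩, ⟨30, -4, -2, 0⟩, ⟨30, 4, 2, 0⟩⟩,
  ⟨1, 13, 69, ⟨10, 2, 0, 0⟩, ⟨18, 0, -2, 0⟩, ⟨24, -2, -2, 0⟩, ⟨24, 2, 2, 0⟩⟩,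
  ⟨1, 14, 69, ⟨8, 0, 0, 0⟩, ⟨16, 4, 0, 0⟩, ⟨16, -4, 0, 0⟩, ⟨18, 0, -2, 0⟩⟩,
  ⟨3, 5, 23, ⟨16, 4, 0, 0⟩, ⟨18, 0, -2, 0⟩, ⟨30, -6, 2, -2⟩, ⟨34, 2, -2, -2⟩⟩,
  ⟨1, 17, 69, ⟨8, 0, 0, 0⟩, ⟨10, 2, 0, 0⟩, ⟨10, -2, 0, 0⟩, ⟨18, 0, -2, 0⟩⟩,
  ⟨3, 7, 23, ⟨10, 2, 0, 0⟩, ⟨18, 0, -2, 0⟩, ⟨19, 1, -1, -1⟩, ⟨21, -3, 1, -1⟩⟩,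
  ⟨1, 29, 69, ⟨14, 2, 0, 0⟩, ⟨18, 0, -2, 0⟩, ⟨28, -2, -2, 0⟩, ⟨36, 0, -4, 0⟩⟩,
  ⟨3, 11, 23, ⟨14, 2, 0, 0⟩, ⟨18, 0, -2, 0⟩, ⟨19, 1, -1, -1⟩, ⟨19, -1, 1, -1⟩⟩,
  ⟨1, 37, 69, ⟨8, 0, 0, 0⟩, ⟨14, 2, 0, 0⟩, ⟨14, -2, 0, 0⟩, ⟨18, 0, -2, 0⟩⟩]

theorem tab14_4_ok : allB tab14_4 E.ok = true := by decide +kernel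

def tab14 : List E :=
  tab14_0 ++ (tab14_1 ++ (tab14_2 ++ (tab14_3 ++ (tab14_4))))

theorem tab14_ok : allB tab14 E.ok = true :=
  allB_append tab14_0_ok (allB_append tab14_1_ok (allB_append tab14_2_ok (allB_append tab14_3_ok
  tab14_4_ok)))

end BQN
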