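import Pool.Agent.BQN.App

/-! Table 15. -/

namespace BQN

def tab15_0 : List E := [
  ⟨1, 41, 69, ⟨8, 0, 0, 0⟩, ⟨14, 2, 0, 0⟩, ⟨14, -2, 0, 0⟩, ⟨18, 0, -2, 0⟩⟩,
  ⟨1, 53, 69, ⟨18, 2, 0, 0⟩, ⟨32, 4, 0, 0⟩, ⟨18, 0, -2, 0⟩, ⟨18, 0, 2, 0⟩⟩,
  ⟨3, 19, 23, ⟨18, 2, 0, 0⟩, ⟨18, 0, -2, 0⟩, ⟨23, 1, -1, -1⟩, ⟨27, 3, -3, -1⟩⟩,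
  ⟨1, 61, 69, ⟨18, 2, 0, 0⟩, ⟨32, 4, 0, 0⟩, ⟨18, 0, -2, 0⟩, ⟨18, 0, 2, 0⟩⟩,
  ⟨1, 65, 69, ⟨8, 0, 0, 0⟩, ⟨18, 2, 0, 0⟩, ⟨18, 0, -2, 0⟩, ⟨18, 0, 2, 0⟩⟩,
  ⟨1, 3, 70, ⟨8, 4, 0, 0⟩, ⟨32, 8, -2, -2⟩, ⟨32, -8, 2, -2⟩, ⟨36, 12, -2, -2⟩⟩,
  ⟨2, 11, 35, ⟨20, 4, 0, 0⟩, ⟨28, 2, -2, 0⟩, ⟨36, 0, -4, 0⟩, ⟨42, 0, 0, 2⟩⟩,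
  ⟨2, 13, 35, ⟨24, 4, 0, 0⟩, ⟨28, -2, -2, 0⟩, ⟨28, 2, -2, 0⟩, ⟨36, 0, -4, 0⟩⟩,
  ⟨2, 17, 35, ⟨24, 4, 0, 0⟩, ⟨24, -4, 0, 0⟩, ⟨32, -2, -2, 0⟩, ⟨36, 0, -4, 0⟩⟩,
  ⟨2, 19, 35, ⟨28, 4, 0, 0⟩, ⟨32, -2, -2, 0⟩, ⟨32, 2, -2, 0⟩, ⟨36, 0, -4, 0⟩⟩]

theorem tab15_0_ok : allB tab15_0 E.ok = true := by decide +kernel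

def tab15_1 : List E := [
  ⟨2, 23, 35, ⟨8, 0, 0, 0⟩, ⟨28, 4, 0, 0⟩, ⟨32, 2, -2, 0⟩, ⟨32, 2, 2, 0⟩⟩,
  ⟨1, 2, 71, ⟨8, 4, 0, 0⟩, ⟨36, 18, -4, -2⟩, ⟨36, 0, -4, 0⟩, ⟨40, 14, -4, -2⟩⟩,
  ⟨1, 7, 71, ⟨8, 0, 0, 0⟩, ⟨12, 4, 0, 0⟩, ⟨24, 2, -2, 0⟩, ⟨36, 0, -4, 0⟩⟩,
  ⟨1, 10, 71, ⟨28, 8, 0, 0⟩, ⟨36, 0, -4, 0⟩, ⟨56, 10, -4, -2⟩, ⟨56, -10, 4, -2⟩⟩,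
  ⟨1, 11, 71, ⟨16, 4, 0, 0⟩, ⟨24, -2, -2, 0⟩, ⟨24, 2, -2, 0⟩, ⟨36, 0, -4, 0⟩⟩,
  ⟨1, 15, 71, ⟨16, 4, 0, 0⟩, ⟨28, -2, -2, 0⟩, ⟨28, 2, -2, 0⟩, ⟨36, 0, -4, 0⟩⟩,
  ⟨1, 19, 71, ⟨20, 4, 0, 0⟩, ⟨28, -2, -2, 0⟩, ⟨28, 2, -2, 0⟩, ⟨36, 0, -4, 0⟩⟩,
  ⟨1, 23, 71, ⟨8, 0, 0, 0⟩, ⟨20, 4, 0, 0⟩, ⟨28, 2, -2, 0⟩, ⟨36, 0, -4, 0⟩⟩,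
  ⟨1, 31, 71, ⟨24, 4, 0, 0⟩, ⟨28, -2, -2, 0⟩, ⟨28, 2, -2, 0⟩, ⟨28, -2, 2, 0⟩⟩,
  ⟨1, 35, 71, ⟨24, 4, 0, 0⟩, ⟨32, -2, -2, 0⟩, ⟨32, 2, -2, 0⟩, ⟨36, 0, -4, 0⟩⟩]

theorem tab15_1_ok : allB tab15_1 E.ok = true := by decide +kernel

def tab15_2 : List E := [
  ⟨1, 39, 71, ⟨28, 4, 0, 0⟩, ⟨32, -2, -2, 0⟩, ⟨32, 2, -2, 0⟩, ⟨36, 0, -4, 0⟩⟩,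
  ⟨1, 43, 71, ⟨28, 4, 0, 0⟩, ⟨32, -2, -2, 0⟩, ⟨32, 2, -2, 0⟩, ⟨36, 0, -4, 0⟩⟩,
  ⟨1, 47, 71, ⟨8, 0, 0, 0⟩, ⟨28, 4, 0, 0⟩, ⟨32, 2, -2, 0⟩, ⟨32, 2, 2, 0⟩⟩,
  ⟨1, 51, 71, ⟨32, 4, 0, 0⟩, ⟨32, -2, -2, 0⟩, ⟨32, 2, -2, 0⟩, ⟨36, 0, -4, 0⟩⟩,
  ⟨1, 2, 73, ⟨8, 4, 0, 0⟩, ⟨18, 0, -2, 0⟩, ⟨28, -2, 0, -2⟩, ⟨30, 10, -2, -2⟩⟩,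
  ⟨1, 3, 73, ⟨8, 4, 0, 0⟩, ⟨18, 0, -2, 0⟩, ⟨30, 10, -2, -2⟩, ⟨30, -10, 2, -2⟩⟩,
  ⟨1, 5, 73, ⟨18, 0, -2, 0⟩, ⟨18, 0, 2, 0⟩, ⟨23, 3, -1, -1⟩, ⟨23, -3, 1, -1⟩⟩,
  ⟨1, 6, 73, ⟨12, 4, 0, 0⟩, ⟨12, -4, 0, 0⟩, ⟨20, 8, 0, 0⟩, ⟨18, 0, -2, 0⟩⟩,
  ⟨1, 7, 73, ⟨8, 0, 0, 0⟩, ⟨12, 4, 0, 0⟩, ⟨12, -4, 0, 0⟩, ⟨18, 0, -2, 0⟩⟩,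
  ⟨1, 10, 73, ⟨8, 0, 0, 0⟩, ⟨18, 0, -2, 0⟩, ⟨30, -4, -2, 0⟩, ⟨30, 4, 2, 0⟩⟩]

theorem tab15_2_ok : allB tab15_2 E.ok = true := by decide +kernel

def tab15_3 : List E := [
  ⟨1, 11, 73, ⟨8, 0, 0, 0⟩, ⟨28, 8, 0, 0⟩, ⟨18, 0, -2, 0⟩, ⟨18, 0, 2, 0⟩⟩,
  ⟨1, 13, 73, ⟨10, 2, 0, 0⟩, ⟨18, 0, -2, 0⟩, ⟨33, 7, -3, -1⟩, ⟨33, -7, 3, -1⟩⟩,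
  ⟨1, 14, 73, ⟨8, 0, 0, 0⟩, ⟨16, 4, 0, 0⟩, ⟨16, -4, 0, 0⟩, ⟨18, 0, -2, 0⟩⟩,
  ⟨1, 15, 73, ⟨8, 0, 0, 0⟩, ⟨16, 4, 0, 0⟩, ⟨18, 0, -2, 0⟩, ⟨18, 0, 2, 0⟩⟩,
  ⟨1, 17, 73, ⟨8, 0, 0, 0⟩, ⟨10, 2, 0, 0⟩, ⟨18, 0, -2, 0⟩, ⟨34, -4, -2, 0⟩⟩,
  ⟨1, 21, 73, ⟨8, 0, 0, 0⟩, ⟨10, 2, 0, 0⟩, ⟨18, 0, -2, 0⟩, ⟨18, 0, 2, 0⟩⟩,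
  ⟨1, 29, 73, ⟨14, 2, 0, 0⟩, ⟨18, 0, -2, 0⟩, ⟨28, -2, -2, 0⟩, ⟨28, 2, 2, 0⟩⟩,
  ⟨1, 33, 73, ⟨8, 0, 0, 0⟩, ⟨24, 4, 0, 0⟩, ⟨24, -4, 0, 0⟩, ⟨18, 0, -2, 0⟩⟩,
  ⟨1, 37, 73, ⟨8, 0, 0, 0⟩, ⟨14, 2, 0, 0⟩, ⟨14, -2, 0, 0⟩, ⟨18, 0, -2, 0⟩⟩,
  ⟨1, 41, 73, ⟨8, 0, 0, 0⟩, ⟨14, 2, 0, 0⟩, ⟨14, -2, 0, 0⟩, ⟨18, 0, -2, 0⟩⟩]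

theorem tab15_3_ok : allB tab15_3 E.ok = true := by decide +kernel

def tab15_4 : List E := [
  ⟨1, 53, 73, ⟨18, 2, 0, 0⟩, ⟨18, 0, -2, 0⟩, ⟨18, 0, 2, 0⟩, ⟨32, -2, -2, 0⟩⟩,
  ⟨1, 57, 73, ⟨8, 0, 0, 0⟩, ⟨32, 4, 0, 0⟩, ⟨18, 0, -2, 0⟩, ⟨18, 0, 2, 0⟩⟩,
  ⟨1, 61, 73, ⟨18, 2, 0, 0⟩, ⟨32, 4, 0, 0⟩, ⟨18, 0, -2, 0⟩, ⟨18, 0, 2, 0⟩⟩,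
  ⟨1, 65, 73, ⟨8, 0, 0, 0⟩, ⟨18, 2, 0, 0⟩, ⟨18, 0, -2, 0⟩, ⟨18, 0, 2, 0⟩⟩,
  ⟨1, 69, 73, ⟨8, 0, 0, 0⟩, ⟨18, 2, 0, 0⟩, ⟨18, -2, 0, 0⟩, ⟨18, 0, -2, 0⟩⟩,
  ⟨2, 3, 37, ⟨12, 4, 0, 0⟩, ⟨20, 8, 0, 0⟩, ⟨24, 2, -2, 0⟩, ⟨32, -6, -2, 0⟩⟩,
  ⟨2, 7, 37, ⟨16, 4, 0, 0⟩, ⟨28, 2, -2, 0⟩, ⟨36, 0, -4, 0⟩, ⟨40, -6, -2, 0⟩⟩,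
  ⟨2, 11, 37, ⟨8, 0, 0, 0⟩, ⟨20, 4, 0, 0⟩, ⟨28, 2, -2, 0⟩, ⟨36, 0, -4, 0⟩⟩,
  ⟨2, 13, 37, ⟨8, 0, 0, 0⟩, ⟨28, -2, -2, 0⟩, ⟨28, 2, -2, 0⟩, ⟨36, 0, -4, 0⟩⟩,
  ⟨2, 15, 37, ⟨24, 4, 0, 0⟩, ⟨24, -4, 0, 0⟩, ⟨32, -2, -2, 0⟩, ⟨36, 0, -4, 0⟩⟩]

theorem tab15_4_ok : allB tab15_4 E.ok = true := by decide +kernel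

def tab15 : List E :=
  tab15_0 ++ (tab15_1 ++ (tab15_2 ++ (tab15_3 ++ (tab15_4))))

theorem tab15_ok : allB tab15 E.ok = true :=
  allB_append tab15_0_ok (allB_append tab15_1_ok (allB_append tab15_2_ok (allB_append tab15_3_ok
  tab15_4_ok)))

end BQN
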