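import Pool.Agent.BQN.App

/-! Table 17. -/

namespace BQN

def tab17_0 : List E := [
  ⟨1, 35, 83, ⟨24, 4, 0, 0⟩, ⟨32, -2, -2, 0⟩, ⟨32, 2, -2, 0⟩, ⟨40, 0, -4, 0⟩⟩,
  ⟨1, 39, 83, ⟨28, 4, 0, 0⟩, ⟨32, -2, -2, 0⟩, ⟨32, 2, -2, 0⟩, ⟨40, 0, -4, 0⟩⟩,
  ⟨1, 43, 83, ⟨8, 0, 0, 0⟩, ⟨28, 4, 0, 0⟩, ⟨32, 2, -2, 0⟩, ⟨32, 2, 2, 0⟩⟩,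
  ⟨1, 47, 83, ⟨28, 4, 0, 0⟩, ⟨32, -2, -2, 0⟩, ⟨32, 2, -2, 0⟩, ⟨32, -2, 2, 0⟩⟩,
  ⟨1, 51, 83, ⟨32, 4, 0, 0⟩, ⟨36, -2, -2, 0⟩, ⟨36, 2, -2, 0⟩, ⟨40, 0, -4, 0⟩⟩,
  ⟨1, 55, 83, ⟨32, 4, 0, 0⟩, ⟨36, -2, -2, 0⟩, ⟨36, 2, -2, 0⟩, ⟨40, 0, -4, 0⟩⟩,
  ⟨1, 59, 83, ⟨32, 4, 0, 0⟩, ⟨32, -4, 0, 0⟩, ⟨36, -2, -2, 0⟩, ⟨40, 0, -4, 0⟩⟩,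
  ⟨1, 2, 85, ⟨8, 4, 0, 0⟩, ⟨30, 14, -2, -2⟩, ⟨30, -8, -2, 0⟩, ⟨30, 8, 2, 0⟩⟩,
  ⟨1, 3, 85, ⟨8, 4, 0, 0⟩, ⟨22, 0, -2, 0⟩, ⟨34, 10, -2, -2⟩, ⟨34, -10, 2, -2⟩⟩,
  ⟨1, 6, 85, ⟨12, 4, 0, 0⟩, ⟨12, -4, 0, 0⟩, ⟨20, 8, 0, 0⟩, ⟨22, 0, -2, 0⟩⟩]

theorem tab17_0_ok : allB tab17_0 E.ok = true := by decide +kernel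

def tab17_1 : List E := [
  ⟨1, 7, 85, ⟨12, 4, 0, 0⟩, ⟨12, -4, 0, 0⟩, ⟨22, 0, -2, 0⟩, ⟨40, 0, -4, 0⟩⟩,
  ⟨5, 2, 17, ⟨16, 4, 0, 0⟩, ⟨20, 2, 0, -2⟩, ⟨24, 0, 0, -4⟩, ⟨26, 6, -2, -2⟩⟩,
  ⟨1, 11, 85, ⟨16, 4, 0, 0⟩, ⟨28, 8, 0, 0⟩, ⟨22, 0, -2, 0⟩, ⟨40, 0, -4, 0⟩⟩,
  ⟨1, 13, 85, ⟨10, 2, 0, 0⟩, ⟨22, 0, -2, 0⟩, ⟨35, 3, -1, -1⟩, ⟨35, -3, 1, -1⟩⟩,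
  ⟨1, 14, 85, ⟨16, 4, 0, 0⟩, ⟨16, -4, 0, 0⟩, ⟨22, 0, -2, 0⟩, ⟨40, 0, -4, 0⟩⟩,
  ⟨5, 3, 17, ⟨16, 4, 0, 0⟩, ⟨22, 0, -2, 0⟩, ⟨26, 2, -2, -2⟩, ⟨30, -6, -2, 2⟩⟩,
  ⟨1, 19, 85, ⟨20, 4, 0, 0⟩, ⟨20, -4, 0, 0⟩, ⟨22, 0, -2, 0⟩, ⟨40, 0, -4, 0⟩⟩,
  ⟨1, 21, 85, ⟨8, 0, 0, 0⟩, ⟨10, 2, 0, 0⟩, ⟨28, -2, -2, 0⟩, ⟨28, 2, -2, 0⟩⟩,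
  ⟨1, 29, 85, ⟨14, 2, 0, 0⟩, ⟨24, 4, 0, 0⟩, ⟨22, 0, -2, 0⟩, ⟨40, 0, -4, 0⟩⟩,
  ⟨1, 33, 85, ⟨14, 2, 0, 0⟩, ⟨24, 4, 0, 0⟩, ⟨22, 0, -2, 0⟩, ⟨40, 0, -4, 0⟩⟩]

theorem tab17_1_ok : allB tab17_1 E.ok = true := by decide +kernel

def tab17_2 : List E := [
  ⟨1, 37, 85, ⟨14, 2, 0, 0⟩, ⟨14, -2, 0, 0⟩, ⟨22, 0, -2, 0⟩, ⟨40, 0, -4, 0⟩⟩,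
  ⟨1, 41, 85, ⟨14, 2, 0, 0⟩, ⟨14, -2, 0, 0⟩, ⟨22, 0, -2, 0⟩, ⟨40, 0, -4, 0⟩⟩,
  ⟨1, 53, 85, ⟨18, 2, 0, 0⟩, ⟨32, 4, 0, 0⟩, ⟨22, 0, -2, 0⟩, ⟨40, 0, -4, 0⟩⟩,
  ⟨1, 57, 85, ⟨18, 2, 0, 0⟩, ⟨32, 4, 0, 0⟩, ⟨22, 0, -2, 0⟩, ⟨40, 0, -4, 0⟩⟩,
  ⟨1, 61, 85, ⟨18, 2, 0, 0⟩, ⟨32, 4, 0, 0⟩, ⟨22, 0, -2, 0⟩, ⟨40, 0, -4, 0⟩⟩,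
  ⟨5, 13, 17, ⟨8, 0, 0, 0⟩, ⟨18, 2, 0, 0⟩, ⟨17, 1, -1, -1⟩, ⟨17, -1, 1, -1⟩⟩,
  ⟨1, 69, 85, ⟨18, 2, 0, 0⟩, ⟨18, -2, 0, 0⟩, ⟨22, 0, -2, 0⟩, ⟨40, 0, -4, 0⟩⟩,
  ⟨1, 73, 85, ⟨18, 2, 0, 0⟩, ⟨18, -2, 0, 0⟩, ⟨22, 0, -2, 0⟩, ⟨40, 0, -4, 0⟩⟩,
  ⟨1, 77, 85, ⟨18, 2, 0, 0⟩, ⟨22, 0, -2, 0⟩, ⟨36, -2, -2, 0⟩, ⟨36, 2, -2, 0⟩⟩,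
  ⟨2, 5, 43, ⟨16, 4, 0, 0⟩, ⟨28, 8, 0, 0⟩, ⟨28, 2, -2, 0⟩, ⟨40, 0, -4, 0⟩⟩]

theorem tab17_2_ok : allB tab17_2 E.ok = true := by decide +kernel

def tab17_3 : List E := [
  ⟨2, 11, 43, ⟨20, 4, 0, 0⟩, ⟨28, -2, -2, 0⟩, ⟨28, 2, -2, 0⟩, ⟨28, -2, 2, 0⟩⟩,
  ⟨2, 13, 43, ⟨24, 4, 0, 0⟩, ⟨32, -2, -2, 0⟩, ⟨32, 2, -2, 0⟩, ⟨40, 0, -4, 0⟩⟩,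
  ⟨2, 15, 43, ⟨24, 4, 0, 0⟩, ⟨32, -2, -2, 0⟩, ⟨32, 2, -2, 0⟩, ⟨40, 0, -4, 0⟩⟩,
  ⟨2, 17, 43, ⟨8, 0, 0, 0⟩, ⟨24, 4, 0, 0⟩, ⟨32, 2, -2, 0⟩, ⟨40, 0, -4, 0⟩⟩,
  ⟨2, 19, 43, ⟨28, 4, 0, 0⟩, ⟨32, -2, -2, 0⟩, ⟨32, 2, -2, 0⟩, ⟨40, 0, -4, 0⟩⟩,
  ⟨2, 21, 43, ⟨28, 4, 0, 0⟩, ⟨32, -2, -2, 0⟩, ⟨32, 2, -2, 0⟩, ⟨40, 0, -4, 0⟩⟩,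
  ⟨2, 23, 43, ⟨28, 4, 0, 0⟩, ⟨28, -4, 0, 0⟩, ⟨36, -2, -2, 0⟩, ⟨40, 0, -4, 0⟩⟩,
  ⟨1, 2, 87, ⟨8, 4, 0, 0⟩, ⟨36, -6, 0, -2⟩, ⟨40, 18, -4, -2⟩, ⟨40, 0, -4, 0⟩⟩,
  ⟨1, 7, 87, ⟨12, 4, 0, 0⟩, ⟨24, -2, -2, 0⟩, ⟨24, 2, -2, 0⟩, ⟨40, 0, -4, 0⟩⟩,
  ⟨1, 10, 87, ⟨16, 4, 0, 0⟩, ⟨28, 8, 0, 0⟩, ⟨40, 0, -4, 0⟩, ⟨40, 0, 4, 0⟩⟩]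

theorem tab17_3_ok : allB tab17_3 E.ok = true := by decide +kernel

def tab17_4 : List E := [
  ⟨1, 11, 87, ⟨16, 4, 0, 0⟩, ⟨28, 8, 0, 0⟩, ⟨28, 2, -2, 0⟩, ⟨40, 0, -4, 0⟩⟩,
  ⟨1, 19, 87, ⟨20, 4, 0, 0⟩, ⟨28, -2, -2, 0⟩, ⟨28, 2, -2, 0⟩, ⟨40, 0, -4, 0⟩⟩,
  ⟨1, 23, 87, ⟨20, 4, 0, 0⟩, ⟨32, -2, -2, 0⟩, ⟨40, 0, -4, 0⟩, ⟨48, 6, -2, 0⟩⟩,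
  ⟨1, 31, 87, ⟨24, 4, 0, 0⟩, ⟨32, -2, -2, 0⟩, ⟨32, 2, -2, 0⟩, ⟨40, 0, -4, 0⟩⟩,
  ⟨1, 35, 87, ⟨24, 4, 0, 0⟩, ⟨32, -2, -2, 0⟩, ⟨32, 2, -2, 0⟩, ⟨40, 0, -4, 0⟩⟩,
  ⟨3, 13, 29, ⟨28, 4, 0, 0⟩, ⟨32, 2, -2, 0⟩, ⟨40, 0, -4, 0⟩, ⟨42, 0, 0, 2⟩⟩,
  ⟨1, 43, 87, ⟨28, 4, 0, 0⟩, ⟨32, -2, -2, 0⟩, ⟨32, 2, -2, 0⟩, ⟨32, -2, 2, 0⟩⟩,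
  ⟨1, 47, 87, ⟨28, 4, 0, 0⟩, ⟨28, -4, 0, 0⟩, ⟨36, -2, -2, 0⟩, ⟨40, 0, -4, 0⟩⟩,
  ⟨3, 17, 29, ⟨32, -4, 0, 0⟩, ⟨40, 0, -4, 0⟩, ⟨46, 0, 0, -2⟩, ⟨50, 2, -2, -2⟩⟩,
  ⟨1, 2, 89, ⟨8, 4, 0, 0⟩, ⟨22, 0, -2, 0⟩, ⟨30, 14, -2, -2⟩, ⟨30, -14, 2, -2⟩⟩]

theorem tab17_4_ok : allB tab17_4 E.ok = true := by decide +kernel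

def tab17 : List E :=
  tab17_0 ++ (tab17_1 ++ (tab17_2 ++ (tab17_3 ++ (tab17_4))))

theorem tab17_ok : allB tab17 E.ok = true :=
  allB_append tab17_0_ok (allB_append tab17_1_ok (allB_append tab17_2_ok (allB_append tab17_3_ok
  tab17_4_ok)))

end BQN
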