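import Pool.Agent.BQN.App

/-! Table 18. -/

namespace BQN

def tab18_0 : List E := [
  ⟨1, 3, 89, ⟨8, 4, 0, 0⟩, ⟨22, 0, -2, 0⟩, ⟨26, -4, -2, 0⟩, ⟨26, 4, 2, 0⟩⟩,
  ⟨1, 5, 89, ⟨22, 0, -2, 0⟩, ⟨24, -2, -2, 0⟩, ⟨29, 1, -1, -1⟩, ⟨29, -1, -1, 1⟩⟩,
  ⟨1, 6, 89, ⟨12, 4, 0, 0⟩, ⟨12, -4, 0, 0⟩, ⟨20, 8, 0, 0⟩, ⟨22, 0, -2, 0⟩⟩,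
  ⟨1, 7, 89, ⟨8, 0, 0, 0⟩, ⟨12, 4, 0, 0⟩, ⟨12, -4, 0, 0⟩, ⟨30, -4, -2, 0⟩⟩,
  ⟨1, 10, 89, ⟨16, 4, 0, 0⟩, ⟨28, 8, 0, 0⟩, ⟨22, 0, -2, 0⟩, ⟨40, 0, -4, 0⟩⟩,
  ⟨1, 11, 89, ⟨16, 4, 0, 0⟩, ⟨28, 8, 0, 0⟩, ⟨22, 0, -2, 0⟩, ⟨40, 0, -4, 0⟩⟩,
  ⟨1, 13, 89, ⟨10, 2, 0, 0⟩, ⟨10, -2, 0, 0⟩, ⟨22, 0, -2, 0⟩, ⟨22, 0, 2, 0⟩⟩,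
  ⟨1, 14, 89, ⟨16, 4, 0, 0⟩, ⟨22, 0, -2, 0⟩, ⟨34, -4, -2, 0⟩, ⟨34, 4, 2, 0⟩⟩,
  ⟨1, 15, 89, ⟨8, 0, 0, 0⟩, ⟨16, 4, 0, 0⟩, ⟨22, 0, -2, 0⟩, ⟨40, 0, -4, 0⟩⟩,
  ⟨1, 17, 89, ⟨8, 0, 0, 0⟩, ⟨10, 2, 0, 0⟩, ⟨10, -2, 0, 0⟩, ⟨22, 0, -2, 0⟩⟩]

theorem tab18_0_ok : allB tab18_0 E.ok = true := by decide +kernel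

def tab18_1 : List E := [
  ⟨1, 19, 89, ⟨20, 4, 0, 0⟩, ⟨20, -4, 0, 0⟩, ⟨22, 0, -2, 0⟩, ⟨40, 0, -4, 0⟩⟩,
  ⟨1, 21, 89, ⟨8, 0, 0, 0⟩, ⟨10, 2, 0, 0⟩, ⟨38, -4, -2, 0⟩, ⟨38, 4, 2, 0⟩⟩,
  ⟨1, 22, 89, ⟨20, 4, 0, 0⟩, ⟨20, -4, 0, 0⟩, ⟨22, 0, -2, 0⟩, ⟨38, -4, 2, 0⟩⟩,
  ⟨1, 29, 89, ⟨14, 2, 0, 0⟩, ⟨24, 4, 0, 0⟩, ⟨22, 0, -2, 0⟩, ⟨40, 0, -4, 0⟩⟩,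
  ⟨1, 33, 89, ⟨8, 0, 0, 0⟩, ⟨24, 4, 0, 0⟩, ⟨32, 2, 2, 0⟩, ⟨42, -4, -2, 0⟩⟩,
  ⟨1, 37, 89, ⟨14, 2, 0, 0⟩, ⟨14, -2, 0, 0⟩, ⟨22, 0, -2, 0⟩, ⟨40, 0, -4, 0⟩⟩,
  ⟨1, 41, 89, ⟨14, 2, 0, 0⟩, ⟨14, -2, 0, 0⟩, ⟨22, 0, -2, 0⟩, ⟨32, -2, 2, 0⟩⟩,
  ⟨1, 53, 89, ⟨18, 2, 0, 0⟩, ⟨32, 4, 0, 0⟩, ⟨22, 0, -2, 0⟩, ⟨40, 0, -4, 0⟩⟩,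
  ⟨1, 57, 89, ⟨18, 2, 0, 0⟩, ⟨32, 4, 0, 0⟩, ⟨22, 0, -2, 0⟩, ⟨40, 0, -4, 0⟩⟩,
  ⟨1, 61, 89, ⟨18, 2, 0, 0⟩, ⟨32, 4, 0, 0⟩, ⟨22, 0, -2, 0⟩, ⟨40, 0, -4, 0⟩⟩]

theorem tab18_1_ok : allB tab18_1 E.ok = true := by decide +kernel

def tab18_2 : List E := [
  ⟨1, 65, 89, ⟨8, 0, 0, 0⟩, ⟨18, 2, 0, 0⟩, ⟨22, 0, -2, 0⟩, ⟨36, 2, -2, 0⟩⟩,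
  ⟨1, 69, 89, ⟨18, 2, 0, 0⟩, ⟨18, -2, 0, 0⟩, ⟨22, 0, -2, 0⟩, ⟨40, 0, -4, 0⟩⟩,
  ⟨1, 73, 89, ⟨18, 2, 0, 0⟩, ⟨18, -2, 0, 0⟩, ⟨22, 0, -2, 0⟩, ⟨36, -2, -2, 0⟩⟩,
  ⟨1, 77, 89, ⟨8, 0, 0, 0⟩, ⟨18, 2, 0, 0⟩, ⟨22, 0, -2, 0⟩, ⟨40, 0, -4, 0⟩⟩,
  ⟨1, 85, 89, ⟨22, 2, 0, 0⟩, ⟨22, 0, -2, 0⟩, ⟨22, 0, 2, 0⟩, ⟨40, 0, -4, 0⟩⟩,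
  ⟨1, 2, 91, ⟨8, 4, 0, 0⟩, ⟨36, -6, 0, -2⟩, ⟨36, 6, 0, -2⟩, ⟨40, 18, -4, -2⟩⟩,
  ⟨1, 10, 91, ⟨8, 0, 0, 0⟩, ⟨16, 4, 0, 0⟩, ⟨40, 0, -4, 0⟩, ⟨64, -8, -4, 0⟩⟩,
  ⟨1, 11, 91, ⟨8, 0, 0, 0⟩, ⟨28, 8, 0, 0⟩, ⟨40, 0, -4, 0⟩, ⟨40, 6, -2, 0⟩⟩,
  ⟨1, 15, 91, ⟨8, 0, 0, 0⟩, ⟨16, 4, 0, 0⟩, ⟨28, -2, -2, 0⟩, ⟨40, 0, -4, 0⟩⟩,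
  ⟨1, 19, 91, ⟨20, 4, 0, 0⟩, ⟨28, -2, -2, 0⟩, ⟨28, 2, -2, 0⟩, ⟨28, -2, 2, 0⟩⟩]

theorem tab18_2_ok : allB tab18_2 E.ok = true := by decide +kernel

def tab18_3 : List E := [
  ⟨1, 23, 91, ⟨20, 4, 0, 0⟩, ⟨32, 2, -2, 0⟩, ⟨40, 0, -4, 0⟩, ⟨48, -6, -2, 0⟩⟩,
  ⟨1, 31, 91, ⟨8, 0, 0, 0⟩, ⟨24, 4, 0, 0⟩, ⟨32, 2, -2, 0⟩, ⟨40, 0, -4, 0⟩⟩,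
  ⟨1, 43, 91, ⟨8, 0, 0, 0⟩, ⟨28, 4, 0, 0⟩, ⟨36, 2, -2, 0⟩, ⟨40, 0, -4, 0⟩⟩,
  ⟨7, 10, 13, ⟨36, 4, 0, 0⟩, ⟨40, 2, 0, -2⟩, ⟨40, 0, 4, 0⟩, ⟨48, 0, 0, -4⟩⟩,
  ⟨1, 2, 93, ⟨8, 4, 0, 0⟩, ⟨22, 0, -2, 0⟩, ⟨30, 14, -2, -2⟩, ⟨30, -14, 2, -2⟩⟩,
  ⟨3, 1, 31, ⟨8, 4, 0, 0⟩, ⟨16, -2, 0, -2⟩, ⟨16, 2, 0, -2⟩, ⟨24, 0, 0, -4⟩⟩,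
  ⟨1, 5, 93, ⟨22, 0, -2, 0⟩, ⟨24, -2, -2, 0⟩, ⟨29, 1, -1, -1⟩, ⟨29, -1, 1, -1⟩⟩,
  ⟨3, 2, 31, ⟨12, 4, 0, 0⟩, ⟨20, 8, 0, 0⟩, ⟨22, 6, -2, -2⟩, ⟨22, 0, -2, 0⟩⟩,
  ⟨1, 7, 93, ⟨12, 4, 0, 0⟩, ⟨22, 0, -2, 0⟩, ⟨30, -4, -2, 0⟩, ⟨30, 4, 2, 0⟩⟩,
  ⟨1, 10, 93, ⟨16, 4, 0, 0⟩, ⟨28, 8, 0, 0⟩, ⟨22, 0, -2, 0⟩, ⟨40, 0, -4, 0⟩⟩]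

theorem tab18_3_ok : allB tab18_3 E.ok = true := by decide +kernel

def tab18_4 : List E := [
  ⟨1, 11, 93, ⟨16, 4, 0, 0⟩, ⟨28, 8, 0, 0⟩, ⟨22, 0, -2, 0⟩, ⟨40, 0, -4, 0⟩⟩,
  ⟨1, 13, 93, ⟨10, 2, 0, 0⟩, ⟨10, -2, 0, 0⟩, ⟨22, 0, -2, 0⟩, ⟨34, -4, -2, 0⟩⟩,
  ⟨1, 14, 93, ⟨8, 0, 0, 0⟩, ⟨16, 4, 0, 0⟩, ⟨16, -4, 0, 0⟩, ⟨40, 0, -4, 0⟩⟩,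
  ⟨3, 5, 31, ⟨16, 4, 0, 0⟩, ⟨22, 0, -2, 0⟩, ⟨30, -6, 2, -2⟩, ⟨36, -2, 0, -2⟩⟩,
  ⟨1, 17, 93, ⟨10, 2, 0, 0⟩, ⟨10, -2, 0, 0⟩, ⟨22, 0, -2, 0⟩, ⟨28, -2, -2, 0⟩⟩,
  ⟨1, 19, 93, ⟨20, 4, 0, 0⟩, ⟨20, -4, 0, 0⟩, ⟨22, 0, -2, 0⟩, ⟨40, 0, -4, 0⟩⟩,
  ⟨3, 7, 31, ⟨10, 2, 0, 0⟩, ⟨21, 3, -1, -1⟩, ⟨22, 0, 2, 0⟩, ⟨23, -1, 1, -1⟩⟩,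
  ⟨1, 22, 93, ⟨8, 0, 0, 0⟩, ⟨20, 4, 0, 0⟩, ⟨20, -4, 0, 0⟩, ⟨40, 0, -4, 0⟩⟩,
  ⟨1, 23, 93, ⟨8, 0, 0, 0⟩, ⟨20, 4, 0, 0⟩, ⟨20, -4, 0, 0⟩, ⟨40, 0, -4, 0⟩⟩,
  ⟨1, 29, 93, ⟨14, 2, 0, 0⟩, ⟨24, 4, 0, 0⟩, ⟨22, 0, -2, 0⟩, ⟨40, 0, -4, 0⟩⟩]

theorem tab18_4_ok : allB tab18_4 E.ok = true := by decide +kernel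

def tab18 : List E :=
  tab18_0 ++ (tab18_1 ++ (tab18_2 ++ (tab18_3 ++ (tab18_4))))

theorem tab18_ok : allB tab18 E.ok = true :=
  allB_append tab18_0_ok (allB_append tab18_1_ok (allB_append tab18_2_ok (allB_append tab18_3_ok
  tab18_4_ok)))

end BQN
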