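import Pool.Agent.BQN.App

/-! Table 19. -/

namespace BQN

def tab19_0 : List E := [
  ⟨3, 11, 31, ⟨14, 2, 0, 0⟩, ⟨22, 0, -2, 0⟩, ⟨23, -1, -1, 1⟩, ⟨31, 3, -3, -1⟩⟩,
  ⟨1, 37, 93, ⟨8, 0, 0, 0⟩, ⟨14, 2, 0, 0⟩, ⟨32, -2, -2, 0⟩, ⟨40, 0, -4, 0⟩⟩,
  ⟨1, 41, 93, ⟨8, 0, 0, 0⟩, ⟨14, 2, 0, 0⟩, ⟨14, -2, 0, 0⟩, ⟨40, 0, -4, 0⟩⟩,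
  ⟨1, 53, 93, ⟨18, 2, 0, 0⟩, ⟨32, 4, 0, 0⟩, ⟨22, 0, -2, 0⟩, ⟨40, 0, -4, 0⟩⟩,
  ⟨3, 19, 31, ⟨18, 2, 0, 0⟩, ⟨22, 0, -2, 0⟩, ⟨27, 1, -1, -1⟩, ⟨27, -1, 1, -1⟩⟩,
  ⟨1, 61, 93, ⟨18, 2, 0, 0⟩, ⟨32, 4, 0, 0⟩, ⟨36, 2, -2, 0⟩, ⟨40, 0, -4, 0⟩⟩,
  ⟨1, 65, 93, ⟨8, 0, 0, 0⟩, ⟨18, 2, 0, 0⟩, ⟨36, 2, -2, 0⟩, ⟨40, 0, -4, 0⟩⟩,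
  ⟨3, 23, 31, ⟨18, 2, 0, 0⟩, ⟨22, 0, -2, 0⟩, ⟨31, 3, -3, -1⟩, ⟨31, 1, -1, -1⟩⟩,
  ⟨1, 73, 93, ⟨8, 0, 0, 0⟩, ⟨18, 2, 0, 0⟩, ⟨18, -2, 0, 0⟩, ⟨40, 0, -4, 0⟩⟩,
  ⟨1, 77, 93, ⟨8, 0, 0, 0⟩, ⟨18, 2, 0, 0⟩, ⟨40, 0, -4, 0⟩, ⟨40, 0, 4, 0⟩⟩]

theorem tab19_0_ok : allB tab19_0 E.ok = true := by decide +kernel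

def tab19_1 : List E := [
  ⟨1, 85, 93, ⟨8, 0, 0, 0⟩, ⟨22, 2, 0, 0⟩, ⟨40, 0, -4, 0⟩, ⟨40, 0, 4, 0⟩⟩,
  ⟨1, 89, 93, ⟨22, 2, 0, 0⟩, ⟨22, -2, 0, 0⟩, ⟨22, 0, -2, 0⟩, ⟨40, 0, -4, 0⟩⟩,
  ⟨2, 5, 47, ⟨16, 4, 0, 0⟩, ⟨28, 8, 0, 0⟩, ⟨28, 2, -2, 0⟩, ⟨40, 0, -4, 0⟩⟩,
  ⟨2, 11, 47, ⟨20, 4, 0, 0⟩, ⟨32, 2, -2, 0⟩, ⟨40, 0, -4, 0⟩, ⟨46, 0, 0, -2⟩⟩,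
  ⟨2, 13, 47, ⟨24, 4, 0, 0⟩, ⟨32, -2, -2, 0⟩, ⟨32, 2, -2, 0⟩, ⟨40, 0, -4, 0⟩⟩,
  ⟨2, 15, 47, ⟨8, 0, 0, 0⟩, ⟨24, 4, 0, 0⟩, ⟨32, 2, -2, 0⟩, ⟨40, 0, -4, 0⟩⟩,
  ⟨2, 17, 47, ⟨8, 0, 0, 0⟩, ⟨24, 4, 0, 0⟩, ⟨32, 2, -2, 0⟩, ⟨40, 0, -4, 0⟩⟩,
  ⟨1, 2, 95, ⟨8, 4, 0, 0⟩, ⟨32, -2, 0, -2⟩, ⟨40, 0, -4, 0⟩, ⟨44, 22, -4, -2⟩⟩,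
  ⟨1, 7, 95, ⟨8, 0, 0, 0⟩, ⟨12, 4, 0, 0⟩, ⟨36, -6, -2, 0⟩, ⟨40, 0, -4, 0⟩⟩,
  ⟨1, 11, 95, ⟨8, 0, 0, 0⟩, ⟨28, 8, 0, 0⟩, ⟨40, 0, -4, 0⟩, ⟨40, 6, -2, 0⟩⟩]

theorem tab19_1_ok : allB tab19_1 E.ok = true := by decide +kernel

def tab19_2 : List E := [
  ⟨1, 23, 95, ⟨8, 0, 0, 0⟩, ⟨20, 4, 0, 0⟩, ⟨20, -4, 0, 0⟩, ⟨40, 0, -4, 0⟩⟩,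
  ⟨5, 6, 19, ⟨24, 4, 0, 0⟩, ⟨36, 2, 0, -2⟩, ⟨40, 0, 4, 0⟩, ⟨44, 0, 0, -4⟩⟩,
  ⟨1, 31, 95, ⟨8, 0, 0, 0⟩, ⟨24, 4, 0, 0⟩, ⟨32, 2, -2, 0⟩, ⟨40, 0, -4, 0⟩⟩,
  ⟨1, 2, 97, ⟨8, 4, 0, 0⟩, ⟨22, 0, -2, 0⟩, ⟨26, -4, -2, 0⟩, ⟨30, 14, -2, -2⟩⟩,
  ⟨1, 3, 97, ⟨8, 4, 0, 0⟩, ⟨22, 0, -2, 0⟩, ⟨34, -8, -2, 0⟩, ⟨38, -10, 2, -2⟩⟩,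
  ⟨1, 5, 97, ⟨8, 0, 0, 0⟩, ⟨22, 0, -2, 0⟩, ⟨25, 5, -1, -1⟩, ⟨27, 3, -1, -1⟩⟩,
  ⟨1, 6, 97, ⟨12, 4, 0, 0⟩, ⟨20, 8, 0, 0⟩, ⟨22, 0, -2, 0⟩, ⟨30, -4, -2, 0⟩⟩,
  ⟨1, 7, 97, ⟨12, 4, 0, 0⟩, ⟨22, 0, -2, 0⟩, ⟨40, 0, -4, 0⟩, ⟨42, 8, -2, 0⟩⟩,
  ⟨1, 10, 97, ⟨16, 4, 0, 0⟩, ⟨28, 8, 0, 0⟩, ⟨22, 0, -2, 0⟩, ⟨40, 0, -4, 0⟩⟩,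
  ⟨1, 11, 97, ⟨28, 8, 0, 0⟩, ⟨22, 0, -2, 0⟩, ⟨34, 4, -2, 0⟩, ⟨40, 0, -4, 0⟩⟩]

theorem tab19_2_ok : allB tab19_2 E.ok = true := by decide +kernel

def tab19_3 : List E := [
  ⟨1, 13, 97, ⟨10, 2, 0, 0⟩, ⟨10, -2, 0, 0⟩, ⟨22, 0, -2, 0⟩, ⟨22, 0, 2, 0⟩⟩,
  ⟨1, 14, 97, ⟨16, 4, 0, 0⟩, ⟨16, -4, 0, 0⟩, ⟨22, 0, -2, 0⟩, ⟨40, 0, -4, 0⟩⟩,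
  ⟨1, 15, 97, ⟨8, 0, 0, 0⟩, ⟨16, 4, 0, 0⟩, ⟨22, 0, -2, 0⟩, ⟨40, 0, -4, 0⟩⟩,
  ⟨1, 17, 97, ⟨10, 2, 0, 0⟩, ⟨22, 0, -2, 0⟩, ⟨28, -2, -2, 0⟩, ⟨28, 2, -2, 0⟩⟩,
  ⟨1, 19, 97, ⟨20, 4, 0, 0⟩, ⟨22, 0, -2, 0⟩, ⟨38, -4, -2, 0⟩, ⟨40, 0, -4, 0⟩⟩,
  ⟨1, 21, 97, ⟨10, 2, 0, 0⟩, ⟨20, 4, 0, 0⟩, ⟨22, 0, -2, 0⟩, ⟨40, 0, -4, 0⟩⟩,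
  ⟨1, 22, 97, ⟨20, 4, 0, 0⟩, ⟨20, -4, 0, 0⟩, ⟨22, 0, -2, 0⟩, ⟨40, 0, -4, 0⟩⟩,
  ⟨1, 23, 97, ⟨20, 4, 0, 0⟩, ⟨20, -4, 0, 0⟩, ⟨22, 0, -2, 0⟩, ⟨40, 0, -4, 0⟩⟩,
  ⟨1, 29, 97, ⟨14, 2, 0, 0⟩, ⟨24, 4, 0, 0⟩, ⟨22, 0, -2, 0⟩, ⟨40, 0, -4, 0⟩⟩,
  ⟨1, 33, 97, ⟨14, 2, 0, 0⟩, ⟨22, 0, -2, 0⟩, ⟨32, 2, -2, 0⟩, ⟨40, 0, -4, 0⟩⟩]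

theorem tab19_3_ok : allB tab19_3 E.ok = true := by decide +kernel

def tab19_4 : List E := [
  ⟨1, 37, 97, ⟨14, 2, 0, 0⟩, ⟨22, 0, -2, 0⟩, ⟨32, -2, -2, 0⟩, ⟨32, 2, 2, 0⟩⟩,
  ⟨1, 41, 97, ⟨14, 2, 0, 0⟩, ⟨14, -2, 0, 0⟩, ⟨22, 0, -2, 0⟩, ⟨40, 0, -4, 0⟩⟩,
  ⟨1, 53, 97, ⟨18, 2, 0, 0⟩, ⟨32, 4, 0, 0⟩, ⟨22, 0, -2, 0⟩, ⟨40, 0, -4, 0⟩⟩,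
  ⟨1, 57, 97, ⟨18, 2, 0, 0⟩, ⟨32, 4, 0, 0⟩, ⟨22, 0, -2, 0⟩, ⟨40, 0, -4, 0⟩⟩,
  ⟨1, 61, 97, ⟨18, 2, 0, 0⟩, ⟨32, 4, 0, 0⟩, ⟨22, 0, -2, 0⟩, ⟨36, 2, -2, 0⟩⟩,
  ⟨1, 65, 97, ⟨18, 2, 0, 0⟩, ⟨22, 0, -2, 0⟩, ⟨36, -2, -2, 0⟩, ⟨40, 0, -4, 0⟩⟩,
  ⟨1, 69, 97, ⟨18, 2, 0, 0⟩, ⟨18, -2, 0, 0⟩, ⟨22, 0, -2, 0⟩, ⟨40, 0, -4, 0⟩⟩,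
  ⟨1, 73, 97, ⟨18, 2, 0, 0⟩, ⟨18, -2, 0, 0⟩, ⟨22, 0, -2, 0⟩, ⟨40, 0, -4, 0⟩⟩,
  ⟨1, 77, 97, ⟨8, 0, 0, 0⟩, ⟨18, 2, 0, 0⟩, ⟨22, 0, -2, 0⟩, ⟨40, 0, -4, 0⟩⟩,
  ⟨1, 85, 97, ⟨22, 2, 0, 0⟩, ⟨22, 0, -2, 0⟩, ⟨40, 0, -4, 0⟩, ⟨40, 2, -2, 0⟩⟩]

theorem tab19_4_ok : allB tab19_4 E.ok = true := by decide +kernel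

def tab19 : List E :=
  tab19_0 ++ (tab19_1 ++ (tab19_2 ++ (tab19_3 ++ (tab19_4))))

theorem tab19_ok : allB tab19 E.ok = true :=
  allB_append tab19_0_ok (allB_append tab19_1_ok (allB_append tab19_2_ok (allB_append tab19_3_ok
  tab19_4_ok)))

end BQN
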