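import Pool.Agent.BQN.App

/-! Table 2. -/

namespace BQN

def tab2_0 : List E := [
  ⟨1, 53, 22, ⟨18, 2, 0, 0⟩, ⟨32, 4, 0, 0⟩, ⟨20, 0, -4, 0⟩, ⟨20, 0, 4, 0⟩⟩,
  ⟨1, 57, 22, ⟨18, 2, 0, 0⟩, ⟨20, 0, -4, 0⟩, ⟨34, -2, -4, 0⟩, ⟨34, 2, 4, 0⟩⟩,
  ⟨1, 61, 22, ⟨18, 2, 0, 0⟩, ⟨32, 4, 0, 0⟩, ⟨20, 0, -4, 0⟩, ⟨20, 0, 4, 0⟩⟩,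
  ⟨1, 65, 22, ⟨8, 0, 0, 0⟩, ⟨18, 2, 0, 0⟩, ⟨20, 0, -4, 0⟩, ⟨20, 0, 4, 0⟩⟩,
  ⟨1, 69, 22, ⟨8, 0, 0, 0⟩, ⟨18, 2, 0, 0⟩, ⟨18, -2, 0, 0⟩, ⟨20, 0, -4, 0⟩⟩,
  ⟨1, 73, 22, ⟨8, 0, 0, 0⟩, ⟨18, 2, 0, 0⟩, ⟨18, -2, 0, 0⟩, ⟨20, 0, -4, 0⟩⟩,
  ⟨1, 85, 22, ⟨8, 0, 0, 0⟩, ⟨22, 2, 0, 0⟩, ⟨20, 0, -4, 0⟩, ⟨20, 0, 4, 0⟩⟩,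
  ⟨1, 2, 23, ⟨8, 4, 0, 0⟩, ⟨20, 10, -4, -2⟩, ⟨20, 0, -4, 0⟩, ⟨28, 0, 0, -4⟩⟩,
  ⟨1, 5, 23, ⟨8, 0, 0, 0⟩, ⟨20, 0, -4, 0⟩, ⟨20, 0, 4, 0⟩, ⟨24, 4, -2, -2⟩⟩,
  ⟨1, 6, 23, ⟨12, 4, 0, 0⟩, ⟨20, 8, 0, 0⟩, ⟨20, 0, -4, 0⟩, ⟨28, 6, -4, -2⟩⟩]

theorem tab2_0_ok : allB tab2_0 E.ok = true := by decide +kernel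

def tab2_1 : List E := [
  ⟨1, 7, 23, ⟨12, 4, 0, 0⟩, ⟨16, 2, -2, 0⟩, ⟨20, 0, -4, 0⟩, ⟨26, 0, 0, -2⟩⟩,
  ⟨1, 10, 23, ⟨16, 4, 0, 0⟩, ⟨20, 0, -4, 0⟩, ⟨32, 6, -4, -2⟩, ⟨32, -6, 4, -2⟩⟩,
  ⟨1, 11, 23, ⟨8, 0, 0, 0⟩, ⟨28, 8, 0, 0⟩, ⟨20, 0, -4, 0⟩, ⟨20, 0, 4, 0⟩⟩,
  ⟨1, 13, 23, ⟨10, 2, 0, 0⟩, ⟨20, 0, -4, 0⟩, ⟨36, 8, -6, -2⟩, ⟨36, -8, 6, -2⟩⟩,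
  ⟨1, 14, 23, ⟨16, 4, 0, 0⟩, ⟨20, 0, -4, 0⟩, ⟨40, 10, -8, -2⟩, ⟨40, 6, -4, -2⟩⟩,
  ⟨1, 15, 23, ⟨16, 4, 0, 0⟩, ⟨20, 0, -4, 0⟩, ⟨20, -2, -2, 0⟩, ⟨20, 2, -2, 0⟩⟩,
  ⟨1, 17, 23, ⟨8, 0, 0, 0⟩, ⟨10, 2, 0, 0⟩, ⟨20, 0, -4, 0⟩, ⟨36, -4, -4, 0⟩⟩,
  ⟨1, 19, 23, ⟨20, 4, 0, 0⟩, ⟨20, 0, -4, 0⟩, ⟨20, 2, -2, 0⟩, ⟨36, -6, -2, 0⟩⟩,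
  ⟨1, 21, 23, ⟨8, 0, 0, 0⟩, ⟨10, 2, 0, 0⟩, ⟨20, 0, -4, 0⟩, ⟨20, 0, 4, 0⟩⟩,
  ⟨1, 22, 23, ⟨8, 0, 0, 0⟩, ⟨20, 4, 0, 0⟩, ⟨20, -4, 0, 0⟩, ⟨20, 0, -4, 0⟩⟩]

theorem tab2_1_ok : allB tab2_1 E.ok = true := by decide +kernel

def tab2_2 : List E := [
  ⟨1, 29, 23, ⟨14, 2, 0, 0⟩, ⟨20, 0, -4, 0⟩, ⟨30, -2, -4, 0⟩, ⟨30, 2, 4, 0⟩⟩,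
  ⟨1, 33, 23, ⟨8, 0, 0, 0⟩, ⟨24, 4, 0, 0⟩, ⟨24, -4, 0, 0⟩, ⟨20, 0, -4, 0⟩⟩,
  ⟨1, 37, 23, ⟨8, 0, 0, 0⟩, ⟨14, 2, 0, 0⟩, ⟨14, -2, 0, 0⟩, ⟨20, 0, -4, 0⟩⟩,
  ⟨1, 41, 23, ⟨8, 0, 0, 0⟩, ⟨14, 2, 0, 0⟩, ⟨14, -2, 0, 0⟩, ⟨20, 0, -4, 0⟩⟩,
  ⟨1, 53, 23, ⟨18, 2, 0, 0⟩, ⟨32, 4, 0, 0⟩, ⟨20, 0, -4, 0⟩, ⟨34, -2, -4, 0⟩⟩,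
  ⟨1, 57, 23, ⟨8, 0, 0, 0⟩, ⟨32, 4, 0, 0⟩, ⟨20, 0, -4, 0⟩, ⟨20, 0, 4, 0⟩⟩,
  ⟨1, 61, 23, ⟨18, 2, 0, 0⟩, ⟨32, 4, 0, 0⟩, ⟨20, 0, -4, 0⟩, ⟨20, 0, 4, 0⟩⟩,
  ⟨1, 65, 23, ⟨8, 0, 0, 0⟩, ⟨18, 2, 0, 0⟩, ⟨20, 0, -4, 0⟩, ⟨20, 0, 4, 0⟩⟩,
  ⟨1, 73, 23, ⟨8, 0, 0, 0⟩, ⟨18, 2, 0, 0⟩, ⟨18, -2, 0, 0⟩, ⟨20, 0, -4, 0⟩⟩,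
  ⟨1, 77, 23, ⟨8, 0, 0, 0⟩, ⟨18, 2, 0, 0⟩, ⟨20, 0, -4, 0⟩, ⟨20, 0, 4, 0⟩⟩]

theorem tab2_2_ok : allB tab2_2 E.ok = true := by decide +kernel

def tab2_3 : List E := [
  ⟨1, 85, 23, ⟨22, 2, 0, 0⟩, ⟨20, 0, -4, 0⟩, ⟨20, 0, 4, 0⟩, ⟨38, -2, -4, 0⟩⟩,
  ⟨1, 89, 23, ⟨22, 2, 0, 0⟩, ⟨22, -2, 0, 0⟩, ⟨20, 0, -4, 0⟩, ⟨20, 0, 4, 0⟩⟩,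
  ⟨1, 3, 26, ⟨8, 4, 0, 0⟩, ⟨24, 4, -2, -2⟩, ⟨24, -8, 2, -2⟩, ⟨28, 0, -2, -2⟩⟩,
  ⟨1, 5, 26, ⟨24, 0, -4, 0⟩, ⟨26, -2, -4, 0⟩, ⟨26, 2, -4, 0⟩, ⟨30, 2, -2, -2⟩⟩,
  ⟨2, 3, 13, ⟨12, 4, 0, 0⟩, ⟨20, 8, 0, 0⟩, ⟨16, 2, -2, 0⟩, ⟨24, 0, -4, 0⟩⟩,
  ⟨1, 7, 26, ⟨12, 4, 0, 0⟩, ⟨24, 0, -4, 0⟩, ⟨28, 4, -2, -2⟩, ⟨36, 12, -6, -2⟩⟩,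
  ⟨1, 11, 26, ⟨16, 4, 0, 0⟩, ⟨24, 0, -4, 0⟩, ⟨40, -8, -6, 2⟩, ⟨40, 4, 2, 2⟩⟩,
  ⟨2, 7, 13, ⟨16, 4, 0, 0⟩, ⟨20, 2, -2, 0⟩, ⟨24, 0, -4, 0⟩, ⟨36, 4, -4, 0⟩⟩,
  ⟨1, 15, 26, ⟨16, 4, 0, 0⟩, ⟨24, 0, -4, 0⟩, ⟨36, -4, 4, 0⟩, ⟨40, 8, -6, -2⟩⟩,
  ⟨1, 17, 26, ⟨8, 0, 0, 0⟩, ⟨10, 2, 0, 0⟩, ⟨10, -2, 0, 0⟩, ⟨24, 0, -4, 0⟩⟩]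

theorem tab2_3_ok : allB tab2_3 E.ok = true := by decide +kernel

def tab2_4 : List E := [
  ⟨1, 19, 26, ⟨20, 4, 0, 0⟩, ⟨20, -4, 0, 0⟩, ⟨24, 0, -4, 0⟩, ⟨44, 0, -8, 0⟩⟩,
  ⟨1, 21, 26, ⟨8, 0, 0, 0⟩, ⟨10, 2, 0, 0⟩, ⟨30, -2, -4, 0⟩, ⟨30, 2, -4, 0⟩⟩,
  ⟨2, 11, 13, ⟨8, 0, 0, 0⟩, ⟨20, 4, 0, 0⟩, ⟨20, 2, -2, 0⟩, ⟨20, 2, 2, 0⟩⟩,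
  ⟨1, 23, 26, ⟨20, 4, 0, 0⟩, ⟨20, -4, 0, 0⟩, ⟨24, 0, -4, 0⟩, ⟨44, 0, -8, 0⟩⟩,
  ⟨1, 29, 26, ⟨14, 2, 0, 0⟩, ⟨24, 4, 0, 0⟩, ⟨24, 0, -4, 0⟩, ⟨44, 0, -8, 0⟩⟩,
  ⟨1, 33, 26, ⟨14, 2, 0, 0⟩, ⟨24, 4, 0, 0⟩, ⟨24, 0, -4, 0⟩, ⟨44, 0, -8, 0⟩⟩,
  ⟨1, 37, 26, ⟨14, 2, 0, 0⟩, ⟨14, -2, 0, 0⟩, ⟨24, 0, -4, 0⟩, ⟨44, 0, -8, 0⟩⟩,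
  ⟨1, 41, 26, ⟨14, 2, 0, 0⟩, ⟨14, -2, 0, 0⟩, ⟨24, 0, -4, 0⟩, ⟨44, 0, -8, 0⟩⟩,
  ⟨1, 53, 26, ⟨18, 2, 0, 0⟩, ⟨32, 4, 0, 0⟩, ⟨24, 0, -4, 0⟩, ⟨44, 0, -8, 0⟩⟩,
  ⟨1, 57, 26, ⟨18, 2, 0, 0⟩, ⟨32, 4, 0, 0⟩, ⟨24, 0, -4, 0⟩, ⟨44, 0, -8, 0⟩⟩]

theorem tab2_4_ok : allB tab2_4 E.ok = true := by decide +kernel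

def tab2 : List E :=
  tab2_0 ++ (tab2_1 ++ (tab2_2 ++ (tab2_3 ++ (tab2_4))))

theorem tab2_ok : allB tab2 E.ok = true :=
  allB_append tab2_0_ok (allB_append tab2_1_ok (allB_append tab2_2_ok (allB_append tab2_3_ok
  tab2_4_ok)))

end BQN
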