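import Pool.Agent.BQN.App

/-! Table 20. -/

namespace BQN

def tab20_0 : List E := [
  ⟨1, 89, 97, ⟨22, 2, 0, 0⟩, ⟨22, -2, 0, 0⟩, ⟨22, 0, -2, 0⟩, ⟨40, 0, -4, 0⟩⟩,
  ⟨1, 93, 97, ⟨22, 2, 0, 0⟩, ⟨22, 0, -2, 0⟩, ⟨40, 0, -4, 0⟩, ⟨40, -2, -2, 0⟩⟩,
  ⟨1, 2, 101, ⟨8, 4, 0, 0⟩, ⟨22, 0, -2, 0⟩, ⟨26, -4, -2, 0⟩, ⟨26, 4, -2, 0⟩⟩,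
  ⟨1, 3, 101, ⟨8, 4, 0, 0⟩, ⟨22, 0, -2, 0⟩, ⟨34, -8, -2, 0⟩, ⟨34, 8, -2, 0⟩⟩,
  ⟨1, 5, 101, ⟨22, 0, -2, 0⟩, ⟨25, 5, -1, -1⟩, ⟨27, 3, -1, -1⟩, ⟨30, -4, -2, 0⟩⟩,
  ⟨1, 6, 101, ⟨12, 4, 0, 0⟩, ⟨20, 8, 0, 0⟩, ⟨22, 0, -2, 0⟩, ⟨30, -4, -2, 0⟩⟩,
  ⟨1, 7, 101, ⟨8, 0, 0, 0⟩, ⟨12, 4, 0, 0⟩, ⟨22, 0, -2, 0⟩, ⟨42, 8, -2, 0⟩⟩,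
  ⟨1, 10, 101, ⟨8, 0, 0, 0⟩, ⟨22, 0, -2, 0⟩, ⟨34, -4, -2, 0⟩, ⟨34, 4, -2, 0⟩⟩,
  ⟨1, 11, 101, ⟨8, 0, 0, 0⟩, ⟨28, 8, 0, 0⟩, ⟨22, 0, -2, 0⟩, ⟨34, 4, -2, 0⟩⟩,
  ⟨1, 13, 101, ⟨8, 0, 0, 0⟩, ⟨10, 2, 0, 0⟩, ⟨22, 0, -2, 0⟩, ⟨28, -2, -2, 0⟩⟩]

theorem tab20_0_ok : allB tab20_0 E.ok = true := by decide +kernel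

def tab20_1 : List E := [
  ⟨1, 14, 101, ⟨8, 0, 0, 0⟩, ⟨16, 4, 0, 0⟩, ⟨16, -4, 0, 0⟩, ⟨22, 0, -2, 0⟩⟩,
  ⟨1, 15, 101, ⟨8, 0, 0, 0⟩, ⟨16, 4, 0, 0⟩, ⟨22, 0, -2, 0⟩, ⟨22, 0, 2, 0⟩⟩,
  ⟨1, 17, 101, ⟨8, 0, 0, 0⟩, ⟨10, 2, 0, 0⟩, ⟨10, -2, 0, 0⟩, ⟨22, 0, -2, 0⟩⟩,
  ⟨1, 19, 101, ⟨20, 4, 0, 0⟩, ⟨22, 0, -2, 0⟩, ⟨38, 4, -2, 0⟩, ⟨44, 0, -4, 0⟩⟩,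
  ⟨1, 21, 101, ⟨8, 0, 0, 0⟩, ⟨10, 2, 0, 0⟩, ⟨22, 0, -2, 0⟩, ⟨22, 0, 2, 0⟩⟩,
  ⟨1, 22, 101, ⟨8, 0, 0, 0⟩, ⟨20, 4, 0, 0⟩, ⟨20, -4, 0, 0⟩, ⟨22, 0, -2, 0⟩⟩,
  ⟨1, 23, 101, ⟨8, 0, 0, 0⟩, ⟨20, 4, 0, 0⟩, ⟨20, -4, 0, 0⟩, ⟨22, 0, -2, 0⟩⟩,
  ⟨1, 29, 101, ⟨8, 0, 0, 0⟩, ⟨22, 0, -2, 0⟩, ⟨32, -2, -2, 0⟩, ⟨42, -4, -2, 0⟩⟩,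
  ⟨1, 33, 101, ⟨8, 0, 0, 0⟩, ⟨24, 4, 0, 0⟩, ⟨22, 0, -2, 0⟩, ⟨32, 2, -2, 0⟩⟩,
  ⟨1, 37, 101, ⟨8, 0, 0, 0⟩, ⟨14, 2, 0, 0⟩, ⟨14, -2, 0, 0⟩, ⟨22, 0, -2, 0⟩⟩]

theorem tab20_1_ok : allB tab20_1 E.ok = true := by decide +kernel

def tab20_2 : List E := [
  ⟨1, 41, 101, ⟨8, 0, 0, 0⟩, ⟨14, 2, 0, 0⟩, ⟨14, -2, 0, 0⟩, ⟨22, 0, -2, 0⟩⟩,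
  ⟨1, 53, 101, ⟨18, 2, 0, 0⟩, ⟨32, 4, 0, 0⟩, ⟨22, 0, -2, 0⟩, ⟨22, 0, 2, 0⟩⟩,
  ⟨1, 57, 101, ⟨8, 0, 0, 0⟩, ⟨32, 4, 0, 0⟩, ⟨22, 0, -2, 0⟩, ⟨36, -2, -2, 0⟩⟩,
  ⟨1, 61, 101, ⟨18, 2, 0, 0⟩, ⟨32, 4, 0, 0⟩, ⟨22, 0, -2, 0⟩, ⟨36, 2, -2, 0⟩⟩,
  ⟨1, 65, 101, ⟨8, 0, 0, 0⟩, ⟨18, 2, 0, 0⟩, ⟨22, 0, -2, 0⟩, ⟨22, 0, 2, 0⟩⟩,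
  ⟨1, 69, 101, ⟨8, 0, 0, 0⟩, ⟨18, 2, 0, 0⟩, ⟨18, -2, 0, 0⟩, ⟨22, 0, -2, 0⟩⟩,
  ⟨1, 73, 101, ⟨8, 0, 0, 0⟩, ⟨18, 2, 0, 0⟩, ⟨18, -2, 0, 0⟩, ⟨22, 0, -2, 0⟩⟩,
  ⟨1, 77, 101, ⟨8, 0, 0, 0⟩, ⟨18, 2, 0, 0⟩, ⟨22, 0, -2, 0⟩, ⟨22, 0, 2, 0⟩⟩,
  ⟨1, 85, 101, ⟨8, 0, 0, 0⟩, ⟨22, 2, 0, 0⟩, ⟨22, 0, -2, 0⟩, ⟨40, -2, -2, 0⟩⟩,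
  ⟨1, 89, 101, ⟨8, 0, 0, 0⟩, ⟨22, 2, 0, 0⟩, ⟨22, 0, -2, 0⟩, ⟨40, -2, -2, 0⟩⟩]

theorem tab20_2_ok : allB tab20_2 E.ok = true := by decide +kernel

def tab20_3 : List E := [
  ⟨1, 93, 101, ⟨8, 0, 0, 0⟩, ⟨22, 0, -2, 0⟩, ⟨40, -2, -2, 0⟩, ⟨40, 2, -2, 0⟩⟩,
  ⟨1, 97, 101, ⟨22, 2, 0, 0⟩, ⟨22, -2, 0, 0⟩, ⟨22, 0, -2, 0⟩, ⟨40, -2, -2, 0⟩⟩,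
  ⟨2, 5, 51, ⟨16, 4, 0, 0⟩, ⟨28, 2, -2, 0⟩, ⟨40, -6, -2, 0⟩, ⟨44, 0, -4, 0⟩⟩,
  ⟨2, 11, 51, ⟨20, 4, 0, 0⟩, ⟨32, 2, -2, 0⟩, ⟨44, 0, -4, 0⟩, ⟨50, 0, 0, 2⟩⟩,
  ⟨2, 13, 51, ⟨24, -4, 0, 0⟩, ⟨32, -2, -2, 0⟩, ⟨44, 0, -4, 0⟩, ⟨52, -6, -2, 0⟩⟩,
  ⟨2, 19, 51, ⟨28, 4, 0, 0⟩, ⟨36, -2, -2, 0⟩, ⟨36, 2, -2, 0⟩, ⟨44, 0, -4, 0⟩⟩,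
  ⟨6, 7, 17, ⟨28, 4, 0, 0⟩, ⟨36, 2, -2, 0⟩, ⟨44, 0, 0, -4⟩, ⟨44, 0, -4, 0⟩⟩,
  ⟨2, 23, 51, ⟨28, 4, 0, 0⟩, ⟨28, -4, 0, 0⟩, ⟨36, -2, -2, 0⟩, ⟨44, 0, -4, 0⟩⟩,
  ⟨1, 2, 103, ⟨8, 4, 0, 0⟩, ⟨32, -2, 0, -2⟩, ⟨32, 2, 0, -2⟩, ⟨44, 18, -4, -2⟩⟩,
  ⟨1, 7, 103, ⟨12, 4, 0, 0⟩, ⟨12, -4, 0, 0⟩, ⟨28, -2, -2, 0⟩, ⟨44, 0, -4, 0⟩⟩]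

theorem tab20_3_ok : allB tab20_3 E.ok = true := by decide +kernel

def tab20_4 : List E := [
  ⟨1, 10, 103, ⟨16, 4, 0, 0⟩, ⟨28, 8, 0, 0⟩, ⟨44, 0, -4, 0⟩, ⟨68, 14, -4, -2⟩⟩,
  ⟨1, 11, 103, ⟨16, 4, 0, 0⟩, ⟨28, 8, 0, 0⟩, ⟨28, 2, -2, 0⟩, ⟨44, 0, -4, 0⟩⟩,
  ⟨1, 15, 103, ⟨16, 4, 0, 0⟩, ⟨32, -2, -2, 0⟩, ⟨44, 0, -4, 0⟩, ⟨44, 6, -2, 0⟩⟩,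
  ⟨1, 19, 103, ⟨20, 4, 0, 0⟩, ⟨32, -2, -2, 0⟩, ⟨32, 2, -2, 0⟩, ⟨44, 0, -4, 0⟩⟩,
  ⟨1, 23, 103, ⟨20, 4, 0, 0⟩, ⟨20, -4, 0, 0⟩, ⟨32, -2, -2, 0⟩, ⟨44, 0, -4, 0⟩⟩,
  ⟨1, 31, 103, ⟨24, 4, 0, 0⟩, ⟨32, -2, -2, 0⟩, ⟨32, 2, -2, 0⟩, ⟨44, 0, -4, 0⟩⟩,
  ⟨1, 35, 103, ⟨24, 4, 0, 0⟩, ⟨36, -2, -2, 0⟩, ⟨36, 2, -2, 0⟩, ⟨44, 0, -4, 0⟩⟩,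
  ⟨1, 39, 103, ⟨28, 4, 0, 0⟩, ⟨36, -2, -2, 0⟩, ⟨36, 2, -2, 0⟩, ⟨44, 0, -4, 0⟩⟩,
  ⟨1, 43, 103, ⟨28, 4, 0, 0⟩, ⟨28, -4, 0, 0⟩, ⟨36, -2, -2, 0⟩, ⟨44, 0, -4, 0⟩⟩,
  ⟨1, 47, 103, ⟨8, 0, 0, 0⟩, ⟨28, 4, 0, 0⟩, ⟨36, 2, -2, 0⟩, ⟨44, 0, -4, 0⟩⟩]

theorem tab20_4_ok : allB tab20_4 E.ok = true := by decide +kernel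

def tab20 : List E :=
  tab20_0 ++ (tab20_1 ++ (tab20_2 ++ (tab20_3 ++ (tab20_4))))

theorem tab20_ok : allB tab20 E.ok = true :=
  allB_append tab20_0_ok (allB_append tab20_1_ok (allB_append tab20_2_ok (allB_append tab20_3_ok
  tab20_4_ok)))

end BQN
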