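import Pool.Agent.BQN.App

/-! Table 21. -/

namespace BQN

def tab21_0 : List E := [
  ⟨1, 51, 103, ⟨32, 4, 0, 0⟩, ⟨36, -2, -2, 0⟩, ⟨36, 2, -2, 0⟩, ⟨44, 0, -4, 0⟩⟩,
  ⟨1, 2, 105, ⟨8, 4, 0, 0⟩, ⟨22, 0, -2, 0⟩, ⟨30, 14, -2, -2⟩, ⟨30, -14, 2, -2⟩⟩,
  ⟨3, 1, 35, ⟨8, 4, 0, 0⟩, ⟨16, -2, 0, -2⟩, ⟨16, 2, 0, -2⟩, ⟨22, 6, -2, -2⟩⟩,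
  ⟨3, 2, 35, ⟨12, 4, 0, 0⟩, ⟨20, 8, 0, 0⟩, ⟨22, 0, -2, 0⟩, ⟨24, 2, 0, 2⟩⟩,
  ⟨5, 2, 21, ⟨16, 4, 0, 0⟩, ⟨20, 2, 0, -2⟩, ⟨22, 0, 2, 0⟩, ⟨28, 0, 0, -4⟩⟩,
  ⟨1, 11, 105, ⟨8, 0, 0, 0⟩, ⟨28, 8, 0, 0⟩, ⟨22, 0, -2, 0⟩, ⟨34, -4, -2, 0⟩⟩,
  ⟨1, 13, 105, ⟨10, 2, 0, 0⟩, ⟨10, -2, 0, 0⟩, ⟨22, 0, -2, 0⟩, ⟨28, -2, -2, 0⟩⟩,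
  ⟨7, 2, 15, ⟨16, 4, 0, 0⟩, ⟨22, 0, -2, 0⟩, ⟨24, 0, 0, -4⟩, ⟨26, 2, -2, -2⟩⟩,
  ⟨1, 17, 105, ⟨8, 0, 0, 0⟩, ⟨10, 2, 0, 0⟩, ⟨10, -2, 0, 0⟩, ⟨22, 0, -2, 0⟩⟩,
  ⟨1, 19, 105, ⟨20, 4, 0, 0⟩, ⟨22, 0, -2, 0⟩, ⟨38, -4, -2, 0⟩, ⟨38, 4, 2, 0⟩⟩]

theorem tab21_0_ok : allB tab21_0 E.ok = true := by decide +kernel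

def tab21_1 : List E := [
  ⟨1, 22, 105, ⟨8, 0, 0, 0⟩, ⟨20, 4, 0, 0⟩, ⟨20, -4, 0, 0⟩, ⟨22, 0, -2, 0⟩⟩,
  ⟨1, 23, 105, ⟨8, 0, 0, 0⟩, ⟨20, 4, 0, 0⟩, ⟨20, -4, 0, 0⟩, ⟨22, 0, -2, 0⟩⟩,
  ⟨1, 26, 105, ⟨8, 0, 0, 0⟩, ⟨24, 4, 0, 0⟩, ⟨22, 0, -2, 0⟩, ⟨42, -4, -2, 0⟩⟩,
  ⟨1, 29, 105, ⟨14, 2, 0, 0⟩, ⟨24, 4, 0, 0⟩, ⟨22, 0, -2, 0⟩, ⟨44, 0, -4, 0⟩⟩,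
  ⟨3, 11, 35, ⟨14, 2, 0, 0⟩, ⟨22, 0, -2, 0⟩, ⟨27, -1, -1, 1⟩, ⟨29, 3, 1, 1⟩⟩,
  ⟨1, 37, 105, ⟨8, 0, 0, 0⟩, ⟨14, 2, 0, 0⟩, ⟨14, -2, 0, 0⟩, ⟨22, 0, -2, 0⟩⟩,
  ⟨1, 41, 105, ⟨8, 0, 0, 0⟩, ⟨14, 2, 0, 0⟩, ⟨14, -2, 0, 0⟩, ⟨22, 0, -2, 0⟩⟩,
  ⟨1, 53, 105, ⟨18, 2, 0, 0⟩, ⟨32, 4, 0, 0⟩, ⟨22, 0, -2, 0⟩, ⟨44, 0, -4, 0⟩⟩,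
  ⟨3, 19, 35, ⟨18, 2, 0, 0⟩, ⟨22, 0, -2, 0⟩, ⟨31, -1, -1, 1⟩, ⟨35, -3, -3, 1⟩⟩,
  ⟨1, 61, 105, ⟨18, 2, 0, 0⟩, ⟨32, 4, 0, 0⟩, ⟨22, 0, -2, 0⟩, ⟨44, 0, -4, 0⟩⟩]

theorem tab21_1_ok : allB tab21_1 E.ok = true := by decide +kernel

def tab21_2 : List E := [
  ⟨5, 13, 21, ⟨18, 2, 0, 0⟩, ⟨21, 1, -1, -1⟩, ⟨21, -1, 1, -1⟩, ⟨22, 0, -2, 0⟩⟩,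
  ⟨3, 23, 35, ⟨18, 2, 0, 0⟩, ⟨22, 0, -2, 0⟩, ⟨31, 1, -1, -1⟩, ⟨31, -1, 1, -1⟩⟩,
  ⟨1, 73, 105, ⟨8, 0, 0, 0⟩, ⟨18, 2, 0, 0⟩, ⟨18, -2, 0, 0⟩, ⟨22, 0, -2, 0⟩⟩,
  ⟨7, 11, 15, ⟨8, 0, 0, 0⟩, ⟨18, 2, 0, 0⟩, ⟨15, 1, -1, -1⟩, ⟨15, -1, 1, -1⟩⟩,
  ⟨5, 17, 21, ⟨22, 2, 0, 0⟩, ⟨21, 1, -1, -1⟩, ⟨21, -1, 1, -1⟩, ⟨22, 0, -2, 0⟩⟩,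
  ⟨1, 89, 105, ⟨22, 2, 0, 0⟩, ⟨22, 0, -2, 0⟩, ⟨40, -2, -2, 0⟩, ⟨44, 0, -4, 0⟩⟩,
  ⟨3, 31, 35, ⟨22, 2, 0, 0⟩, ⟨22, 0, -2, 0⟩, ⟨35, 3, -3, -1⟩, ⟨35, 1, -1, -1⟩⟩,
  ⟨1, 97, 105, ⟨22, 2, 0, 0⟩, ⟨22, -2, 0, 0⟩, ⟨22, 0, -2, 0⟩, ⟨44, 0, -4, 0⟩⟩,
  ⟨1, 101, 105, ⟨8, 0, 0, 0⟩, ⟨22, 2, 0, 0⟩, ⟨22, -2, 0, 0⟩, ⟨22, 0, -2, 0⟩⟩,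
  ⟨2, 3, 53, ⟨12, 4, 0, 0⟩, ⟨20, 8, 0, 0⟩, ⟨28, 2, -2, 0⟩, ⟨44, 0, -4, 0⟩⟩]

theorem tab21_2_ok : allB tab21_2 E.ok = true := by decide +kernel

def tab21_3 : List E := [
  ⟨2, 7, 53, ⟨16, 4, 0, 0⟩, ⟨32, 2, -2, 0⟩, ⟨44, 0, -4, 0⟩, ⟨44, 6, -2, 0⟩⟩,
  ⟨2, 11, 53, ⟨20, 4, 0, 0⟩, ⟨20, -4, 0, 0⟩, ⟨32, -2, -2, 0⟩, ⟨44, 0, -4, 0⟩⟩,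
  ⟨2, 13, 53, ⟨24, -4, 0, 0⟩, ⟨32, -2, -2, 0⟩, ⟨44, 0, -4, 0⟩, ⟨52, -6, -2, 0⟩⟩,
  ⟨2, 15, 53, ⟨24, 4, 0, 0⟩, ⟨32, -2, -2, 0⟩, ⟨32, 2, -2, 0⟩, ⟨44, 0, -4, 0⟩⟩,
  ⟨2, 17, 53, ⟨24, 4, 0, 0⟩, ⟨24, -4, 0, 0⟩, ⟨36, -2, -2, 0⟩, ⟨44, 0, -4, 0⟩⟩,
  ⟨2, 19, 53, ⟨28, 4, 0, 0⟩, ⟨36, -2, -2, 0⟩, ⟨36, 2, -2, 0⟩, ⟨44, 0, -4, 0⟩⟩,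
  ⟨2, 21, 53, ⟨28, 4, 0, 0⟩, ⟨28, -4, 0, 0⟩, ⟨36, -2, -2, 0⟩, ⟨44, 0, -4, 0⟩⟩,
  ⟨2, 23, 53, ⟨8, 0, 0, 0⟩, ⟨28, 4, 0, 0⟩, ⟨36, 2, -2, 0⟩, ⟨44, 0, -4, 0⟩⟩,
  ⟨1, 2, 107, ⟨8, 4, 0, 0⟩, ⟨44, 22, -4, -2⟩, ⟨44, -10, 0, -2⟩, ⟨44, 0, -4, 0⟩⟩,
  ⟨1, 7, 107, ⟨12, 4, 0, 0⟩, ⟨12, -4, 0, 0⟩, ⟨28, -2, -2, 0⟩, ⟨44, 0, -4, 0⟩⟩]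

theorem tab21_3_ok : allB tab21_3 E.ok = true := by decide +kernel

def tab21_4 : List E := [
  ⟨1, 11, 107, ⟨16, 4, 0, 0⟩, ⟨28, 8, 0, 0⟩, ⟨28, 2, -2, 0⟩, ⟨44, 0, -4, 0⟩⟩,
  ⟨1, 15, 107, ⟨16, 4, 0, 0⟩, ⟨32, -2, -2, 0⟩, ⟨44, 0, -4, 0⟩, ⟨44, 6, -2, 0⟩⟩,
  ⟨1, 19, 107, ⟨20, 4, 0, 0⟩, ⟨32, -2, -2, 0⟩, ⟨32, 2, -2, 0⟩, ⟨44, 0, -4, 0⟩⟩,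
  ⟨1, 23, 107, ⟨8, 0, 0, 0⟩, ⟨20, 4, 0, 0⟩, ⟨32, 2, -2, 0⟩, ⟨44, 0, -4, 0⟩⟩,
  ⟨1, 31, 107, ⟨24, 4, 0, 0⟩, ⟨32, -2, -2, 0⟩, ⟨32, 2, -2, 0⟩, ⟨32, -2, 2, 0⟩⟩,
  ⟨1, 35, 107, ⟨24, 4, 0, 0⟩, ⟨36, -2, -2, 0⟩, ⟨36, 2, -2, 0⟩, ⟨44, 0, -4, 0⟩⟩,
  ⟨1, 39, 107, ⟨28, 4, 0, 0⟩, ⟨36, -2, -2, 0⟩, ⟨36, 2, -2, 0⟩, ⟨44, 0, -4, 0⟩⟩,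
  ⟨1, 43, 107, ⟨28, 4, 0, 0⟩, ⟨36, -2, -2, 0⟩, ⟨36, 2, -2, 0⟩, ⟨44, 0, -4, 0⟩⟩,
  ⟨1, 2, 109, ⟨8, 4, 0, 0⟩, ⟨22, 0, -2, 0⟩, ⟨34, 14, -2, -2⟩, ⟨34, -14, -2, 2⟩⟩,
  ⟨1, 3, 109, ⟨8, 4, 0, 0⟩, ⟨22, 0, -2, 0⟩, ⟨40, -2, 0, -2⟩, ⟨40, 2, 0, -2⟩⟩]

theorem tab21_4_ok : allB tab21_4 E.ok = true := by decide +kernel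

def tab21 : List E :=
  tab21_0 ++ (tab21_1 ++ (tab21_2 ++ (tab21_3 ++ (tab21_4))))

theorem tab21_ok : allB tab21 E.ok = true :=
  allB_append tab21_0_ok (allB_append tab21_1_ok (allB_append tab21_2_ok (allB_append tab21_3_ok
  tab21_4_ok)))

end BQN
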