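import Pool.Agent.BQN.App

/-! Table 22. -/

namespace BQN

def tab22_0 : List E := [
  ⟨1, 5, 109, ⟨8, 0, 0, 0⟩, ⟨22, 0, -2, 0⟩, ⟨25, 5, -1, -1⟩, ⟨30, -4, -2, 0⟩⟩,
  ⟨1, 6, 109, ⟨12, 4, 0, 0⟩, ⟨12, -4, 0, 0⟩, ⟨20, 8, 0, 0⟩, ⟨22, 0, -2, 0⟩⟩,
  ⟨1, 7, 109, ⟨8, 0, 0, 0⟩, ⟨12, 4, 0, 0⟩, ⟨12, -4, 0, 0⟩, ⟨22, 0, -2, 0⟩⟩,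
  ⟨1, 10, 109, ⟨16, 4, 0, 0⟩, ⟨22, 0, -2, 0⟩, ⟨34, -4, -2, 0⟩, ⟨44, 0, -4, 0⟩⟩,
  ⟨1, 11, 109, ⟨8, 0, 0, 0⟩, ⟨28, 8, 0, 0⟩, ⟨22, 0, -2, 0⟩, ⟨22, 0, 2, 0⟩⟩,
  ⟨1, 13, 109, ⟨10, 2, 0, 0⟩, ⟨22, 0, -2, 0⟩, ⟨39, 9, -3, -1⟩, ⟨39, 3, -1, -1⟩⟩,
  ⟨1, 14, 109, ⟨8, 0, 0, 0⟩, ⟨16, 4, 0, 0⟩, ⟨16, -4, 0, 0⟩, ⟨22, 0, -2, 0⟩⟩,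
  ⟨1, 15, 109, ⟨8, 0, 0, 0⟩, ⟨16, 4, 0, 0⟩, ⟨22, 0, -2, 0⟩, ⟨22, 0, 2, 0⟩⟩,
  ⟨1, 17, 109, ⟨8, 0, 0, 0⟩, ⟨10, 2, 0, 0⟩, ⟨22, 0, -2, 0⟩, ⟨38, -4, -2, 0⟩⟩,
  ⟨1, 19, 109, ⟨20, 4, 0, 0⟩, ⟨20, -4, 0, 0⟩, ⟨22, 0, -2, 0⟩, ⟨22, 0, 2, 0⟩⟩]

theorem tab22_0_ok : allB tab22_0 E.ok = true := by decide +kernel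

def tab22_1 : List E := [
  ⟨1, 21, 109, ⟨8, 0, 0, 0⟩, ⟨10, 2, 0, 0⟩, ⟨22, 0, -2, 0⟩, ⟨22, 0, 2, 0⟩⟩,
  ⟨1, 22, 109, ⟨8, 0, 0, 0⟩, ⟨20, 4, 0, 0⟩, ⟨20, -4, 0, 0⟩, ⟨22, 0, -2, 0⟩⟩,
  ⟨1, 23, 109, ⟨8, 0, 0, 0⟩, ⟨20, 4, 0, 0⟩, ⟨20, -4, 0, 0⟩, ⟨22, 0, -2, 0⟩⟩,
  ⟨1, 26, 109, ⟨8, 0, 0, 0⟩, ⟨24, 4, 0, 0⟩, ⟨22, 0, -2, 0⟩, ⟨22, 0, 2, 0⟩⟩,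
  ⟨1, 29, 109, ⟨14, 2, 0, 0⟩, ⟨24, 4, 0, 0⟩, ⟨22, 0, -2, 0⟩, ⟨32, -2, -2, 0⟩⟩,
  ⟨1, 33, 109, ⟨8, 0, 0, 0⟩, ⟨24, 4, 0, 0⟩, ⟨24, -4, 0, 0⟩, ⟨22, 0, -2, 0⟩⟩,
  ⟨1, 37, 109, ⟨8, 0, 0, 0⟩, ⟨14, 2, 0, 0⟩, ⟨14, -2, 0, 0⟩, ⟨22, 0, -2, 0⟩⟩,
  ⟨1, 41, 109, ⟨8, 0, 0, 0⟩, ⟨14, 2, 0, 0⟩, ⟨14, -2, 0, 0⟩, ⟨22, 0, -2, 0⟩⟩,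
  ⟨1, 53, 109, ⟨18, 2, 0, 0⟩, ⟨32, 4, 0, 0⟩, ⟨22, 0, -2, 0⟩, ⟨22, 0, 2, 0⟩⟩,
  ⟨1, 57, 109, ⟨18, 2, 0, 0⟩, ⟨22, 0, -2, 0⟩, ⟨36, -2, -2, 0⟩, ⟨36, 2, -2, 0⟩⟩]

theorem tab22_1_ok : allB tab22_1 E.ok = true := by decide +kernel

def tab22_2 : List E := [
  ⟨1, 61, 109, ⟨18, 2, 0, 0⟩, ⟨32, 4, 0, 0⟩, ⟨22, 0, -2, 0⟩, ⟨22, 0, 2, 0⟩⟩,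
  ⟨1, 65, 109, ⟨8, 0, 0, 0⟩, ⟨18, 2, 0, 0⟩, ⟨22, 0, -2, 0⟩, ⟨22, 0, 2, 0⟩⟩,
  ⟨1, 69, 109, ⟨8, 0, 0, 0⟩, ⟨18, 2, 0, 0⟩, ⟨18, -2, 0, 0⟩, ⟨22, 0, -2, 0⟩⟩,
  ⟨1, 73, 109, ⟨8, 0, 0, 0⟩, ⟨18, 2, 0, 0⟩, ⟨18, -2, 0, 0⟩, ⟨22, 0, -2, 0⟩⟩,
  ⟨1, 77, 109, ⟨8, 0, 0, 0⟩, ⟨18, 2, 0, 0⟩, ⟨22, 0, -2, 0⟩, ⟨22, 0, 2, 0⟩⟩,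
  ⟨1, 85, 109, ⟨8, 0, 0, 0⟩, ⟨22, 0, -2, 0⟩, ⟨40, -2, -2, 0⟩, ⟨40, 2, -2, 0⟩⟩,
  ⟨1, 89, 109, ⟨22, 2, 0, 0⟩, ⟨22, 0, -2, 0⟩, ⟨22, 0, 2, 0⟩, ⟨40, -2, -2, 0⟩⟩,
  ⟨1, 93, 109, ⟨22, 2, 0, 0⟩, ⟨22, -2, 0, 0⟩, ⟨22, 0, -2, 0⟩, ⟨22, 0, 2, 0⟩⟩,
  ⟨1, 97, 109, ⟨22, 2, 0, 0⟩, ⟨22, -2, 0, 0⟩, ⟨22, 0, -2, 0⟩, ⟨22, 0, 2, 0⟩⟩,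
  ⟨1, 101, 109, ⟨8, 0, 0, 0⟩, ⟨22, 2, 0, 0⟩, ⟨22, 0, -2, 0⟩, ⟨22, 0, 2, 0⟩⟩]

theorem tab22_2_ok : allB tab22_2 E.ok = true := by decide +kernel

def tab22_3 : List E := [
  ⟨1, 105, 109, ⟨8, 0, 0, 0⟩, ⟨22, 2, 0, 0⟩, ⟨22, 0, -2, 0⟩, ⟨22, 0, 2, 0⟩⟩,
  ⟨2, 13, 55, ⟨24, 4, 0, 0⟩, ⟨32, 2, -2, 0⟩, ⟨44, 0, -4, 0⟩, ⟨52, -6, -2, 0⟩⟩,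
  ⟨2, 17, 55, ⟨24, 4, 0, 0⟩, ⟨24, -4, 0, 0⟩, ⟨36, -2, -2, 0⟩, ⟨44, 0, -4, 0⟩⟩,
  ⟨2, 19, 55, ⟨28, 4, 0, 0⟩, ⟨36, -2, -2, 0⟩, ⟨36, 2, -2, 0⟩, ⟨44, 0, -4, 0⟩⟩,
  ⟨1, 2, 111, ⟨8, 4, 0, 0⟩, ⟨44, 22, -4, -2⟩, ⟨44, -10, 0, -2⟩, ⟨44, 10, 0, -2⟩⟩,
  ⟨1, 7, 111, ⟨8, 0, 0, 0⟩, ⟨12, 4, 0, 0⟩, ⟨28, 2, -2, 0⟩, ⟨44, 0, -4, 0⟩⟩,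
  ⟨1, 11, 111, ⟨16, 4, 0, 0⟩, ⟨28, -2, -2, 0⟩, ⟨28, 2, -2, 0⟩, ⟨44, 0, -4, 0⟩⟩,
  ⟨1, 19, 111, ⟨20, 4, 0, 0⟩, ⟨32, -2, -2, 0⟩, ⟨44, 0, -4, 0⟩, ⟨48, 6, -2, 0⟩⟩,
  ⟨1, 23, 111, ⟨8, 0, 0, 0⟩, ⟨20, 4, 0, 0⟩, ⟨32, 2, -2, 0⟩, ⟨44, 0, -4, 0⟩⟩,
  ⟨1, 31, 111, ⟨8, 0, 0, 0⟩, ⟨24, 4, 0, 0⟩, ⟨36, 2, -2, 0⟩, ⟨44, 0, -4, 0⟩⟩]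

theorem tab22_3_ok : allB tab22_3 E.ok = true := by decide +kernel

def tab22_4 : List E := [
  ⟨1, 35, 111, ⟨24, 4, 0, 0⟩, ⟨36, -2, -2, 0⟩, ⟨36, 2, -2, 0⟩, ⟨44, 0, -4, 0⟩⟩,
  ⟨3, 13, 37, ⟨28, 4, 0, 0⟩, ⟨36, 2, -2, 0⟩, ⟨44, 0, -4, 0⟩, ⟨46, 0, 0, 2⟩⟩,
  ⟨1, 2, 113, ⟨8, 4, 0, 0⟩, ⟨22, 0, -2, 0⟩, ⟨34, 14, -2, -2⟩, ⟨34, -14, 2, -2⟩⟩,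
  ⟨1, 3, 113, ⟨8, 4, 0, 0⟩, ⟨22, 0, -2, 0⟩, ⟨42, 10, -2, -2⟩, ⟨42, 14, -2, -2⟩⟩,
  ⟨1, 5, 113, ⟨8, 0, 0, 0⟩, ⟨22, 0, -2, 0⟩, ⟨22, 0, 2, 0⟩, ⟨25, 5, -1, -1⟩⟩,
  ⟨1, 6, 113, ⟨12, 4, 0, 0⟩, ⟨12, -4, 0, 0⟩, ⟨20, 8, 0, 0⟩, ⟨22, 0, -2, 0⟩⟩,
  ⟨1, 7, 113, ⟨8, 0, 0, 0⟩, ⟨12, 4, 0, 0⟩, ⟨12, -4, 0, 0⟩, ⟨22, 0, -2, 0⟩⟩,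
  ⟨1, 10, 113, ⟨16, 4, 0, 0⟩, ⟨22, 0, -2, 0⟩, ⟨34, -4, -2, 0⟩, ⟨34, 4, 2, 0⟩⟩,
  ⟨1, 11, 113, ⟨8, 0, 0, 0⟩, ⟨28, 8, 0, 0⟩, ⟨22, 0, -2, 0⟩, ⟨22, 0, 2, 0⟩⟩,
  ⟨1, 13, 113, ⟨10, 2, 0, 0⟩, ⟨22, 0, -2, 0⟩, ⟨39, 9, -3, -1⟩, ⟨39, 3, -1, -1⟩⟩]

theorem tab22_4_ok : allB tab22_4 E.ok = true := by decide +kernel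

def tab22 : List E :=
  tab22_0 ++ (tab22_1 ++ (tab22_2 ++ (tab22_3 ++ (tab22_4))))

theorem tab22_ok : allB tab22 E.ok = true :=
  allB_append tab22_0_ok (allB_append tab22_1_ok (allB_append tab22_2_ok (allB_append tab22_3_ok
  tab22_4_ok)))

end BQN
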