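import Pool.Agent.BQN.App

/-! Table 23. -/

namespace BQN

def tab23_0 : List E := [
  ⟨1, 14, 113, ⟨8, 0, 0, 0⟩, ⟨16, 4, 0, 0⟩, ⟨16, -4, 0, 0⟩, ⟨22, 0, -2, 0⟩⟩,
  ⟨1, 15, 113, ⟨8, 0, 0, 0⟩, ⟨16, 4, 0, 0⟩, ⟨22, 0, -2, 0⟩, ⟨22, 0, 2, 0⟩⟩,
  ⟨1, 17, 113, ⟨8, 0, 0, 0⟩, ⟨10, 2, 0, 0⟩, ⟨22, 0, -2, 0⟩, ⟨38, -4, -2, 0⟩⟩,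
  ⟨1, 19, 113, ⟨20, 4, 0, 0⟩, ⟨20, -4, 0, 0⟩, ⟨22, 0, -2, 0⟩, ⟨22, 0, 2, 0⟩⟩,
  ⟨1, 21, 113, ⟨8, 0, 0, 0⟩, ⟨10, 2, 0, 0⟩, ⟨22, 0, -2, 0⟩, ⟨22, 0, 2, 0⟩⟩,
  ⟨1, 22, 113, ⟨8, 0, 0, 0⟩, ⟨20, 4, 0, 0⟩, ⟨20, -4, 0, 0⟩, ⟨22, 0, -2, 0⟩⟩,
  ⟨1, 23, 113, ⟨8, 0, 0, 0⟩, ⟨20, 4, 0, 0⟩, ⟨20, -4, 0, 0⟩, ⟨22, 0, -2, 0⟩⟩,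
  ⟨1, 26, 113, ⟨24, 4, 0, 0⟩, ⟨22, 0, -2, 0⟩, ⟨22, 0, 2, 0⟩, ⟨42, -4, -2, 0⟩⟩,
  ⟨1, 29, 113, ⟨14, 2, 0, 0⟩, ⟨24, 4, 0, 0⟩, ⟨22, 0, -2, 0⟩, ⟨22, 0, 2, 0⟩⟩,
  ⟨1, 33, 113, ⟨8, 0, 0, 0⟩, ⟨24, 4, 0, 0⟩, ⟨24, -4, 0, 0⟩, ⟨22, 0, -2, 0⟩⟩]

theorem tab23_0_ok : allB tab23_0 E.ok = true := by decide +kernel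

def tab23_1 : List E := [
  ⟨1, 37, 113, ⟨8, 0, 0, 0⟩, ⟨14, 2, 0, 0⟩, ⟨14, -2, 0, 0⟩, ⟨22, 0, -2, 0⟩⟩,
  ⟨1, 41, 113, ⟨8, 0, 0, 0⟩, ⟨14, 2, 0, 0⟩, ⟨14, -2, 0, 0⟩, ⟨22, 0, -2, 0⟩⟩,
  ⟨1, 53, 113, ⟨8, 0, 0, 0⟩, ⟨22, 0, -2, 0⟩, ⟨36, -2, -2, 0⟩, ⟨36, 2, 2, 0⟩⟩,
  ⟨1, 57, 113, ⟨8, 0, 0, 0⟩, ⟨32, 4, 0, 0⟩, ⟨22, 0, -2, 0⟩, ⟨22, 0, 2, 0⟩⟩,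
  ⟨1, 61, 113, ⟨18, 2, 0, 0⟩, ⟨32, 4, 0, 0⟩, ⟨22, 0, -2, 0⟩, ⟨22, 0, 2, 0⟩⟩,
  ⟨1, 65, 113, ⟨8, 0, 0, 0⟩, ⟨18, 2, 0, 0⟩, ⟨22, 0, -2, 0⟩, ⟨22, 0, 2, 0⟩⟩,
  ⟨1, 69, 113, ⟨8, 0, 0, 0⟩, ⟨18, 2, 0, 0⟩, ⟨18, -2, 0, 0⟩, ⟨22, 0, -2, 0⟩⟩,
  ⟨1, 73, 113, ⟨8, 0, 0, 0⟩, ⟨18, 2, 0, 0⟩, ⟨18, -2, 0, 0⟩, ⟨22, 0, -2, 0⟩⟩,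
  ⟨1, 77, 113, ⟨8, 0, 0, 0⟩, ⟨18, 2, 0, 0⟩, ⟨22, 0, -2, 0⟩, ⟨22, 0, 2, 0⟩⟩,
  ⟨1, 85, 113, ⟨22, 2, 0, 0⟩, ⟨22, 0, -2, 0⟩, ⟨22, 0, 2, 0⟩, ⟨40, -2, -2, 0⟩⟩]

theorem tab23_1_ok : allB tab23_1 E.ok = true := by decide +kernel

def tab23_2 : List E := [
  ⟨1, 89, 113, ⟨22, 2, 0, 0⟩, ⟨22, -2, 0, 0⟩, ⟨22, 0, -2, 0⟩, ⟨22, 0, 2, 0⟩⟩,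
  ⟨1, 93, 113, ⟨22, 2, 0, 0⟩, ⟨22, -2, 0, 0⟩, ⟨22, 0, -2, 0⟩, ⟨22, 0, 2, 0⟩⟩,
  ⟨1, 97, 113, ⟨22, 2, 0, 0⟩, ⟨22, -2, 0, 0⟩, ⟨22, 0, -2, 0⟩, ⟨22, 0, 2, 0⟩⟩,
  ⟨1, 101, 113, ⟨8, 0, 0, 0⟩, ⟨22, 2, 0, 0⟩, ⟨22, 0, -2, 0⟩, ⟨22, 0, 2, 0⟩⟩,
  ⟨1, 105, 113, ⟨8, 0, 0, 0⟩, ⟨22, 2, 0, 0⟩, ⟨22, 0, -2, 0⟩, ⟨22, 0, 2, 0⟩⟩,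
  ⟨1, 109, 113, ⟨8, 0, 0, 0⟩, ⟨22, 2, 0, 0⟩, ⟨22, -2, 0, 0⟩, ⟨22, 0, -2, 0⟩⟩,
  ⟨2, 7, 57, ⟨16, 4, 0, 0⟩, ⟨32, 2, -2, 0⟩, ⟨44, 0, -4, 0⟩, ⟨44, -6, -2, 0⟩⟩,
  ⟨2, 11, 57, ⟨8, 0, 0, 0⟩, ⟨20, 4, 0, 0⟩, ⟨32, 2, -2, 0⟩, ⟨44, 0, -4, 0⟩⟩,
  ⟨2, 13, 57, ⟨24, 4, 0, 0⟩, ⟨32, 2, -2, 0⟩, ⟨44, 0, -4, 0⟩, ⟨52, -6, -2, 0⟩⟩,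
  ⟨2, 17, 57, ⟨8, 0, 0, 0⟩, ⟨24, 4, 0, 0⟩, ⟨24, -4, 0, 0⟩, ⟨44, 0, -4, 0⟩⟩]

theorem tab23_2_ok : allB tab23_2 E.ok = true := by decide +kernel

def tab23_3 : List E := [
  ⟨1, 2, 115, ⟨8, 4, 0, 0⟩, ⟨36, -2, 0, -2⟩, ⟨44, 22, -4, -2⟩, ⟨44, 0, -4, 0⟩⟩,
  ⟨1, 7, 115, ⟨8, 0, 0, 0⟩, ⟨12, 4, 0, 0⟩, ⟨28, 2, -2, 0⟩, ⟨44, 0, -4, 0⟩⟩,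
  ⟨1, 11, 115, ⟨16, 4, 0, 0⟩, ⟨28, 8, 0, 0⟩, ⟨32, 2, -2, 0⟩, ⟨44, 0, -4, 0⟩⟩,
  ⟨1, 19, 115, ⟨20, 4, 0, 0⟩, ⟨32, 2, -2, 0⟩, ⟨44, 0, -4, 0⟩, ⟨48, -6, -2, 0⟩⟩,
  ⟨5, 6, 23, ⟨24, 4, 0, 0⟩, ⟨36, 2, 0, -2⟩, ⟨44, 0, 4, 0⟩, ⟨48, 8, -4, -4⟩⟩,
  ⟨1, 31, 115, ⟨8, 0, 0, 0⟩, ⟨24, 4, 0, 0⟩, ⟨36, 2, -2, 0⟩, ⟨44, 0, -4, 0⟩⟩,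
  ⟨2, 5, 59, ⟨16, 4, 0, 0⟩, ⟨28, 8, 0, 0⟩, ⟨32, 2, -2, 0⟩, ⟨44, 0, -4, 0⟩⟩,
  ⟨2, 11, 59, ⟨8, 0, 0, 0⟩, ⟨20, 4, 0, 0⟩, ⟨32, 2, -2, 0⟩, ⟨44, 0, -4, 0⟩⟩,
  ⟨2, 13, 59, ⟨24, 4, 0, 0⟩, ⟨32, -2, -2, 0⟩, ⟨32, 2, -2, 0⟩, ⟨32, -2, 2, 0⟩⟩,
  ⟨1, 2, 119, ⟨8, 4, 0, 0⟩, ⟨40, -6, 0, -2⟩, ⟨40, 6, 0, -2⟩, ⟨44, 22, -4, -2⟩⟩]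

theorem tab23_3_ok : allB tab23_3 E.ok = true := by decide +kernel

def tab23_4 : List E := [
  ⟨1, 11, 119, ⟨8, 0, 0, 0⟩, ⟨28, 8, 0, 0⟩, ⟨44, 0, -4, 0⟩, ⟨44, 0, 4, 0⟩⟩,
  ⟨1, 15, 119, ⟨16, 4, 0, 0⟩, ⟨32, -2, -2, 0⟩, ⟨32, 2, -2, 0⟩, ⟨44, 0, -4, 0⟩⟩,
  ⟨1, 19, 119, ⟨20, 4, 0, 0⟩, ⟨32, 2, -2, 0⟩, ⟨44, 0, -4, 0⟩, ⟨48, -6, -2, 0⟩⟩,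
  ⟨1, 23, 119, ⟨8, 0, 0, 0⟩, ⟨20, 4, 0, 0⟩, ⟨32, 2, -2, 0⟩, ⟨44, 0, -4, 0⟩⟩,
  ⟨7, 10, 17, ⟨36, 4, 0, 0⟩, ⟨44, 2, 0, -2⟩, ⟨44, 0, -4, 0⟩, ⟨56, 0, 0, -4⟩⟩,
  ⟨1, 2, 129, ⟨8, 4, 0, 0⟩, ⟨26, 0, -2, 0⟩, ⟨36, -2, 0, -2⟩, ⟨38, 14, -2, -2⟩⟩,
  ⟨3, 1, 43, ⟨8, 4, 0, 0⟩, ⟨20, -2, 0, -2⟩, ⟨26, 6, -2, -2⟩, ⟨26, -6, 2, -2⟩⟩,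
  ⟨1, 5, 129, ⟨28, -2, -2, 0⟩, ⟨28, 2, -2, 0⟩, ⟨31, 3, -1, -1⟩, ⟨31, -3, -1, 1⟩⟩,
  ⟨3, 2, 43, ⟨12, 4, 0, 0⟩, ⟨20, 8, 0, 0⟩, ⟨24, -2, 0, -2⟩, ⟨24, 2, 0, -2⟩⟩,
  ⟨1, 7, 129, ⟨8, 0, 0, 0⟩, ⟨12, 4, 0, 0⟩, ⟨12, -4, 0, 0⟩, ⟨34, -4, -2, 0⟩⟩]

theorem tab23_4_ok : allB tab23_4 E.ok = true := by decide +kernel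

def tab23 : List E :=
  tab23_0 ++ (tab23_1 ++ (tab23_2 ++ (tab23_3 ++ (tab23_4))))

theorem tab23_ok : allB tab23 E.ok = true :=
  allB_append tab23_0_ok (allB_append tab23_1_ok (allB_append tab23_2_ok (allB_append tab23_3_ok
  tab23_4_ok)))

end BQN
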