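import Pool.Agent.BQN.App

/-! Table 24. -/

namespace BQN

def tab24_0 : List E := [
  ⟨1, 10, 129, ⟨16, 4, 0, 0⟩, ⟨28, 8, 0, 0⟩, ⟨26, 0, -2, 0⟩, ⟨48, 0, -4, 0⟩⟩,
  ⟨1, 11, 129, ⟨16, 4, 0, 0⟩, ⟨28, 8, 0, 0⟩, ⟨26, 0, -2, 0⟩, ⟨48, 0, -4, 0⟩⟩,
  ⟨1, 13, 129, ⟨10, 2, 0, 0⟩, ⟨10, -2, 0, 0⟩, ⟨26, 0, -2, 0⟩, ⟨38, -4, -2, 0⟩⟩,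
  ⟨1, 14, 129, ⟨16, 4, 0, 0⟩, ⟨16, -4, 0, 0⟩, ⟨26, 0, -2, 0⟩, ⟨38, -4, 2, 0⟩⟩,
  ⟨3, 5, 43, ⟨16, 4, 0, 0⟩, ⟨26, 0, -2, 0⟩, ⟨30, 6, -2, -2⟩, ⟨30, -6, 2, -2⟩⟩,
  ⟨1, 17, 129, ⟨8, 0, 0, 0⟩, ⟨10, 2, 0, 0⟩, ⟨10, -2, 0, 0⟩, ⟨26, 0, -2, 0⟩⟩,
  ⟨1, 19, 129, ⟨20, 4, 0, 0⟩, ⟨20, -4, 0, 0⟩, ⟨26, 0, -2, 0⟩, ⟨48, 0, -4, 0⟩⟩,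
  ⟨3, 7, 43, ⟨10, 2, 0, 0⟩, ⟨21, 3, -1, -1⟩, ⟨26, 0, 2, 0⟩, ⟨27, -1, 1, -1⟩⟩,
  ⟨1, 22, 129, ⟨20, 4, 0, 0⟩, ⟨20, -4, 0, 0⟩, ⟨26, 0, -2, 0⟩, ⟨48, 0, -4, 0⟩⟩,
  ⟨1, 23, 129, ⟨20, 4, 0, 0⟩, ⟨26, 0, -2, 0⟩, ⟨42, -4, -2, 0⟩, ⟨42, 4, 2, 0⟩⟩]

theorem tab24_0_ok : allB tab24_0 E.ok = true := by decide +kernel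

def tab24_1 : List E := [
  ⟨1, 26, 129, ⟨24, 4, 0, 0⟩, ⟨24, -4, 0, 0⟩, ⟨26, 0, -2, 0⟩, ⟨48, 0, -4, 0⟩⟩,
  ⟨1, 29, 129, ⟨14, 2, 0, 0⟩, ⟨24, 4, 0, 0⟩, ⟨26, 0, -2, 0⟩, ⟨26, 0, 2, 0⟩⟩,
  ⟨3, 10, 43, ⟨24, 4, 0, 0⟩, ⟨24, -4, 0, 0⟩, ⟨26, 0, -2, 0⟩, ⟨48, 0, -4, 0⟩⟩,
  ⟨1, 31, 129, ⟨24, 4, 0, 0⟩, ⟨24, -4, 0, 0⟩, ⟨26, 0, -2, 0⟩, ⟨48, 0, -4, 0⟩⟩,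
  ⟨3, 11, 43, ⟨14, 2, 0, 0⟩, ⟨26, 0, -2, 0⟩, ⟨29, 3, 1, 1⟩, ⟨31, -1, -1, 1⟩⟩,
  ⟨1, 37, 129, ⟨14, 2, 0, 0⟩, ⟨14, -2, 0, 0⟩, ⟨26, 0, -2, 0⟩, ⟨48, 0, -4, 0⟩⟩,
  ⟨1, 41, 129, ⟨8, 0, 0, 0⟩, ⟨14, 2, 0, 0⟩, ⟨14, -2, 0, 0⟩, ⟨36, -2, -2, 0⟩⟩,
  ⟨1, 53, 129, ⟨18, 2, 0, 0⟩, ⟨32, 4, 0, 0⟩, ⟨26, 0, -2, 0⟩, ⟨48, 0, -4, 0⟩⟩,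
  ⟨3, 19, 43, ⟨18, 2, 0, 0⟩, ⟨32, 4, 0, 0⟩, ⟨26, 0, -2, 0⟩, ⟨35, -1, -1, 1⟩⟩,
  ⟨1, 61, 129, ⟨18, 2, 0, 0⟩, ⟨32, 4, 0, 0⟩, ⟨26, 0, -2, 0⟩, ⟨48, 0, -4, 0⟩⟩]

theorem tab24_1_ok : allB tab24_1 E.ok = true := by decide +kernel

def tab24_2 : List E := [
  ⟨1, 65, 129, ⟨8, 0, 0, 0⟩, ⟨18, 2, 0, 0⟩, ⟨26, 0, -2, 0⟩, ⟨40, 2, -2, 0⟩⟩,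
  ⟨3, 23, 43, ⟨18, 2, 0, 0⟩, ⟨26, 0, 2, 0⟩, ⟨35, -1, 1, -1⟩, ⟨43, -3, 3, -1⟩⟩,
  ⟨1, 73, 129, ⟨8, 0, 0, 0⟩, ⟨18, 2, 0, 0⟩, ⟨40, -2, -2, 0⟩, ⟨40, 2, 2, 0⟩⟩,
  ⟨1, 77, 129, ⟨8, 0, 0, 0⟩, ⟨18, 2, 0, 0⟩, ⟨26, 0, -2, 0⟩, ⟨48, 0, -4, 0⟩⟩,
  ⟨1, 85, 129, ⟨22, 2, 0, 0⟩, ⟨26, 0, -2, 0⟩, ⟨44, 2, -2, 0⟩, ⟨48, 0, -4, 0⟩⟩,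
  ⟨1, 89, 129, ⟨22, 2, 0, 0⟩, ⟨22, -2, 0, 0⟩, ⟨26, 0, -2, 0⟩, ⟨48, 0, -4, 0⟩⟩,
  ⟨3, 31, 43, ⟨22, 2, 0, 0⟩, ⟨26, 0, -2, 0⟩, ⟨39, 1, -1, -1⟩, ⟨39, -1, 1, -1⟩⟩,
  ⟨1, 97, 129, ⟨22, 2, 0, 0⟩, ⟨22, -2, 0, 0⟩, ⟨26, 0, -2, 0⟩, ⟨48, 0, -4, 0⟩⟩,
  ⟨1, 101, 129, ⟨22, 2, 0, 0⟩, ⟨22, -2, 0, 0⟩, ⟨26, 0, -2, 0⟩, ⟨48, 0, -4, 0⟩⟩,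
  ⟨3, 35, 43, ⟨22, 2, 0, 0⟩, ⟨26, 0, -2, 0⟩, ⟨43, 3, -3, -1⟩, ⟨43, 1, -1, -1⟩⟩]

theorem tab24_2_ok : allB tab24_2 E.ok = true := by decide +kernel

def tab24_3 : List E := [
  ⟨1, 109, 129, ⟨22, 2, 0, 0⟩, ⟨22, -2, 0, 0⟩, ⟨26, 0, -2, 0⟩, ⟨48, 0, -4, 0⟩⟩,
  ⟨1, 113, 129, ⟨22, 2, 0, 0⟩, ⟨22, -2, 0, 0⟩, ⟨26, 0, -2, 0⟩, ⟨44, -2, -2, 0⟩⟩,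
  ⟨1, 2, 133, ⟨30, -4, -2, 0⟩, ⟨36, -2, 0, -2⟩, ⟨36, 2, 0, -2⟩, ⟨38, 14, -2, -2⟩⟩,
  ⟨1, 3, 133, ⟨8, 4, 0, 0⟩, ⟨26, 0, -2, 0⟩, ⟨30, -4, -2, 0⟩, ⟨30, 4, -2, 0⟩⟩,
  ⟨1, 5, 133, ⟨8, 0, 0, 0⟩, ⟨28, -2, -2, 0⟩, ⟨31, 3, -1, -1⟩, ⟨31, -3, -1, 1⟩⟩,
  ⟨1, 6, 133, ⟨12, 4, 0, 0⟩, ⟨12, -4, 0, 0⟩, ⟨20, 8, 0, 0⟩, ⟨26, 0, -2, 0⟩⟩,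
  ⟨1, 10, 133, ⟨16, 4, 0, 0⟩, ⟨28, 8, 0, 0⟩, ⟨26, 0, -2, 0⟩, ⟨48, 0, -4, 0⟩⟩,
  ⟨1, 11, 133, ⟨16, 4, 0, 0⟩, ⟨28, 8, 0, 0⟩, ⟨26, 0, -2, 0⟩, ⟨48, 0, -4, 0⟩⟩,
  ⟨1, 13, 133, ⟨10, 2, 0, 0⟩, ⟨10, -2, 0, 0⟩, ⟨26, 0, -2, 0⟩, ⟨38, -4, -2, 0⟩⟩,
  ⟨7, 2, 19, ⟨16, 4, 0, 0⟩, ⟨20, -2, 0, -2⟩, ⟨20, 2, 0, -2⟩, ⟨20, -2, 0, 2⟩⟩]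

theorem tab24_3_ok : allB tab24_3 E.ok = true := by decide +kernel

def tab24_4 : List E := [
  ⟨1, 15, 133, ⟨8, 0, 0, 0⟩, ⟨16, 4, 0, 0⟩, ⟨48, 0, -4, 0⟩, ⟨48, 0, 4, 0⟩⟩,
  ⟨1, 17, 133, ⟨8, 0, 0, 0⟩, ⟨10, 2, 0, 0⟩, ⟨10, -2, 0, 0⟩, ⟨32, -2, -2, 0⟩⟩,
  ⟨1, 22, 133, ⟨20, 4, 0, 0⟩, ⟨26, 0, -2, 0⟩, ⟨42, -4, -2, 0⟩, ⟨42, 4, 2, 0⟩⟩,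
  ⟨1, 23, 133, ⟨8, 0, 0, 0⟩, ⟨20, 4, 0, 0⟩, ⟨20, -4, 0, 0⟩, ⟨48, 0, -4, 0⟩⟩,
  ⟨1, 26, 133, ⟨24, 4, 0, 0⟩, ⟨24, -4, 0, 0⟩, ⟨26, 0, -2, 0⟩, ⟨48, 0, -4, 0⟩⟩,
  ⟨1, 29, 133, ⟨14, 2, 0, 0⟩, ⟨14, -2, 0, 0⟩, ⟨24, 4, 0, 0⟩, ⟨26, 0, -2, 0⟩⟩,
  ⟨1, 30, 133, ⟨24, 4, 0, 0⟩, ⟨24, -4, 0, 0⟩, ⟨26, 0, -2, 0⟩, ⟨48, 0, -4, 0⟩⟩,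
  ⟨1, 31, 133, ⟨8, 0, 0, 0⟩, ⟨24, 4, 0, 0⟩, ⟨46, 4, -2, 0⟩, ⟨48, 0, -4, 0⟩⟩,
  ⟨1, 33, 133, ⟨8, 0, 0, 0⟩, ⟨24, 4, 0, 0⟩, ⟨24, -4, 0, 0⟩, ⟨48, 0, -4, 0⟩⟩,
  ⟨1, 37, 133, ⟨8, 0, 0, 0⟩, ⟨14, 2, 0, 0⟩, ⟨14, -2, 0, 0⟩, ⟨48, 0, -4, 0⟩⟩]

theorem tab24_4_ok : allB tab24_4 E.ok = true := by decide +kernel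

def tab24 : List E :=
  tab24_0 ++ (tab24_1 ++ (tab24_2 ++ (tab24_3 ++ (tab24_4))))

theorem tab24_ok : allB tab24 E.ok = true :=
  allB_append tab24_0_ok (allB_append tab24_1_ok (allB_append tab24_2_ok (allB_append tab24_3_ok
  tab24_4_ok)))

end BQN
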