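import Pool.Agent.BQN.App

/-! Table 25. -/

namespace BQN

def tab25_0 : List E := [
  ⟨1, 41, 133, ⟨14, 2, 0, 0⟩, ⟨26, 0, -2, 0⟩, ⟨36, -2, -2, 0⟩, ⟨36, 2, 2, 0⟩⟩,
  ⟨1, 53, 133, ⟨18, 2, 0, 0⟩, ⟨32, 4, 0, 0⟩, ⟨26, 0, -2, 0⟩, ⟨48, 0, -4, 0⟩⟩,
  ⟨1, 61, 133, ⟨18, 2, 0, 0⟩, ⟨32, 4, 0, 0⟩, ⟨26, 0, -2, 0⟩, ⟨48, 0, -4, 0⟩⟩,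
  ⟨1, 65, 133, ⟨8, 0, 0, 0⟩, ⟨18, 2, 0, 0⟩, ⟨40, 2, -2, 0⟩, ⟨48, 0, -4, 0⟩⟩,
  ⟨1, 69, 133, ⟨8, 0, 0, 0⟩, ⟨18, 2, 0, 0⟩, ⟨40, -2, -2, 0⟩, ⟨48, 0, -4, 0⟩⟩,
  ⟨1, 73, 133, ⟨8, 0, 0, 0⟩, ⟨18, 2, 0, 0⟩, ⟨18, -2, 0, 0⟩, ⟨48, 0, -4, 0⟩⟩,
  ⟨7, 11, 19, ⟨8, 0, 0, 0⟩, ⟨18, 2, 0, 0⟩, ⟨19, 1, -1, -1⟩, ⟨19, -1, 1, -1⟩⟩,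
  ⟨1, 85, 133, ⟨8, 0, 0, 0⟩, ⟨22, 2, 0, 0⟩, ⟨48, 0, -4, 0⟩, ⟨48, 0, 4, 0⟩⟩,
  ⟨1, 89, 133, ⟨22, 2, 0, 0⟩, ⟨22, -2, 0, 0⟩, ⟨26, 0, -2, 0⟩, ⟨48, 0, -4, 0⟩⟩,
  ⟨1, 93, 133, ⟨22, 2, 0, 0⟩, ⟨22, -2, 0, 0⟩, ⟨26, 0, -2, 0⟩, ⟨48, 0, -4, 0⟩⟩]

theorem tab25_0_ok : allB tab25_0 E.ok = true := by decide +kernel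

def tab25_1 : List E := [
  ⟨1, 97, 133, ⟨22, 2, 0, 0⟩, ⟨22, -2, 0, 0⟩, ⟨26, 0, -2, 0⟩, ⟨48, 0, -4, 0⟩⟩,
  ⟨1, 101, 133, ⟨8, 0, 0, 0⟩, ⟨22, 2, 0, 0⟩, ⟨44, 2, -2, 0⟩, ⟨48, 0, -4, 0⟩⟩,
  ⟨7, 15, 19, ⟨8, 0, 0, 0⟩, ⟨22, 2, 0, 0⟩, ⟨19, 1, -1, -1⟩, ⟨19, -1, 1, -1⟩⟩,
  ⟨1, 109, 133, ⟨8, 0, 0, 0⟩, ⟨22, 2, 0, 0⟩, ⟨44, -2, -2, 0⟩, ⟨48, 0, -4, 0⟩⟩,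
  ⟨1, 113, 133, ⟨8, 0, 0, 0⟩, ⟨22, 2, 0, 0⟩, ⟨22, -2, 0, 0⟩, ⟨48, 0, -4, 0⟩⟩,
  ⟨1, 129, 133, ⟨26, 2, 0, 0⟩, ⟨26, -2, 0, 0⟩, ⟨26, 0, -2, 0⟩, ⟨48, 0, -4, 0⟩⟩,
  ⟨1, 2, 137, ⟨8, 4, 0, 0⟩, ⟨26, 0, -2, 0⟩, ⟨36, -2, 0, -2⟩, ⟨36, 2, 0, -2⟩⟩,
  ⟨1, 3, 137, ⟨8, 4, 0, 0⟩, ⟨26, 0, -2, 0⟩, ⟨38, -8, -2, 0⟩, ⟨42, 14, -2, -2⟩⟩,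
  ⟨1, 5, 137, ⟨26, 0, -2, 0⟩, ⟨28, -2, -2, 0⟩, ⟨28, 2, -2, 0⟩, ⟨29, 5, -1, -1⟩⟩,
  ⟨1, 6, 137, ⟨12, 4, 0, 0⟩, ⟨12, -4, 0, 0⟩, ⟨20, 8, 0, 0⟩, ⟨26, 0, -2, 0⟩⟩]

theorem tab25_1_ok : allB tab25_1 E.ok = true := by decide +kernel

def tab25_2 : List E := [
  ⟨1, 7, 137, ⟨12, 4, 0, 0⟩, ⟨26, 0, -2, 0⟩, ⟨34, -4, -2, 0⟩, ⟨34, 4, -2, 0⟩⟩,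
  ⟨1, 10, 137, ⟨16, 4, 0, 0⟩, ⟨28, 8, 0, 0⟩, ⟨26, 0, -2, 0⟩, ⟨48, 0, -4, 0⟩⟩,
  ⟨1, 11, 137, ⟨8, 0, 0, 0⟩, ⟨28, 8, 0, 0⟩, ⟨38, -4, -2, 0⟩, ⟨48, 0, -4, 0⟩⟩,
  ⟨1, 13, 137, ⟨10, 2, 0, 0⟩, ⟨10, -2, 0, 0⟩, ⟨26, 0, -2, 0⟩, ⟨38, -4, -2, 0⟩⟩,
  ⟨1, 14, 137, ⟨8, 0, 0, 0⟩, ⟨16, 4, 0, 0⟩, ⟨16, -4, 0, 0⟩, ⟨48, 0, -4, 0⟩⟩,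
  ⟨1, 15, 137, ⟨8, 0, 0, 0⟩, ⟨16, 4, 0, 0⟩, ⟨48, 0, -4, 0⟩, ⟨48, 0, 4, 0⟩⟩,
  ⟨1, 17, 137, ⟨10, 2, 0, 0⟩, ⟨10, -2, 0, 0⟩, ⟨26, 0, -2, 0⟩, ⟨32, -2, -2, 0⟩⟩,
  ⟨1, 19, 137, ⟨20, 4, 0, 0⟩, ⟨20, -4, 0, 0⟩, ⟨26, 0, -2, 0⟩, ⟨48, 0, -4, 0⟩⟩,
  ⟨1, 21, 137, ⟨10, 2, 0, 0⟩, ⟨20, 4, 0, 0⟩, ⟨26, 0, -2, 0⟩, ⟨42, -4, -2, 0⟩⟩,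
  ⟨1, 22, 137, ⟨8, 0, 0, 0⟩, ⟨20, 4, 0, 0⟩, ⟨20, -4, 0, 0⟩, ⟨48, 0, -4, 0⟩⟩]

theorem tab25_2_ok : allB tab25_2 E.ok = true := by decide +kernel

def tab25_3 : List E := [
  ⟨1, 23, 137, ⟨8, 0, 0, 0⟩, ⟨20, 4, 0, 0⟩, ⟨20, -4, 0, 0⟩, ⟨48, 0, -4, 0⟩⟩,
  ⟨1, 26, 137, ⟨24, 4, 0, 0⟩, ⟨24, -4, 0, 0⟩, ⟨26, 0, -2, 0⟩, ⟨48, 0, -4, 0⟩⟩,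
  ⟨1, 29, 137, ⟨14, 2, 0, 0⟩, ⟨24, 4, 0, 0⟩, ⟨26, 0, -2, 0⟩, ⟨26, 0, 2, 0⟩⟩,
  ⟨1, 30, 137, ⟨24, 4, 0, 0⟩, ⟨26, 0, -2, 0⟩, ⟨46, 4, -2, 0⟩, ⟨48, 0, -4, 0⟩⟩,
  ⟨1, 31, 137, ⟨8, 0, 0, 0⟩, ⟨24, 4, 0, 0⟩, ⟨46, -4, -2, 0⟩, ⟨48, 0, -4, 0⟩⟩,
  ⟨1, 33, 137, ⟨8, 0, 0, 0⟩, ⟨24, 4, 0, 0⟩, ⟨36, 2, -2, 0⟩, ⟨48, 0, -4, 0⟩⟩,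
  ⟨1, 34, 137, ⟨8, 0, 0, 0⟩, ⟨24, 4, 0, 0⟩, ⟨24, -4, 0, 0⟩, ⟨48, 0, -4, 0⟩⟩,
  ⟨1, 37, 137, ⟨8, 0, 0, 0⟩, ⟨14, 2, 0, 0⟩, ⟨36, -2, -2, 0⟩, ⟨48, 0, -4, 0⟩⟩,
  ⟨1, 41, 137, ⟨8, 0, 0, 0⟩, ⟨14, 2, 0, 0⟩, ⟨14, -2, 0, 0⟩, ⟨48, 0, -4, 0⟩⟩,
  ⟨1, 53, 137, ⟨18, 2, 0, 0⟩, ⟨32, 4, 0, 0⟩, ⟨26, 0, -2, 0⟩, ⟨48, 0, -4, 0⟩⟩]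

theorem tab25_3_ok : allB tab25_3 E.ok = true := by decide +kernel

def tab25_4 : List E := [
  ⟨1, 57, 137, ⟨8, 0, 0, 0⟩, ⟨32, 4, 0, 0⟩, ⟨40, -2, -2, 0⟩, ⟨48, 0, -4, 0⟩⟩,
  ⟨1, 61, 137, ⟨18, 2, 0, 0⟩, ⟨32, 4, 0, 0⟩, ⟨40, 2, -2, 0⟩, ⟨48, 0, -4, 0⟩⟩,
  ⟨1, 65, 137, ⟨8, 0, 0, 0⟩, ⟨18, 2, 0, 0⟩, ⟨40, -2, -2, 0⟩, ⟨48, 0, -4, 0⟩⟩,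
  ⟨1, 69, 137, ⟨8, 0, 0, 0⟩, ⟨18, 2, 0, 0⟩, ⟨18, -2, 0, 0⟩, ⟨48, 0, -4, 0⟩⟩,
  ⟨1, 73, 137, ⟨8, 0, 0, 0⟩, ⟨18, 2, 0, 0⟩, ⟨18, -2, 0, 0⟩, ⟨48, 0, -4, 0⟩⟩,
  ⟨1, 77, 137, ⟨8, 0, 0, 0⟩, ⟨18, 2, 0, 0⟩, ⟨48, 0, -4, 0⟩, ⟨48, 0, 4, 0⟩⟩,
  ⟨1, 85, 137, ⟨8, 0, 0, 0⟩, ⟨22, 2, 0, 0⟩, ⟨48, 0, -4, 0⟩, ⟨48, 0, 4, 0⟩⟩,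
  ⟨1, 89, 137, ⟨22, 2, 0, 0⟩, ⟨22, -2, 0, 0⟩, ⟨26, 0, -2, 0⟩, ⟨48, 0, -4, 0⟩⟩,
  ⟨1, 93, 137, ⟨22, 2, 0, 0⟩, ⟨22, -2, 0, 0⟩, ⟨26, 0, -2, 0⟩, ⟨48, 0, -4, 0⟩⟩,
  ⟨1, 97, 137, ⟨8, 0, 0, 0⟩, ⟨22, 2, 0, 0⟩, ⟨44, 2, -2, 0⟩, ⟨48, 0, -4, 0⟩⟩]

theorem tab25_4_ok : allB tab25_4 E.ok = true := by decide +kernel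

def tab25 : List E :=
  tab25_0 ++ (tab25_1 ++ (tab25_2 ++ (tab25_3 ++ (tab25_4))))

theorem tab25_ok : allB tab25 E.ok = true :=
  allB_append tab25_0_ok (allB_append tab25_1_ok (allB_append tab25_2_ok (allB_append tab25_3_ok
  tab25_4_ok)))

end BQN
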