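import Pool.Agent.BQN.App

/-! Table 26. -/

namespace BQN

def tab26_0 : List E := [
  ⟨1, 101, 137, ⟨8, 0, 0, 0⟩, ⟨22, 2, 0, 0⟩, ⟨44, 2, -2, 0⟩, ⟨48, 0, -4, 0⟩⟩,
  ⟨1, 105, 137, ⟨8, 0, 0, 0⟩, ⟨22, 2, 0, 0⟩, ⟨44, -2, -2, 0⟩, ⟨48, 0, -4, 0⟩⟩,
  ⟨1, 109, 137, ⟨8, 0, 0, 0⟩, ⟨22, 2, 0, 0⟩, ⟨22, -2, 0, 0⟩, ⟨48, 0, -4, 0⟩⟩,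
  ⟨1, 113, 137, ⟨8, 0, 0, 0⟩, ⟨22, 2, 0, 0⟩, ⟨22, -2, 0, 0⟩, ⟨48, 0, -4, 0⟩⟩,
  ⟨1, 129, 137, ⟨26, 2, 0, 0⟩, ⟨26, -2, 0, 0⟩, ⟨26, 0, -2, 0⟩, ⟨48, 0, -4, 0⟩⟩,
  ⟨1, 133, 137, ⟨8, 0, 0, 0⟩, ⟨26, 2, 0, 0⟩, ⟨48, 0, -4, 0⟩, ⟨48, 2, -2, 0⟩⟩,
  ⟨1, 2, 141, ⟨8, 4, 0, 0⟩, ⟨26, 0, -2, 0⟩, ⟨30, -4, -2, 0⟩, ⟨38, 14, -2, -2⟩⟩,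
  ⟨3, 1, 47, ⟨8, 4, 0, 0⟩, ⟨26, 0, -2, 0⟩, ⟨28, 0, 0, -4⟩, ⟨30, 6, -2, -2⟩⟩,
  ⟨1, 5, 141, ⟨26, 0, -2, 0⟩, ⟨29, 5, -1, -1⟩, ⟨29, -5, 1, -1⟩, ⟨34, -4, -2, 0⟩⟩,
  ⟨3, 2, 47, ⟨12, 4, 0, 0⟩, ⟨20, 8, 0, 0⟩, ⟨26, 0, -2, 0⟩, ⟨28, 2, 0, 2⟩⟩]

theorem tab26_0_ok : allB tab26_0 E.ok = true := by decide +kernel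

def tab26_1 : List E := [
  ⟨1, 7, 141, ⟨12, 4, 0, 0⟩, ⟨12, -4, 0, 0⟩, ⟨26, 0, -2, 0⟩, ⟨46, -8, -2, 0⟩⟩,
  ⟨1, 10, 141, ⟨16, 4, 0, 0⟩, ⟨28, 8, 0, 0⟩, ⟨26, 0, -2, 0⟩, ⟨48, 0, -4, 0⟩⟩,
  ⟨1, 11, 141, ⟨28, 8, 0, 0⟩, ⟨26, 0, -2, 0⟩, ⟨38, 4, -2, 0⟩, ⟨48, 0, -4, 0⟩⟩,
  ⟨1, 13, 141, ⟨10, 2, 0, 0⟩, ⟨10, -2, 0, 0⟩, ⟨26, 0, -2, 0⟩, ⟨26, 0, 2, 0⟩⟩,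
  ⟨1, 14, 141, ⟨16, 4, 0, 0⟩, ⟨16, -4, 0, 0⟩, ⟨26, 0, -2, 0⟩, ⟨48, 0, -4, 0⟩⟩,
  ⟨3, 5, 47, ⟨16, 4, 0, 0⟩, ⟨26, 0, -2, 0⟩, ⟨34, 6, -2, -2⟩, ⟨34, -6, 2, -2⟩⟩,
  ⟨1, 17, 141, ⟨10, 2, 0, 0⟩, ⟨26, 0, -2, 0⟩, ⟨32, -2, -2, 0⟩, ⟨32, 2, -2, 0⟩⟩,
  ⟨1, 19, 141, ⟨20, 4, 0, 0⟩, ⟨26, 0, -2, 0⟩, ⟨42, -4, -2, 0⟩, ⟨48, 0, -4, 0⟩⟩,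
  ⟨3, 7, 47, ⟨10, 2, 0, 0⟩, ⟨21, 3, -1, -1⟩, ⟨26, 0, 2, 0⟩, ⟨27, -1, 1, -1⟩⟩,
  ⟨1, 22, 141, ⟨20, 4, 0, 0⟩, ⟨20, -4, 0, 0⟩, ⟨26, 0, -2, 0⟩, ⟨48, 0, -4, 0⟩⟩]

theorem tab26_1_ok : allB tab26_1 E.ok = true := by decide +kernel

def tab26_2 : List E := [
  ⟨1, 23, 141, ⟨20, 4, 0, 0⟩, ⟨20, -4, 0, 0⟩, ⟨26, 0, -2, 0⟩, ⟨48, 0, -4, 0⟩⟩,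
  ⟨1, 26, 141, ⟨24, 4, 0, 0⟩, ⟨24, -4, 0, 0⟩, ⟨26, 0, -2, 0⟩, ⟨48, 0, -4, 0⟩⟩,
  ⟨1, 29, 141, ⟨14, 2, 0, 0⟩, ⟨24, 4, 0, 0⟩, ⟨26, 0, -2, 0⟩, ⟨26, 0, 2, 0⟩⟩,
  ⟨3, 10, 47, ⟨24, 4, 0, 0⟩, ⟨26, 0, -2, 0⟩, ⟨46, -4, -2, 0⟩, ⟨48, 0, -4, 0⟩⟩,
  ⟨1, 31, 141, ⟨24, 4, 0, 0⟩, ⟨24, -4, 0, 0⟩, ⟨26, 0, -2, 0⟩, ⟨48, 0, -4, 0⟩⟩,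
  ⟨3, 11, 47, ⟨14, 2, 0, 0⟩, ⟨26, 0, -2, 0⟩, ⟨29, 3, 1, 1⟩, ⟨31, -1, -1, 1⟩⟩,
  ⟨1, 34, 141, ⟨24, 4, 0, 0⟩, ⟨24, -4, 0, 0⟩, ⟨26, 0, -2, 0⟩, ⟨48, 0, -4, 0⟩⟩,
  ⟨1, 35, 141, ⟨8, 0, 0, 0⟩, ⟨24, 4, 0, 0⟩, ⟨26, 0, -2, 0⟩, ⟨48, 0, -4, 0⟩⟩,
  ⟨1, 37, 141, ⟨14, 2, 0, 0⟩, ⟨26, 0, -2, 0⟩, ⟨36, -2, -2, 0⟩, ⟨36, 2, -2, 0⟩⟩,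
  ⟨1, 41, 141, ⟨14, 2, 0, 0⟩, ⟨14, -2, 0, 0⟩, ⟨26, 0, -2, 0⟩, ⟨48, 0, -4, 0⟩⟩]

theorem tab26_2_ok : allB tab26_2 E.ok = true := by decide +kernel

def tab26_3 : List E := [
  ⟨1, 53, 141, ⟨18, 2, 0, 0⟩, ⟨32, 4, 0, 0⟩, ⟨26, 0, -2, 0⟩, ⟨48, 0, -4, 0⟩⟩,
  ⟨3, 19, 47, ⟨18, 2, 0, 0⟩, ⟨26, 0, -2, 0⟩, ⟨35, -1, -1, 1⟩, ⟨41, -3, 1, -1⟩⟩,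
  ⟨1, 61, 141, ⟨18, 2, 0, 0⟩, ⟨32, 4, 0, 0⟩, ⟨26, 0, -2, 0⟩, ⟨40, 2, -2, 0⟩⟩,
  ⟨1, 65, 141, ⟨18, 2, 0, 0⟩, ⟨26, 0, -2, 0⟩, ⟨40, -2, -2, 0⟩, ⟨40, 2, 2, 0⟩⟩,
  ⟨3, 23, 47, ⟨18, 2, 0, 0⟩, ⟨26, 0, -2, 0⟩, ⟨39, 1, -1, -1⟩, ⟨45, 5, 3, 1⟩⟩,
  ⟨1, 73, 141, ⟨18, 2, 0, 0⟩, ⟨18, -2, 0, 0⟩, ⟨26, 0, -2, 0⟩, ⟨48, 0, -4, 0⟩⟩,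
  ⟨1, 77, 141, ⟨8, 0, 0, 0⟩, ⟨18, 2, 0, 0⟩, ⟨26, 0, -2, 0⟩, ⟨48, 0, -4, 0⟩⟩,
  ⟨1, 85, 141, ⟨22, 2, 0, 0⟩, ⟨26, 0, -2, 0⟩, ⟨44, 2, -2, 0⟩, ⟨48, 0, -4, 0⟩⟩,
  ⟨1, 89, 141, ⟨22, 2, 0, 0⟩, ⟨22, -2, 0, 0⟩, ⟨26, 0, -2, 0⟩, ⟨48, 0, -4, 0⟩⟩,
  ⟨3, 31, 47, ⟨22, 2, 0, 0⟩, ⟨26, 0, -2, 0⟩, ⟨43, -1, -1, 1⟩, ⟨47, -3, -3, 1⟩⟩]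

theorem tab26_3_ok : allB tab26_3 E.ok = true := by decide +kernel

def tab26_4 : List E := [
  ⟨1, 97, 141, ⟨22, 2, 0, 0⟩, ⟨26, 0, -2, 0⟩, ⟨44, 2, -2, 0⟩, ⟨48, 0, -4, 0⟩⟩,
  ⟨1, 101, 141, ⟨22, 2, 0, 0⟩, ⟨26, 0, -2, 0⟩, ⟨44, -2, -2, 0⟩, ⟨48, 0, -4, 0⟩⟩,
  ⟨3, 35, 47, ⟨22, 2, 0, 0⟩, ⟨26, 0, -2, 0⟩, ⟨43, 1, -1, -1⟩, ⟨43, -1, 1, -1⟩⟩,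
  ⟨1, 109, 141, ⟨22, 2, 0, 0⟩, ⟨22, -2, 0, 0⟩, ⟨26, 0, -2, 0⟩, ⟨48, 0, -4, 0⟩⟩,
  ⟨1, 113, 141, ⟨22, 2, 0, 0⟩, ⟨22, -2, 0, 0⟩, ⟨26, 0, -2, 0⟩, ⟨48, 0, -4, 0⟩⟩,
  ⟨3, 43, 47, ⟨26, 2, 0, 0⟩, ⟨26, 0, -2, 0⟩, ⟨47, 3, -3, -1⟩, ⟨47, 1, -1, -1⟩⟩,
  ⟨1, 133, 141, ⟨26, 2, 0, 0⟩, ⟨26, 0, -2, 0⟩, ⟨48, 0, -4, 0⟩, ⟨48, -2, -2, 0⟩⟩,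
  ⟨1, 137, 141, ⟨26, 2, 0, 0⟩, ⟨26, 0, -2, 0⟩, ⟨48, 0, -4, 0⟩, ⟨48, -2, -2, 0⟩⟩,
  ⟨1, 2, 145, ⟨8, 4, 0, 0⟩, ⟨26, 0, -2, 0⟩, ⟨30, -4, -2, 0⟩, ⟨30, 4, -2, 0⟩⟩,
  ⟨1, 3, 145, ⟨8, 4, 0, 0⟩, ⟨26, 0, -2, 0⟩, ⟨38, -8, -2, 0⟩, ⟨38, 8, -2, 0⟩⟩]

theorem tab26_4_ok : allB tab26_4 E.ok = true := by decide +kernel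

def tab26 : List E :=
  tab26_0 ++ (tab26_1 ++ (tab26_2 ++ (tab26_3 ++ (tab26_4))))

theorem tab26_ok : allB tab26 E.ok = true :=
  allB_append tab26_0_ok (allB_append tab26_1_ok (allB_append tab26_2_ok (allB_append tab26_3_ok
  tab26_4_ok)))

end BQN
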