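import Pool.Agent.BQN.App

/-! Table 27. -/

namespace BQN

def tab27_0 : List E := [
  ⟨1, 6, 145, ⟨12, 4, 0, 0⟩, ⟨20, 8, 0, 0⟩, ⟨26, 0, -2, 0⟩, ⟨34, -4, -2, 0⟩⟩,
  ⟨1, 7, 145, ⟨8, 0, 0, 0⟩, ⟨12, 4, 0, 0⟩, ⟨26, 0, -2, 0⟩, ⟨46, 8, -2, 0⟩⟩,
  ⟨5, 2, 29, ⟨16, 4, 0, 0⟩, ⟨24, 2, 0, -2⟩, ⟨26, 0, 2, 0⟩, ⟨30, 6, 2, 2⟩⟩,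
  ⟨1, 11, 145, ⟨8, 0, 0, 0⟩, ⟨28, 8, 0, 0⟩, ⟨26, 0, -2, 0⟩, ⟨38, 4, -2, 0⟩⟩,
  ⟨1, 13, 145, ⟨8, 0, 0, 0⟩, ⟨10, 2, 0, 0⟩, ⟨26, 0, -2, 0⟩, ⟨32, -2, -2, 0⟩⟩,
  ⟨1, 14, 145, ⟨8, 0, 0, 0⟩, ⟨16, 4, 0, 0⟩, ⟨16, -4, 0, 0⟩, ⟨26, 0, -2, 0⟩⟩,
  ⟨5, 3, 29, ⟨16, 4, 0, 0⟩, ⟨26, 0, -2, 0⟩, ⟨28, -2, 0, -2⟩, ⟨30, -6, -2, 2⟩⟩,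
  ⟨1, 17, 145, ⟨8, 0, 0, 0⟩, ⟨10, 2, 0, 0⟩, ⟨10, -2, 0, 0⟩, ⟨26, 0, -2, 0⟩⟩,
  ⟨1, 19, 145, ⟨8, 0, 0, 0⟩, ⟨20, 4, 0, 0⟩, ⟨26, 0, -2, 0⟩, ⟨42, 4, -2, 0⟩⟩,
  ⟨1, 21, 145, ⟨8, 0, 0, 0⟩, ⟨10, 2, 0, 0⟩, ⟨26, 0, -2, 0⟩, ⟨26, 0, 2, 0⟩⟩]

theorem tab27_0_ok : allB tab27_0 E.ok = true := by decide +kernel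

def tab27_1 : List E := [
  ⟨1, 22, 145, ⟨8, 0, 0, 0⟩, ⟨20, 4, 0, 0⟩, ⟨20, -4, 0, 0⟩, ⟨26, 0, -2, 0⟩⟩,
  ⟨1, 23, 145, ⟨8, 0, 0, 0⟩, ⟨20, 4, 0, 0⟩, ⟨20, -4, 0, 0⟩, ⟨26, 0, -2, 0⟩⟩,
  ⟨1, 26, 145, ⟨8, 0, 0, 0⟩, ⟨24, 4, 0, 0⟩, ⟨26, 0, -2, 0⟩, ⟨46, 4, -2, 0⟩⟩,
  ⟨5, 6, 29, ⟨24, 4, 0, 0⟩, ⟨26, 0, -2, 0⟩, ⟨38, 6, 2, 2⟩, ⟨40, 2, 0, 2⟩⟩,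
  ⟨1, 31, 145, ⟨8, 0, 0, 0⟩, ⟨24, 4, 0, 0⟩, ⟨24, -4, 0, 0⟩, ⟨26, 0, -2, 0⟩⟩,
  ⟨1, 33, 145, ⟨8, 0, 0, 0⟩, ⟨24, 4, 0, 0⟩, ⟨26, 0, -2, 0⟩, ⟨36, 2, -2, 0⟩⟩,
  ⟨1, 34, 145, ⟨8, 0, 0, 0⟩, ⟨24, 4, 0, 0⟩, ⟨24, -4, 0, 0⟩, ⟨26, 0, -2, 0⟩⟩,
  ⟨5, 7, 29, ⟨24, 4, 0, 0⟩, ⟨26, 0, -2, 0⟩, ⟨42, 2, -2, -2⟩, ⟨42, -6, 2, -2⟩⟩,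
  ⟨1, 37, 145, ⟨8, 0, 0, 0⟩, ⟨14, -2, 0, 0⟩, ⟨26, 0, -2, 0⟩, ⟨50, -4, -2, 0⟩⟩,
  ⟨1, 41, 145, ⟨8, 0, 0, 0⟩, ⟨14, 2, 0, 0⟩, ⟨26, 0, -2, 0⟩, ⟨50, -4, -2, 0⟩⟩]

theorem tab27_1_ok : allB tab27_1 E.ok = true := by decide +kernel

def tab27_2 : List E := [
  ⟨1, 53, 145, ⟨18, 2, 0, 0⟩, ⟨32, 4, 0, 0⟩, ⟨26, 0, -2, 0⟩, ⟨26, 0, 2, 0⟩⟩,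
  ⟨1, 57, 145, ⟨8, 0, 0, 0⟩, ⟨32, 4, 0, 0⟩, ⟨26, 0, -2, 0⟩, ⟨40, -2, -2, 0⟩⟩,
  ⟨1, 61, 145, ⟨18, 2, 0, 0⟩, ⟨32, 4, 0, 0⟩, ⟨26, 0, -2, 0⟩, ⟨40, 2, -2, 0⟩⟩,
  ⟨5, 13, 29, ⟨8, 0, 0, 0⟩, ⟨18, 2, 0, 0⟩, ⟨25, -1, 1, -1⟩, ⟨26, 0, 2, 0⟩⟩,
  ⟨1, 69, 145, ⟨8, 0, 0, 0⟩, ⟨18, 2, 0, 0⟩, ⟨18, -2, 0, 0⟩, ⟨26, 0, -2, 0⟩⟩,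
  ⟨1, 73, 145, ⟨8, 0, 0, 0⟩, ⟨18, 2, 0, 0⟩, ⟨18, -2, 0, 0⟩, ⟨26, 0, -2, 0⟩⟩,
  ⟨1, 77, 145, ⟨8, 0, 0, 0⟩, ⟨18, 2, 0, 0⟩, ⟨26, 0, -2, 0⟩, ⟨26, 0, 2, 0⟩⟩,
  ⟨5, 17, 29, ⟨22, 2, 0, 0⟩, ⟨26, 0, -2, 0⟩, ⟨29, -1, -1, 1⟩, ⟨39, 3, 1, 1⟩⟩,
  ⟨1, 89, 145, ⟨8, 0, 0, 0⟩, ⟨22, 2, 0, 0⟩, ⟨26, 0, -2, 0⟩, ⟨44, -2, -2, 0⟩⟩,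
  ⟨1, 93, 145, ⟨8, 0, 0, 0⟩, ⟨26, 0, -2, 0⟩, ⟨44, -2, -2, 0⟩, ⟨44, 2, -2, 0⟩⟩]

theorem tab27_2_ok : allB tab27_2 E.ok = true := by decide +kernel

def tab27_3 : List E := [
  ⟨1, 97, 145, ⟨22, 2, 0, 0⟩, ⟨22, -2, 0, 0⟩, ⟨26, 0, -2, 0⟩, ⟨44, -2, -2, 0⟩⟩,
  ⟨1, 101, 145, ⟨8, 0, 0, 0⟩, ⟨22, 2, 0, 0⟩, ⟨22, -2, 0, 0⟩, ⟨26, 0, -2, 0⟩⟩,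
  ⟨5, 21, 29, ⟨22, 2, 0, 0⟩, ⟨26, 0, -2, 0⟩, ⟨29, 1, -1, -1⟩, ⟨29, -1, 1, -1⟩⟩,
  ⟨1, 109, 145, ⟨8, 0, 0, 0⟩, ⟨22, 2, 0, 0⟩, ⟨22, -2, 0, 0⟩, ⟨26, 0, -2, 0⟩⟩,
  ⟨1, 113, 145, ⟨8, 0, 0, 0⟩, ⟨22, 2, 0, 0⟩, ⟨22, -2, 0, 0⟩, ⟨26, 0, -2, 0⟩⟩,
  ⟨1, 129, 145, ⟨8, 0, 0, 0⟩, ⟨26, 2, 0, 0⟩, ⟨26, 0, -2, 0⟩, ⟨48, -2, -2, 0⟩⟩,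
  ⟨1, 133, 145, ⟨26, 2, 0, 0⟩, ⟨26, 0, -2, 0⟩, ⟨48, -2, -2, 0⟩, ⟨52, 0, -4, 0⟩⟩,
  ⟨1, 137, 145, ⟨26, 2, 0, 0⟩, ⟨26, 0, -2, 0⟩, ⟨48, 2, -2, 0⟩, ⟨52, 0, -4, 0⟩⟩,
  ⟨1, 141, 145, ⟨26, 2, 0, 0⟩, ⟨26, -2, 0, 0⟩, ⟨26, 0, -2, 0⟩, ⟨48, -2, -2, 0⟩⟩,
  ⟨1, 2, 149, ⟨8, 4, 0, 0⟩, ⟨26, 0, -2, 0⟩, ⟨38, 18, -2, -2⟩, ⟨38, -18, 2, -2⟩⟩]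

theorem tab27_3_ok : allB tab27_3 E.ok = true := by decide +kernel

def tab27_4 : List E := [
  ⟨1, 3, 149, ⟨8, 4, 0, 0⟩, ⟨26, 0, -2, 0⟩, ⟨46, 14, -2, -2⟩, ⟨46, -14, 2, -2⟩⟩,
  ⟨1, 5, 149, ⟨26, 0, -2, 0⟩, ⟨29, 5, -1, -1⟩, ⟨29, -5, 1, -1⟩, ⟨34, -4, -2, 0⟩⟩,
  ⟨1, 6, 149, ⟨12, 4, 0, 0⟩, ⟨12, -4, 0, 0⟩, ⟨20, 8, 0, 0⟩, ⟨26, 0, -2, 0⟩⟩,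
  ⟨1, 7, 149, ⟨8, 0, 0, 0⟩, ⟨12, 4, 0, 0⟩, ⟨26, 0, -2, 0⟩, ⟨46, -8, -2, 0⟩⟩,
  ⟨1, 10, 149, ⟨8, 0, 0, 0⟩, ⟨26, 0, -2, 0⟩, ⟨38, -4, -2, 0⟩, ⟨50, -8, -2, 0⟩⟩,
  ⟨1, 11, 149, ⟨8, 0, 0, 0⟩, ⟨28, 8, 0, 0⟩, ⟨26, 0, -2, 0⟩, ⟨38, 4, -2, 0⟩⟩,
  ⟨1, 13, 149, ⟨10, 2, 0, 0⟩, ⟨10, -2, 0, 0⟩, ⟨26, 0, -2, 0⟩, ⟨32, -2, -2, 0⟩⟩,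
  ⟨1, 14, 149, ⟨8, 0, 0, 0⟩, ⟨16, 4, 0, 0⟩, ⟨16, -4, 0, 0⟩, ⟨26, 0, -2, 0⟩⟩,
  ⟨1, 15, 149, ⟨8, 0, 0, 0⟩, ⟨16, 4, 0, 0⟩, ⟨26, 0, -2, 0⟩, ⟨26, 0, 2, 0⟩⟩,
  ⟨1, 17, 149, ⟨8, 0, 0, 0⟩, ⟨10, 2, 0, 0⟩, ⟨10, -2, 0, 0⟩, ⟨26, 0, -2, 0⟩⟩]

theorem tab27_4_ok : allB tab27_4 E.ok = true := by decide +kernel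

def tab27 : List E :=
  tab27_0 ++ (tab27_1 ++ (tab27_2 ++ (tab27_3 ++ (tab27_4))))

theorem tab27_ok : allB tab27 E.ok = true :=
  allB_append tab27_0_ok (allB_append tab27_1_ok (allB_append tab27_2_ok (allB_append tab27_3_ok
  tab27_4_ok)))

end BQN
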