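import Pool.Agent.BQN.App

/-! Table 28. -/

namespace BQN

def tab28_0 : List E := [
  ⟨1, 19, 149, ⟨20, 4, 0, 0⟩, ⟨26, 0, -2, 0⟩, ⟨42, -4, -2, 0⟩, ⟨42, 4, 2, 0⟩⟩,
  ⟨1, 21, 149, ⟨8, 0, 0, 0⟩, ⟨10, 2, 0, 0⟩, ⟨26, 0, -2, 0⟩, ⟨26, 0, 2, 0⟩⟩,
  ⟨1, 22, 149, ⟨8, 0, 0, 0⟩, ⟨20, 4, 0, 0⟩, ⟨20, -4, 0, 0⟩, ⟨26, 0, -2, 0⟩⟩,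
  ⟨1, 23, 149, ⟨8, 0, 0, 0⟩, ⟨20, 4, 0, 0⟩, ⟨20, -4, 0, 0⟩, ⟨26, 0, -2, 0⟩⟩,
  ⟨1, 26, 149, ⟨8, 0, 0, 0⟩, ⟨24, 4, 0, 0⟩, ⟨26, 0, -2, 0⟩, ⟨46, -4, -2, 0⟩⟩,
  ⟨1, 29, 149, ⟨14, 2, 0, 0⟩, ⟨26, 0, -2, 0⟩, ⟨46, -4, -2, 0⟩, ⟨46, 4, -2, 0⟩⟩,
  ⟨1, 30, 149, ⟨24, 4, 0, 0⟩, ⟨24, -4, 0, 0⟩, ⟨26, 0, -2, 0⟩, ⟨52, 0, -4, 0⟩⟩,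
  ⟨1, 31, 149, ⟨8, 0, 0, 0⟩, ⟨24, 4, 0, 0⟩, ⟨24, -4, 0, 0⟩, ⟨26, 0, -2, 0⟩⟩,
  ⟨1, 33, 149, ⟨14, 2, 0, 0⟩, ⟨26, 0, -2, 0⟩, ⟨36, -2, -2, 0⟩, ⟨36, 2, -2, 0⟩⟩,
  ⟨1, 34, 149, ⟨8, 0, 0, 0⟩, ⟨24, 4, 0, 0⟩, ⟨24, -4, 0, 0⟩, ⟨26, 0, -2, 0⟩⟩]

theorem tab28_0_ok : allB tab28_0 E.ok = true := by decide +kernel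

def tab28_1 : List E := [
  ⟨1, 35, 149, ⟨8, 0, 0, 0⟩, ⟨24, 4, 0, 0⟩, ⟨26, 0, -2, 0⟩, ⟨26, 0, 2, 0⟩⟩,
  ⟨1, 37, 149, ⟨8, 0, 0, 0⟩, ⟨14, -2, 0, 0⟩, ⟨26, 0, -2, 0⟩, ⟨50, -4, -2, 0⟩⟩,
  ⟨1, 41, 149, ⟨8, 0, 0, 0⟩, ⟨14, 2, 0, 0⟩, ⟨14, -2, 0, 0⟩, ⟨26, 0, -2, 0⟩⟩,
  ⟨1, 53, 149, ⟨8, 0, 0, 0⟩, ⟨26, 0, -2, 0⟩, ⟨40, -2, -2, 0⟩, ⟨40, 2, -2, 0⟩⟩,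
  ⟨1, 57, 149, ⟨8, 0, 0, 0⟩, ⟨32, 4, 0, 0⟩, ⟨26, 0, -2, 0⟩, ⟨40, 2, -2, 0⟩⟩,
  ⟨1, 61, 149, ⟨18, 2, 0, 0⟩, ⟨32, 4, 0, 0⟩, ⟨26, 0, -2, 0⟩, ⟨52, 0, -4, 0⟩⟩,
  ⟨1, 65, 149, ⟨8, 0, 0, 0⟩, ⟨18, 2, 0, 0⟩, ⟨26, 0, -2, 0⟩, ⟨26, 0, 2, 0⟩⟩,
  ⟨1, 69, 149, ⟨8, 0, 0, 0⟩, ⟨18, 2, 0, 0⟩, ⟨18, -2, 0, 0⟩, ⟨26, 0, -2, 0⟩⟩,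
  ⟨1, 73, 149, ⟨8, 0, 0, 0⟩, ⟨18, 2, 0, 0⟩, ⟨18, -2, 0, 0⟩, ⟨26, 0, -2, 0⟩⟩,
  ⟨1, 77, 149, ⟨8, 0, 0, 0⟩, ⟨18, 2, 0, 0⟩, ⟨26, 0, -2, 0⟩, ⟨26, 0, 2, 0⟩⟩]

theorem tab28_1_ok : allB tab28_1 E.ok = true := by decide +kernel

def tab28_2 : List E := [
  ⟨1, 85, 149, ⟨8, 0, 0, 0⟩, ⟨22, 2, 0, 0⟩, ⟨26, 0, -2, 0⟩, ⟨44, -2, -2, 0⟩⟩,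
  ⟨1, 89, 149, ⟨22, 2, 0, 0⟩, ⟨26, 0, -2, 0⟩, ⟨44, -2, -2, 0⟩, ⟨52, 0, -4, 0⟩⟩,
  ⟨1, 93, 149, ⟨22, 2, 0, 0⟩, ⟨26, 0, -2, 0⟩, ⟨44, -2, -2, 0⟩, ⟨52, 0, -4, 0⟩⟩,
  ⟨1, 97, 149, ⟨22, 2, 0, 0⟩, ⟨22, -2, 0, 0⟩, ⟨26, 0, -2, 0⟩, ⟨52, 0, -4, 0⟩⟩,
  ⟨1, 101, 149, ⟨8, 0, 0, 0⟩, ⟨22, 2, 0, 0⟩, ⟨22, -2, 0, 0⟩, ⟨26, 0, -2, 0⟩⟩,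
  ⟨1, 105, 149, ⟨8, 0, 0, 0⟩, ⟨22, 2, 0, 0⟩, ⟨26, 0, -2, 0⟩, ⟨26, 0, 2, 0⟩⟩,
  ⟨1, 109, 149, ⟨8, 0, 0, 0⟩, ⟨22, 2, 0, 0⟩, ⟨22, -2, 0, 0⟩, ⟨26, 0, -2, 0⟩⟩,
  ⟨1, 113, 149, ⟨8, 0, 0, 0⟩, ⟨22, 2, 0, 0⟩, ⟨22, -2, 0, 0⟩, ⟨26, 0, -2, 0⟩⟩,
  ⟨1, 129, 149, ⟨8, 0, 0, 0⟩, ⟨26, 2, 0, 0⟩, ⟨26, 0, -2, 0⟩, ⟨48, -2, -2, 0⟩⟩,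
  ⟨1, 133, 149, ⟨26, 2, 0, 0⟩, ⟨26, 0, -2, 0⟩, ⟨48, -2, -2, 0⟩, ⟨52, 0, -4, 0⟩⟩]

theorem tab28_2_ok : allB tab28_2 E.ok = true := by decide +kernel

def tab28_3 : List E := [
  ⟨1, 137, 149, ⟨26, 2, 0, 0⟩, ⟨26, 0, -2, 0⟩, ⟨48, -2, -2, 0⟩, ⟨52, 0, -4, 0⟩⟩,
  ⟨1, 141, 149, ⟨26, 2, 0, 0⟩, ⟨26, -2, 0, 0⟩, ⟨26, 0, -2, 0⟩, ⟨52, 0, -4, 0⟩⟩,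
  ⟨1, 145, 149, ⟨8, 0, 0, 0⟩, ⟨26, 2, 0, 0⟩, ⟨26, -2, 0, 0⟩, ⟨26, 0, -2, 0⟩⟩,
  ⟨1, 2, 157, ⟨8, 4, 0, 0⟩, ⟨26, 0, -2, 0⟩, ⟨38, 18, -2, -2⟩, ⟨38, -18, 2, -2⟩⟩,
  ⟨1, 3, 157, ⟨8, 4, 0, 0⟩, ⟨26, 0, -2, 0⟩, ⟨46, 14, -2, -2⟩, ⟨46, -14, 2, -2⟩⟩,
  ⟨1, 5, 157, ⟨26, 0, -2, 0⟩, ⟨26, 0, 2, 0⟩, ⟨33, 5, -1, -1⟩, ⟨33, -5, 1, -1⟩⟩,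
  ⟨1, 6, 157, ⟨12, 4, 0, 0⟩, ⟨12, -4, 0, 0⟩, ⟨20, 8, 0, 0⟩, ⟨26, 0, -2, 0⟩⟩,
  ⟨1, 7, 157, ⟨8, 0, 0, 0⟩, ⟨12, 4, 0, 0⟩, ⟨12, -4, 0, 0⟩, ⟨26, 0, -2, 0⟩⟩,
  ⟨1, 10, 157, ⟨16, 4, 0, 0⟩, ⟨28, 8, 0, 0⟩, ⟨26, 0, -2, 0⟩, ⟨38, -4, -2, 0⟩⟩,
  ⟨1, 11, 157, ⟨8, 0, 0, 0⟩, ⟨28, 8, 0, 0⟩, ⟨26, 0, -2, 0⟩, ⟨26, 0, 2, 0⟩⟩]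

theorem tab28_3_ok : allB tab28_3 E.ok = true := by decide +kernel

def tab28_4 : List E := [
  ⟨1, 13, 157, ⟨10, 2, 0, 0⟩, ⟨10, -2, 0, 0⟩, ⟨26, 0, -2, 0⟩, ⟨26, 0, 2, 0⟩⟩,
  ⟨1, 14, 157, ⟨8, 0, 0, 0⟩, ⟨16, 4, 0, 0⟩, ⟨16, -4, 0, 0⟩, ⟨26, 0, -2, 0⟩⟩,
  ⟨1, 15, 157, ⟨8, 0, 0, 0⟩, ⟨16, 4, 0, 0⟩, ⟨26, 0, -2, 0⟩, ⟨26, 0, 2, 0⟩⟩,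
  ⟨1, 17, 157, ⟨8, 0, 0, 0⟩, ⟨10, 2, 0, 0⟩, ⟨26, 0, -2, 0⟩, ⟨42, -4, -2, 0⟩⟩,
  ⟨1, 19, 157, ⟨20, 4, 0, 0⟩, ⟨20, -4, 0, 0⟩, ⟨26, 0, -2, 0⟩, ⟨26, 0, 2, 0⟩⟩,
  ⟨1, 21, 157, ⟨8, 0, 0, 0⟩, ⟨10, 2, 0, 0⟩, ⟨26, 0, -2, 0⟩, ⟨26, 0, 2, 0⟩⟩,
  ⟨1, 22, 157, ⟨8, 0, 0, 0⟩, ⟨20, 4, 0, 0⟩, ⟨20, -4, 0, 0⟩, ⟨26, 0, -2, 0⟩⟩,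
  ⟨1, 23, 157, ⟨8, 0, 0, 0⟩, ⟨20, 4, 0, 0⟩, ⟨20, -4, 0, 0⟩, ⟨26, 0, -2, 0⟩⟩,
  ⟨1, 26, 157, ⟨8, 0, 0, 0⟩, ⟨26, 0, -2, 0⟩, ⟨46, -4, -2, 0⟩, ⟨46, 4, -2, 0⟩⟩,
  ⟨1, 29, 157, ⟨14, 2, 0, 0⟩, ⟨26, 0, -2, 0⟩, ⟨36, -2, -2, 0⟩, ⟨36, 2, 2, 0⟩⟩]

theorem tab28_4_ok : allB tab28_4 E.ok = true := by decide +kernel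

def tab28 : List E :=
  tab28_0 ++ (tab28_1 ++ (tab28_2 ++ (tab28_3 ++ (tab28_4))))

theorem tab28_ok : allB tab28 E.ok = true :=
  allB_append tab28_0_ok (allB_append tab28_1_ok (allB_append tab28_2_ok (allB_append tab28_3_ok
  tab28_4_ok)))

end BQN
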