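import Pool.Agent.BQN.App

/-! Table 29. -/

namespace BQN

def tab29_0 : List E := [
  ⟨1, 30, 157, ⟨24, 4, 0, 0⟩, ⟨24, -4, 0, 0⟩, ⟨26, 0, -2, 0⟩, ⟨26, 0, 2, 0⟩⟩,
  ⟨1, 31, 157, ⟨8, 0, 0, 0⟩, ⟨24, 4, 0, 0⟩, ⟨26, 0, -2, 0⟩, ⟨26, 0, 2, 0⟩⟩,
  ⟨1, 33, 157, ⟨8, 0, 0, 0⟩, ⟨24, 4, 0, 0⟩, ⟨24, -4, 0, 0⟩, ⟨26, 0, -2, 0⟩⟩,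
  ⟨1, 34, 157, ⟨8, 0, 0, 0⟩, ⟨24, 4, 0, 0⟩, ⟨24, -4, 0, 0⟩, ⟨26, 0, -2, 0⟩⟩,
  ⟨1, 35, 157, ⟨8, 0, 0, 0⟩, ⟨24, 4, 0, 0⟩, ⟨26, 0, -2, 0⟩, ⟨26, 0, 2, 0⟩⟩,
  ⟨1, 37, 157, ⟨8, 0, 0, 0⟩, ⟨14, 2, 0, 0⟩, ⟨26, 0, -2, 0⟩, ⟨50, -4, -2, 0⟩⟩,
  ⟨1, 38, 157, ⟨28, 4, 0, 0⟩, ⟨26, 0, -2, 0⟩, ⟨26, 0, 2, 0⟩, ⟨50, -4, -2, 0⟩⟩,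
  ⟨1, 39, 157, ⟨8, 0, 0, 0⟩, ⟨28, 4, 0, 0⟩, ⟨26, 0, -2, 0⟩, ⟨26, 0, 2, 0⟩⟩,
  ⟨1, 41, 157, ⟨8, 0, 0, 0⟩, ⟨14, 2, 0, 0⟩, ⟨14, -2, 0, 0⟩, ⟨26, 0, -2, 0⟩⟩,
  ⟨1, 53, 157, ⟨8, 0, 0, 0⟩, ⟨18, 2, 0, 0⟩, ⟨26, 0, -2, 0⟩, ⟨40, -2, -2, 0⟩⟩]

theorem tab29_0_ok : allB tab29_0 E.ok = true := by decide +kernel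

def tab29_1 : List E := [
  ⟨1, 57, 157, ⟨8, 0, 0, 0⟩, ⟨32, 4, 0, 0⟩, ⟨26, 0, -2, 0⟩, ⟨26, 0, 2, 0⟩⟩,
  ⟨1, 61, 157, ⟨18, 2, 0, 0⟩, ⟨32, 4, 0, 0⟩, ⟨26, 0, -2, 0⟩, ⟨26, 0, 2, 0⟩⟩,
  ⟨1, 65, 157, ⟨8, 0, 0, 0⟩, ⟨18, 2, 0, 0⟩, ⟨26, 0, -2, 0⟩, ⟨26, 0, 2, 0⟩⟩,
  ⟨1, 69, 157, ⟨8, 0, 0, 0⟩, ⟨18, 2, 0, 0⟩, ⟨18, -2, 0, 0⟩, ⟨26, 0, -2, 0⟩⟩,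
  ⟨1, 73, 157, ⟨8, 0, 0, 0⟩, ⟨18, 2, 0, 0⟩, ⟨18, -2, 0, 0⟩, ⟨26, 0, -2, 0⟩⟩,
  ⟨1, 77, 157, ⟨8, 0, 0, 0⟩, ⟨18, 2, 0, 0⟩, ⟨26, 0, -2, 0⟩, ⟨26, 0, 2, 0⟩⟩,
  ⟨1, 85, 157, ⟨8, 0, 0, 0⟩, ⟨26, 0, -2, 0⟩, ⟨44, -2, -2, 0⟩, ⟨44, 2, -2, 0⟩⟩,
  ⟨1, 89, 157, ⟨22, 2, 0, 0⟩, ⟨26, 0, -2, 0⟩, ⟨44, -2, -2, 0⟩, ⟨44, 2, 2, 0⟩⟩,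
  ⟨1, 93, 157, ⟨22, 2, 0, 0⟩, ⟨22, -2, 0, 0⟩, ⟨26, 0, -2, 0⟩, ⟨26, 0, 2, 0⟩⟩,
  ⟨1, 97, 157, ⟨22, 2, 0, 0⟩, ⟨22, -2, 0, 0⟩, ⟨26, 0, -2, 0⟩, ⟨26, 0, 2, 0⟩⟩]

theorem tab29_1_ok : allB tab29_1 E.ok = true := by decide +kernel

def tab29_2 : List E := [
  ⟨1, 101, 157, ⟨8, 0, 0, 0⟩, ⟨22, 2, 0, 0⟩, ⟨26, 0, -2, 0⟩, ⟨26, 0, 2, 0⟩⟩,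
  ⟨1, 105, 157, ⟨8, 0, 0, 0⟩, ⟨22, 2, 0, 0⟩, ⟨26, 0, -2, 0⟩, ⟨26, 0, 2, 0⟩⟩,
  ⟨1, 109, 157, ⟨8, 0, 0, 0⟩, ⟨22, 2, 0, 0⟩, ⟨22, -2, 0, 0⟩, ⟨26, 0, -2, 0⟩⟩,
  ⟨1, 113, 157, ⟨8, 0, 0, 0⟩, ⟨22, 2, 0, 0⟩, ⟨22, -2, 0, 0⟩, ⟨26, 0, -2, 0⟩⟩,
  ⟨1, 129, 157, ⟨26, 2, 0, 0⟩, ⟨26, 0, -2, 0⟩, ⟨26, 0, 2, 0⟩, ⟨48, -2, -2, 0⟩⟩,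
  ⟨1, 133, 157, ⟨8, 0, 0, 0⟩, ⟨26, 2, 0, 0⟩, ⟨26, 0, -2, 0⟩, ⟨26, 0, 2, 0⟩⟩,
  ⟨1, 137, 157, ⟨26, 2, 0, 0⟩, ⟨26, -2, 0, 0⟩, ⟨26, 0, -2, 0⟩, ⟨26, 0, 2, 0⟩⟩,
  ⟨1, 141, 157, ⟨26, 2, 0, 0⟩, ⟨26, -2, 0, 0⟩, ⟨26, 0, -2, 0⟩, ⟨26, 0, 2, 0⟩⟩,
  ⟨1, 145, 157, ⟨8, 0, 0, 0⟩, ⟨26, 2, 0, 0⟩, ⟨26, 0, -2, 0⟩, ⟨26, 0, 2, 0⟩⟩,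
  ⟨1, 149, 157, ⟨8, 0, 0, 0⟩, ⟨26, 2, 0, 0⟩, ⟨26, 0, -2, 0⟩, ⟨26, 0, 2, 0⟩⟩]

theorem tab29_2_ok : allB tab29_2 E.ok = true := by decide +kernel

def tab29_3 : List E := [
  ⟨1, 2, 161, ⟨8, 4, 0, 0⟩, ⟨26, 0, -2, 0⟩, ⟨38, 18, -2, -2⟩, ⟨38, -18, 2, -2⟩⟩,
  ⟨1, 3, 161, ⟨8, 4, 0, 0⟩, ⟨26, 0, -2, 0⟩, ⟨46, 14, -2, -2⟩, ⟨46, -14, 2, -2⟩⟩,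
  ⟨1, 10, 161, ⟨16, 4, 0, 0⟩, ⟨28, 8, 0, 0⟩, ⟨26, 0, -2, 0⟩, ⟨26, 0, 2, 0⟩⟩,
  ⟨7, 2, 23, ⟨16, 4, 0, 0⟩, ⟨24, 2, 0, -2⟩, ⟨26, 0, -2, 0⟩, ⟨28, 0, 0, -4⟩⟩,
  ⟨7, 5, 23, ⟨24, 4, 0, 0⟩, ⟨26, 0, -2, 0⟩, ⟨36, 2, 0, 2⟩, ⟨42, 6, -2, -2⟩⟩,
  ⟨1, 2, 165, ⟨8, 4, 0, 0⟩, ⟨26, 0, -2, 0⟩, ⟨38, 18, -2, -2⟩, ⟨38, -18, 2, -2⟩⟩,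
  ⟨3, 1, 55, ⟨8, 4, 0, 0⟩, ⟨20, -2, 0, -2⟩, ⟨20, 2, 0, -2⟩, ⟨26, 0, -2, 0⟩⟩,
  ⟨3, 2, 55, ⟨12, 4, 0, 0⟩, ⟨20, 8, 0, 0⟩, ⟨26, 0, -2, 0⟩, ⟨28, 2, 0, -2⟩⟩,
  ⟨5, 2, 33, ⟨16, 4, 0, 0⟩, ⟨24, 2, 0, -2⟩, ⟨26, 0, -2, 0⟩, ⟨30, 6, 2, 2⟩⟩,
  ⟨1, 2, 173, ⟨8, 4, 0, 0⟩, ⟨38, -8, -2, 0⟩, ⟨38, 8, -2, 0⟩, ⟨42, 18, -2, -2⟩⟩]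

theorem tab29_3_ok : allB tab29_3 E.ok = true := by decide +kernel

def tab29_4 : List E := [
  ⟨1, 3, 173, ⟨8, 4, 0, 0⟩, ⟨30, 0, -2, 0⟩, ⟨34, -4, -2, 0⟩, ⟨34, 4, -2, 0⟩⟩,
  ⟨1, 5, 173, ⟨30, 0, -2, 0⟩, ⟨32, -2, -2, 0⟩, ⟨32, 2, -2, 0⟩, ⟨33, 5, -1, -1⟩⟩,
  ⟨1, 6, 173, ⟨12, 4, 0, 0⟩, ⟨20, 8, 0, 0⟩, ⟨46, -8, -2, 0⟩, ⟨46, 8, 2, 0⟩⟩,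
  ⟨1, 7, 173, ⟨8, 0, 0, 0⟩, ⟨12, 4, 0, 0⟩, ⟨12, -4, 0, 0⟩, ⟨30, 0, -2, 0⟩⟩,
  ⟨1, 10, 173, ⟨16, 4, 0, 0⟩, ⟨28, 8, 0, 0⟩, ⟨30, 0, -2, 0⟩, ⟨30, 0, 2, 0⟩⟩,
  ⟨1, 11, 173, ⟨16, 4, 0, 0⟩, ⟨28, 8, 0, 0⟩, ⟨30, 0, -2, 0⟩, ⟨30, 0, 2, 0⟩⟩,
  ⟨1, 13, 173, ⟨10, 2, 0, 0⟩, ⟨10, -2, 0, 0⟩, ⟨30, 0, -2, 0⟩, ⟨36, -2, -2, 0⟩⟩,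
  ⟨1, 14, 173, ⟨8, 0, 0, 0⟩, ⟨16, 4, 0, 0⟩, ⟨16, -4, 0, 0⟩, ⟨30, 0, -2, 0⟩⟩,
  ⟨1, 15, 173, ⟨16, 4, 0, 0⟩, ⟨30, 0, -2, 0⟩, ⟨42, -4, 2, 0⟩, ⟨42, 4, 2, 0⟩⟩,
  ⟨1, 17, 173, ⟨8, 0, 0, 0⟩, ⟨10, 2, 0, 0⟩, ⟨10, -2, 0, 0⟩, ⟨30, 0, -2, 0⟩⟩]

theorem tab29_4_ok : allB tab29_4 E.ok = true := by decide +kernel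

def tab29 : List E :=
  tab29_0 ++ (tab29_1 ++ (tab29_2 ++ (tab29_3 ++ (tab29_4))))

theorem tab29_ok : allB tab29 E.ok = true :=
  allB_append tab29_0_ok (allB_append tab29_1_ok (allB_append tab29_2_ok (allB_append tab29_3_ok
  tab29_4_ok)))

end BQN
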