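import Pool.Agent.BQN.App

/-! Table 3. -/

namespace BQN

def tab3_0 : List E := [
  ⟨1, 61, 26, ⟨18, 2, 0, 0⟩, ⟨32, 4, 0, 0⟩, ⟨24, 0, -4, 0⟩, ⟨44, 0, -8, 0⟩⟩,
  ⟨1, 69, 26, ⟨18, 2, 0, 0⟩, ⟨18, -2, 0, 0⟩, ⟨24, 0, -4, 0⟩, ⟨44, 0, -8, 0⟩⟩,
  ⟨1, 73, 26, ⟨18, 2, 0, 0⟩, ⟨18, -2, 0, 0⟩, ⟨24, 0, -4, 0⟩, ⟨44, 0, -8, 0⟩⟩,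
  ⟨1, 77, 26, ⟨8, 0, 0, 0⟩, ⟨18, 2, 0, 0⟩, ⟨38, -2, -4, 0⟩, ⟨38, 2, 4, 0⟩⟩,
  ⟨1, 85, 26, ⟨22, 2, 0, 0⟩, ⟨24, 0, -4, 0⟩, ⟨42, 2, -4, 0⟩, ⟨44, 0, -8, 0⟩⟩,
  ⟨1, 89, 26, ⟨22, 2, 0, 0⟩, ⟨22, -2, 0, 0⟩, ⟨24, 0, -4, 0⟩, ⟨44, 0, -8, 0⟩⟩,
  ⟨1, 93, 26, ⟨22, 2, 0, 0⟩, ⟨22, -2, 0, 0⟩, ⟨24, 0, -4, 0⟩, ⟨44, 0, -8, 0⟩⟩,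
  ⟨1, 97, 26, ⟨22, 2, 0, 0⟩, ⟨22, -2, 0, 0⟩, ⟨24, 0, -4, 0⟩, ⟨44, 0, -8, 0⟩⟩,
  ⟨1, 101, 26, ⟨22, 2, 0, 0⟩, ⟨22, -2, 0, 0⟩, ⟨24, 0, -4, 0⟩, ⟨44, 0, -8, 0⟩⟩,
  ⟨1, 2, 29, ⟨8, 4, 0, 0⟩, ⟨14, 0, -2, 0⟩, ⟨18, 6, -2, -2⟩, ⟨18, -6, 2, -2⟩⟩]

theorem tab3_0_ok : allB tab3_0 E.ok = true := by decide +kernel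

def tab3_1 : List E := [
  ⟨1, 3, 29, ⟨8, 4, 0, 0⟩, ⟨14, 0, -2, 0⟩, ⟨18, -4, 2, 0⟩, ⟨22, -6, 2, -2⟩⟩,
  ⟨1, 5, 29, ⟨8, 0, 0, 0⟩, ⟨15, 3, -1, -1⟩, ⟨16, -2, -2, 0⟩, ⟨16, 2, -2, 0⟩⟩,
  ⟨1, 6, 29, ⟨12, 4, 0, 0⟩, ⟨20, 8, 0, 0⟩, ⟨14, 0, -2, 0⟩, ⟨32, -2, 0, -2⟩⟩,
  ⟨1, 7, 29, ⟨8, 0, 0, 0⟩, ⟨12, 4, 0, 0⟩, ⟨12, -4, 0, 0⟩, ⟨22, -4, -2, 0⟩⟩,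
  ⟨1, 13, 29, ⟨10, 2, 0, 0⟩, ⟨14, 0, -2, 0⟩, ⟨23, -5, 3, -1⟩, ⟨25, -3, 3, -1⟩⟩,
  ⟨1, 17, 29, ⟨10, 2, 0, 0⟩, ⟨14, 0, -2, 0⟩, ⟨25, 1, -1, -1⟩, ⟨25, -1, 1, -1⟩⟩,
  ⟨1, 21, 29, ⟨10, 2, 0, 0⟩, ⟨14, 0, -2, 0⟩, ⟨20, -2, -2, 0⟩, ⟨29, 5, -5, -1⟩⟩,
  ⟨1, 7, 30, ⟨12, 4, 0, 0⟩, ⟨24, 0, -4, 0⟩, ⟨32, 4, -2, -2⟩, ⟨36, 12, -6, -2⟩⟩,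
  ⟨1, 11, 30, ⟨16, 4, 0, 0⟩, ⟨24, 0, 4, 0⟩, ⟨40, 4, -2, -2⟩, ⟨44, 12, -6, -2⟩⟩,
  ⟨1, 13, 30, ⟨10, 2, 0, 0⟩, ⟨10, -2, 0, 0⟩, ⟨24, 0, -4, 0⟩, ⟨30, -2, -4, 0⟩⟩]

theorem tab3_1_ok : allB tab3_1 E.ok = true := by decide +kernel

def tab3_2 : List E := [
  ⟨1, 17, 30, ⟨10, 2, 0, 0⟩, ⟨10, -2, 0, 0⟩, ⟨24, 0, -4, 0⟩, ⟨40, -4, -4, 0⟩⟩,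
  ⟨1, 19, 30, ⟨20, 4, 0, 0⟩, ⟨24, 0, -4, 0⟩, ⟨40, 4, -4, 0⟩, ⟨44, 0, -8, 0⟩⟩,
  ⟨3, 7, 10, ⟨10, 2, 0, 0⟩, ⟨22, 2, -2, -2⟩, ⟨24, 0, -4, 0⟩, ⟨28, -4, 2, -2⟩⟩,
  ⟨2, 11, 15, ⟨20, 4, 0, 0⟩, ⟨24, 0, -4, 0⟩, ⟨24, 2, -2, 0⟩, ⟨26, 0, 0, -2⟩⟩,
  ⟨1, 23, 30, ⟨20, 4, 0, 0⟩, ⟨20, -4, 0, 0⟩, ⟨24, 0, -4, 0⟩, ⟨44, 0, -8, 0⟩⟩,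
  ⟨2, 13, 15, ⟨24, 4, 0, 0⟩, ⟨24, 0, -4, 0⟩, ⟨24, 2, -2, 0⟩, ⟨24, 0, 4, 0⟩⟩,
  ⟨1, 29, 30, ⟨14, 2, 0, 0⟩, ⟨24, 0, -4, 0⟩, ⟨44, 0, -8, 0⟩, ⟨44, -4, -4, 0⟩⟩,
  ⟨3, 11, 10, ⟨14, 2, 0, 0⟩, ⟨22, 2, -2, -2⟩, ⟨22, -2, 2, -2⟩, ⟨24, 0, -4, 0⟩⟩,
  ⟨1, 37, 30, ⟨14, 2, 0, 0⟩, ⟨14, -2, 0, 0⟩, ⟨24, 0, -4, 0⟩, ⟨44, 0, -8, 0⟩⟩,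
  ⟨1, 41, 30, ⟨14, 2, 0, 0⟩, ⟨14, -2, 0, 0⟩, ⟨24, 0, -4, 0⟩, ⟨44, 0, -8, 0⟩⟩]

theorem tab3_2_ok : allB tab3_2 E.ok = true := by decide +kernel

def tab3_3 : List E := [
  ⟨1, 53, 30, ⟨18, 2, 0, 0⟩, ⟨32, 4, 0, 0⟩, ⟨24, 0, -4, 0⟩, ⟨44, 0, -8, 0⟩⟩,
  ⟨3, 19, 10, ⟨18, 2, 0, 0⟩, ⟨24, 0, -4, 0⟩, ⟨34, 2, 2, 2⟩, ⟨36, 4, -6, -2⟩⟩,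
  ⟨1, 61, 30, ⟨18, 2, 0, 0⟩, ⟨32, 4, 0, 0⟩, ⟨24, 0, -4, 0⟩, ⟨38, 2, -4, 0⟩⟩,
  ⟨5, 13, 6, ⟨18, 2, 0, 0⟩, ⟨24, 0, -4, 0⟩, ⟨26, 2, 2, 2⟩, ⟨32, 0, -2, 2⟩⟩,
  ⟨3, 23, 10, ⟨18, 2, 0, 0⟩, ⟨24, 0, -4, 0⟩, ⟨36, 4, -6, -2⟩, ⟨36, -4, -6, 2⟩⟩,
  ⟨1, 73, 30, ⟨18, 2, 0, 0⟩, ⟨18, -2, 0, 0⟩, ⟨24, 0, -4, 0⟩, ⟨44, 0, -8, 0⟩⟩,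
  ⟨1, 77, 30, ⟨18, 2, 0, 0⟩, ⟨24, 0, -4, 0⟩, ⟨24, 0, 4, 0⟩, ⟨44, 0, -8, 0⟩⟩,
  ⟨5, 17, 6, ⟨22, 2, 0, 0⟩, ⟨24, 0, -4, 0⟩, ⟨30, 2, 2, 2⟩, ⟨32, 0, -2, 2⟩⟩,
  ⟨1, 89, 30, ⟨22, 2, 0, 0⟩, ⟨24, 0, -4, 0⟩, ⟨42, -2, -4, 0⟩, ⟨44, 0, -8, 0⟩⟩,
  ⟨3, 31, 10, ⟨22, 2, 0, 0⟩, ⟨24, 0, -4, 0⟩, ⟨44, 0, -8, 0⟩, ⟨44, 4, 6, 2⟩⟩]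

theorem tab3_3_ok : allB tab3_3 E.ok = true := by decide +kernel

def tab3_4 : List E := [
  ⟨1, 97, 30, ⟨22, 2, 0, 0⟩, ⟨24, 0, -4, 0⟩, ⟨42, 2, -4, 0⟩, ⟨44, 0, -8, 0⟩⟩,
  ⟨1, 101, 30, ⟨22, 2, 0, 0⟩, ⟨22, -2, 0, 0⟩, ⟨24, 0, -4, 0⟩, ⟨44, 0, -8, 0⟩⟩,
  ⟨1, 109, 30, ⟨22, 2, 0, 0⟩, ⟨22, -2, 0, 0⟩, ⟨24, 0, -4, 0⟩, ⟨44, 0, -8, 0⟩⟩,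
  ⟨1, 113, 30, ⟨22, 2, 0, 0⟩, ⟨22, -2, 0, 0⟩, ⟨24, 0, -4, 0⟩, ⟨44, 0, -8, 0⟩⟩,
  ⟨1, 2, 31, ⟨8, 4, 0, 0⟩, ⟨24, 10, -4, -2⟩, ⟨24, -10, 4, -2⟩, ⟨24, 0, -4, 0⟩⟩,
  ⟨1, 5, 31, ⟨10, 2, 0, 0⟩, ⟨24, 0, -4, 0⟩, ⟨28, 4, -2, -2⟩, ⟨28, -4, -2, 2⟩⟩,
  ⟨1, 6, 31, ⟨12, 4, 0, 0⟩, ⟨20, 8, 0, 0⟩, ⟨24, 0, -4, 0⟩, ⟨32, 10, -4, -2⟩⟩,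
  ⟨1, 7, 31, ⟨12, 4, 0, 0⟩, ⟨20, 2, -2, 0⟩, ⟨24, 0, -4, 0⟩, ⟨30, 0, 0, -2⟩⟩,
  ⟨1, 10, 31, ⟨8, 0, 0, 0⟩, ⟨24, 0, -4, 0⟩, ⟨36, -4, -4, 0⟩, ⟨40, 6, -4, -2⟩⟩,
  ⟨1, 11, 31, ⟨8, 0, 0, 0⟩, ⟨28, 8, 0, 0⟩, ⟨24, 0, -4, 0⟩, ⟨32, 6, -2, 0⟩⟩]

theorem tab3_4_ok : allB tab3_4 E.ok = true := by decide +kernel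

def tab3 : List E :=
  tab3_0 ++ (tab3_1 ++ (tab3_2 ++ (tab3_3 ++ (tab3_4))))

theorem tab3_ok : allB tab3 E.ok = true :=
  allB_append tab3_0_ok (allB_append tab3_1_ok (allB_append tab3_2_ok (allB_append tab3_3_ok
  tab3_4_ok)))

end BQN
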