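import Pool.Agent.BQN.App

/-! Table 30. -/

namespace BQN

def tab30_0 : List E := [
  ⟨1, 19, 173, ⟨20, 4, 0, 0⟩, ⟨20, -4, 0, 0⟩, ⟨30, 0, -2, 0⟩, ⟨30, 0, 2, 0⟩⟩,
  ⟨1, 21, 173, ⟨8, 0, 0, 0⟩, ⟨10, 2, 0, 0⟩, ⟨36, -2, -2, 0⟩, ⟨36, 2, -2, 0⟩⟩,
  ⟨1, 22, 173, ⟨8, 0, 0, 0⟩, ⟨20, 4, 0, 0⟩, ⟨20, -4, 0, 0⟩, ⟨30, 0, -2, 0⟩⟩,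
  ⟨1, 23, 173, ⟨8, 0, 0, 0⟩, ⟨20, 4, 0, 0⟩, ⟨20, -4, 0, 0⟩, ⟨30, 0, -2, 0⟩⟩,
  ⟨1, 26, 173, ⟨24, 4, 0, 0⟩, ⟨24, -4, 0, 0⟩, ⟨30, 0, -2, 0⟩, ⟨56, 0, -4, 0⟩⟩,
  ⟨1, 29, 173, ⟨14, 2, 0, 0⟩, ⟨24, 4, 0, 0⟩, ⟨30, 0, -2, 0⟩, ⟨30, 0, 2, 0⟩⟩,
  ⟨1, 30, 173, ⟨24, 4, 0, 0⟩, ⟨24, -4, 0, 0⟩, ⟨30, 0, -2, 0⟩, ⟨56, 0, -4, 0⟩⟩,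
  ⟨1, 31, 173, ⟨24, 4, 0, 0⟩, ⟨24, -4, 0, 0⟩, ⟨30, 0, -2, 0⟩, ⟨56, 0, -4, 0⟩⟩,
  ⟨1, 33, 173, ⟨14, 2, 0, 0⟩, ⟨24, 4, 0, 0⟩, ⟨30, 0, -2, 0⟩, ⟨50, 4, -2, 0⟩⟩,
  ⟨1, 34, 173, ⟨24, 4, 0, 0⟩, ⟨24, -4, 0, 0⟩, ⟨30, 0, -2, 0⟩, ⟨56, 0, -4, 0⟩⟩]

theorem tab30_0_ok : allB tab30_0 E.ok = true := by decide +kernel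

def tab30_1 : List E := [
  ⟨1, 35, 173, ⟨8, 0, 0, 0⟩, ⟨24, 4, 0, 0⟩, ⟨50, -4, -2, 0⟩, ⟨50, 4, 2, 0⟩⟩,
  ⟨1, 37, 173, ⟨8, 0, 0, 0⟩, ⟨14, 2, 0, 0⟩, ⟨14, -2, 0, 0⟩, ⟨30, 0, -2, 0⟩⟩,
  ⟨1, 38, 173, ⟨28, 4, 0, 0⟩, ⟨28, -4, 0, 0⟩, ⟨30, 0, -2, 0⟩, ⟨56, 0, -4, 0⟩⟩,
  ⟨1, 39, 173, ⟨28, 4, 0, 0⟩, ⟨28, -4, 0, 0⟩, ⟨30, 0, -2, 0⟩, ⟨56, 0, -4, 0⟩⟩,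
  ⟨1, 41, 173, ⟨8, 0, 0, 0⟩, ⟨14, 2, 0, 0⟩, ⟨14, -2, 0, 0⟩, ⟨30, 0, -2, 0⟩⟩,
  ⟨1, 42, 173, ⟨28, 4, 0, 0⟩, ⟨28, -4, 0, 0⟩, ⟨30, 0, -2, 0⟩, ⟨56, 0, -4, 0⟩⟩,
  ⟨1, 43, 173, ⟨28, 4, 0, 0⟩, ⟨28, -4, 0, 0⟩, ⟨30, 0, -2, 0⟩, ⟨56, 0, -4, 0⟩⟩,
  ⟨1, 53, 173, ⟨18, 2, 0, 0⟩, ⟨32, 4, 0, 0⟩, ⟨30, 0, -2, 0⟩, ⟨30, 0, 2, 0⟩⟩,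
  ⟨1, 57, 173, ⟨18, 2, 0, 0⟩, ⟨32, 4, 0, 0⟩, ⟨30, 0, -2, 0⟩, ⟨30, 0, 2, 0⟩⟩,
  ⟨1, 61, 173, ⟨18, 2, 0, 0⟩, ⟨32, 4, 0, 0⟩, ⟨30, 0, -2, 0⟩, ⟨30, 0, 2, 0⟩⟩]

theorem tab30_1_ok : allB tab30_1 E.ok = true := by decide +kernel

def tab30_2 : List E := [
  ⟨1, 65, 173, ⟨8, 0, 0, 0⟩, ⟨18, 2, 0, 0⟩, ⟨30, 0, -2, 0⟩, ⟨44, 2, -2, 0⟩⟩,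
  ⟨1, 69, 173, ⟨8, 0, 0, 0⟩, ⟨18, 2, 0, 0⟩, ⟨18, -2, 0, 0⟩, ⟨30, 0, -2, 0⟩⟩,
  ⟨1, 73, 173, ⟨8, 0, 0, 0⟩, ⟨18, 2, 0, 0⟩, ⟨18, -2, 0, 0⟩, ⟨30, 0, -2, 0⟩⟩,
  ⟨1, 77, 173, ⟨8, 0, 0, 0⟩, ⟨18, 2, 0, 0⟩, ⟨44, -2, -2, 0⟩, ⟨44, 2, 2, 0⟩⟩,
  ⟨1, 85, 173, ⟨22, 2, 0, 0⟩, ⟨30, 0, -2, 0⟩, ⟨48, 2, -2, 0⟩, ⟨56, 0, -4, 0⟩⟩,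
  ⟨1, 89, 173, ⟨22, 2, 0, 0⟩, ⟨22, -2, 0, 0⟩, ⟨30, 0, -2, 0⟩, ⟨56, 0, -4, 0⟩⟩,
  ⟨1, 93, 173, ⟨22, 2, 0, 0⟩, ⟨22, -2, 0, 0⟩, ⟨30, 0, -2, 0⟩, ⟨56, 0, -4, 0⟩⟩,
  ⟨1, 97, 173, ⟨22, 2, 0, 0⟩, ⟨22, -2, 0, 0⟩, ⟨30, 0, -2, 0⟩, ⟨56, 0, -4, 0⟩⟩,
  ⟨1, 101, 173, ⟨22, 2, 0, 0⟩, ⟨22, -2, 0, 0⟩, ⟨30, 0, -2, 0⟩, ⟨56, 0, -4, 0⟩⟩,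
  ⟨1, 105, 173, ⟨8, 0, 0, 0⟩, ⟨22, 2, 0, 0⟩, ⟨30, 0, -2, 0⟩, ⟨48, 2, -2, 0⟩⟩]

theorem tab30_2_ok : allB tab30_2 E.ok = true := by decide +kernel

def tab30_3 : List E := [
  ⟨1, 109, 173, ⟨22, 2, 0, 0⟩, ⟨22, -2, 0, 0⟩, ⟨30, 0, -2, 0⟩, ⟨56, 0, -4, 0⟩⟩,
  ⟨1, 113, 173, ⟨22, 2, 0, 0⟩, ⟨22, -2, 0, 0⟩, ⟨30, 0, -2, 0⟩, ⟨56, 0, -4, 0⟩⟩,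
  ⟨1, 129, 173, ⟨26, 2, 0, 0⟩, ⟨26, -2, 0, 0⟩, ⟨30, 0, -2, 0⟩, ⟨56, 0, -4, 0⟩⟩,
  ⟨1, 133, 173, ⟨26, 2, 0, 0⟩, ⟨30, 0, -2, 0⟩, ⟨52, 2, -2, 0⟩, ⟨56, 0, -4, 0⟩⟩,
  ⟨1, 137, 173, ⟨26, 2, 0, 0⟩, ⟨26, -2, 0, 0⟩, ⟨30, 0, -2, 0⟩, ⟨56, 0, -4, 0⟩⟩,
  ⟨1, 141, 173, ⟨26, 2, 0, 0⟩, ⟨26, -2, 0, 0⟩, ⟨30, 0, -2, 0⟩, ⟨56, 0, -4, 0⟩⟩,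
  ⟨1, 145, 173, ⟨26, 2, 0, 0⟩, ⟨26, -2, 0, 0⟩, ⟨30, 0, -2, 0⟩, ⟨56, 0, -4, 0⟩⟩,
  ⟨1, 149, 173, ⟨26, 2, 0, 0⟩, ⟨26, -2, 0, 0⟩, ⟨30, 0, -2, 0⟩, ⟨56, 0, -4, 0⟩⟩,
  ⟨1, 157, 173, ⟨26, 2, 0, 0⟩, ⟨26, -2, 0, 0⟩, ⟨30, 0, -2, 0⟩, ⟨56, 0, -4, 0⟩⟩,
  ⟨1, 161, 173, ⟨26, 2, 0, 0⟩, ⟨26, -2, 0, 0⟩, ⟨30, 0, -2, 0⟩, ⟨56, 0, -4, 0⟩⟩]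

theorem tab30_3_ok : allB tab30_3 E.ok = true := by decide +kernel

def tab30_4 : List E := [
  ⟨1, 165, 173, ⟨26, 2, 0, 0⟩, ⟨30, 0, -2, 0⟩, ⟨52, -2, -2, 0⟩, ⟨52, 2, -2, 0⟩⟩,
  ⟨1, 2, 177, ⟨8, 4, 0, 0⟩, ⟨38, -8, -2, 0⟩, ⟨38, 8, 2, 0⟩, ⟨42, 18, -2, -2⟩⟩,
  ⟨3, 1, 59, ⟨8, 4, 0, 0⟩, ⟨20, -2, 0, -2⟩, ⟨20, 2, 0, -2⟩, ⟨30, -10, -2, 2⟩⟩,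
  ⟨1, 5, 177, ⟨32, -2, -2, 0⟩, ⟨32, 2, -2, 0⟩, ⟨33, 5, -1, -1⟩, ⟨33, -5, -1, 1⟩⟩,
  ⟨3, 2, 59, ⟨12, 4, 0, 0⟩, ⟨20, 8, 0, 0⟩, ⟨28, 2, 0, -2⟩, ⟨30, 10, -2, -2⟩⟩,
  ⟨1, 7, 177, ⟨8, 0, 0, 0⟩, ⟨12, 4, 0, 0⟩, ⟨12, -4, 0, 0⟩, ⟨30, 0, -2, 0⟩⟩,
  ⟨1, 10, 177, ⟨16, 4, 0, 0⟩, ⟨28, 8, 0, 0⟩, ⟨30, 0, -2, 0⟩, ⟨30, 0, 2, 0⟩⟩,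
  ⟨1, 11, 177, ⟨8, 0, 0, 0⟩, ⟨28, -8, 0, 0⟩, ⟨30, 0, -2, 0⟩, ⟨54, -8, -2, 0⟩⟩,
  ⟨1, 13, 177, ⟨10, 2, 0, 0⟩, ⟨10, -2, 0, 0⟩, ⟨30, 0, -2, 0⟩, ⟨30, 0, 2, 0⟩⟩,
  ⟨1, 14, 177, ⟨8, 0, 0, 0⟩, ⟨16, 4, 0, 0⟩, ⟨16, -4, 0, 0⟩, ⟨42, -4, -2, 0⟩⟩]

theorem tab30_4_ok : allB tab30_4 E.ok = true := by decide +kernel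

def tab30 : List E :=
  tab30_0 ++ (tab30_1 ++ (tab30_2 ++ (tab30_3 ++ (tab30_4))))

theorem tab30_ok : allB tab30 E.ok = true :=
  allB_append tab30_0_ok (allB_append tab30_1_ok (allB_append tab30_2_ok (allB_append tab30_3_ok
  tab30_4_ok)))

end BQN
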