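import Pool.Agent.BQN.App

/-! Table 31. -/

namespace BQN

def tab31_0 : List E := [
  ⟨3, 5, 59, ⟨16, 4, 0, 0⟩, ⟨30, 0, -2, 0⟩, ⟨38, 6, -2, -2⟩, ⟨38, -6, 2, -2⟩⟩,
  ⟨1, 17, 177, ⟨8, 0, 0, 0⟩, ⟨10, 2, 0, 0⟩, ⟨10, -2, 0, 0⟩, ⟨30, 0, -2, 0⟩⟩,
  ⟨1, 19, 177, ⟨20, 4, 0, 0⟩, ⟨20, -4, 0, 0⟩, ⟨30, 0, -2, 0⟩, ⟨30, 0, 2, 0⟩⟩,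
  ⟨3, 7, 59, ⟨10, 2, 0, 0⟩, ⟨21, 3, -1, -1⟩, ⟨21, -3, 1, -1⟩, ⟨30, 0, -2, 0⟩⟩,
  ⟨1, 22, 177, ⟨8, 0, 0, 0⟩, ⟨20, 4, 0, 0⟩, ⟨20, -4, 0, 0⟩, ⟨30, 0, -2, 0⟩⟩,
  ⟨1, 23, 177, ⟨20, 4, 0, 0⟩, ⟨20, -4, 0, 0⟩, ⟨30, 0, -2, 0⟩, ⟨46, -4, 2, 0⟩⟩,
  ⟨1, 26, 177, ⟨24, 4, 0, 0⟩, ⟨24, -4, 0, 0⟩, ⟨30, 0, -2, 0⟩, ⟨56, 0, -4, 0⟩⟩,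
  ⟨1, 29, 177, ⟨14, 2, 0, 0⟩, ⟨24, 4, 0, 0⟩, ⟨30, 0, -2, 0⟩, ⟨30, 0, 2, 0⟩⟩,
  ⟨3, 10, 59, ⟨24, 4, 0, 0⟩, ⟨30, 0, 2, 0⟩, ⟨50, 4, 2, 0⟩, ⟨58, 6, -2, -2⟩⟩,
  ⟨1, 31, 177, ⟨24, 4, 0, 0⟩, ⟨24, -4, 0, 0⟩, ⟨30, 0, -2, 0⟩, ⟨56, 0, -4, 0⟩⟩]

theorem tab31_0_ok : allB tab31_0 E.ok = true := by decide +kernel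

def tab31_1 : List E := [
  ⟨3, 11, 59, ⟨14, 2, 0, 0⟩, ⟨30, 0, -2, 0⟩, ⟨33, 3, 1, 1⟩, ⟨35, -1, -1, 1⟩⟩,
  ⟨1, 34, 177, ⟨24, 4, 0, 0⟩, ⟨30, 0, -2, 0⟩, ⟨50, -4, -2, 0⟩, ⟨50, 4, 2, 0⟩⟩,
  ⟨1, 35, 177, ⟨8, 0, 0, 0⟩, ⟨24, 4, 0, 0⟩, ⟨30, 0, -2, 0⟩, ⟨56, 0, -4, 0⟩⟩,
  ⟨1, 37, 177, ⟨8, 0, 0, 0⟩, ⟨14, 2, 0, 0⟩, ⟨14, -2, 0, 0⟩, ⟨30, 0, -2, 0⟩⟩,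
  ⟨1, 38, 177, ⟨28, 4, 0, 0⟩, ⟨28, -4, 0, 0⟩, ⟨30, 0, -2, 0⟩, ⟨56, 0, -4, 0⟩⟩,
  ⟨3, 13, 59, ⟨28, 4, 0, 0⟩, ⟨28, -4, 0, 0⟩, ⟨30, 0, -2, 0⟩, ⟨56, 0, -4, 0⟩⟩,
  ⟨1, 41, 177, ⟨8, 0, 0, 0⟩, ⟨14, 2, 0, 0⟩, ⟨14, -2, 0, 0⟩, ⟨40, -2, -2, 0⟩⟩,
  ⟨3, 14, 59, ⟨28, 4, 0, 0⟩, ⟨28, -4, 0, 0⟩, ⟨30, 0, -2, 0⟩, ⟨56, 0, -4, 0⟩⟩,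
  ⟨1, 43, 177, ⟨28, 4, 0, 0⟩, ⟨28, -4, 0, 0⟩, ⟨30, 0, -2, 0⟩, ⟨56, 0, -4, 0⟩⟩,
  ⟨1, 53, 177, ⟨18, 2, 0, 0⟩, ⟨32, 4, 0, 0⟩, ⟨30, 0, -2, 0⟩, ⟨30, 0, 2, 0⟩⟩]

theorem tab31_1_ok : allB tab31_1 E.ok = true := by decide +kernel

def tab31_2 : List E := [
  ⟨3, 19, 59, ⟨18, 2, 0, 0⟩, ⟨30, 0, -2, 0⟩, ⟨43, -1, -1, 1⟩, ⟨45, 5, -3, -1⟩⟩,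
  ⟨1, 61, 177, ⟨18, 2, 0, 0⟩, ⟨32, 4, 0, 0⟩, ⟨30, 0, -2, 0⟩, ⟨30, 0, 2, 0⟩⟩,
  ⟨1, 65, 177, ⟨8, 0, 0, 0⟩, ⟨18, 2, 0, 0⟩, ⟨30, 0, -2, 0⟩, ⟨44, 2, -2, 0⟩⟩,
  ⟨3, 23, 59, ⟨18, 2, 0, 0⟩, ⟨30, 0, -2, 0⟩, ⟨43, 1, -1, -1⟩, ⟨45, 5, -3, -1⟩⟩,
  ⟨1, 73, 177, ⟨8, 0, 0, 0⟩, ⟨18, 2, 0, 0⟩, ⟨18, -2, 0, 0⟩, ⟨44, -2, -2, 0⟩⟩,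
  ⟨1, 77, 177, ⟨8, 0, 0, 0⟩, ⟨18, 2, 0, 0⟩, ⟨30, 0, -2, 0⟩, ⟨56, 0, -4, 0⟩⟩,
  ⟨1, 85, 177, ⟨22, 2, 0, 0⟩, ⟨30, 0, -2, 0⟩, ⟨48, 2, -2, 0⟩, ⟨56, 0, -4, 0⟩⟩,
  ⟨1, 89, 177, ⟨22, 2, 0, 0⟩, ⟨22, -2, 0, 0⟩, ⟨30, 0, -2, 0⟩, ⟨56, 0, -4, 0⟩⟩,
  ⟨3, 31, 59, ⟨22, 2, 0, 0⟩, ⟨30, 0, -2, 0⟩, ⟨47, 1, -1, -1⟩, ⟨47, -1, 1, -1⟩⟩,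
  ⟨1, 97, 177, ⟨22, 2, 0, 0⟩, ⟨22, -2, 0, 0⟩, ⟨30, 0, -2, 0⟩, ⟨56, 0, -4, 0⟩⟩]

theorem tab31_2_ok : allB tab31_2 E.ok = true := by decide +kernel

def tab31_3 : List E := [
  ⟨1, 101, 177, ⟨22, 2, 0, 0⟩, ⟨22, -2, 0, 0⟩, ⟨30, 0, -2, 0⟩, ⟨56, 0, -4, 0⟩⟩,
  ⟨3, 35, 59, ⟨22, 2, 0, 0⟩, ⟨30, 0, -2, 0⟩, ⟨48, 2, -2, 0⟩, ⟨51, -1, -1, 1⟩⟩,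
  ⟨1, 109, 177, ⟨22, 2, 0, 0⟩, ⟨22, -2, 0, 0⟩, ⟨30, 0, -2, 0⟩, ⟨56, 0, -4, 0⟩⟩,
  ⟨1, 113, 177, ⟨22, 2, 0, 0⟩, ⟨48, -2, -2, 0⟩, ⟨48, 2, 2, 0⟩, ⟨56, 0, -4, 0⟩⟩,
  ⟨3, 43, 59, ⟨26, 2, 0, 0⟩, ⟨30, 0, -2, 0⟩, ⟨55, -1, -1, 1⟩, ⟨56, 0, -4, 0⟩⟩,
  ⟨1, 133, 177, ⟨26, 2, 0, 0⟩, ⟨30, 0, -2, 0⟩, ⟨52, 2, -2, 0⟩, ⟨56, 0, -4, 0⟩⟩,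
  ⟨1, 137, 177, ⟨26, 2, 0, 0⟩, ⟨26, -2, 0, 0⟩, ⟨30, 0, -2, 0⟩, ⟨56, 0, -4, 0⟩⟩,
  ⟨3, 47, 59, ⟨26, 2, 0, 0⟩, ⟨30, 0, -2, 0⟩, ⟨55, 1, -1, -1⟩, ⟨55, -1, 1, -1⟩⟩,
  ⟨1, 145, 177, ⟨26, 2, 0, 0⟩, ⟨26, -2, 0, 0⟩, ⟨30, 0, -2, 0⟩, ⟨56, 0, -4, 0⟩⟩,
  ⟨1, 149, 177, ⟨26, 2, 0, 0⟩, ⟨26, -2, 0, 0⟩, ⟨30, 0, -2, 0⟩, ⟨56, 0, -4, 0⟩⟩]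

theorem tab31_3_ok : allB tab31_3 E.ok = true := by decide +kernel

def tab31_4 : List E := [
  ⟨1, 157, 177, ⟨26, 2, 0, 0⟩, ⟨26, -2, 0, 0⟩, ⟨30, 0, -2, 0⟩, ⟨56, 0, -4, 0⟩⟩,
  ⟨1, 161, 177, ⟨26, 2, 0, 0⟩, ⟨26, -2, 0, 0⟩, ⟨30, 0, -2, 0⟩, ⟨52, -2, -2, 0⟩⟩,
  ⟨3, 55, 59, ⟨26, 2, 0, 0⟩, ⟨30, 0, -2, 0⟩, ⟨56, 0, -4, 0⟩, ⟨59, 3, -3, -1⟩⟩,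
  ⟨1, 173, 177, ⟨30, 2, 0, 0⟩, ⟨30, -2, 0, 0⟩, ⟨30, 0, -2, 0⟩, ⟨56, 0, -4, 0⟩⟩,
  ⟨1, 2, 181, ⟨8, 4, 0, 0⟩, ⟨30, 0, -2, 0⟩, ⟨42, 18, -2, -2⟩, ⟨42, -18, 2, -2⟩⟩,
  ⟨1, 3, 181, ⟨8, 4, 0, 0⟩, ⟨30, 0, -2, 0⟩, ⟨34, -4, -2, 0⟩, ⟨34, 4, -2, 0⟩⟩,
  ⟨1, 5, 181, ⟨8, 0, 0, 0⟩, ⟨32, -2, -2, 0⟩, ⟨33, 5, -1, -1⟩, ⟨33, -5, 1, -1⟩⟩,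
  ⟨1, 6, 181, ⟨12, 4, 0, 0⟩, ⟨12, -4, 0, 0⟩, ⟨20, 8, 0, 0⟩, ⟨30, 0, -2, 0⟩⟩,
  ⟨1, 7, 181, ⟨8, 0, 0, 0⟩, ⟨12, 4, 0, 0⟩, ⟨12, -4, 0, 0⟩, ⟨38, -4, -2, 0⟩⟩,
  ⟨1, 10, 181, ⟨16, 4, 0, 0⟩, ⟨28, 8, 0, 0⟩, ⟨30, 0, -2, 0⟩, ⟨30, 0, 2, 0⟩⟩]

theorem tab31_4_ok : allB tab31_4 E.ok = true := by decide +kernel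

def tab31 : List E :=
  tab31_0 ++ (tab31_1 ++ (tab31_2 ++ (tab31_3 ++ (tab31_4))))

theorem tab31_ok : allB tab31 E.ok = true :=
  allB_append tab31_0_ok (allB_append tab31_1_ok (allB_append tab31_2_ok (allB_append tab31_3_ok
  tab31_4_ok)))

end BQN
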