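import Pool.Agent.BQN.App

/-! Table 33. -/

namespace BQN

def tab33_0 : List E := [
  ⟨1, 6, 185, ⟨12, 4, 0, 0⟩, ⟨12, -4, 0, 0⟩, ⟨20, 8, 0, 0⟩, ⟨30, 0, -2, 0⟩⟩,
  ⟨1, 7, 185, ⟨12, 4, 0, 0⟩, ⟨12, -4, 0, 0⟩, ⟨30, 0, -2, 0⟩, ⟨38, -4, -2, 0⟩⟩,
  ⟨5, 2, 37, ⟨16, 4, 0, 0⟩, ⟨24, -2, 0, -2⟩, ⟨24, 2, 0, -2⟩, ⟨30, 6, -2, -2⟩⟩,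
  ⟨1, 11, 185, ⟨16, 4, 0, 0⟩, ⟨28, 8, 0, 0⟩, ⟨30, 0, -2, 0⟩, ⟨54, -8, -2, 0⟩⟩,
  ⟨1, 13, 185, ⟨10, 2, 0, 0⟩, ⟨10, -2, 0, 0⟩, ⟨30, 0, -2, 0⟩, ⟨42, -4, -2, 0⟩⟩,
  ⟨1, 14, 185, ⟨8, 0, 0, 0⟩, ⟨16, 4, 0, 0⟩, ⟨16, -4, 0, 0⟩, ⟨30, 0, -2, 0⟩⟩,
  ⟨5, 3, 37, ⟨16, 4, 0, 0⟩, ⟨30, 6, -2, -2⟩, ⟨30, 0, -2, 0⟩, ⟨30, -6, -2, 2⟩⟩,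
  ⟨1, 17, 185, ⟨8, 0, 0, 0⟩, ⟨10, 2, 0, 0⟩, ⟨10, -2, 0, 0⟩, ⟨36, -2, -2, 0⟩⟩,
  ⟨1, 19, 185, ⟨20, 4, 0, 0⟩, ⟨20, -4, 0, 0⟩, ⟨30, 0, -2, 0⟩, ⟨30, 0, 2, 0⟩⟩,
  ⟨1, 21, 185, ⟨8, 0, 0, 0⟩, ⟨10, 2, 0, 0⟩, ⟨30, 0, -2, 0⟩, ⟨46, -4, -2, 0⟩⟩]

theorem tab33_0_ok : allB tab33_0 E.ok = true := by decide +kernel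

def tab33_1 : List E := [
  ⟨1, 22, 185, ⟨20, 4, 0, 0⟩, ⟨30, 0, -2, 0⟩, ⟨46, -4, -2, 0⟩, ⟨46, 4, -2, 0⟩⟩,
  ⟨1, 23, 185, ⟨8, 0, 0, 0⟩, ⟨20, 4, 0, 0⟩, ⟨20, -4, 0, 0⟩, ⟨56, 0, -4, 0⟩⟩,
  ⟨1, 26, 185, ⟨24, 4, 0, 0⟩, ⟨24, -4, 0, 0⟩, ⟨30, 0, -2, 0⟩, ⟨56, 0, -4, 0⟩⟩,
  ⟨1, 29, 185, ⟨14, 2, 0, 0⟩, ⟨24, 4, 0, 0⟩, ⟨30, 0, -2, 0⟩, ⟨30, 0, 2, 0⟩⟩,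
  ⟨5, 6, 37, ⟨24, 4, 0, 0⟩, ⟨30, 0, -2, 0⟩, ⟨38, 6, 2, 2⟩, ⟨44, 2, 0, 2⟩⟩,
  ⟨1, 31, 185, ⟨8, 0, 0, 0⟩, ⟨24, 4, 0, 0⟩, ⟨50, 4, -2, 0⟩, ⟨56, 0, -4, 0⟩⟩,
  ⟨1, 33, 185, ⟨8, 0, 0, 0⟩, ⟨24, 4, 0, 0⟩, ⟨24, -4, 0, 0⟩, ⟨30, 0, -2, 0⟩⟩,
  ⟨1, 34, 185, ⟨8, 0, 0, 0⟩, ⟨24, 4, 0, 0⟩, ⟨24, -4, 0, 0⟩, ⟨56, 0, -4, 0⟩⟩,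
  ⟨5, 7, 37, ⟨24, 4, 0, 0⟩, ⟨30, 0, -2, 0⟩, ⟨42, -6, 2, -2⟩, ⟨48, -2, 0, -2⟩⟩,
  ⟨1, 38, 185, ⟨28, 4, 0, 0⟩, ⟨28, -4, 0, 0⟩, ⟨30, 0, -2, 0⟩, ⟨56, 0, -4, 0⟩⟩]

theorem tab33_1_ok : allB tab33_1 E.ok = true := by decide +kernel

def tab33_2 : List E := [
  ⟨1, 39, 185, ⟨28, 4, 0, 0⟩, ⟨28, -4, 0, 0⟩, ⟨30, 0, -2, 0⟩, ⟨56, 0, -4, 0⟩⟩,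
  ⟨1, 41, 185, ⟨8, 0, 0, 0⟩, ⟨14, 2, 0, 0⟩, ⟨14, -2, 0, 0⟩, ⟨30, 0, -2, 0⟩⟩,
  ⟨1, 42, 185, ⟨8, 0, 0, 0⟩, ⟨28, 4, 0, 0⟩, ⟨54, 4, -2, 0⟩, ⟨56, 0, -4, 0⟩⟩,
  ⟨1, 43, 185, ⟨8, 0, 0, 0⟩, ⟨28, 4, 0, 0⟩, ⟨54, 4, -2, 0⟩, ⟨56, 0, -4, 0⟩⟩,
  ⟨1, 46, 185, ⟨8, 0, 0, 0⟩, ⟨28, 4, 0, 0⟩, ⟨28, -4, 0, 0⟩, ⟨56, 0, -4, 0⟩⟩,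
  ⟨1, 53, 185, ⟨18, 2, 0, 0⟩, ⟨32, 4, 0, 0⟩, ⟨30, 0, -2, 0⟩, ⟨30, 0, 2, 0⟩⟩,
  ⟨1, 57, 185, ⟨18, 2, 0, 0⟩, ⟨32, 4, 0, 0⟩, ⟨30, 0, -2, 0⟩, ⟨30, 0, 2, 0⟩⟩,
  ⟨1, 61, 185, ⟨18, 2, 0, 0⟩, ⟨32, 4, 0, 0⟩, ⟨30, 0, -2, 0⟩, ⟨30, 0, 2, 0⟩⟩,
  ⟨5, 13, 37, ⟨18, 2, 0, 0⟩, ⟨29, -1, 1, -1⟩, ⟨30, 0, 2, 0⟩, ⟨35, 3, -1, -1⟩⟩,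
  ⟨1, 69, 185, ⟨18, 2, 0, 0⟩, ⟨18, -2, 0, 0⟩, ⟨30, 0, -2, 0⟩, ⟨44, -2, -2, 0⟩⟩]

theorem tab33_2_ok : allB tab33_2 E.ok = true := by decide +kernel

def tab33_3 : List E := [
  ⟨1, 73, 185, ⟨8, 0, 0, 0⟩, ⟨18, 2, 0, 0⟩, ⟨18, -2, 0, 0⟩, ⟨56, 0, -4, 0⟩⟩,
  ⟨1, 77, 185, ⟨8, 0, 0, 0⟩, ⟨18, 2, 0, 0⟩, ⟨30, 0, -2, 0⟩, ⟨56, 0, -4, 0⟩⟩,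
  ⟨5, 17, 37, ⟨22, 2, 0, 0⟩, ⟨30, 0, -2, 0⟩, ⟨33, -1, -1, 1⟩, ⟨43, 3, 1, 1⟩⟩,
  ⟨1, 89, 185, ⟨22, 2, 0, 0⟩, ⟨22, -2, 0, 0⟩, ⟨30, 0, -2, 0⟩, ⟨56, 0, -4, 0⟩⟩,
  ⟨1, 93, 185, ⟨22, 2, 0, 0⟩, ⟨22, -2, 0, 0⟩, ⟨30, 0, -2, 0⟩, ⟨56, 0, -4, 0⟩⟩,
  ⟨1, 97, 185, ⟨22, 2, 0, 0⟩, ⟨22, -2, 0, 0⟩, ⟨30, 0, -2, 0⟩, ⟨56, 0, -4, 0⟩⟩,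
  ⟨1, 101, 185, ⟨8, 0, 0, 0⟩, ⟨22, 2, 0, 0⟩, ⟨48, 2, -2, 0⟩, ⟨56, 0, -4, 0⟩⟩,
  ⟨5, 21, 37, ⟨22, 2, 0, 0⟩, ⟨33, 1, -1, -1⟩, ⟨33, -1, 1, -1⟩, ⟨45, -3, -3, 1⟩⟩,
  ⟨1, 109, 185, ⟨8, 0, 0, 0⟩, ⟨22, 2, 0, 0⟩, ⟨22, -2, 0, 0⟩, ⟨56, 0, -4, 0⟩⟩,
  ⟨1, 113, 185, ⟨8, 0, 0, 0⟩, ⟨22, 2, 0, 0⟩, ⟨22, -2, 0, 0⟩, ⟨56, 0, -4, 0⟩⟩]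

theorem tab33_3_ok : allB tab33_3 E.ok = true := by decide +kernel

def tab33_4 : List E := [
  ⟨1, 129, 185, ⟨26, 2, 0, 0⟩, ⟨26, -2, 0, 0⟩, ⟨30, 0, -2, 0⟩, ⟨56, 0, -4, 0⟩⟩,
  ⟨1, 133, 185, ⟨8, 0, 0, 0⟩, ⟨26, 2, 0, 0⟩, ⟨56, 0, -4, 0⟩, ⟨56, 0, 4, 0⟩⟩,
  ⟨1, 137, 185, ⟨26, 2, 0, 0⟩, ⟨26, -2, 0, 0⟩, ⟨30, 0, -2, 0⟩, ⟨56, 0, -4, 0⟩⟩,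
  ⟨1, 141, 185, ⟨26, 2, 0, 0⟩, ⟨26, -2, 0, 0⟩, ⟨30, 0, -2, 0⟩, ⟨56, 0, -4, 0⟩⟩,
  ⟨5, 29, 37, ⟨26, 2, 0, 0⟩, ⟨30, 0, -2, 0⟩, ⟨37, 1, -1, -1⟩, ⟨45, -3, -3, 1⟩⟩,
  ⟨1, 149, 185, ⟨8, 0, 0, 0⟩, ⟨26, 2, 0, 0⟩, ⟨52, 2, -2, 0⟩, ⟨56, 0, -4, 0⟩⟩,
  ⟨1, 157, 185, ⟨8, 0, 0, 0⟩, ⟨26, 2, 0, 0⟩, ⟨26, -2, 0, 0⟩, ⟨56, 0, -4, 0⟩⟩,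
  ⟨1, 161, 185, ⟨8, 0, 0, 0⟩, ⟨26, 2, 0, 0⟩, ⟨26, -2, 0, 0⟩, ⟨56, 0, -4, 0⟩⟩,
  ⟨5, 33, 37, ⟨26, 2, 0, 0⟩, ⟨30, 0, -2, 0⟩, ⟨37, 1, -1, -1⟩, ⟨45, 3, -3, -1⟩⟩,
  ⟨1, 173, 185, ⟨30, 2, 0, 0⟩, ⟨30, -2, 0, 0⟩, ⟨30, 0, -2, 0⟩, ⟨56, 0, -4, 0⟩⟩]

theorem tab33_4_ok : allB tab33_4 E.ok = true := by decide +kernel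

def tab33 : List E :=
  tab33_0 ++ (tab33_1 ++ (tab33_2 ++ (tab33_3 ++ (tab33_4))))

theorem tab33_ok : allB tab33 E.ok = true :=
  allB_append tab33_0_ok (allB_append tab33_1_ok (allB_append tab33_2_ok (allB_append tab33_3_ok
  tab33_4_ok)))

end BQN
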