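import Pool.Agent.BQN.App

/-! Table 34. -/

namespace BQN

def tab34_0 : List E := [
  ⟨1, 177, 185, ⟨30, 2, 0, 0⟩, ⟨30, -2, 0, 0⟩, ⟨30, 0, -2, 0⟩, ⟨56, 0, -4, 0⟩⟩,
  ⟨1, 181, 185, ⟨30, 2, 0, 0⟩, ⟨30, -2, 0, 0⟩, ⟨30, 0, -2, 0⟩, ⟨56, 0, -4, 0⟩⟩,
  ⟨1, 2, 193, ⟨8, 4, 0, 0⟩, ⟨30, 0, -2, 0⟩, ⟨34, -4, -2, 0⟩, ⟨42, 18, -2, -2⟩⟩,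
  ⟨1, 3, 193, ⟨8, 4, 0, 0⟩, ⟨30, 0, -2, 0⟩, ⟨42, -8, -2, 0⟩, ⟨42, 8, -2, 0⟩⟩,
  ⟨1, 5, 193, ⟨10, 2, 0, 0⟩, ⟨30, 0, -2, 0⟩, ⟨38, 4, -2, 0⟩, ⟨39, 3, -1, -1⟩⟩,
  ⟨1, 6, 193, ⟨12, 4, 0, 0⟩, ⟨20, 8, 0, 0⟩, ⟨30, 0, -2, 0⟩, ⟨38, -4, -2, 0⟩⟩,
  ⟨1, 7, 193, ⟨12, 4, 0, 0⟩, ⟨12, -4, 0, 0⟩, ⟨30, 0, -2, 0⟩, ⟨50, -8, -2, 0⟩⟩,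
  ⟨1, 10, 193, ⟨16, 4, 0, 0⟩, ⟨28, 8, 0, 0⟩, ⟨30, 0, -2, 0⟩, ⟨30, 0, 2, 0⟩⟩,
  ⟨1, 11, 193, ⟨8, 0, 0, 0⟩, ⟨28, 8, 0, 0⟩, ⟨30, 0, -2, 0⟩, ⟨42, 4, -2, 0⟩⟩,
  ⟨1, 13, 193, ⟨10, 2, 0, 0⟩, ⟨10, -2, 0, 0⟩, ⟨30, 0, -2, 0⟩, ⟨30, 0, 2, 0⟩⟩]

theorem tab34_0_ok : allB tab34_0 E.ok = true := by decide +kernel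

def tab34_1 : List E := [
  ⟨1, 14, 193, ⟨16, 4, 0, 0⟩, ⟨16, -4, 0, 0⟩, ⟨30, 0, -2, 0⟩, ⟨30, 0, 2, 0⟩⟩,
  ⟨1, 15, 193, ⟨8, 0, 0, 0⟩, ⟨16, 4, 0, 0⟩, ⟨30, 0, -2, 0⟩, ⟨30, 0, 2, 0⟩⟩,
  ⟨1, 17, 193, ⟨8, 0, 0, 0⟩, ⟨10, 2, 0, 0⟩, ⟨10, -2, 0, 0⟩, ⟨30, 0, -2, 0⟩⟩,
  ⟨1, 19, 193, ⟨20, 4, 0, 0⟩, ⟨20, -4, 0, 0⟩, ⟨30, 0, -2, 0⟩, ⟨46, -4, -2, 0⟩⟩,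
  ⟨1, 21, 193, ⟨10, 2, 0, 0⟩, ⟨20, 4, 0, 0⟩, ⟨30, 0, -2, 0⟩, ⟨30, 0, 2, 0⟩⟩,
  ⟨1, 22, 193, ⟨20, 4, 0, 0⟩, ⟨20, -4, 0, 0⟩, ⟨30, 0, -2, 0⟩, ⟨56, 0, -4, 0⟩⟩,
  ⟨1, 23, 193, ⟨20, 4, 0, 0⟩, ⟨20, -4, 0, 0⟩, ⟨30, 0, -2, 0⟩, ⟨56, 0, -4, 0⟩⟩,
  ⟨1, 26, 193, ⟨24, 4, 0, 0⟩, ⟨24, -4, 0, 0⟩, ⟨30, 0, -2, 0⟩, ⟨56, 0, -4, 0⟩⟩,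
  ⟨1, 29, 193, ⟨14, 2, 0, 0⟩, ⟨24, 4, 0, 0⟩, ⟨30, 0, -2, 0⟩, ⟨30, 0, 2, 0⟩⟩,
  ⟨1, 30, 193, ⟨24, 4, 0, 0⟩, ⟨30, 0, -2, 0⟩, ⟨50, -4, -2, 0⟩, ⟨56, 0, -4, 0⟩⟩]

theorem tab34_1_ok : allB tab34_1 E.ok = true := by decide +kernel

def tab34_2 : List E := [
  ⟨1, 31, 193, ⟨24, 4, 0, 0⟩, ⟨24, -4, 0, 0⟩, ⟨30, 0, -2, 0⟩, ⟨56, 0, -4, 0⟩⟩,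
  ⟨1, 33, 193, ⟨14, 2, 0, 0⟩, ⟨24, 4, 0, 0⟩, ⟨30, 0, -2, 0⟩, ⟨40, 2, -2, 0⟩⟩,
  ⟨1, 34, 193, ⟨24, 4, 0, 0⟩, ⟨24, -4, 0, 0⟩, ⟨30, 0, -2, 0⟩, ⟨56, 0, -4, 0⟩⟩,
  ⟨1, 35, 193, ⟨8, 0, 0, 0⟩, ⟨24, 4, 0, 0⟩, ⟨30, 0, -2, 0⟩, ⟨56, 0, -4, 0⟩⟩,
  ⟨1, 37, 193, ⟨14, 2, 0, 0⟩, ⟨30, 0, -2, 0⟩, ⟨40, -2, -2, 0⟩, ⟨40, 2, -2, 0⟩⟩,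
  ⟨1, 38, 193, ⟨28, 4, 0, 0⟩, ⟨28, -4, 0, 0⟩, ⟨30, 0, -2, 0⟩, ⟨56, 0, -4, 0⟩⟩,
  ⟨1, 39, 193, ⟨28, 4, 0, 0⟩, ⟨30, 0, -2, 0⟩, ⟨54, 4, -2, 0⟩, ⟨56, 0, -4, 0⟩⟩,
  ⟨1, 41, 193, ⟨8, 0, 0, 0⟩, ⟨14, -2, 0, 0⟩, ⟨30, 0, -2, 0⟩, ⟨54, -4, -2, 0⟩⟩,
  ⟨1, 42, 193, ⟨28, 4, 0, 0⟩, ⟨30, 0, -2, 0⟩, ⟨54, -4, -2, 0⟩, ⟨56, 0, -4, 0⟩⟩,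
  ⟨1, 43, 193, ⟨28, 4, 0, 0⟩, ⟨28, -4, 0, 0⟩, ⟨30, 0, -2, 0⟩, ⟨56, 0, -4, 0⟩⟩]

theorem tab34_2_ok : allB tab34_2 E.ok = true := by decide +kernel

def tab34_3 : List E := [
  ⟨1, 46, 193, ⟨28, 4, 0, 0⟩, ⟨28, -4, 0, 0⟩, ⟨30, 0, -2, 0⟩, ⟨56, 0, -4, 0⟩⟩,
  ⟨1, 47, 193, ⟨28, 4, 0, 0⟩, ⟨28, -4, 0, 0⟩, ⟨30, 0, -2, 0⟩, ⟨56, 0, -4, 0⟩⟩,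
  ⟨1, 53, 193, ⟨18, 2, 0, 0⟩, ⟨32, 4, 0, 0⟩, ⟨30, 0, -2, 0⟩, ⟨30, 0, 2, 0⟩⟩,
  ⟨1, 57, 193, ⟨18, 2, 0, 0⟩, ⟨32, 4, 0, 0⟩, ⟨30, 0, -2, 0⟩, ⟨30, 0, 2, 0⟩⟩,
  ⟨1, 61, 193, ⟨18, 2, 0, 0⟩, ⟨32, 4, 0, 0⟩, ⟨30, 0, -2, 0⟩, ⟨44, 2, -2, 0⟩⟩,
  ⟨1, 65, 193, ⟨18, 2, 0, 0⟩, ⟨30, 0, -2, 0⟩, ⟨44, -2, -2, 0⟩, ⟨44, 2, -2, 0⟩⟩,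
  ⟨1, 69, 193, ⟨18, 2, 0, 0⟩, ⟨18, -2, 0, 0⟩, ⟨30, 0, -2, 0⟩, ⟨56, 0, -4, 0⟩⟩,
  ⟨1, 73, 193, ⟨18, 2, 0, 0⟩, ⟨18, -2, 0, 0⟩, ⟨30, 0, -2, 0⟩, ⟨56, 0, -4, 0⟩⟩,
  ⟨1, 77, 193, ⟨8, 0, 0, 0⟩, ⟨18, 2, 0, 0⟩, ⟨30, 0, -2, 0⟩, ⟨56, 0, -4, 0⟩⟩,
  ⟨1, 85, 193, ⟨22, 2, 0, 0⟩, ⟨30, 0, -2, 0⟩, ⟨48, 2, -2, 0⟩, ⟨56, 0, -4, 0⟩⟩]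

theorem tab34_3_ok : allB tab34_3 E.ok = true := by decide +kernel

def tab34_4 : List E := [
  ⟨1, 89, 193, ⟨22, 2, 0, 0⟩, ⟨30, 0, -2, 0⟩, ⟨48, -2, -2, 0⟩, ⟨56, 0, -4, 0⟩⟩,
  ⟨1, 93, 193, ⟨22, 2, 0, 0⟩, ⟨30, 0, -2, 0⟩, ⟨48, -2, -2, 0⟩, ⟨56, 0, -4, 0⟩⟩,
  ⟨1, 97, 193, ⟨22, 2, 0, 0⟩, ⟨30, 0, -2, 0⟩, ⟨48, 2, -2, 0⟩, ⟨56, 0, -4, 0⟩⟩,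
  ⟨1, 101, 193, ⟨22, 2, 0, 0⟩, ⟨30, 0, -2, 0⟩, ⟨48, -2, -2, 0⟩, ⟨48, 2, 2, 0⟩⟩,
  ⟨1, 105, 193, ⟨8, 0, 0, 0⟩, ⟨22, 2, 0, 0⟩, ⟨30, 0, -2, 0⟩, ⟨56, 0, -4, 0⟩⟩,
  ⟨1, 109, 193, ⟨22, 2, 0, 0⟩, ⟨22, -2, 0, 0⟩, ⟨30, 0, -2, 0⟩, ⟨56, 0, -4, 0⟩⟩,
  ⟨1, 113, 193, ⟨22, 2, 0, 0⟩, ⟨22, -2, 0, 0⟩, ⟨30, 0, -2, 0⟩, ⟨56, 0, -4, 0⟩⟩,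
  ⟨1, 129, 193, ⟨26, 2, 0, 0⟩, ⟨26, -2, 0, 0⟩, ⟨30, 0, -2, 0⟩, ⟨56, 0, -4, 0⟩⟩,
  ⟨1, 133, 193, ⟨26, 2, 0, 0⟩, ⟨30, 0, -2, 0⟩, ⟨52, -2, -2, 0⟩, ⟨56, 0, -4, 0⟩⟩,
  ⟨1, 137, 193, ⟨26, 2, 0, 0⟩, ⟨30, 0, -2, 0⟩, ⟨52, -2, -2, 0⟩, ⟨56, 0, -4, 0⟩⟩]

theorem tab34_4_ok : allB tab34_4 E.ok = true := by decide +kernel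

def tab34 : List E :=
  tab34_0 ++ (tab34_1 ++ (tab34_2 ++ (tab34_3 ++ (tab34_4))))

theorem tab34_ok : allB tab34 E.ok = true :=
  allB_append tab34_0_ok (allB_append tab34_1_ok (allB_append tab34_2_ok (allB_append tab34_3_ok
  tab34_4_ok)))

end BQN
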