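import Pool.Agent.BQN.App

/-! Table 35. -/

namespace BQN

def tab35_0 : List E := [
  ⟨1, 141, 193, ⟨26, 2, 0, 0⟩, ⟨30, 0, -2, 0⟩, ⟨52, 2, -2, 0⟩, ⟨56, 0, -4, 0⟩⟩,
  ⟨1, 145, 193, ⟨26, 2, 0, 0⟩, ⟨30, 0, -2, 0⟩, ⟨52, -2, -2, 0⟩, ⟨56, 0, -4, 0⟩⟩,
  ⟨1, 149, 193, ⟨26, 2, 0, 0⟩, ⟨26, -2, 0, 0⟩, ⟨30, 0, -2, 0⟩, ⟨56, 0, -4, 0⟩⟩,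
  ⟨1, 157, 193, ⟨26, 2, 0, 0⟩, ⟨26, -2, 0, 0⟩, ⟨30, 0, -2, 0⟩, ⟨56, 0, -4, 0⟩⟩,
  ⟨1, 161, 193, ⟨26, 2, 0, 0⟩, ⟨26, -2, 0, 0⟩, ⟨30, 0, -2, 0⟩, ⟨56, 0, -4, 0⟩⟩,
  ⟨1, 165, 193, ⟨8, 0, 0, 0⟩, ⟨26, 2, 0, 0⟩, ⟨30, 0, -2, 0⟩, ⟨56, 0, -4, 0⟩⟩,
  ⟨1, 173, 193, ⟨30, 2, 0, 0⟩, ⟨30, -2, 0, 0⟩, ⟨30, 0, -2, 0⟩, ⟨56, 0, -4, 0⟩⟩,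
  ⟨1, 177, 193, ⟨30, 2, 0, 0⟩, ⟨30, -2, 0, 0⟩, ⟨30, 0, -2, 0⟩, ⟨56, 0, -4, 0⟩⟩,
  ⟨1, 181, 193, ⟨30, 2, 0, 0⟩, ⟨30, 0, -2, 0⟩, ⟨56, 0, -4, 0⟩, ⟨56, 2, -2, 0⟩⟩,
  ⟨1, 185, 193, ⟨30, 2, 0, 0⟩, ⟨30, 0, -2, 0⟩, ⟨56, 0, -4, 0⟩, ⟨56, -2, -2, 0⟩⟩]

theorem tab35_0_ok : allB tab35_0 E.ok = true := by decide +kernel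

def tab35_1 : List E := [
  ⟨1, 2, 197, ⟨8, 4, 0, 0⟩, ⟨30, 0, -2, 0⟩, ⟨34, -4, -2, 0⟩, ⟨34, 4, -2, 0⟩⟩,
  ⟨1, 3, 197, ⟨8, 4, 0, 0⟩, ⟨30, 0, -2, 0⟩, ⟨42, -8, -2, 0⟩, ⟨42, 8, -2, 0⟩⟩,
  ⟨1, 5, 197, ⟨30, 0, -2, 0⟩, ⟨38, -4, -2, 0⟩, ⟨39, 3, -1, -1⟩, ⟨39, -3, 1, -1⟩⟩,
  ⟨1, 6, 197, ⟨12, 4, 0, 0⟩, ⟨20, 8, 0, 0⟩, ⟨30, 0, -2, 0⟩, ⟨38, -4, -2, 0⟩⟩,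
  ⟨1, 7, 197, ⟨8, 0, 0, 0⟩, ⟨12, 4, 0, 0⟩, ⟨30, 0, -2, 0⟩, ⟨50, 8, -2, 0⟩⟩,
  ⟨1, 10, 197, ⟨8, 0, 0, 0⟩, ⟨30, 0, -2, 0⟩, ⟨42, -4, -2, 0⟩, ⟨54, -8, -2, 0⟩⟩,
  ⟨1, 11, 197, ⟨8, 0, 0, 0⟩, ⟨28, 8, 0, 0⟩, ⟨30, 0, -2, 0⟩, ⟨42, 4, -2, 0⟩⟩,
  ⟨1, 13, 197, ⟨8, 0, 0, 0⟩, ⟨10, 2, 0, 0⟩, ⟨30, 0, -2, 0⟩, ⟨36, -2, -2, 0⟩⟩,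
  ⟨1, 14, 197, ⟨8, 0, 0, 0⟩, ⟨16, 4, 0, 0⟩, ⟨16, -4, 0, 0⟩, ⟨30, 0, -2, 0⟩⟩,
  ⟨1, 15, 197, ⟨8, 0, 0, 0⟩, ⟨16, 4, 0, 0⟩, ⟨30, 0, -2, 0⟩, ⟨30, 0, 2, 0⟩⟩]

theorem tab35_1_ok : allB tab35_1 E.ok = true := by decide +kernel

def tab35_2 : List E := [
  ⟨1, 17, 197, ⟨8, 0, 0, 0⟩, ⟨10, 2, 0, 0⟩, ⟨10, -2, 0, 0⟩, ⟨30, 0, -2, 0⟩⟩,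
  ⟨1, 19, 197, ⟨8, 0, 0, 0⟩, ⟨20, 4, 0, 0⟩, ⟨30, 0, -2, 0⟩, ⟨46, 4, -2, 0⟩⟩,
  ⟨1, 21, 197, ⟨8, 0, 0, 0⟩, ⟨10, 2, 0, 0⟩, ⟨30, 0, -2, 0⟩, ⟨30, 0, 2, 0⟩⟩,
  ⟨1, 22, 197, ⟨8, 0, 0, 0⟩, ⟨20, 4, 0, 0⟩, ⟨20, -4, 0, 0⟩, ⟨30, 0, -2, 0⟩⟩,
  ⟨1, 23, 197, ⟨8, 0, 0, 0⟩, ⟨20, 4, 0, 0⟩, ⟨20, -4, 0, 0⟩, ⟨30, 0, -2, 0⟩⟩,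
  ⟨1, 26, 197, ⟨8, 0, 0, 0⟩, ⟨24, 4, 0, 0⟩, ⟨30, 0, -2, 0⟩, ⟨50, 4, -2, 0⟩⟩,
  ⟨1, 29, 197, ⟨8, 0, 0, 0⟩, ⟨30, 0, -2, 0⟩, ⟨40, -2, -2, 0⟩, ⟨50, -4, -2, 0⟩⟩,
  ⟨1, 30, 197, ⟨24, 4, 0, 0⟩, ⟨30, 0, -2, 0⟩, ⟨50, -4, -2, 0⟩, ⟨50, 4, -2, 0⟩⟩,
  ⟨1, 31, 197, ⟨8, 0, 0, 0⟩, ⟨24, 4, 0, 0⟩, ⟨24, -4, 0, 0⟩, ⟨30, 0, -2, 0⟩⟩,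
  ⟨1, 33, 197, ⟨8, 0, 0, 0⟩, ⟨24, 4, 0, 0⟩, ⟨30, 0, -2, 0⟩, ⟨40, 2, -2, 0⟩⟩]

theorem tab35_2_ok : allB tab35_2 E.ok = true := by decide +kernel

def tab35_3 : List E := [
  ⟨1, 34, 197, ⟨8, 0, 0, 0⟩, ⟨24, 4, 0, 0⟩, ⟨24, -4, 0, 0⟩, ⟨30, 0, -2, 0⟩⟩,
  ⟨1, 35, 197, ⟨8, 0, 0, 0⟩, ⟨24, 4, 0, 0⟩, ⟨30, 0, -2, 0⟩, ⟨30, 0, 2, 0⟩⟩,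
  ⟨1, 37, 197, ⟨8, 0, 0, 0⟩, ⟨14, -2, 0, 0⟩, ⟨30, 0, -2, 0⟩, ⟨54, -4, -2, 0⟩⟩,
  ⟨1, 38, 197, ⟨8, 0, 0, 0⟩, ⟨28, 4, 0, 0⟩, ⟨30, 0, -2, 0⟩, ⟨54, 4, -2, 0⟩⟩,
  ⟨1, 39, 197, ⟨28, 4, 0, 0⟩, ⟨30, 0, -2, 0⟩, ⟨54, -4, -2, 0⟩, ⟨60, 0, -4, 0⟩⟩,
  ⟨1, 41, 197, ⟨8, 0, 0, 0⟩, ⟨14, 2, 0, 0⟩, ⟨30, 0, -2, 0⟩, ⟨54, -4, -2, 0⟩⟩,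
  ⟨1, 42, 197, ⟨28, 4, 0, 0⟩, ⟨30, 0, -2, 0⟩, ⟨54, -4, -2, 0⟩, ⟨54, 4, -2, 0⟩⟩,
  ⟨1, 43, 197, ⟨8, 0, 0, 0⟩, ⟨28, 4, 0, 0⟩, ⟨28, -4, 0, 0⟩, ⟨30, 0, -2, 0⟩⟩,
  ⟨1, 46, 197, ⟨8, 0, 0, 0⟩, ⟨28, 4, 0, 0⟩, ⟨28, -4, 0, 0⟩, ⟨30, 0, -2, 0⟩⟩,
  ⟨1, 47, 197, ⟨8, 0, 0, 0⟩, ⟨28, 4, 0, 0⟩, ⟨28, -4, 0, 0⟩, ⟨30, 0, -2, 0⟩⟩]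

theorem tab35_3_ok : allB tab35_3 E.ok = true := by decide +kernel

def tab35_4 : List E := [
  ⟨1, 53, 197, ⟨18, 2, 0, 0⟩, ⟨32, 4, 0, 0⟩, ⟨30, 0, -2, 0⟩, ⟨30, 0, 2, 0⟩⟩,
  ⟨1, 57, 197, ⟨8, 0, 0, 0⟩, ⟨32, 4, 0, 0⟩, ⟨30, 0, -2, 0⟩, ⟨44, -2, -2, 0⟩⟩,
  ⟨1, 61, 197, ⟨18, 2, 0, 0⟩, ⟨32, 4, 0, 0⟩, ⟨30, 0, -2, 0⟩, ⟨44, 2, -2, 0⟩⟩,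
  ⟨1, 65, 197, ⟨8, 0, 0, 0⟩, ⟨18, 2, 0, 0⟩, ⟨30, 0, -2, 0⟩, ⟨30, 0, 2, 0⟩⟩,
  ⟨1, 69, 197, ⟨8, 0, 0, 0⟩, ⟨18, 2, 0, 0⟩, ⟨18, -2, 0, 0⟩, ⟨30, 0, -2, 0⟩⟩,
  ⟨1, 73, 197, ⟨8, 0, 0, 0⟩, ⟨18, 2, 0, 0⟩, ⟨18, -2, 0, 0⟩, ⟨30, 0, -2, 0⟩⟩,
  ⟨1, 77, 197, ⟨8, 0, 0, 0⟩, ⟨18, 2, 0, 0⟩, ⟨30, 0, -2, 0⟩, ⟨30, 0, 2, 0⟩⟩,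
  ⟨1, 85, 197, ⟨8, 0, 0, 0⟩, ⟨22, 2, 0, 0⟩, ⟨30, 0, -2, 0⟩, ⟨48, -2, -2, 0⟩⟩,
  ⟨1, 89, 197, ⟨8, 0, 0, 0⟩, ⟨22, 2, 0, 0⟩, ⟨30, 0, -2, 0⟩, ⟨48, -2, -2, 0⟩⟩,
  ⟨1, 93, 197, ⟨8, 0, 0, 0⟩, ⟨30, 0, -2, 0⟩, ⟨48, -2, -2, 0⟩, ⟨48, 2, -2, 0⟩⟩]

theorem tab35_4_ok : allB tab35_4 E.ok = true := by decide +kernel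

def tab35 : List E :=
  tab35_0 ++ (tab35_1 ++ (tab35_2 ++ (tab35_3 ++ (tab35_4))))

theorem tab35_ok : allB tab35 E.ok = true :=
  allB_append tab35_0_ok (allB_append tab35_1_ok (allB_append tab35_2_ok (allB_append tab35_3_ok
  tab35_4_ok)))

end BQN
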