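import Pool.Agent.BQN.App

/-! Table 36. -/

namespace BQN

def tab36_0 : List E := [
  ⟨1, 97, 197, ⟨22, 2, 0, 0⟩, ⟨30, 0, -2, 0⟩, ⟨48, -2, -2, 0⟩, ⟨48, 2, 2, 0⟩⟩,
  ⟨1, 101, 197, ⟨8, 0, 0, 0⟩, ⟨22, 2, 0, 0⟩, ⟨22, -2, 0, 0⟩, ⟨30, 0, -2, 0⟩⟩,
  ⟨1, 105, 197, ⟨8, 0, 0, 0⟩, ⟨22, 2, 0, 0⟩, ⟨30, 0, -2, 0⟩, ⟨30, 0, 2, 0⟩⟩,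
  ⟨1, 109, 197, ⟨8, 0, 0, 0⟩, ⟨22, 2, 0, 0⟩, ⟨22, -2, 0, 0⟩, ⟨30, 0, -2, 0⟩⟩,
  ⟨1, 113, 197, ⟨8, 0, 0, 0⟩, ⟨22, 2, 0, 0⟩, ⟨22, -2, 0, 0⟩, ⟨30, 0, -2, 0⟩⟩,
  ⟨1, 129, 197, ⟨8, 0, 0, 0⟩, ⟨26, 2, 0, 0⟩, ⟨30, 0, -2, 0⟩, ⟨52, -2, -2, 0⟩⟩,
  ⟨1, 133, 197, ⟨26, 2, 0, 0⟩, ⟨30, 0, -2, 0⟩, ⟨52, -2, -2, 0⟩, ⟨60, 0, -4, 0⟩⟩,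
  ⟨1, 137, 197, ⟨26, 2, 0, 0⟩, ⟨30, 0, -2, 0⟩, ⟨52, 2, -2, 0⟩, ⟨60, 0, -4, 0⟩⟩,
  ⟨1, 141, 197, ⟨26, 2, 0, 0⟩, ⟨26, -2, 0, 0⟩, ⟨30, 0, -2, 0⟩, ⟨52, -2, -2, 0⟩⟩,
  ⟨1, 145, 197, ⟨8, 0, 0, 0⟩, ⟨26, 2, 0, 0⟩, ⟨26, -2, 0, 0⟩, ⟨30, 0, -2, 0⟩⟩]

theorem tab36_0_ok : allB tab36_0 E.ok = true := by decide +kernel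

def tab36_1 : List E := [
  ⟨1, 149, 197, ⟨8, 0, 0, 0⟩, ⟨26, 2, 0, 0⟩, ⟨26, -2, 0, 0⟩, ⟨30, 0, -2, 0⟩⟩,
  ⟨1, 157, 197, ⟨8, 0, 0, 0⟩, ⟨26, 2, 0, 0⟩, ⟨26, -2, 0, 0⟩, ⟨30, 0, -2, 0⟩⟩,
  ⟨1, 161, 197, ⟨8, 0, 0, 0⟩, ⟨26, 2, 0, 0⟩, ⟨26, -2, 0, 0⟩, ⟨30, 0, -2, 0⟩⟩,
  ⟨1, 165, 197, ⟨8, 0, 0, 0⟩, ⟨26, 2, 0, 0⟩, ⟨30, 0, -2, 0⟩, ⟨30, 0, 2, 0⟩⟩,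
  ⟨1, 173, 197, ⟨8, 0, 0, 0⟩, ⟨30, 2, 0, 0⟩, ⟨30, 0, -2, 0⟩, ⟨56, 2, -2, 0⟩⟩,
  ⟨1, 177, 197, ⟨8, 0, 0, 0⟩, ⟨30, 2, 0, 0⟩, ⟨30, 0, -2, 0⟩, ⟨56, 2, -2, 0⟩⟩,
  ⟨1, 181, 197, ⟨8, 0, 0, 0⟩, ⟨30, 2, 0, 0⟩, ⟨30, 0, -2, 0⟩, ⟨56, -2, -2, 0⟩⟩,
  ⟨1, 185, 197, ⟨30, 2, 0, 0⟩, ⟨30, 0, -2, 0⟩, ⟨56, -2, -2, 0⟩, ⟨60, 0, -4, 0⟩⟩,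
  ⟨1, 193, 197, ⟨30, 2, 0, 0⟩, ⟨30, -2, 0, 0⟩, ⟨30, 0, -2, 0⟩, ⟨56, -2, -2, 0⟩⟩,
  ⟨1, 2, 201, ⟨8, 4, 0, 0⟩, ⟨30, 0, -2, 0⟩, ⟨44, -2, 0, -2⟩, ⟨46, 18, -2, -2⟩⟩]

theorem tab36_1_ok : allB tab36_1 E.ok = true := by decide +kernel

def tab36_2 : List E := [
  ⟨3, 1, 67, ⟨8, 4, 0, 0⟩, ⟨20, -2, 0, -2⟩, ⟨20, 2, 0, -2⟩, ⟨30, 10, -2, -2⟩⟩,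
  ⟨3, 2, 67, ⟨12, 4, 0, 0⟩, ⟨20, 8, 0, 0⟩, ⟨30, 10, -2, -2⟩, ⟨30, 0, -2, 0⟩⟩,
  ⟨1, 10, 201, ⟨8, 0, 0, 0⟩, ⟨30, 0, -2, 0⟩, ⟨42, -4, -2, 0⟩, ⟨54, -8, -2, 0⟩⟩,
  ⟨1, 2, 205, ⟨8, 4, 0, 0⟩, ⟨30, 0, -2, 0⟩, ⟨44, -2, 0, -2⟩, ⟨44, 2, 0, -2⟩⟩,
  ⟨1, 3, 205, ⟨8, 4, 0, 0⟩, ⟨30, 0, -2, 0⟩, ⟨30, 0, 2, 0⟩, ⟨50, -12, -2, 0⟩⟩,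
  ⟨5, 2, 41, ⟨16, 4, 0, 0⟩, ⟨28, 2, 0, -2⟩, ⟨30, -6, 2, -2⟩, ⟨30, 0, 2, 0⟩⟩,
  ⟨5, 3, 41, ⟨16, 4, 0, 0⟩, ⟨30, 6, -2, -2⟩, ⟨30, 0, -2, 0⟩, ⟨30, -6, -2, 2⟩⟩,
  ⟨1, 2, 209, ⟨8, 4, 0, 0⟩, ⟨30, 0, -2, 0⟩, ⟨44, -2, 0, -2⟩, ⟨44, 2, 0, -2⟩⟩,
  ⟨1, 3, 209, ⟨8, 4, 0, 0⟩, ⟨20, -8, 0, 0⟩, ⟨30, 0, -2, 0⟩, ⟨50, -12, -2, 0⟩⟩,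
  ⟨1, 10, 209, ⟨8, 0, 0, 0⟩, ⟨16, 4, 0, 0⟩, ⟨30, 0, -2, 0⟩, ⟨42, -4, -2, 0⟩⟩]

theorem tab36_2_ok : allB tab36_2 E.ok = true := by decide +kernel

def tab36_3 : List E := [
  ⟨1, 2, 213, ⟨8, 4, 0, 0⟩, ⟨30, 0, -2, 0⟩, ⟨46, 18, -2, -2⟩, ⟨46, 22, -2, -2⟩⟩,
  ⟨3, 1, 71, ⟨8, 4, 0, 0⟩, ⟨24, -2, 0, -2⟩, ⟨30, 10, -2, -2⟩, ⟨30, -10, 2, -2⟩⟩,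
  ⟨3, 2, 71, ⟨12, 4, 0, 0⟩, ⟨20, 8, 0, 0⟩, ⟨30, 10, -2, -2⟩, ⟨30, 0, -2, 0⟩⟩,
  ⟨1, 10, 213, ⟨8, 0, 0, 0⟩, ⟨30, 0, -2, 0⟩, ⟨42, -4, -2, 0⟩, ⟨42, 4, 2, 0⟩⟩,
  ⟨1, 10, 217, ⟨16, 4, 0, 0⟩, ⟨28, 8, 0, 0⟩, ⟨30, 0, -2, 0⟩, ⟨30, 0, 2, 0⟩⟩,
  ⟨7, 2, 31, ⟨16, 4, 0, 0⟩, ⟨24, 2, 0, -2⟩, ⟨30, 0, -2, 0⟩, ⟨32, 0, 0, -4⟩⟩,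
  ⟨7, 5, 31, ⟨24, 4, 0, 0⟩, ⟨30, 0, -2, 0⟩, ⟨40, -2, 0, -2⟩, ⟨42, -6, -2, 2⟩⟩,
  ⟨1, 10, 221, ⟨16, 4, 0, 0⟩, ⟨16, -4, 0, 0⟩, ⟨28, 8, 0, 0⟩, ⟨30, 0, -2, 0⟩⟩,
  ⟨1, 2, 229, ⟨8, 4, 0, 0⟩, ⟨42, -8, -2, 0⟩, ⟨46, 22, -2, -2⟩, ⟨46, -22, 2, -2⟩⟩,
  ⟨1, 3, 229, ⟨8, 4, 0, 0⟩, ⟨34, 0, -2, 0⟩, ⟨38, -4, -2, 0⟩, ⟨38, 4, -2, 0⟩⟩]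

theorem tab36_3_ok : allB tab36_3 E.ok = true := by decide +kernel

def tab36_4 : List E := [
  ⟨1, 5, 229, ⟨8, 0, 0, 0⟩, ⟨34, 0, -2, 0⟩, ⟨35, 7, -1, -1⟩, ⟨36, -2, -2, 0⟩⟩,
  ⟨1, 6, 229, ⟨12, 4, 0, 0⟩, ⟨20, 8, 0, 0⟩, ⟨50, -8, -2, 0⟩, ⟨50, 8, 2, 0⟩⟩,
  ⟨1, 7, 229, ⟨8, 0, 0, 0⟩, ⟨12, 4, 0, 0⟩, ⟨12, -4, 0, 0⟩, ⟨34, 0, -2, 0⟩⟩,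
  ⟨1, 10, 229, ⟨16, 4, 0, 0⟩, ⟨28, 8, 0, 0⟩, ⟨34, 0, -2, 0⟩, ⟨34, 0, 2, 0⟩⟩,
  ⟨1, 11, 229, ⟨16, 4, 0, 0⟩, ⟨28, 8, 0, 0⟩, ⟨34, 0, -2, 0⟩, ⟨34, 0, 2, 0⟩⟩,
  ⟨1, 13, 229, ⟨10, 2, 0, 0⟩, ⟨10, -2, 0, 0⟩, ⟨34, 0, -2, 0⟩, ⟨34, 0, 2, 0⟩⟩,
  ⟨1, 14, 229, ⟨8, 0, 0, 0⟩, ⟨16, 4, 0, 0⟩, ⟨16, -4, 0, 0⟩, ⟨34, 0, -2, 0⟩⟩,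
  ⟨1, 15, 229, ⟨16, 4, 0, 0⟩, ⟨34, 0, -2, 0⟩, ⟨46, -4, 2, 0⟩, ⟨46, 4, 2, 0⟩⟩,
  ⟨1, 17, 229, ⟨8, 0, 0, 0⟩, ⟨10, 2, 0, 0⟩, ⟨10, -2, 0, 0⟩, ⟨34, 0, -2, 0⟩⟩,
  ⟨1, 19, 229, ⟨20, 4, 0, 0⟩, ⟨20, -4, 0, 0⟩, ⟨34, 0, -2, 0⟩, ⟨34, 0, 2, 0⟩⟩]

theorem tab36_4_ok : allB tab36_4 E.ok = true := by decide +kernel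

def tab36 : List E :=
  tab36_0 ++ (tab36_1 ++ (tab36_2 ++ (tab36_3 ++ (tab36_4))))

theorem tab36_ok : allB tab36 E.ok = true :=
  allB_append tab36_0_ok (allB_append tab36_1_ok (allB_append tab36_2_ok (allB_append tab36_3_ok
  tab36_4_ok)))

end BQN
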