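import Pool.Agent.BQN.App

/-! Table 37. -/

namespace BQN

def tab37_0 : List E := [
  ⟨1, 21, 229, ⟨8, 0, 0, 0⟩, ⟨10, 2, 0, 0⟩, ⟨40, -2, -2, 0⟩, ⟨40, 2, -2, 0⟩⟩,
  ⟨1, 22, 229, ⟨8, 0, 0, 0⟩, ⟨20, 4, 0, 0⟩, ⟨20, -4, 0, 0⟩, ⟨34, 0, -2, 0⟩⟩,
  ⟨1, 23, 229, ⟨8, 0, 0, 0⟩, ⟨20, 4, 0, 0⟩, ⟨20, -4, 0, 0⟩, ⟨34, 0, -2, 0⟩⟩,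
  ⟨1, 26, 229, ⟨24, 4, 0, 0⟩, ⟨24, -4, 0, 0⟩, ⟨34, 0, -2, 0⟩, ⟨34, 0, 2, 0⟩⟩,
  ⟨1, 29, 229, ⟨14, 2, 0, 0⟩, ⟨24, 4, 0, 0⟩, ⟨34, 0, -2, 0⟩, ⟨34, 0, 2, 0⟩⟩,
  ⟨1, 30, 229, ⟨24, 4, 0, 0⟩, ⟨24, -4, 0, 0⟩, ⟨34, 0, -2, 0⟩, ⟨34, 0, 2, 0⟩⟩,
  ⟨1, 31, 229, ⟨8, 0, 0, 0⟩, ⟨24, 4, 0, 0⟩, ⟨34, 0, -2, 0⟩, ⟨54, 4, -2, 0⟩⟩,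
  ⟨1, 33, 229, ⟨14, 2, 0, 0⟩, ⟨24, 4, 0, 0⟩, ⟨34, 0, -2, 0⟩, ⟨54, 4, -2, 0⟩⟩,
  ⟨1, 34, 229, ⟨8, 0, 0, 0⟩, ⟨24, 4, 0, 0⟩, ⟨24, -4, 0, 0⟩, ⟨34, 0, -2, 0⟩⟩,
  ⟨1, 35, 229, ⟨8, 0, 0, 0⟩, ⟨24, 4, 0, 0⟩, ⟨54, -4, -2, 0⟩, ⟨54, 4, 2, 0⟩⟩]

theorem tab37_0_ok : allB tab37_0 E.ok = true := by decide +kernel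

def tab37_1 : List E := [
  ⟨1, 37, 229, ⟨8, 0, 0, 0⟩, ⟨14, 2, 0, 0⟩, ⟨14, -2, 0, 0⟩, ⟨34, 0, -2, 0⟩⟩,
  ⟨1, 38, 229, ⟨28, 4, 0, 0⟩, ⟨28, -4, 0, 0⟩, ⟨34, 0, -2, 0⟩, ⟨64, 0, -4, 0⟩⟩,
  ⟨1, 39, 229, ⟨28, 4, 0, 0⟩, ⟨28, -4, 0, 0⟩, ⟨34, 0, -2, 0⟩, ⟨64, 0, -4, 0⟩⟩,
  ⟨1, 41, 229, ⟨8, 0, 0, 0⟩, ⟨14, 2, 0, 0⟩, ⟨14, -2, 0, 0⟩, ⟨34, 0, -2, 0⟩⟩,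
  ⟨1, 42, 229, ⟨28, 4, 0, 0⟩, ⟨28, -4, 0, 0⟩, ⟨34, 0, -2, 0⟩, ⟨64, 0, -4, 0⟩⟩,
  ⟨1, 43, 229, ⟨28, 4, 0, 0⟩, ⟨28, -4, 0, 0⟩, ⟨34, 0, -2, 0⟩, ⟨64, 0, -4, 0⟩⟩,
  ⟨1, 46, 229, ⟨28, 4, 0, 0⟩, ⟨28, -4, 0, 0⟩, ⟨34, 0, -2, 0⟩, ⟨64, 0, -4, 0⟩⟩,
  ⟨1, 47, 229, ⟨28, 4, 0, 0⟩, ⟨28, -4, 0, 0⟩, ⟨34, 0, -2, 0⟩, ⟨64, 0, -4, 0⟩⟩,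
  ⟨1, 51, 229, ⟨32, 4, 0, 0⟩, ⟨32, -4, 0, 0⟩, ⟨34, 0, -2, 0⟩, ⟨64, 0, -4, 0⟩⟩,
  ⟨1, 53, 229, ⟨18, 2, 0, 0⟩, ⟨32, 4, 0, 0⟩, ⟨34, 0, -2, 0⟩, ⟨34, 0, 2, 0⟩⟩]

theorem tab37_1_ok : allB tab37_1 E.ok = true := by decide +kernel

def tab37_2 : List E := [
  ⟨1, 55, 229, ⟨32, 4, 0, 0⟩, ⟨34, 0, -2, 0⟩, ⟨62, 4, -2, 0⟩, ⟨64, 0, -4, 0⟩⟩,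
  ⟨1, 57, 229, ⟨18, 2, 0, 0⟩, ⟨32, 4, 0, 0⟩, ⟨34, 0, -2, 0⟩, ⟨34, 0, 2, 0⟩⟩,
  ⟨1, 61, 229, ⟨18, 2, 0, 0⟩, ⟨32, 4, 0, 0⟩, ⟨34, 0, -2, 0⟩, ⟨34, 0, 2, 0⟩⟩,
  ⟨1, 65, 229, ⟨8, 0, 0, 0⟩, ⟨18, 2, 0, 0⟩, ⟨34, 0, -2, 0⟩, ⟨48, 2, -2, 0⟩⟩,
  ⟨1, 69, 229, ⟨8, 0, 0, 0⟩, ⟨18, 2, 0, 0⟩, ⟨18, -2, 0, 0⟩, ⟨34, 0, -2, 0⟩⟩,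
  ⟨1, 73, 229, ⟨8, 0, 0, 0⟩, ⟨18, 2, 0, 0⟩, ⟨18, -2, 0, 0⟩, ⟨34, 0, -2, 0⟩⟩,
  ⟨1, 77, 229, ⟨18, 2, 0, 0⟩, ⟨34, 0, -2, 0⟩, ⟨48, -2, 2, 0⟩, ⟨48, 2, 2, 0⟩⟩,
  ⟨1, 85, 229, ⟨8, 0, 0, 0⟩, ⟨22, 2, 0, 0⟩, ⟨34, 0, -2, 0⟩, ⟨34, 0, 2, 0⟩⟩,
  ⟨1, 89, 229, ⟨22, 2, 0, 0⟩, ⟨22, -2, 0, 0⟩, ⟨34, 0, -2, 0⟩, ⟨34, 0, 2, 0⟩⟩,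
  ⟨1, 93, 229, ⟨22, 2, 0, 0⟩, ⟨22, -2, 0, 0⟩, ⟨34, 0, -2, 0⟩, ⟨34, 0, 2, 0⟩⟩]

theorem tab37_2_ok : allB tab37_2 E.ok = true := by decide +kernel

def tab37_3 : List E := [
  ⟨1, 97, 229, ⟨22, 2, 0, 0⟩, ⟨22, -2, 0, 0⟩, ⟨34, 0, -2, 0⟩, ⟨34, 0, 2, 0⟩⟩,
  ⟨1, 101, 229, ⟨8, 0, 0, 0⟩, ⟨22, 2, 0, 0⟩, ⟨34, 0, -2, 0⟩, ⟨52, 2, -2, 0⟩⟩,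
  ⟨1, 105, 229, ⟨8, 0, 0, 0⟩, ⟨22, 2, 0, 0⟩, ⟨34, 0, -2, 0⟩, ⟨52, 2, -2, 0⟩⟩,
  ⟨1, 109, 229, ⟨8, 0, 0, 0⟩, ⟨22, 2, 0, 0⟩, ⟨22, -2, 0, 0⟩, ⟨34, 0, -2, 0⟩⟩,
  ⟨1, 113, 229, ⟨8, 0, 0, 0⟩, ⟨22, 2, 0, 0⟩, ⟨22, -2, 0, 0⟩, ⟨34, 0, -2, 0⟩⟩,
  ⟨1, 129, 229, ⟨26, 2, 0, 0⟩, ⟨26, -2, 0, 0⟩, ⟨34, 0, -2, 0⟩, ⟨64, 0, -4, 0⟩⟩,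
  ⟨1, 133, 229, ⟨26, 2, 0, 0⟩, ⟨34, 0, -2, 0⟩, ⟨56, 2, -2, 0⟩, ⟨64, 0, -4, 0⟩⟩,
  ⟨1, 137, 229, ⟨26, 2, 0, 0⟩, ⟨26, -2, 0, 0⟩, ⟨34, 0, -2, 0⟩, ⟨64, 0, -4, 0⟩⟩,
  ⟨1, 141, 229, ⟨26, 2, 0, 0⟩, ⟨26, -2, 0, 0⟩, ⟨34, 0, -2, 0⟩, ⟨64, 0, -4, 0⟩⟩,
  ⟨1, 145, 229, ⟨26, 2, 0, 0⟩, ⟨26, -2, 0, 0⟩, ⟨34, 0, -2, 0⟩, ⟨64, 0, -4, 0⟩⟩]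

theorem tab37_3_ok : allB tab37_3 E.ok = true := by decide +kernel

def tab37_4 : List E := [
  ⟨1, 149, 229, ⟨26, 2, 0, 0⟩, ⟨26, -2, 0, 0⟩, ⟨34, 0, -2, 0⟩, ⟨64, 0, -4, 0⟩⟩,
  ⟨1, 157, 229, ⟨26, 2, 0, 0⟩, ⟨26, -2, 0, 0⟩, ⟨34, 0, -2, 0⟩, ⟨64, 0, -4, 0⟩⟩,
  ⟨1, 161, 229, ⟨26, 2, 0, 0⟩, ⟨26, -2, 0, 0⟩, ⟨34, 0, -2, 0⟩, ⟨64, 0, -4, 0⟩⟩,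
  ⟨1, 165, 229, ⟨8, 0, 0, 0⟩, ⟨26, 2, 0, 0⟩, ⟨56, -2, -2, 0⟩, ⟨56, 2, 2, 0⟩⟩,
  ⟨1, 173, 229, ⟨30, 2, 0, 0⟩, ⟨30, -2, 0, 0⟩, ⟨34, 0, -2, 0⟩, ⟨64, 0, -4, 0⟩⟩,
  ⟨1, 177, 229, ⟨30, 2, 0, 0⟩, ⟨30, -2, 0, 0⟩, ⟨34, 0, -2, 0⟩, ⟨64, 0, -4, 0⟩⟩,
  ⟨1, 181, 229, ⟨30, 2, 0, 0⟩, ⟨30, -2, 0, 0⟩, ⟨34, 0, -2, 0⟩, ⟨64, 0, -4, 0⟩⟩,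
  ⟨1, 185, 229, ⟨30, 2, 0, 0⟩, ⟨30, -2, 0, 0⟩, ⟨34, 0, -2, 0⟩, ⟨64, 0, -4, 0⟩⟩,
  ⟨1, 193, 229, ⟨30, 2, 0, 0⟩, ⟨30, -2, 0, 0⟩, ⟨34, 0, -2, 0⟩, ⟨64, 0, -4, 0⟩⟩,
  ⟨1, 197, 229, ⟨30, 2, 0, 0⟩, ⟨30, -2, 0, 0⟩, ⟨34, 0, -2, 0⟩, ⟨64, 0, -4, 0⟩⟩]

theorem tab37_4_ok : allB tab37_4 E.ok = true := by decide +kernel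

def tab37 : List E :=
  tab37_0 ++ (tab37_1 ++ (tab37_2 ++ (tab37_3 ++ (tab37_4))))

theorem tab37_ok : allB tab37 E.ok = true :=
  allB_append tab37_0_ok (allB_append tab37_1_ok (allB_append tab37_2_ok (allB_append tab37_3_ok
  tab37_4_ok)))

end BQN
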