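import Pool.Agent.BQN.App

/-! Table 38. -/

namespace BQN

def tab38_0 : List E := [
  ⟨1, 201, 229, ⟨30, 2, 0, 0⟩, ⟨30, -2, 0, 0⟩, ⟨34, 0, -2, 0⟩, ⟨64, 0, -4, 0⟩⟩,
  ⟨1, 205, 229, ⟨30, 2, 0, 0⟩, ⟨30, -2, 0, 0⟩, ⟨34, 0, -2, 0⟩, ⟨64, 0, -4, 0⟩⟩,
  ⟨1, 209, 229, ⟨8, 0, 0, 0⟩, ⟨30, 2, 0, 0⟩, ⟨34, 0, -2, 0⟩, ⟨60, 2, -2, 0⟩⟩,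
  ⟨1, 213, 229, ⟨30, 2, 0, 0⟩, ⟨30, -2, 0, 0⟩, ⟨34, 0, -2, 0⟩, ⟨64, 0, -4, 0⟩⟩,
  ⟨1, 217, 229, ⟨30, 2, 0, 0⟩, ⟨30, -2, 0, 0⟩, ⟨34, 0, -2, 0⟩, ⟨64, 0, -4, 0⟩⟩,
  ⟨1, 221, 229, ⟨30, 2, 0, 0⟩, ⟨34, 0, -2, 0⟩, ⟨60, -2, -2, 0⟩, ⟨60, 2, -2, 0⟩⟩,
  ⟨1, 2, 233, ⟨8, 4, 0, 0⟩, ⟨42, -8, -2, 0⟩, ⟨42, 8, 2, 0⟩, ⟨46, 22, -2, -2⟩⟩,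
  ⟨1, 3, 233, ⟨8, 4, 0, 0⟩, ⟨34, 0, -2, 0⟩, ⟨38, -4, -2, 0⟩, ⟨38, 4, -2, 0⟩⟩,
  ⟨1, 5, 233, ⟨34, 0, -2, 0⟩, ⟨35, 7, -1, -1⟩, ⟨35, -7, -1, 1⟩, ⟨36, -2, -2, 0⟩⟩,
  ⟨1, 6, 233, ⟨12, 4, 0, 0⟩, ⟨12, -4, 0, 0⟩, ⟨20, 8, 0, 0⟩, ⟨34, 0, -2, 0⟩⟩]

theorem tab38_0_ok : allB tab38_0 E.ok = true := by decide +kernel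

def tab38_1 : List E := [
  ⟨1, 7, 233, ⟨8, 0, 0, 0⟩, ⟨12, 4, 0, 0⟩, ⟨12, -4, 0, 0⟩, ⟨34, 0, -2, 0⟩⟩,
  ⟨1, 10, 233, ⟨16, 4, 0, 0⟩, ⟨28, 8, 0, 0⟩, ⟨34, 0, -2, 0⟩, ⟨34, 0, 2, 0⟩⟩,
  ⟨1, 11, 233, ⟨8, 0, 0, 0⟩, ⟨28, -8, 0, 0⟩, ⟨34, 0, -2, 0⟩, ⟨58, -8, -2, 0⟩⟩,
  ⟨1, 13, 233, ⟨10, 2, 0, 0⟩, ⟨10, -2, 0, 0⟩, ⟨34, 0, -2, 0⟩, ⟨34, 0, 2, 0⟩⟩,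
  ⟨1, 14, 233, ⟨8, 0, 0, 0⟩, ⟨16, 4, 0, 0⟩, ⟨16, -4, 0, 0⟩, ⟨46, -4, -2, 0⟩⟩,
  ⟨1, 15, 233, ⟨8, 0, 0, 0⟩, ⟨16, 4, 0, 0⟩, ⟨34, 0, -2, 0⟩, ⟨34, 0, 2, 0⟩⟩,
  ⟨1, 17, 233, ⟨8, 0, 0, 0⟩, ⟨10, 2, 0, 0⟩, ⟨10, -2, 0, 0⟩, ⟨34, 0, -2, 0⟩⟩,
  ⟨1, 19, 233, ⟨20, 4, 0, 0⟩, ⟨20, -4, 0, 0⟩, ⟨34, 0, -2, 0⟩, ⟨34, 0, 2, 0⟩⟩,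
  ⟨1, 21, 233, ⟨8, 0, 0, 0⟩, ⟨10, 2, 0, 0⟩, ⟨40, -2, -2, 0⟩, ⟨40, 2, -2, 0⟩⟩,
  ⟨1, 22, 233, ⟨8, 0, 0, 0⟩, ⟨20, 4, 0, 0⟩, ⟨20, -4, 0, 0⟩, ⟨34, 0, -2, 0⟩⟩]

theorem tab38_1_ok : allB tab38_1 E.ok = true := by decide +kernel

def tab38_2 : List E := [
  ⟨1, 23, 233, ⟨8, 0, 0, 0⟩, ⟨20, 4, 0, 0⟩, ⟨20, -4, 0, 0⟩, ⟨50, -4, -2, 0⟩⟩,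
  ⟨1, 26, 233, ⟨24, 4, 0, 0⟩, ⟨24, -4, 0, 0⟩, ⟨34, 0, -2, 0⟩, ⟨34, 0, 2, 0⟩⟩,
  ⟨1, 29, 233, ⟨14, 2, 0, 0⟩, ⟨24, 4, 0, 0⟩, ⟨34, 0, -2, 0⟩, ⟨34, 0, 2, 0⟩⟩,
  ⟨1, 30, 233, ⟨24, 4, 0, 0⟩, ⟨24, -4, 0, 0⟩, ⟨34, 0, -2, 0⟩, ⟨34, 0, 2, 0⟩⟩,
  ⟨1, 31, 233, ⟨8, 0, 0, 0⟩, ⟨24, 4, 0, 0⟩, ⟨34, 0, -2, 0⟩, ⟨54, 4, -2, 0⟩⟩,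
  ⟨1, 33, 233, ⟨14, 2, 0, 0⟩, ⟨24, 4, 0, 0⟩, ⟨34, 0, -2, 0⟩, ⟨54, 4, -2, 0⟩⟩,
  ⟨1, 34, 233, ⟨8, 0, 0, 0⟩, ⟨24, 4, 0, 0⟩, ⟨54, -4, -2, 0⟩, ⟨54, 4, 2, 0⟩⟩,
  ⟨1, 35, 233, ⟨8, 0, 0, 0⟩, ⟨24, 4, 0, 0⟩, ⟨34, 0, -2, 0⟩, ⟨64, 0, -4, 0⟩⟩,
  ⟨1, 37, 233, ⟨8, 0, 0, 0⟩, ⟨14, 2, 0, 0⟩, ⟨14, -2, 0, 0⟩, ⟨34, 0, -2, 0⟩⟩,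
  ⟨1, 38, 233, ⟨28, 4, 0, 0⟩, ⟨28, -4, 0, 0⟩, ⟨34, 0, -2, 0⟩, ⟨64, 0, -4, 0⟩⟩]

theorem tab38_2_ok : allB tab38_2 E.ok = true := by decide +kernel

def tab38_3 : List E := [
  ⟨1, 39, 233, ⟨28, 4, 0, 0⟩, ⟨28, -4, 0, 0⟩, ⟨34, 0, -2, 0⟩, ⟨64, 0, -4, 0⟩⟩,
  ⟨1, 41, 233, ⟨8, 0, 0, 0⟩, ⟨14, 2, 0, 0⟩, ⟨14, -2, 0, 0⟩, ⟨34, 0, -2, 0⟩⟩,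
  ⟨1, 42, 233, ⟨28, 4, 0, 0⟩, ⟨28, -4, 0, 0⟩, ⟨34, 0, -2, 0⟩, ⟨64, 0, -4, 0⟩⟩,
  ⟨1, 43, 233, ⟨28, 4, 0, 0⟩, ⟨28, -4, 0, 0⟩, ⟨34, 0, -2, 0⟩, ⟨64, 0, -4, 0⟩⟩,
  ⟨1, 46, 233, ⟨28, 4, 0, 0⟩, ⟨28, -4, 0, 0⟩, ⟨34, 0, -2, 0⟩, ⟨64, 0, -4, 0⟩⟩,
  ⟨1, 47, 233, ⟨28, 4, 0, 0⟩, ⟨34, 0, -2, 0⟩, ⟨58, -4, -2, 0⟩, ⟨58, 4, 2, 0⟩⟩,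
  ⟨1, 51, 233, ⟨32, 4, 0, 0⟩, ⟨32, -4, 0, 0⟩, ⟨34, 0, -2, 0⟩, ⟨64, 0, -4, 0⟩⟩,
  ⟨1, 53, 233, ⟨18, 2, 0, 0⟩, ⟨32, 4, 0, 0⟩, ⟨34, 0, -2, 0⟩, ⟨34, 0, 2, 0⟩⟩,
  ⟨1, 55, 233, ⟨32, 4, 0, 0⟩, ⟨34, 0, -2, 0⟩, ⟨62, 4, -2, 0⟩, ⟨64, 0, -4, 0⟩⟩,
  ⟨1, 57, 233, ⟨18, 2, 0, 0⟩, ⟨32, 4, 0, 0⟩, ⟨34, 0, -2, 0⟩, ⟨34, 0, 2, 0⟩⟩]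

theorem tab38_3_ok : allB tab38_3 E.ok = true := by decide +kernel

def tab38_4 : List E := [
  ⟨1, 58, 233, ⟨32, 4, 0, 0⟩, ⟨32, -4, 0, 0⟩, ⟨34, 0, -2, 0⟩, ⟨64, 0, -4, 0⟩⟩,
  ⟨1, 61, 233, ⟨18, 2, 0, 0⟩, ⟨32, 4, 0, 0⟩, ⟨34, 0, -2, 0⟩, ⟨34, 0, 2, 0⟩⟩,
  ⟨1, 65, 233, ⟨8, 0, 0, 0⟩, ⟨18, 2, 0, 0⟩, ⟨34, 0, -2, 0⟩, ⟨48, 2, -2, 0⟩⟩,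
  ⟨1, 69, 233, ⟨8, 0, 0, 0⟩, ⟨18, 2, 0, 0⟩, ⟨18, -2, 0, 0⟩, ⟨34, 0, -2, 0⟩⟩,
  ⟨1, 73, 233, ⟨8, 0, 0, 0⟩, ⟨18, 2, 0, 0⟩, ⟨18, -2, 0, 0⟩, ⟨48, -2, -2, 0⟩⟩,
  ⟨1, 77, 233, ⟨8, 0, 0, 0⟩, ⟨18, 2, 0, 0⟩, ⟨34, 0, -2, 0⟩, ⟨34, 0, 2, 0⟩⟩,
  ⟨1, 85, 233, ⟨8, 0, 0, 0⟩, ⟨22, 2, 0, 0⟩, ⟨34, 0, -2, 0⟩, ⟨34, 0, 2, 0⟩⟩,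
  ⟨1, 89, 233, ⟨22, 2, 0, 0⟩, ⟨22, -2, 0, 0⟩, ⟨34, 0, -2, 0⟩, ⟨34, 0, 2, 0⟩⟩,
  ⟨1, 93, 233, ⟨22, 2, 0, 0⟩, ⟨22, -2, 0, 0⟩, ⟨34, 0, -2, 0⟩, ⟨34, 0, 2, 0⟩⟩,
  ⟨1, 97, 233, ⟨22, 2, 0, 0⟩, ⟨22, -2, 0, 0⟩, ⟨34, 0, -2, 0⟩, ⟨34, 0, 2, 0⟩⟩]

theorem tab38_4_ok : allB tab38_4 E.ok = true := by decide +kernel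

def tab38 : List E :=
  tab38_0 ++ (tab38_1 ++ (tab38_2 ++ (tab38_3 ++ (tab38_4))))

theorem tab38_ok : allB tab38 E.ok = true :=
  allB_append tab38_0_ok (allB_append tab38_1_ok (allB_append tab38_2_ok (allB_append tab38_3_ok
  tab38_4_ok)))

end BQN
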