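import Pool.Agent.BQN.App

/-! Table 39. -/

namespace BQN

def tab39_0 : List E := [
  ⟨1, 101, 233, ⟨8, 0, 0, 0⟩, ⟨22, 2, 0, 0⟩, ⟨34, 0, -2, 0⟩, ⟨52, 2, -2, 0⟩⟩,
  ⟨1, 105, 233, ⟨8, 0, 0, 0⟩, ⟨22, 2, 0, 0⟩, ⟨34, 0, -2, 0⟩, ⟨52, 2, -2, 0⟩⟩,
  ⟨1, 109, 233, ⟨8, 0, 0, 0⟩, ⟨22, 2, 0, 0⟩, ⟨22, -2, 0, 0⟩, ⟨34, 0, -2, 0⟩⟩,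
  ⟨1, 113, 233, ⟨22, 2, 0, 0⟩, ⟨22, -2, 0, 0⟩, ⟨34, 0, -2, 0⟩, ⟨52, -2, 2, 0⟩⟩,
  ⟨1, 129, 233, ⟨26, 2, 0, 0⟩, ⟨26, -2, 0, 0⟩, ⟨34, 0, -2, 0⟩, ⟨64, 0, -4, 0⟩⟩,
  ⟨1, 133, 233, ⟨26, 2, 0, 0⟩, ⟨34, 0, -2, 0⟩, ⟨56, 2, -2, 0⟩, ⟨64, 0, -4, 0⟩⟩,
  ⟨1, 137, 233, ⟨26, 2, 0, 0⟩, ⟨26, -2, 0, 0⟩, ⟨34, 0, -2, 0⟩, ⟨64, 0, -4, 0⟩⟩,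
  ⟨1, 141, 233, ⟨26, 2, 0, 0⟩, ⟨26, -2, 0, 0⟩, ⟨34, 0, -2, 0⟩, ⟨64, 0, -4, 0⟩⟩,
  ⟨1, 145, 233, ⟨26, 2, 0, 0⟩, ⟨26, -2, 0, 0⟩, ⟨34, 0, -2, 0⟩, ⟨64, 0, -4, 0⟩⟩,
  ⟨1, 149, 233, ⟨26, 2, 0, 0⟩, ⟨26, -2, 0, 0⟩, ⟨34, 0, -2, 0⟩, ⟨64, 0, -4, 0⟩⟩]

theorem tab39_0_ok : allB tab39_0 E.ok = true := by decide +kernel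

def tab39_1 : List E := [
  ⟨1, 157, 233, ⟨26, 2, 0, 0⟩, ⟨26, -2, 0, 0⟩, ⟨34, 0, -2, 0⟩, ⟨64, 0, -4, 0⟩⟩,
  ⟨1, 161, 233, ⟨26, 2, 0, 0⟩, ⟨56, -2, -2, 0⟩, ⟨56, 2, 2, 0⟩, ⟨64, 0, -4, 0⟩⟩,
  ⟨1, 165, 233, ⟨8, 0, 0, 0⟩, ⟨26, 2, 0, 0⟩, ⟨34, 0, -2, 0⟩, ⟨64, 0, -4, 0⟩⟩,
  ⟨1, 173, 233, ⟨30, 2, 0, 0⟩, ⟨30, -2, 0, 0⟩, ⟨34, 0, -2, 0⟩, ⟨64, 0, -4, 0⟩⟩,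
  ⟨1, 177, 233, ⟨30, 2, 0, 0⟩, ⟨30, -2, 0, 0⟩, ⟨34, 0, -2, 0⟩, ⟨64, 0, -4, 0⟩⟩,
  ⟨1, 181, 233, ⟨30, 2, 0, 0⟩, ⟨30, -2, 0, 0⟩, ⟨34, 0, -2, 0⟩, ⟨64, 0, -4, 0⟩⟩,
  ⟨1, 185, 233, ⟨30, 2, 0, 0⟩, ⟨30, -2, 0, 0⟩, ⟨34, 0, -2, 0⟩, ⟨64, 0, -4, 0⟩⟩,
  ⟨1, 193, 233, ⟨30, 2, 0, 0⟩, ⟨30, -2, 0, 0⟩, ⟨34, 0, -2, 0⟩, ⟨64, 0, -4, 0⟩⟩,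
  ⟨1, 197, 233, ⟨30, 2, 0, 0⟩, ⟨30, -2, 0, 0⟩, ⟨34, 0, -2, 0⟩, ⟨64, 0, -4, 0⟩⟩,
  ⟨1, 201, 233, ⟨30, 2, 0, 0⟩, ⟨30, -2, 0, 0⟩, ⟨34, 0, -2, 0⟩, ⟨64, 0, -4, 0⟩⟩]

theorem tab39_1_ok : allB tab39_1 E.ok = true := by decide +kernel

def tab39_2 : List E := [
  ⟨1, 205, 233, ⟨30, 2, 0, 0⟩, ⟨30, -2, 0, 0⟩, ⟨34, 0, -2, 0⟩, ⟨64, 0, -4, 0⟩⟩,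
  ⟨1, 209, 233, ⟨8, 0, 0, 0⟩, ⟨30, 2, 0, 0⟩, ⟨34, 0, -2, 0⟩, ⟨60, 2, -2, 0⟩⟩,
  ⟨1, 213, 233, ⟨30, 2, 0, 0⟩, ⟨30, -2, 0, 0⟩, ⟨34, 0, -2, 0⟩, ⟨64, 0, -4, 0⟩⟩,
  ⟨1, 217, 233, ⟨30, 2, 0, 0⟩, ⟨30, -2, 0, 0⟩, ⟨34, 0, -2, 0⟩, ⟨60, -2, -2, 0⟩⟩,
  ⟨1, 221, 233, ⟨8, 0, 0, 0⟩, ⟨30, 2, 0, 0⟩, ⟨34, 0, -2, 0⟩, ⟨64, 0, -4, 0⟩⟩,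
  ⟨1, 229, 233, ⟨34, 2, 0, 0⟩, ⟨34, -2, 0, 0⟩, ⟨34, 0, -2, 0⟩, ⟨64, 0, -4, 0⟩⟩,
  ⟨1, 2, 237, ⟨8, 4, 0, 0⟩, ⟨34, 0, -2, 0⟩, ⟨46, 22, -2, -2⟩, ⟨46, -22, 2, -2⟩⟩,
  ⟨3, 1, 79, ⟨8, 4, 0, 0⟩, ⟨24, -2, 0, -2⟩, ⟨34, 10, -2, -2⟩, ⟨36, 0, 0, -4⟩⟩,
  ⟨1, 5, 237, ⟨8, 0, 0, 0⟩, ⟨35, 7, -1, -1⟩, ⟨35, -7, -1, 1⟩, ⟨36, -2, -2, 0⟩⟩,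
  ⟨3, 2, 79, ⟨12, 4, 0, 0⟩, ⟨20, 8, 0, 0⟩, ⟨32, 2, 0, -2⟩, ⟨34, -10, 2, -2⟩⟩]

theorem tab39_2_ok : allB tab39_2 E.ok = true := by decide +kernel

def tab39_3 : List E := [
  ⟨1, 7, 237, ⟨8, 0, 0, 0⟩, ⟨12, 4, 0, 0⟩, ⟨12, -4, 0, 0⟩, ⟨42, -4, -2, 0⟩⟩,
  ⟨1, 10, 237, ⟨16, 4, 0, 0⟩, ⟨28, 8, 0, 0⟩, ⟨34, 0, -2, 0⟩, ⟨34, 0, 2, 0⟩⟩,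
  ⟨1, 11, 237, ⟨8, 0, 0, 0⟩, ⟨28, -8, 0, 0⟩, ⟨34, 0, -2, 0⟩, ⟨58, -8, -2, 0⟩⟩,
  ⟨1, 13, 237, ⟨10, 2, 0, 0⟩, ⟨10, -2, 0, 0⟩, ⟨34, 0, -2, 0⟩, ⟨46, -4, -2, 0⟩⟩,
  ⟨1, 14, 237, ⟨16, 4, 0, 0⟩, ⟨16, -4, 0, 0⟩, ⟨34, 0, -2, 0⟩, ⟨46, -4, 2, 0⟩⟩,
  ⟨3, 5, 79, ⟨16, 4, 0, 0⟩, ⟨34, 0, -2, 0⟩, ⟨48, -2, 0, -2⟩, ⟨50, 6, -2, -2⟩⟩,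
  ⟨1, 17, 237, ⟨8, 0, 0, 0⟩, ⟨10, 2, 0, 0⟩, ⟨10, -2, 0, 0⟩, ⟨34, 0, -2, 0⟩⟩,
  ⟨1, 19, 237, ⟨20, 4, 0, 0⟩, ⟨20, -4, 0, 0⟩, ⟨34, 0, -2, 0⟩, ⟨34, 0, 2, 0⟩⟩,
  ⟨3, 7, 79, ⟨10, 2, 0, 0⟩, ⟨29, 3, -1, -1⟩, ⟨34, 0, -2, 0⟩, ⟨35, -1, -1, 1⟩⟩,
  ⟨1, 22, 237, ⟨8, 0, 0, 0⟩, ⟨20, 4, 0, 0⟩, ⟨20, -4, 0, 0⟩, ⟨34, 0, -2, 0⟩⟩]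

theorem tab39_3_ok : allB tab39_3 E.ok = true := by decide +kernel

def tab39_4 : List E := [
  ⟨1, 23, 237, ⟨20, 4, 0, 0⟩, ⟨34, 0, -2, 0⟩, ⟨50, -4, -2, 0⟩, ⟨50, 4, 2, 0⟩⟩,
  ⟨1, 26, 237, ⟨24, 4, 0, 0⟩, ⟨24, -4, 0, 0⟩, ⟨34, 0, -2, 0⟩, ⟨34, 0, 2, 0⟩⟩,
  ⟨1, 29, 237, ⟨14, 2, 0, 0⟩, ⟨24, 4, 0, 0⟩, ⟨34, 0, -2, 0⟩, ⟨34, 0, 2, 0⟩⟩,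
  ⟨3, 10, 79, ⟨24, 4, 0, 0⟩, ⟨34, 0, 2, 0⟩, ⟨54, 4, 2, 0⟩, ⟨62, 6, -2, -2⟩⟩,
  ⟨1, 31, 237, ⟨8, 0, 0, 0⟩, ⟨24, 4, 0, 0⟩, ⟨34, 0, -2, 0⟩, ⟨54, 4, -2, 0⟩⟩,
  ⟨3, 11, 79, ⟨14, 2, 0, 0⟩, ⟨33, 3, -1, -1⟩, ⟨33, -3, 1, -1⟩, ⟨43, 5, -1, -1⟩⟩,
  ⟨1, 34, 237, ⟨24, 4, 0, 0⟩, ⟨24, -4, 0, 0⟩, ⟨34, 0, -2, 0⟩, ⟨64, 0, -4, 0⟩⟩,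
  ⟨1, 35, 237, ⟨8, 0, 0, 0⟩, ⟨24, 4, 0, 0⟩, ⟨34, 0, -2, 0⟩, ⟨64, 0, -4, 0⟩⟩,
  ⟨1, 37, 237, ⟨8, 0, 0, 0⟩, ⟨14, 2, 0, 0⟩, ⟨14, -2, 0, 0⟩, ⟨34, 0, -2, 0⟩⟩,
  ⟨1, 38, 237, ⟨28, 4, 0, 0⟩, ⟨28, -4, 0, 0⟩, ⟨34, 0, -2, 0⟩, ⟨64, 0, -4, 0⟩⟩]

theorem tab39_4_ok : allB tab39_4 E.ok = true := by decide +kernel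

def tab39 : List E :=
  tab39_0 ++ (tab39_1 ++ (tab39_2 ++ (tab39_3 ++ (tab39_4))))

theorem tab39_ok : allB tab39 E.ok = true :=
  allB_append tab39_0_ok (allB_append tab39_1_ok (allB_append tab39_2_ok (allB_append tab39_3_ok
  tab39_4_ok)))

end BQN
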