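import Pool.Agent.BQN.App

/-! Table 4. -/

namespace BQN

def tab4_0 : List E := [
  ⟨1, 13, 31, ⟨10, 2, 0, 0⟩, ⟨10, -2, 0, 0⟩, ⟨24, 0, -4, 0⟩, ⟨30, -2, -4, 0⟩⟩,
  ⟨1, 14, 31, ⟨16, 4, 0, 0⟩, ⟨24, 0, -4, 0⟩, ⟨44, 6, -4, -2⟩, ⟨44, -6, 4, -2⟩⟩,
  ⟨1, 15, 31, ⟨8, 0, 0, 0⟩, ⟨16, 4, 0, 0⟩, ⟨20, -2, -2, 0⟩, ⟨24, 0, -4, 0⟩⟩,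
  ⟨1, 17, 31, ⟨8, 0, 0, 0⟩, ⟨10, 2, 0, 0⟩, ⟨10, -2, 0, 0⟩, ⟨24, 0, -4, 0⟩⟩,
  ⟨1, 19, 31, ⟨20, 4, 0, 0⟩, ⟨20, -2, -2, 0⟩, ⟨20, 2, -2, 0⟩, ⟨24, 0, -4, 0⟩⟩,
  ⟨1, 21, 31, ⟨8, 0, 0, 0⟩, ⟨10, 2, 0, 0⟩, ⟨24, 0, -4, 0⟩, ⟨24, 0, 4, 0⟩⟩,
  ⟨1, 22, 31, ⟨8, 0, 0, 0⟩, ⟨20, 4, 0, 0⟩, ⟨20, -4, 0, 0⟩, ⟨24, 0, -4, 0⟩⟩,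
  ⟨1, 23, 31, ⟨20, 4, 0, 0⟩, ⟨24, 0, -4, 0⟩, ⟨24, 2, -2, 0⟩, ⟨40, -6, -2, 0⟩⟩,
  ⟨1, 26, 31, ⟨8, 0, 0, 0⟩, ⟨24, 4, 0, 0⟩, ⟨24, 0, -4, 0⟩, ⟨44, -4, -4, 0⟩⟩,
  ⟨1, 29, 31, ⟨8, 0, 0, 0⟩, ⟨24, 0, -4, 0⟩, ⟨34, -2, -4, 0⟩, ⟨44, -4, -4, 0⟩⟩]

theorem tab4_0_ok : allB tab4_0 E.ok = true := by decide +kernel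

def tab4_1 : List E := [
  ⟨1, 30, 31, ⟨24, 4, 0, 0⟩, ⟨24, -4, 0, 0⟩, ⟨24, 0, -4, 0⟩, ⟨24, 0, 4, 0⟩⟩,
  ⟨1, 33, 31, ⟨8, 0, 0, 0⟩, ⟨24, 4, 0, 0⟩, ⟨24, 0, -4, 0⟩, ⟨34, -2, -4, 0⟩⟩,
  ⟨1, 37, 31, ⟨8, 0, 0, 0⟩, ⟨14, -2, 0, 0⟩, ⟨24, 0, -4, 0⟩, ⟨48, -4, -4, 0⟩⟩,
  ⟨1, 41, 31, ⟨8, 0, 0, 0⟩, ⟨14, 2, 0, 0⟩, ⟨24, 0, -4, 0⟩, ⟨48, -4, -4, 0⟩⟩,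
  ⟨1, 53, 31, ⟨18, 2, 0, 0⟩, ⟨32, 4, 0, 0⟩, ⟨24, 0, -4, 0⟩, ⟨24, 0, 4, 0⟩⟩,
  ⟨1, 57, 31, ⟨8, 0, 0, 0⟩, ⟨32, 4, 0, 0⟩, ⟨24, 0, -4, 0⟩, ⟨38, 2, -4, 0⟩⟩,
  ⟨1, 61, 31, ⟨18, 2, 0, 0⟩, ⟨32, 4, 0, 0⟩, ⟨24, 0, -4, 0⟩, ⟨38, -2, -4, 0⟩⟩,
  ⟨1, 65, 31, ⟨8, 0, 0, 0⟩, ⟨18, 2, 0, 0⟩, ⟨24, 0, -4, 0⟩, ⟨24, 0, 4, 0⟩⟩,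
  ⟨1, 69, 31, ⟨8, 0, 0, 0⟩, ⟨18, 2, 0, 0⟩, ⟨18, -2, 0, 0⟩, ⟨24, 0, -4, 0⟩⟩,
  ⟨1, 73, 31, ⟨8, 0, 0, 0⟩, ⟨18, 2, 0, 0⟩, ⟨18, -2, 0, 0⟩, ⟨24, 0, -4, 0⟩⟩]

theorem tab4_1_ok : allB tab4_1 E.ok = true := by decide +kernel

def tab4_2 : List E := [
  ⟨1, 77, 31, ⟨8, 0, 0, 0⟩, ⟨18, 2, 0, 0⟩, ⟨24, 0, -4, 0⟩, ⟨24, 0, 4, 0⟩⟩,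
  ⟨1, 85, 31, ⟨8, 0, 0, 0⟩, ⟨22, 2, 0, 0⟩, ⟨24, 0, -4, 0⟩, ⟨42, -2, -4, 0⟩⟩,
  ⟨1, 89, 31, ⟨22, 2, 0, 0⟩, ⟨24, 0, -4, 0⟩, ⟨42, -2, -4, 0⟩, ⟨48, 0, -8, 0⟩⟩,
  ⟨1, 97, 31, ⟨22, 2, 0, 0⟩, ⟨24, 0, -4, 0⟩, ⟨42, -2, -4, 0⟩, ⟨42, 2, -4, 0⟩⟩,
  ⟨1, 101, 31, ⟨8, 0, 0, 0⟩, ⟨22, 2, 0, 0⟩, ⟨22, -2, 0, 0⟩, ⟨24, 0, -4, 0⟩⟩,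
  ⟨1, 105, 31, ⟨8, 0, 0, 0⟩, ⟨22, 2, 0, 0⟩, ⟨24, 0, -4, 0⟩, ⟨24, 0, 4, 0⟩⟩,
  ⟨1, 109, 31, ⟨8, 0, 0, 0⟩, ⟨22, 2, 0, 0⟩, ⟨22, -2, 0, 0⟩, ⟨24, 0, -4, 0⟩⟩,
  ⟨1, 113, 31, ⟨8, 0, 0, 0⟩, ⟨22, 2, 0, 0⟩, ⟨22, -2, 0, 0⟩, ⟨24, 0, -4, 0⟩⟩,
  ⟨1, 2, 33, ⟨8, 4, 0, 0⟩, ⟨14, 0, -2, 0⟩, ⟨18, -4, -2, 0⟩, ⟨20, 2, 0, 2⟩⟩,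
  ⟨3, 1, 11, ⟨8, 4, 0, 0⟩, ⟨12, -2, 0, -2⟩, ⟨18, 8, -2, -4⟩, ⟨18, -6, 2, -2⟩⟩]

theorem tab4_2_ok : allB tab4_2 E.ok = true := by decide +kernel

def tab4_3 : List E := [
  ⟨1, 5, 33, ⟨14, 0, -2, 0⟩, ⟨15, 3, -1, -1⟩, ⟨16, -2, -2, 0⟩, ⟨16, 2, -2, 0⟩⟩,
  ⟨3, 2, 11, ⟨12, 4, 0, 0⟩, ⟨20, 8, 0, 0⟩, ⟨18, -2, 2, -2⟩, ⟨20, 0, 0, 4⟩⟩,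
  ⟨1, 7, 33, ⟨8, 0, 0, 0⟩, ⟨12, 4, 0, 0⟩, ⟨12, -4, 0, 0⟩, ⟨24, 0, -4, 0⟩⟩,
  ⟨1, 13, 33, ⟨10, 2, 0, 0⟩, ⟨14, 0, -2, 0⟩, ⟨23, 5, -3, -1⟩, ⟨23, -5, 3, -1⟩⟩,
  ⟨1, 17, 33, ⟨10, 2, 0, 0⟩, ⟨14, 0, -2, 0⟩, ⟨20, -2, -2, 0⟩, ⟨29, 3, -3, -1⟩⟩,
  ⟨3, 7, 11, ⟨8, 0, 0, 0⟩, ⟨10, 2, 0, 0⟩, ⟨11, 1, -1, -1⟩, ⟨11, -1, 1, -1⟩⟩,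
  ⟨1, 29, 33, ⟨14, 2, 0, 0⟩, ⟨24, 4, 0, 0⟩, ⟨14, 0, -2, 0⟩, ⟨24, 0, -4, 0⟩⟩,
  ⟨1, 3, 34, ⟨8, 4, 0, 0⟩, ⟨24, 8, -2, -2⟩, ⟨24, -8, 2, -2⟩, ⟨24, 0, -4, 0⟩⟩,
  ⟨1, 5, 34, ⟨24, 0, -4, 0⟩, ⟨24, 0, 4, 0⟩, ⟨30, 6, -2, -2⟩, ⟨32, 4, -2, -2⟩⟩,
  ⟨2, 3, 17, ⟨12, 4, 0, 0⟩, ⟨20, 8, 0, 0⟩, ⟨20, 2, -2, 0⟩, ⟨24, 0, -4, 0⟩⟩]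

theorem tab4_3_ok : allB tab4_3 E.ok = true := by decide +kernel

def tab4_4 : List E := [
  ⟨1, 7, 34, ⟨12, 4, 0, 0⟩, ⟨24, 0, -4, 0⟩, ⟨32, 4, -2, -2⟩, ⟨32, -4, 2, -2⟩⟩,
  ⟨1, 11, 34, ⟨16, 4, 0, 0⟩, ⟨24, 0, -4, 0⟩, ⟨44, 12, -6, -2⟩, ⟨44, 4, -2, -2⟩⟩,
  ⟨1, 13, 34, ⟨10, 2, 0, 0⟩, ⟨10, -2, 0, 0⟩, ⟨24, 0, -4, 0⟩, ⟨24, 0, 4, 0⟩⟩,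
  ⟨2, 7, 17, ⟨8, 0, 0, 0⟩, ⟨16, 4, 0, 0⟩, ⟨20, 2, -2, 0⟩, ⟨24, 0, -4, 0⟩⟩,
  ⟨1, 15, 34, ⟨8, 0, 0, 0⟩, ⟨16, 4, 0, 0⟩, ⟨24, 0, -4, 0⟩, ⟨24, 0, 4, 0⟩⟩,
  ⟨1, 19, 34, ⟨20, 4, 0, 0⟩, ⟨24, 0, -4, 0⟩, ⟨52, 8, -6, -2⟩, ⟨52, -8, 6, -2⟩⟩,
  ⟨1, 21, 34, ⟨8, 0, 0, 0⟩, ⟨10, 2, 0, 0⟩, ⟨24, 0, -4, 0⟩, ⟨24, 0, 4, 0⟩⟩,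
  ⟨2, 11, 17, ⟨20, 4, 0, 0⟩, ⟨24, 0, -4, 0⟩, ⟨24, 2, -2, 0⟩, ⟨40, -6, -2, 0⟩⟩,
  ⟨1, 23, 34, ⟨8, 0, 0, 0⟩, ⟨20, 4, 0, 0⟩, ⟨20, -4, 0, 0⟩, ⟨24, 0, -4, 0⟩⟩,
  ⟨2, 13, 17, ⟨24, 4, 0, 0⟩, ⟨24, 0, -4, 0⟩, ⟨24, 2, -2, 0⟩, ⟨30, 0, 0, -2⟩⟩]

theorem tab4_4_ok : allB tab4_4 E.ok = true := by decide +kernel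

def tab4 : List E :=
  tab4_0 ++ (tab4_1 ++ (tab4_2 ++ (tab4_3 ++ (tab4_4))))

theorem tab4_ok : allB tab4 E.ok = true :=
  allB_append tab4_0_ok (allB_append tab4_1_ok (allB_append tab4_2_ok (allB_append tab4_3_ok
  tab4_4_ok)))

end BQN
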