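import Pool.Agent.BQN.App

/-! Table 40. -/

namespace BQN

def tab40_0 : List E := [
  ⟨3, 13, 79, ⟨28, 4, 0, 0⟩, ⟨28, -4, 0, 0⟩, ⟨34, 0, -2, 0⟩, ⟨64, 0, -4, 0⟩⟩,
  ⟨1, 41, 237, ⟨8, 0, 0, 0⟩, ⟨14, 2, 0, 0⟩, ⟨14, -2, 0, 0⟩, ⟨44, -2, -2, 0⟩⟩,
  ⟨3, 14, 79, ⟨28, 4, 0, 0⟩, ⟨28, -4, 0, 0⟩, ⟨34, 0, -2, 0⟩, ⟨64, 0, -4, 0⟩⟩,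
  ⟨1, 43, 237, ⟨28, 4, 0, 0⟩, ⟨28, -4, 0, 0⟩, ⟨34, 0, -2, 0⟩, ⟨64, 0, -4, 0⟩⟩,
  ⟨1, 46, 237, ⟨28, 4, 0, 0⟩, ⟨34, 0, -2, 0⟩, ⟨58, -4, -2, 0⟩, ⟨58, 4, 2, 0⟩⟩,
  ⟨1, 47, 237, ⟨28, 4, 0, 0⟩, ⟨28, -4, 0, 0⟩, ⟨34, 0, -2, 0⟩, ⟨64, 0, -4, 0⟩⟩,
  ⟨3, 17, 79, ⟨32, 4, 0, 0⟩, ⟨32, -4, 0, 0⟩, ⟨34, 0, -2, 0⟩, ⟨64, 0, -4, 0⟩⟩,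
  ⟨1, 53, 237, ⟨18, 2, 0, 0⟩, ⟨32, 4, 0, 0⟩, ⟨34, 0, -2, 0⟩, ⟨34, 0, 2, 0⟩⟩,
  ⟨1, 55, 237, ⟨32, 4, 0, 0⟩, ⟨34, 0, -2, 0⟩, ⟨62, 4, -2, 0⟩, ⟨64, 0, -4, 0⟩⟩,
  ⟨3, 19, 79, ⟨18, 2, 0, 0⟩, ⟨34, 0, -2, 0⟩, ⟨47, 1, -1, -1⟩, ⟨49, 5, -3, -1⟩⟩]

theorem tab40_0_ok : allB tab40_0 E.ok = true := by decide +kernel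

def tab40_1 : List E := [
  ⟨1, 58, 237, ⟨32, 4, 0, 0⟩, ⟨32, -4, 0, 0⟩, ⟨34, 0, -2, 0⟩, ⟨64, 0, -4, 0⟩⟩,
  ⟨1, 59, 237, ⟨32, 4, 0, 0⟩, ⟨32, -4, 0, 0⟩, ⟨34, 0, -2, 0⟩, ⟨64, 0, -4, 0⟩⟩,
  ⟨1, 61, 237, ⟨18, 2, 0, 0⟩, ⟨32, 4, 0, 0⟩, ⟨34, 0, -2, 0⟩, ⟨34, 0, 2, 0⟩⟩,
  ⟨1, 65, 237, ⟨8, 0, 0, 0⟩, ⟨18, 2, 0, 0⟩, ⟨34, 0, -2, 0⟩, ⟨48, 2, -2, 0⟩⟩,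
  ⟨3, 23, 79, ⟨18, 2, 0, 0⟩, ⟨34, 0, -2, 0⟩, ⟨49, 5, -3, -1⟩, ⟨49, -5, -3, 1⟩⟩,
  ⟨1, 73, 237, ⟨18, 2, 0, 0⟩, ⟨34, 0, -2, 0⟩, ⟨48, -2, -2, 0⟩, ⟨48, 2, 2, 0⟩⟩,
  ⟨1, 77, 237, ⟨8, 0, 0, 0⟩, ⟨18, 2, 0, 0⟩, ⟨34, 0, -2, 0⟩, ⟨34, 0, 2, 0⟩⟩,
  ⟨1, 85, 237, ⟨8, 0, 0, 0⟩, ⟨22, 2, 0, 0⟩, ⟨34, 0, -2, 0⟩, ⟨34, 0, 2, 0⟩⟩,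
  ⟨1, 89, 237, ⟨22, 2, 0, 0⟩, ⟨22, -2, 0, 0⟩, ⟨34, 0, -2, 0⟩, ⟨34, 0, 2, 0⟩⟩,
  ⟨3, 31, 79, ⟨8, 0, 0, 0⟩, ⟨52, -2, -2, 0⟩, ⟨53, 5, -3, -1⟩, ⟨53, -5, 3, -1⟩⟩]

theorem tab40_1_ok : allB tab40_1 E.ok = true := by decide +kernel

def tab40_2 : List E := [
  ⟨1, 97, 237, ⟨22, 2, 0, 0⟩, ⟨22, -2, 0, 0⟩, ⟨34, 0, -2, 0⟩, ⟨34, 0, 2, 0⟩⟩,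
  ⟨1, 101, 237, ⟨8, 0, 0, 0⟩, ⟨22, 2, 0, 0⟩, ⟨34, 0, -2, 0⟩, ⟨52, 2, -2, 0⟩⟩,
  ⟨3, 35, 79, ⟨8, 0, 0, 0⟩, ⟨22, 2, 0, 0⟩, ⟨52, 2, -2, 0⟩, ⟨59, -1, -1, 1⟩⟩,
  ⟨1, 109, 237, ⟨8, 0, 0, 0⟩, ⟨22, 2, 0, 0⟩, ⟨22, -2, 0, 0⟩, ⟨52, -2, -2, 0⟩⟩,
  ⟨1, 113, 237, ⟨22, 2, 0, 0⟩, ⟨22, -2, 0, 0⟩, ⟨34, 0, -2, 0⟩, ⟨64, 0, -4, 0⟩⟩,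
  ⟨3, 43, 79, ⟨26, 2, 0, 0⟩, ⟨34, 0, -2, 0⟩, ⟨63, 1, -1, -1⟩, ⟨63, -1, 1, -1⟩⟩,
  ⟨1, 133, 237, ⟨26, 2, 0, 0⟩, ⟨34, 0, -2, 0⟩, ⟨56, 2, -2, 0⟩, ⟨64, 0, -4, 0⟩⟩,
  ⟨1, 137, 237, ⟨26, 2, 0, 0⟩, ⟨26, -2, 0, 0⟩, ⟨34, 0, -2, 0⟩, ⟨64, 0, -4, 0⟩⟩,
  ⟨3, 47, 79, ⟨26, 2, 0, 0⟩, ⟨26, -2, 0, 0⟩, ⟨34, 0, -2, 0⟩, ⟨64, 0, -4, 0⟩⟩,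
  ⟨1, 145, 237, ⟨26, 2, 0, 0⟩, ⟨26, -2, 0, 0⟩, ⟨34, 0, -2, 0⟩, ⟨64, 0, -4, 0⟩⟩]

theorem tab40_2_ok : allB tab40_2 E.ok = true := by decide +kernel

def tab40_3 : List E := [
  ⟨1, 149, 237, ⟨26, 2, 0, 0⟩, ⟨26, -2, 0, 0⟩, ⟨34, 0, -2, 0⟩, ⟨64, 0, -4, 0⟩⟩,
  ⟨1, 157, 237, ⟨26, 2, 0, 0⟩, ⟨26, -2, 0, 0⟩, ⟨34, 0, -2, 0⟩, ⟨56, -2, -2, 0⟩⟩,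
  ⟨1, 161, 237, ⟨26, 2, 0, 0⟩, ⟨26, -2, 0, 0⟩, ⟨34, 0, -2, 0⟩, ⟨64, 0, -4, 0⟩⟩,
  ⟨3, 55, 79, ⟨8, 0, 0, 0⟩, ⟨26, 2, 0, 0⟩, ⟨34, 0, -2, 0⟩, ⟨64, 0, -4, 0⟩⟩,
  ⟨1, 173, 237, ⟨30, 2, 0, 0⟩, ⟨30, -2, 0, 0⟩, ⟨34, 0, -2, 0⟩, ⟨64, 0, -4, 0⟩⟩,
  ⟨3, 59, 79, ⟨30, 2, 0, 0⟩, ⟨30, -2, 0, 0⟩, ⟨34, 0, -2, 0⟩, ⟨64, 0, -4, 0⟩⟩,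
  ⟨1, 181, 237, ⟨30, 2, 0, 0⟩, ⟨30, -2, 0, 0⟩, ⟨34, 0, -2, 0⟩, ⟨64, 0, -4, 0⟩⟩,
  ⟨1, 185, 237, ⟨30, 2, 0, 0⟩, ⟨30, -2, 0, 0⟩, ⟨34, 0, -2, 0⟩, ⟨64, 0, -4, 0⟩⟩,
  ⟨1, 193, 237, ⟨30, 2, 0, 0⟩, ⟨30, -2, 0, 0⟩, ⟨34, 0, -2, 0⟩, ⟨64, 0, -4, 0⟩⟩,
  ⟨1, 197, 237, ⟨30, 2, 0, 0⟩, ⟨30, -2, 0, 0⟩, ⟨34, 0, -2, 0⟩, ⟨64, 0, -4, 0⟩⟩]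

theorem tab40_3_ok : allB tab40_3 E.ok = true := by decide +kernel

def tab40_4 : List E := [
  ⟨3, 67, 79, ⟨30, 2, 0, 0⟩, ⟨30, -2, 0, 0⟩, ⟨34, 0, -2, 0⟩, ⟨64, 0, -4, 0⟩⟩,
  ⟨1, 205, 237, ⟨30, 2, 0, 0⟩, ⟨30, -2, 0, 0⟩, ⟨34, 0, -2, 0⟩, ⟨64, 0, -4, 0⟩⟩,
  ⟨1, 209, 237, ⟨8, 0, 0, 0⟩, ⟨30, 2, 0, 0⟩, ⟨60, 2, -2, 0⟩, ⟨60, 2, 2, 0⟩⟩,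
  ⟨3, 71, 79, ⟨30, 2, 0, 0⟩, ⟨30, -2, 0, 0⟩, ⟨34, 0, -2, 0⟩, ⟨60, -2, -2, 0⟩⟩,
  ⟨1, 217, 237, ⟨30, 2, 0, 0⟩, ⟨30, -2, 0, 0⟩, ⟨34, 0, -2, 0⟩, ⟨64, 0, -4, 0⟩⟩,
  ⟨1, 221, 237, ⟨8, 0, 0, 0⟩, ⟨30, 2, 0, 0⟩, ⟨34, 0, -2, 0⟩, ⟨64, 0, -4, 0⟩⟩,
  ⟨1, 229, 237, ⟨34, 2, 0, 0⟩, ⟨34, -2, 0, 0⟩, ⟨34, 0, -2, 0⟩, ⟨64, 0, -4, 0⟩⟩,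
  ⟨1, 233, 237, ⟨34, 2, 0, 0⟩, ⟨34, -2, 0, 0⟩, ⟨34, 0, -2, 0⟩, ⟨64, 0, -4, 0⟩⟩,
  ⟨1, 2, 241, ⟨8, 4, 0, 0⟩, ⟨34, 0, -2, 0⟩, ⟨46, 22, -2, -2⟩, ⟨46, -22, 2, -2⟩⟩,
  ⟨1, 3, 241, ⟨8, 4, 0, 0⟩, ⟨34, 0, -2, 0⟩, ⟨38, -4, -2, 0⟩, ⟨38, 4, -2, 0⟩⟩]

theorem tab40_4_ok : allB tab40_4 E.ok = true := by decide +kernel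

def tab40 : List E :=
  tab40_0 ++ (tab40_1 ++ (tab40_2 ++ (tab40_3 ++ (tab40_4))))

theorem tab40_ok : allB tab40 E.ok = true :=
  allB_append tab40_0_ok (allB_append tab40_1_ok (allB_append tab40_2_ok (allB_append tab40_3_ok
  tab40_4_ok)))

end BQN
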