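import Pool.Agent.BQN.App

/-! Table 41. -/

namespace BQN

def tab41_0 : List E := [
  ⟨1, 10, 241, ⟨16, 4, 0, 0⟩, ⟨28, 8, 0, 0⟩, ⟨34, 0, -2, 0⟩, ⟨34, 0, 2, 0⟩⟩,
  ⟨1, 2, 249, ⟨8, 4, 0, 0⟩, ⟨34, 0, -2, 0⟩, ⟨38, -4, -2, 0⟩, ⟨46, 22, -2, -2⟩⟩,
  ⟨3, 1, 83, ⟨8, 4, 0, 0⟩, ⟨24, -2, 0, -2⟩, ⟨34, 10, -2, -2⟩, ⟨36, -10, 0, -2⟩⟩,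
  ⟨3, 2, 83, ⟨12, 4, 0, 0⟩, ⟨20, 8, 0, 0⟩, ⟨32, 2, 0, -2⟩, ⟨34, 10, -2, -2⟩⟩,
  ⟨1, 10, 249, ⟨16, 4, 0, 0⟩, ⟨16, -4, 0, 0⟩, ⟨28, 8, 0, 0⟩, ⟨34, 0, -2, 0⟩⟩,
  ⟨1, 2, 253, ⟨8, 4, 0, 0⟩, ⟨34, 0, -2, 0⟩, ⟨38, -4, -2, 0⟩, ⟨46, 22, -2, -2⟩⟩,
  ⟨1, 3, 253, ⟨8, 4, 0, 0⟩, ⟨34, 0, -2, 0⟩, ⟨46, -8, -2, 0⟩, ⟨46, 8, -2, 0⟩⟩,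
  ⟨1, 10, 253, ⟨16, 4, 0, 0⟩, ⟨28, 8, 0, 0⟩, ⟨34, 0, -2, 0⟩, ⟨58, -8, -2, 0⟩⟩,
  ⟨11, 5, 23, ⟨32, 4, 0, 0⟩, ⟨34, 0, -2, 0⟩, ⟨42, -2, -2, 2⟩, ⟨44, 0, 0, 4⟩⟩,
  ⟨1, 2, 257, ⟨8, 4, 0, 0⟩, ⟨34, 0, -2, 0⟩, ⟨38, -4, -2, 0⟩, ⟨38, 4, -2, 0⟩⟩]

theorem tab41_0_ok : allB tab41_0 E.ok = true := by decide +kernel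

def tab41_1 : List E := [
  ⟨1, 3, 257, ⟨8, 4, 0, 0⟩, ⟨34, 0, -2, 0⟩, ⟨46, -8, -2, 0⟩, ⟨46, 8, -2, 0⟩⟩,
  ⟨1, 10, 257, ⟨8, 0, 0, 0⟩, ⟨34, 0, -2, 0⟩, ⟨46, -4, -2, 0⟩, ⟨58, -8, -2, 0⟩⟩,
  ⟨5, 2, 53, ⟨16, 4, 0, 0⟩, ⟨28, 2, 0, -2⟩, ⟨38, -6, 2, -2⟩, ⟨40, -6, 0, -2⟩⟩,
  ⟨5, 3, 53, ⟨16, 4, 0, 0⟩, ⟨34, 0, -2, 0⟩, ⟨36, -2, 0, -2⟩, ⟨38, 6, -2, -2⟩⟩,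
  ⟨1, 10, 269, ⟨8, 0, 0, 0⟩, ⟨16, 4, 0, 0⟩, ⟨34, 0, -2, 0⟩, ⟨46, -4, -2, 0⟩⟩,
  ⟨3, 1, 91, ⟨8, 4, 0, 0⟩, ⟨24, -2, 0, -2⟩, ⟨24, 2, 0, -2⟩, ⟨34, 0, -2, 0⟩⟩,
  ⟨3, 2, 91, ⟨12, 4, 0, 0⟩, ⟨20, 8, 0, 0⟩, ⟨32, -2, 0, -2⟩, ⟨32, 2, 0, -2⟩⟩,
  ⟨1, 10, 273, ⟨8, 0, 0, 0⟩, ⟨16, 4, 0, 0⟩, ⟨34, 0, -2, 0⟩, ⟨46, -4, -2, 0⟩⟩,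
  ⟨7, 2, 39, ⟨16, 4, 0, 0⟩, ⟨28, 2, 0, -2⟩, ⟨34, 0, 2, 0⟩, ⟨36, 0, 0, -4⟩⟩,
  ⟨7, 5, 39, ⟨24, 4, 0, 0⟩, ⟨34, 0, -2, 0⟩, ⟨40, -2, 0, -2⟩, ⟨42, 6, -2, -2⟩⟩]

theorem tab41_1_ok : allB tab41_1 E.ok = true := by decide +kernel

def tab41_2 : List E := [
  ⟨1, 10, 277, ⟨16, 4, 0, 0⟩, ⟨34, 0, -2, 0⟩, ⟨46, -4, -2, 0⟩, ⟨46, 4, 2, 0⟩⟩,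
  ⟨3, 1, 95, ⟨8, 4, 0, 0⟩, ⟨24, -2, 0, -2⟩, ⟨24, 2, 0, -2⟩, ⟨34, 0, -2, 0⟩⟩,
  ⟨3, 2, 95, ⟨12, 4, 0, 0⟩, ⟨20, 8, 0, 0⟩, ⟨34, 0, -2, 0⟩, ⟨36, 2, 0, -2⟩⟩,
  ⟨5, 2, 57, ⟨16, 4, 0, 0⟩, ⟨28, -2, 0, -2⟩, ⟨28, 2, 0, -2⟩, ⟨34, 0, -2, 0⟩⟩,
  ⟨1, 2, 293, ⟨8, 4, 0, 0⟩, ⟨38, 0, -2, 0⟩, ⟨46, -8, -2, 0⟩, ⟨46, 8, -2, 0⟩⟩,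
  ⟨1, 3, 293, ⟨8, 4, 0, 0⟩, ⟨38, 0, -2, 0⟩, ⟨42, -4, -2, 0⟩, ⟨42, 4, -2, 0⟩⟩,
  ⟨1, 10, 293, ⟨16, 4, 0, 0⟩, ⟨28, 8, 0, 0⟩, ⟨38, 0, -2, 0⟩, ⟨38, 0, 2, 0⟩⟩,
  ⟨1, 2, 301, ⟨8, 4, 0, 0⟩, ⟨38, 0, -2, 0⟩, ⟨52, -2, 0, -2⟩, ⟨52, 2, 0, -2⟩⟩,
  ⟨1, 3, 301, ⟨8, 4, 0, 0⟩, ⟨38, 0, -2, 0⟩, ⟨42, -4, -2, 0⟩, ⟨42, 4, -2, 0⟩⟩,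
  ⟨1, 10, 301, ⟨16, 4, 0, 0⟩, ⟨28, 8, 0, 0⟩, ⟨38, 0, -2, 0⟩, ⟨38, 0, 2, 0⟩⟩]

theorem tab41_2_ok : allB tab41_2 E.ok = true := by decide +kernel

def tab41_3 : List E := [
  ⟨7, 2, 43, ⟨16, 4, 0, 0⟩, ⟨28, 2, 0, -2⟩, ⟨38, 0, 2, 0⟩, ⟨40, 0, 0, -4⟩⟩,
  ⟨7, 5, 43, ⟨24, 4, 0, 0⟩, ⟨38, 0, -2, 0⟩, ⟨42, 6, -2, -2⟩, ⟨42, -6, -2, 2⟩⟩,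
  ⟨7, 6, 43, ⟨28, 4, 0, 0⟩, ⟨38, 0, -2, 0⟩, ⟨42, 6, -2, -2⟩, ⟨48, 2, 0, 2⟩⟩,
  ⟨1, 2, 305, ⟨8, 4, 0, 0⟩, ⟨38, 0, -2, 0⟩, ⟨54, 22, -2, -2⟩, ⟨54, 26, -2, -2⟩⟩,
  ⟨1, 3, 305, ⟨8, 4, 0, 0⟩, ⟨38, 0, -2, 0⟩, ⟨42, -4, -2, 0⟩, ⟨42, 4, -2, 0⟩⟩,
  ⟨5, 2, 61, ⟨16, 4, 0, 0⟩, ⟨32, 2, 0, -2⟩, ⟨38, 0, 2, 0⟩, ⟨42, -6, 2, -2⟩⟩,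
  ⟨5, 3, 61, ⟨16, 4, 0, 0⟩, ⟨36, -2, 0, -2⟩, ⟨38, 0, -2, 0⟩, ⟨42, 6, -2, -2⟩⟩,
  ⟨1, 2, 309, ⟨8, 4, 0, 0⟩, ⟨38, 0, -2, 0⟩, ⟨54, 22, -2, -2⟩, ⟨54, 26, -2, -2⟩⟩,
  ⟨3, 1, 103, ⟨8, 4, 0, 0⟩, ⟨24, -2, 0, -2⟩, ⟨24, 2, 0, 2⟩, ⟨38, 0, -2, 0⟩⟩,
  ⟨3, 2, 103, ⟨12, 4, 0, 0⟩, ⟨20, 8, 0, 0⟩, ⟨36, 2, 0, -2⟩, ⟨38, 0, 2, 0⟩⟩]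

theorem tab41_3_ok : allB tab41_3 E.ok = true := by decide +kernel

def tab41_4 : List E := [
  ⟨1, 10, 309, ⟨16, 4, 0, 0⟩, ⟨28, 8, 0, 0⟩, ⟨38, 0, -2, 0⟩, ⟨38, 0, 2, 0⟩⟩,
  ⟨1, 10, 313, ⟨16, 4, 0, 0⟩, ⟨28, 8, 0, 0⟩, ⟨38, 0, -2, 0⟩, ⟨38, 0, 2, 0⟩⟩,
  ⟨1, 10, 317, ⟨16, 4, 0, 0⟩, ⟨28, 8, 0, 0⟩, ⟨38, 0, -2, 0⟩, ⟨38, 0, 2, 0⟩⟩,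
  ⟨3, 1, 107, ⟨8, 4, 0, 0⟩, ⟨28, -2, 0, -2⟩, ⟨28, 2, 0, 2⟩, ⟨38, 0, -2, 0⟩⟩,
  ⟨3, 2, 107, ⟨12, 4, 0, 0⟩, ⟨20, 8, 0, 0⟩, ⟨36, 2, 0, -2⟩, ⟨38, 0, 2, 0⟩⟩,
  ⟨1, 10, 321, ⟨8, 0, 0, 0⟩, ⟨38, 0, -2, 0⟩, ⟨50, -4, -2, 0⟩, ⟨62, -8, -2, 0⟩⟩,
  ⟨1, 10, 329, ⟨8, 0, 0, 0⟩, ⟨16, 4, 0, 0⟩, ⟨38, 0, -2, 0⟩, ⟨62, -8, -2, 0⟩⟩,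
  ⟨7, 2, 47, ⟨16, 4, 0, 0⟩, ⟨28, 2, 0, -2⟩, ⟨38, 0, 2, 0⟩, ⟨40, 0, 0, -4⟩⟩,
  ⟨7, 5, 47, ⟨24, 4, 0, 0⟩, ⟨38, 0, -2, 0⟩, ⟨42, 6, -2, -2⟩, ⟨42, -6, -2, 2⟩⟩,
  ⟨11, 5, 31, ⟨32, 4, 0, 0⟩, ⟨38, 0, -2, 0⟩, ⟨40, 2, 0, 2⟩, ⟨50, -2, -2, 2⟩⟩]

theorem tab41_4_ok : allB tab41_4 E.ok = true := by decide +kernel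

def tab41 : List E :=
  tab41_0 ++ (tab41_1 ++ (tab41_2 ++ (tab41_3 ++ (tab41_4))))

theorem tab41_ok : allB tab41 E.ok = true :=
  allB_append tab41_0_ok (allB_append tab41_1_ok (allB_append tab41_2_ok (allB_append tab41_3_ok
  tab41_4_ok)))

end BQN
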