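import Pool.Agent.BQN.App

/-! Table 42. -/

namespace BQN

def tab42_0 : List E := [
  ⟨11, 6, 31, ⟨36, 4, 0, 0⟩, ⟨38, 0, -2, 0⟩, ⟨44, -2, 0, -2⟩, ⟨50, -2, -2, 2⟩⟩,
  ⟨3, 1, 115, ⟨8, 4, 0, 0⟩, ⟨28, -2, 0, -2⟩, ⟨32, -6, 0, -2⟩, ⟨32, 6, 0, 2⟩⟩,
  ⟨3, 2, 115, ⟨12, 4, 0, 0⟩, ⟨20, 8, 0, 0⟩, ⟨36, 2, 0, -2⟩, ⟨38, 0, -2, 0⟩⟩,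
  ⟨5, 2, 69, ⟨16, 4, 0, 0⟩, ⟨32, 2, 0, -2⟩, ⟨38, 0, -2, 0⟩, ⟨42, 6, -2, -2⟩⟩,
  ⟨3, 1, 119, ⟨8, 4, 0, 0⟩, ⟨28, -2, 0, -2⟩, ⟨28, 2, 0, -2⟩, ⟨38, 0, -2, 0⟩⟩,
  ⟨7, 2, 51, ⟨16, 4, 0, 0⟩, ⟨28, -2, 0, -2⟩, ⟨28, 2, 0, -2⟩, ⟨38, 0, -2, 0⟩⟩,
  ⟨5, 2, 73, ⟨16, 4, 0, 0⟩, ⟨32, 2, 0, -2⟩, ⟨42, 0, 2, 0⟩, ⟨46, -6, 2, -2⟩⟩,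
  ⟨5, 3, 73, ⟨16, 4, 0, 0⟩, ⟨40, -2, 0, -2⟩, ⟨42, 0, -2, 0⟩, ⟨46, 6, -2, -2⟩⟩,
  ⟨1, 10, 373, ⟨16, 4, 0, 0⟩, ⟨28, 8, 0, 0⟩, ⟨42, 0, -2, 0⟩, ⟨42, 0, 2, 0⟩⟩,
  ⟨1, 10, 377, ⟨16, 4, 0, 0⟩, ⟨16, -4, 0, 0⟩, ⟨28, 8, 0, 0⟩, ⟨42, 0, -2, 0⟩⟩]

theorem tab42_0_ok : allB tab42_0 E.ok = true := by decide +kernel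

def tab42_1 : List E := [
  ⟨13, 6, 29, ⟨36, 4, 0, 0⟩, ⟨42, 0, -2, 0⟩, ⟨50, 2, -2, -2⟩, ⟨56, 0, 0, -4⟩⟩,
  ⟨13, 7, 29, ⟨40, 4, 0, 0⟩, ⟨42, 0, -2, 0⟩, ⟨48, 2, 0, 2⟩, ⟨50, -2, -2, 2⟩⟩,
  ⟨3, 1, 127, ⟨8, 4, 0, 0⟩, ⟨28, 2, 0, -2⟩, ⟨40, 10, 0, -2⟩, ⟨40, -10, 0, 2⟩⟩,
  ⟨3, 2, 127, ⟨12, 4, 0, 0⟩, ⟨20, 8, 0, 0⟩, ⟨40, 2, 0, -2⟩, ⟨42, 0, 2, 0⟩⟩,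
  ⟨1, 10, 381, ⟨16, 4, 0, 0⟩, ⟨28, 8, 0, 0⟩, ⟨42, 0, -2, 0⟩, ⟨42, 0, 2, 0⟩⟩,
  ⟨5, 2, 77, ⟨16, 4, 0, 0⟩, ⟨32, 2, 0, -2⟩, ⟨42, 0, 2, 0⟩, ⟨44, -6, 0, 2⟩⟩,
  ⟨7, 2, 55, ⟨16, 4, 0, 0⟩, ⟨32, 2, 0, -2⟩, ⟨42, -6, 2, -2⟩, ⟨44, 0, 0, -4⟩⟩,
  ⟨5, 3, 77, ⟨16, 4, 0, 0⟩, ⟨40, -2, 0, -2⟩, ⟨42, 0, -2, 0⟩, ⟨50, 6, -2, -2⟩⟩,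
  ⟨11, 6, 35, ⟨36, 4, 0, 0⟩, ⟨42, 0, -2, 0⟩, ⟨48, 2, 0, 2⟩, ⟨54, -2, -2, 2⟩⟩,
  ⟨1, 10, 389, ⟨16, 4, 0, 0⟩, ⟨28, 8, 0, 0⟩, ⟨42, 0, -2, 0⟩, ⟨42, 0, 2, 0⟩⟩]

theorem tab42_1_ok : allB tab42_1 E.ok = true := by decide +kernel

def tab42_2 : List E := [
  ⟨3, 1, 131, ⟨8, 4, 0, 0⟩, ⟨28, -2, 0, 2⟩, ⟨28, 2, 0, 2⟩, ⟨42, 14, -2, -2⟩⟩,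
  ⟨3, 2, 131, ⟨12, 4, 0, 0⟩, ⟨20, 8, 0, 0⟩, ⟨40, 2, 0, -2⟩, ⟨42, -14, 2, -2⟩⟩,
  ⟨7, 2, 59, ⟨16, 4, 0, 0⟩, ⟨32, 2, 0, -2⟩, ⟨42, -6, 2, -2⟩, ⟨44, 0, 0, -4⟩⟩,
  ⟨3, 1, 139, ⟨8, 4, 0, 0⟩, ⟨28, -2, 0, -2⟩, ⟨28, 2, 0, -2⟩, ⟨42, 14, -2, -2⟩⟩,
  ⟨3, 1, 143, ⟨8, 4, 0, 0⟩, ⟨28, -2, 0, -2⟩, ⟨28, 2, 0, -2⟩, ⟨42, 14, -2, -2⟩⟩,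
  ⟨11, 5, 39, ⟨32, 4, 0, 0⟩, ⟨42, 0, -2, 0⟩, ⟨44, 2, 0, 2⟩, ⟨56, 0, 0, -4⟩⟩,
  ⟨13, 7, 33, ⟨8, 0, 0, 0⟩, ⟨40, 4, 0, 0⟩, ⟨42, 0, -2, 0⟩, ⟨54, -2, -2, 2⟩⟩,
  ⟨19, 5, 23, ⟨40, 4, 0, 0⟩, ⟨42, 0, -2, 0⟩, ⟨44, 0, 0, -4⟩, ⟨44, 2, 0, -2⟩⟩,
  ⟨5, 2, 89, ⟨16, 4, 0, 0⟩, ⟨36, 2, 0, -2⟩, ⟨46, 0, 2, 0⟩, ⟨50, 6, -2, -2⟩⟩,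
  ⟨5, 3, 89, ⟨16, 4, 0, 0⟩, ⟨44, -2, 0, -2⟩, ⟨46, 0, -2, 0⟩, ⟨54, 6, -2, -2⟩⟩]

theorem tab42_2_ok : allB tab42_2 E.ok = true := by decide +kernel

def tab42_3 : List E := [
  ⟨3, 1, 151, ⟨8, 4, 0, 0⟩, ⟨32, -2, 0, -2⟩, ⟨32, 2, 0, -2⟩, ⟨36, -6, 0, -2⟩⟩,
  ⟨3, 2, 151, ⟨12, 4, 0, 0⟩, ⟨20, 8, 0, 0⟩, ⟨40, -2, 0, -2⟩, ⟨40, 2, 0, -2⟩⟩,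
  ⟨3, 1, 155, ⟨8, 4, 0, 0⟩, ⟨32, -2, 0, -2⟩, ⟨36, -6, 0, -2⟩, ⟨36, 6, 0, -2⟩⟩,
  ⟨3, 2, 155, ⟨12, 4, 0, 0⟩, ⟨20, 8, 0, 0⟩, ⟨44, 2, 0, -2⟩, ⟨46, -14, 2, -2⟩⟩,
  ⟨5, 2, 93, ⟨16, 4, 0, 0⟩, ⟨28, 8, 0, 0⟩, ⟨46, 0, -2, 0⟩, ⟨50, 10, -2, -2⟩⟩,
  ⟨7, 2, 67, ⟨16, 4, 0, 0⟩, ⟨32, 2, 0, -2⟩, ⟨46, -6, 2, -2⟩, ⟨48, 0, 0, -4⟩⟩,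
  ⟨11, 5, 43, ⟨32, 4, 0, 0⟩, ⟨46, 0, -2, 0⟩, ⟨48, 2, 0, 2⟩, ⟨58, 2, -2, -2⟩⟩,
  ⟨11, 6, 43, ⟨36, 4, 0, 0⟩, ⟨46, 0, -2, 0⟩, ⟨52, 2, 0, 2⟩, ⟨62, 6, -2, -2⟩⟩,
  ⟨13, 6, 37, ⟨36, 4, 0, 0⟩, ⟨46, 0, -2, 0⟩, ⟨58, -2, -2, 2⟩, ⟨60, 0, 0, -4⟩⟩,
  ⟨13, 7, 37, ⟨40, 4, 0, 0⟩, ⟨46, 0, -2, 0⟩, ⟨52, 2, 0, 2⟩, ⟨58, -2, -2, 2⟩⟩]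

theorem tab42_3_ok : allB tab42_3 E.ok = true := by decide +kernel

def tab42 : List E :=
  tab42_0 ++ (tab42_1 ++ (tab42_2 ++ (tab42_3)))

theorem tab42_ok : allB tab42 E.ok = true :=
  allB_append tab42_0_ok (allB_append tab42_1_ok (allB_append tab42_2_ok tab42_3_ok))

end BQN
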