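import Pool.Agent.BQN.App

/-! Table 5. -/

namespace BQN

def tab5_0 : List E := [
  ⟨1, 29, 34, ⟨14, 2, 0, 0⟩, ⟨24, 4, 0, 0⟩, ⟨24, 0, -4, 0⟩, ⟨24, 0, 4, 0⟩⟩,
  ⟨2, 15, 17, ⟨8, 0, 0, 0⟩, ⟨24, 4, 0, 0⟩, ⟨24, 0, -4, 0⟩, ⟨24, 2, -2, 0⟩⟩,
  ⟨1, 31, 34, ⟨8, 0, 0, 0⟩, ⟨24, 4, 0, 0⟩, ⟨24, 0, -4, 0⟩, ⟨24, 0, 4, 0⟩⟩,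
  ⟨1, 33, 34, ⟨8, 0, 0, 0⟩, ⟨24, 4, 0, 0⟩, ⟨24, -4, 0, 0⟩, ⟨24, 0, -4, 0⟩⟩,
  ⟨1, 37, 34, ⟨8, 0, 0, 0⟩, ⟨14, 2, 0, 0⟩, ⟨24, 0, -4, 0⟩, ⟨48, -4, -4, 0⟩⟩,
  ⟨1, 41, 34, ⟨8, 0, 0, 0⟩, ⟨14, 2, 0, 0⟩, ⟨14, -2, 0, 0⟩, ⟨24, 0, -4, 0⟩⟩,
  ⟨1, 53, 34, ⟨8, 0, 0, 0⟩, ⟨24, 0, -4, 0⟩, ⟨38, -2, -4, 0⟩, ⟨38, 2, 4, 0⟩⟩,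
  ⟨1, 57, 34, ⟨8, 0, 0, 0⟩, ⟨32, 4, 0, 0⟩, ⟨24, 0, -4, 0⟩, ⟨24, 0, 4, 0⟩⟩,
  ⟨1, 61, 34, ⟨18, 2, 0, 0⟩, ⟨32, 4, 0, 0⟩, ⟨24, 0, -4, 0⟩, ⟨24, 0, 4, 0⟩⟩,
  ⟨1, 65, 34, ⟨8, 0, 0, 0⟩, ⟨18, 2, 0, 0⟩, ⟨24, 0, -4, 0⟩, ⟨24, 0, 4, 0⟩⟩]

theorem tab5_0_ok : allB tab5_0 E.ok = true := by decide +kernel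

def tab5_1 : List E := [
  ⟨1, 69, 34, ⟨8, 0, 0, 0⟩, ⟨18, 2, 0, 0⟩, ⟨18, -2, 0, 0⟩, ⟨24, 0, -4, 0⟩⟩,
  ⟨1, 73, 34, ⟨8, 0, 0, 0⟩, ⟨18, 2, 0, 0⟩, ⟨18, -2, 0, 0⟩, ⟨24, 0, -4, 0⟩⟩,
  ⟨1, 77, 34, ⟨8, 0, 0, 0⟩, ⟨18, 2, 0, 0⟩, ⟨24, 0, -4, 0⟩, ⟨24, 0, 4, 0⟩⟩,
  ⟨1, 89, 34, ⟨22, 2, 0, 0⟩, ⟨22, -2, 0, 0⟩, ⟨24, 0, -4, 0⟩, ⟨24, 0, 4, 0⟩⟩,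
  ⟨1, 93, 34, ⟨22, 2, 0, 0⟩, ⟨22, -2, 0, 0⟩, ⟨24, 0, -4, 0⟩, ⟨24, 0, 4, 0⟩⟩,
  ⟨1, 97, 34, ⟨22, 2, 0, 0⟩, ⟨22, -2, 0, 0⟩, ⟨24, 0, -4, 0⟩, ⟨24, 0, 4, 0⟩⟩,
  ⟨1, 101, 34, ⟨8, 0, 0, 0⟩, ⟨22, 2, 0, 0⟩, ⟨24, 0, -4, 0⟩, ⟨24, 0, 4, 0⟩⟩,
  ⟨1, 105, 34, ⟨8, 0, 0, 0⟩, ⟨22, 2, 0, 0⟩, ⟨24, 0, -4, 0⟩, ⟨24, 0, 4, 0⟩⟩,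
  ⟨1, 109, 34, ⟨8, 0, 0, 0⟩, ⟨22, 2, 0, 0⟩, ⟨22, -2, 0, 0⟩, ⟨24, 0, -4, 0⟩⟩,
  ⟨1, 113, 34, ⟨8, 0, 0, 0⟩, ⟨22, 2, 0, 0⟩, ⟨22, -2, 0, 0⟩, ⟨24, 0, -4, 0⟩⟩]

theorem tab5_1_ok : allB tab5_1 E.ok = true := by decide +kernel

def tab5_2 : List E := [
  ⟨1, 129, 34, ⟨8, 0, 0, 0⟩, ⟨26, 2, 0, 0⟩, ⟨24, 0, -4, 0⟩, ⟨24, 0, 4, 0⟩⟩,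
  ⟨1, 133, 34, ⟨8, 0, 0, 0⟩, ⟨26, 2, 0, 0⟩, ⟨24, 0, -4, 0⟩, ⟨24, 0, 4, 0⟩⟩,
  ⟨1, 2, 35, ⟨8, 4, 0, 0⟩, ⟨20, -2, 0, -2⟩, ⟨20, 2, 0, -2⟩, ⟨24, 0, -4, 0⟩⟩,
  ⟨1, 6, 35, ⟨12, 4, 0, 0⟩, ⟨20, 8, 0, 0⟩, ⟨24, 0, -4, 0⟩, ⟨32, 10, -4, -2⟩⟩,
  ⟨1, 11, 35, ⟨16, 4, 0, 0⟩, ⟨20, 2, -2, 0⟩, ⟨24, 0, -4, 0⟩, ⟨32, 6, -2, 0⟩⟩,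
  ⟨1, 13, 35, ⟨8, 0, 0, 0⟩, ⟨10, 2, 0, 0⟩, ⟨10, -2, 0, 0⟩, ⟨24, 0, -4, 0⟩⟩,
  ⟨1, 17, 35, ⟨8, 0, 0, 0⟩, ⟨10, 2, 0, 0⟩, ⟨10, -2, 0, 0⟩, ⟨24, 0, -4, 0⟩⟩,
  ⟨1, 19, 35, ⟨20, 4, 0, 0⟩, ⟨24, 0, -4, 0⟩, ⟨24, 2, -2, 0⟩, ⟨24, 2, 2, 0⟩⟩,
  ⟨1, 22, 35, ⟨8, 0, 0, 0⟩, ⟨20, 4, 0, 0⟩, ⟨20, -4, 0, 0⟩, ⟨24, 0, -4, 0⟩⟩,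
  ⟨1, 23, 35, ⟨8, 0, 0, 0⟩, ⟨20, 4, 0, 0⟩, ⟨20, -4, 0, 0⟩, ⟨24, 0, -4, 0⟩⟩]

theorem tab5_2_ok : allB tab5_2 E.ok = true := by decide +kernel

def tab5_3 : List E := [
  ⟨1, 26, 35, ⟨8, 0, 0, 0⟩, ⟨24, 4, 0, 0⟩, ⟨24, 0, -4, 0⟩, ⟨48, 0, -8, 0⟩⟩,
  ⟨1, 29, 35, ⟨14, 2, 0, 0⟩, ⟨24, 4, 0, 0⟩, ⟨24, 0, -4, 0⟩, ⟨48, 0, -8, 0⟩⟩,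
  ⟨5, 6, 7, ⟨24, 4, 0, 0⟩, ⟨24, -2, 0, -2⟩, ⟨24, 2, 0, -2⟩, ⟨24, 0, -4, 0⟩⟩,
  ⟨1, 31, 35, ⟨8, 0, 0, 0⟩, ⟨24, 4, 0, 0⟩, ⟨24, 0, -4, 0⟩, ⟨24, 2, -2, 0⟩⟩,
  ⟨1, 33, 35, ⟨8, 0, 0, 0⟩, ⟨24, 4, 0, 0⟩, ⟨24, -4, 0, 0⟩, ⟨24, 0, -4, 0⟩⟩,
  ⟨1, 34, 35, ⟨8, 0, 0, 0⟩, ⟨24, 4, 0, 0⟩, ⟨24, -4, 0, 0⟩, ⟨24, 0, -4, 0⟩⟩,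
  ⟨1, 37, 35, ⟨8, 0, 0, 0⟩, ⟨14, 2, 0, 0⟩, ⟨14, -2, 0, 0⟩, ⟨24, 0, -4, 0⟩⟩,
  ⟨1, 41, 35, ⟨8, 0, 0, 0⟩, ⟨14, 2, 0, 0⟩, ⟨14, -2, 0, 0⟩, ⟨24, 0, -4, 0⟩⟩,
  ⟨1, 53, 35, ⟨18, 2, 0, 0⟩, ⟨32, 4, 0, 0⟩, ⟨24, 0, -4, 0⟩, ⟨48, 0, -8, 0⟩⟩,
  ⟨1, 57, 35, ⟨8, 0, 0, 0⟩, ⟨32, 4, 0, 0⟩, ⟨24, 0, -4, 0⟩, ⟨48, 0, -8, 0⟩⟩]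

theorem tab5_3_ok : allB tab5_3 E.ok = true := by decide +kernel

def tab5_4 : List E := [
  ⟨1, 61, 35, ⟨18, 2, 0, 0⟩, ⟨32, 4, 0, 0⟩, ⟨24, 0, -4, 0⟩, ⟨48, 0, -8, 0⟩⟩,
  ⟨5, 13, 7, ⟨18, 2, 0, 0⟩, ⟨24, 0, -4, 0⟩, ⟨26, 2, -2, -2⟩, ⟨32, 0, 2, -2⟩⟩,
  ⟨1, 69, 35, ⟨8, 0, 0, 0⟩, ⟨18, 2, 0, 0⟩, ⟨18, -2, 0, 0⟩, ⟨24, 0, -4, 0⟩⟩,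
  ⟨1, 73, 35, ⟨8, 0, 0, 0⟩, ⟨18, 2, 0, 0⟩, ⟨18, -2, 0, 0⟩, ⟨24, 0, -4, 0⟩⟩,
  ⟨7, 11, 5, ⟨18, 2, 0, 0⟩, ⟨22, 2, -2, -2⟩, ⟨24, 0, -4, 0⟩, ⟨28, 0, 2, -2⟩⟩,
  ⟨5, 17, 7, ⟨22, 2, 0, 0⟩, ⟨24, 0, -4, 0⟩, ⟨30, 2, -2, -2⟩, ⟨36, 0, 2, -2⟩⟩,
  ⟨1, 89, 35, ⟨22, 2, 0, 0⟩, ⟨22, -2, 0, 0⟩, ⟨24, 0, -4, 0⟩, ⟨48, 0, -8, 0⟩⟩,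
  ⟨1, 93, 35, ⟨22, 2, 0, 0⟩, ⟨22, -2, 0, 0⟩, ⟨24, 0, -4, 0⟩, ⟨48, 0, -8, 0⟩⟩,
  ⟨1, 97, 35, ⟨22, 2, 0, 0⟩, ⟨22, -2, 0, 0⟩, ⟨24, 0, -4, 0⟩, ⟨48, 0, -8, 0⟩⟩,
  ⟨1, 101, 35, ⟨8, 0, 0, 0⟩, ⟨22, 2, 0, 0⟩, ⟨24, 0, -4, 0⟩, ⟨48, 0, -8, 0⟩⟩]

theorem tab5_4_ok : allB tab5_4 E.ok = true := by decide +kernel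

def tab5 : List E :=
  tab5_0 ++ (tab5_1 ++ (tab5_2 ++ (tab5_3 ++ (tab5_4))))

theorem tab5_ok : allB tab5 E.ok = true :=
  allB_append tab5_0_ok (allB_append tab5_1_ok (allB_append tab5_2_ok (allB_append tab5_3_ok
  tab5_4_ok)))

end BQN
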