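import Pool.Agent.BQN.App

/-! Table 6. -/

namespace BQN

def tab6_0 : List E := [
  ⟨1, 109, 35, ⟨8, 0, 0, 0⟩, ⟨22, 2, 0, 0⟩, ⟨22, -2, 0, 0⟩, ⟨24, 0, -4, 0⟩⟩,
  ⟨1, 113, 35, ⟨8, 0, 0, 0⟩, ⟨22, 2, 0, 0⟩, ⟨22, -2, 0, 0⟩, ⟨24, 0, -4, 0⟩⟩,
  ⟨1, 129, 35, ⟨8, 0, 0, 0⟩, ⟨26, 2, 0, 0⟩, ⟨24, 0, -4, 0⟩, ⟨48, 0, -8, 0⟩⟩,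
  ⟨7, 19, 5, ⟨26, 2, 0, 0⟩, ⟨24, 0, -4, 0⟩, ⟨32, 0, 2, -2⟩, ⟨34, 2, 2, 2⟩⟩,
  ⟨1, 137, 35, ⟨26, 2, 0, 0⟩, ⟨26, -2, 0, 0⟩, ⟨24, 0, -4, 0⟩, ⟨48, 0, -8, 0⟩⟩,
  ⟨1, 2, 37, ⟨8, 4, 0, 0⟩, ⟨14, 0, -2, 0⟩, ⟨18, -4, -2, 0⟩, ⟨18, 4, -2, 0⟩⟩,
  ⟨1, 3, 37, ⟨8, 4, 0, 0⟩, ⟨14, 0, -2, 0⟩, ⟨26, 6, -2, -2⟩, ⟨28, 14, -4, -2⟩⟩,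
  ⟨1, 5, 37, ⟨8, 0, 0, 0⟩, ⟨14, 0, -2, 0⟩, ⟨15, 3, -1, -1⟩, ⟨15, -3, -1, 1⟩⟩,
  ⟨1, 6, 37, ⟨12, 4, 0, 0⟩, ⟨20, 8, 0, 0⟩, ⟨14, 0, -2, 0⟩, ⟨22, -4, -2, 0⟩⟩,
  ⟨1, 7, 37, ⟨8, 0, 0, 0⟩, ⟨12, 4, 0, 0⟩, ⟨14, 0, -2, 0⟩, ⟨34, -8, -2, 0⟩⟩]

theorem tab6_0_ok : allB tab6_0 E.ok = true := by decide +kernel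

def tab6_1 : List E := [
  ⟨1, 13, 37, ⟨10, 2, 0, 0⟩, ⟨14, 0, -2, 0⟩, ⟨20, -2, -2, 0⟩, ⟨23, 5, -3, -1⟩⟩,
  ⟨1, 17, 37, ⟨8, 0, 0, 0⟩, ⟨10, 2, 0, 0⟩, ⟨14, 0, -2, 0⟩, ⟨29, 1, -1, -1⟩⟩,
  ⟨1, 21, 37, ⟨8, 0, 0, 0⟩, ⟨10, 2, 0, 0⟩, ⟨14, 0, -2, 0⟩, ⟨14, 0, 2, 0⟩⟩,
  ⟨1, 29, 37, ⟨14, 2, 0, 0⟩, ⟨24, 4, 0, 0⟩, ⟨14, 0, -2, 0⟩, ⟨14, 0, 2, 0⟩⟩,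
  ⟨1, 33, 37, ⟨8, 0, 0, 0⟩, ⟨24, 4, 0, 0⟩, ⟨14, 0, -2, 0⟩, ⟨24, 2, -2, 0⟩⟩,
  ⟨1, 3, 38, ⟨8, 4, 0, 0⟩, ⟨24, 8, -2, -2⟩, ⟨24, -8, 2, -2⟩, ⟨28, 0, -4, 0⟩⟩,
  ⟨1, 5, 38, ⟨30, 6, -2, -2⟩, ⟨30, -2, -4, 0⟩, ⟨30, 2, -4, 0⟩, ⟨32, 4, -2, -2⟩⟩,
  ⟨1, 7, 38, ⟨12, 4, 0, 0⟩, ⟨28, 0, -4, 0⟩, ⟨36, 4, -2, -2⟩, ⟨40, 12, -6, -2⟩⟩,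
  ⟨2, 5, 19, ⟨16, 4, 0, 0⟩, ⟨20, 2, -2, 0⟩, ⟨28, 0, -4, 0⟩, ⟨32, 6, -2, 0⟩⟩,
  ⟨1, 11, 38, ⟨16, 4, 0, 0⟩, ⟨28, 0, -4, 0⟩, ⟨44, 12, -6, -2⟩, ⟨44, 4, -2, -2⟩⟩]

theorem tab6_1_ok : allB tab6_1 E.ok = true := by decide +kernel

def tab6_2 : List E := [
  ⟨1, 13, 38, ⟨10, 2, 0, 0⟩, ⟨10, -2, 0, 0⟩, ⟨28, 0, -4, 0⟩, ⟨40, -4, -4, 0⟩⟩,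
  ⟨1, 15, 38, ⟨16, 4, 0, 0⟩, ⟨28, 0, -4, 0⟩, ⟨52, -4, 2, -2⟩, ⟨52, 0, -8, 0⟩⟩,
  ⟨1, 17, 38, ⟨8, 0, 0, 0⟩, ⟨10, 2, 0, 0⟩, ⟨10, -2, 0, 0⟩, ⟨28, 0, -4, 0⟩⟩,
  ⟨1, 21, 38, ⟨8, 0, 0, 0⟩, ⟨10, 2, 0, 0⟩, ⟨34, -2, -4, 0⟩, ⟨34, 2, 4, 0⟩⟩,
  ⟨2, 11, 19, ⟨20, 4, 0, 0⟩, ⟨28, 0, -4, 0⟩, ⟨30, 0, 0, -2⟩, ⟨34, 2, -2, -2⟩⟩,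
  ⟨1, 23, 38, ⟨8, 0, 0, 0⟩, ⟨20, 4, 0, 0⟩, ⟨44, -4, -4, 0⟩, ⟨44, 4, 4, 0⟩⟩,
  ⟨2, 13, 19, ⟨24, 4, 0, 0⟩, ⟨24, -2, -2, 0⟩, ⟨24, 2, -2, 0⟩, ⟨28, 0, -4, 0⟩⟩,
  ⟨1, 29, 38, ⟨14, 2, 0, 0⟩, ⟨24, 4, 0, 0⟩, ⟨28, 0, -4, 0⟩, ⟨28, 0, 4, 0⟩⟩,
  ⟨2, 15, 19, ⟨24, 4, 0, 0⟩, ⟨24, 2, -2, 0⟩, ⟨28, 0, -4, 0⟩, ⟨34, 0, 0, -2⟩⟩,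
  ⟨1, 31, 38, ⟨24, 4, 0, 0⟩, ⟨24, -4, 0, 0⟩, ⟨28, 0, -4, 0⟩, ⟨52, 0, -8, 0⟩⟩]

theorem tab6_2_ok : allB tab6_2 E.ok = true := by decide +kernel

def tab6_3 : List E := [
  ⟨1, 33, 38, ⟨8, 0, 0, 0⟩, ⟨24, 4, 0, 0⟩, ⟨38, 2, -4, 0⟩, ⟨48, 4, -4, 0⟩⟩,
  ⟨2, 17, 19, ⟨24, 4, 0, 0⟩, ⟨24, -2, -2, 0⟩, ⟨24, 2, -2, 0⟩, ⟨28, 0, -4, 0⟩⟩,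
  ⟨1, 35, 38, ⟨8, 0, 0, 0⟩, ⟨24, 4, 0, 0⟩, ⟨28, 0, -4, 0⟩, ⟨52, 0, -8, 0⟩⟩,
  ⟨1, 37, 38, ⟨8, 0, 0, 0⟩, ⟨14, 2, 0, 0⟩, ⟨14, -2, 0, 0⟩, ⟨28, 0, -4, 0⟩⟩,
  ⟨1, 41, 38, ⟨8, 0, 0, 0⟩, ⟨14, 2, 0, 0⟩, ⟨14, -2, 0, 0⟩, ⟨38, -2, -4, 0⟩⟩,
  ⟨1, 53, 38, ⟨18, 2, 0, 0⟩, ⟨32, 4, 0, 0⟩, ⟨28, 0, -4, 0⟩, ⟨52, 0, -8, 0⟩⟩,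
  ⟨1, 61, 38, ⟨18, 2, 0, 0⟩, ⟨32, 4, 0, 0⟩, ⟨28, 0, -4, 0⟩, ⟨52, 0, -8, 0⟩⟩,
  ⟨1, 65, 38, ⟨8, 0, 0, 0⟩, ⟨18, 2, 0, 0⟩, ⟨28, 0, -4, 0⟩, ⟨42, 2, -4, 0⟩⟩,
  ⟨1, 69, 38, ⟨18, 2, 0, 0⟩, ⟨18, -2, 0, 0⟩, ⟨28, 0, -4, 0⟩, ⟨52, 0, -8, 0⟩⟩,
  ⟨1, 73, 38, ⟨18, 2, 0, 0⟩, ⟨18, -2, 0, 0⟩, ⟨28, 0, -4, 0⟩, ⟨42, -2, 4, 0⟩⟩]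

theorem tab6_3_ok : allB tab6_3 E.ok = true := by decide +kernel

def tab6_4 : List E := [
  ⟨1, 77, 38, ⟨8, 0, 0, 0⟩, ⟨18, 2, 0, 0⟩, ⟨28, 0, -4, 0⟩, ⟨52, 0, -8, 0⟩⟩,
  ⟨1, 85, 38, ⟨22, 2, 0, 0⟩, ⟨28, 0, -4, 0⟩, ⟨46, 2, -4, 0⟩, ⟨52, 0, -8, 0⟩⟩,
  ⟨1, 89, 38, ⟨22, 2, 0, 0⟩, ⟨22, -2, 0, 0⟩, ⟨28, 0, -4, 0⟩, ⟨52, 0, -8, 0⟩⟩,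
  ⟨1, 93, 38, ⟨22, 2, 0, 0⟩, ⟨22, -2, 0, 0⟩, ⟨28, 0, -4, 0⟩, ⟨52, 0, -8, 0⟩⟩,
  ⟨1, 97, 38, ⟨22, 2, 0, 0⟩, ⟨22, -2, 0, 0⟩, ⟨28, 0, -4, 0⟩, ⟨52, 0, -8, 0⟩⟩,
  ⟨1, 101, 38, ⟨22, 2, 0, 0⟩, ⟨22, -2, 0, 0⟩, ⟨28, 0, -4, 0⟩, ⟨52, 0, -8, 0⟩⟩,
  ⟨1, 105, 38, ⟨8, 0, 0, 0⟩, ⟨22, 2, 0, 0⟩, ⟨28, 0, -4, 0⟩, ⟨46, 2, -4, 0⟩⟩,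
  ⟨1, 109, 38, ⟨22, 2, 0, 0⟩, ⟨22, -2, 0, 0⟩, ⟨28, 0, -4, 0⟩, ⟨52, 0, -8, 0⟩⟩,
  ⟨1, 113, 38, ⟨22, 2, 0, 0⟩, ⟨28, 0, -4, 0⟩, ⟨46, -2, -4, 0⟩, ⟨46, 2, 4, 0⟩⟩,
  ⟨1, 129, 38, ⟨26, 2, 0, 0⟩, ⟨26, -2, 0, 0⟩, ⟨28, 0, -4, 0⟩, ⟨52, 0, -8, 0⟩⟩]

theorem tab6_4_ok : allB tab6_4 E.ok = true := by decide +kernel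

def tab6 : List E :=
  tab6_0 ++ (tab6_1 ++ (tab6_2 ++ (tab6_3 ++ (tab6_4))))

theorem tab6_ok : allB tab6 E.ok = true :=
  allB_append tab6_0_ok (allB_append tab6_1_ok (allB_append tab6_2_ok (allB_append tab6_3_ok
  tab6_4_ok)))

end BQN
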