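import Pool.Agent.BQN.App

/-! Table 7. -/

namespace BQN

def tab7_0 : List E := [
  ⟨1, 137, 38, ⟨26, 2, 0, 0⟩, ⟨26, -2, 0, 0⟩, ⟨28, 0, -4, 0⟩, ⟨52, 0, -8, 0⟩⟩,
  ⟨1, 141, 38, ⟨26, 2, 0, 0⟩, ⟨26, -2, 0, 0⟩, ⟨28, 0, -4, 0⟩, ⟨52, 0, -8, 0⟩⟩,
  ⟨1, 145, 38, ⟨26, 2, 0, 0⟩, ⟨26, -2, 0, 0⟩, ⟨28, 0, -4, 0⟩, ⟨52, 0, -8, 0⟩⟩,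
  ⟨1, 149, 38, ⟨26, 2, 0, 0⟩, ⟨26, -2, 0, 0⟩, ⟨28, 0, -4, 0⟩, ⟨52, 0, -8, 0⟩⟩,
  ⟨1, 2, 39, ⟨8, 4, 0, 0⟩, ⟨28, 14, -4, -2⟩, ⟨28, 0, -4, 0⟩, ⟨32, 10, -4, -2⟩⟩,
  ⟨1, 5, 39, ⟨8, 0, 0, 0⟩, ⟨30, 6, -2, -2⟩, ⟨30, -2, -4, 0⟩, ⟨30, 2, 4, 0⟩⟩,
  ⟨1, 7, 39, ⟨12, 4, 0, 0⟩, ⟨20, 2, -2, 0⟩, ⟨28, 0, -4, 0⟩, ⟨34, 0, 0, -2⟩⟩,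
  ⟨1, 10, 39, ⟨16, 4, 0, 0⟩, ⟨28, 0, 4, 0⟩, ⟨48, 10, -4, -2⟩, ⟨48, 2, 0, -2⟩⟩,
  ⟨1, 11, 39, ⟨16, 4, 0, 0⟩, ⟨28, 8, 0, 0⟩, ⟨20, 2, -2, 0⟩, ⟨28, 0, -4, 0⟩⟩,
  ⟨1, 14, 39, ⟨16, 4, 0, 0⟩, ⟨28, 0, -4, 0⟩, ⟨40, -4, -4, 0⟩, ⟨40, 4, 4, 0⟩⟩]

theorem tab7_0_ok : allB tab7_0 E.ok = true := by decide +kernel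

def tab7_1 : List E := [
  ⟨1, 17, 39, ⟨8, 0, 0, 0⟩, ⟨10, 2, 0, 0⟩, ⟨10, -2, 0, 0⟩, ⟨34, -2, -4, 0⟩⟩,
  ⟨1, 19, 39, ⟨20, 4, 0, 0⟩, ⟨24, -2, -2, 0⟩, ⟨24, 2, -2, 0⟩, ⟨28, 0, -4, 0⟩⟩,
  ⟨3, 7, 13, ⟨10, 2, 0, 0⟩, ⟨26, 2, -2, -2⟩, ⟨28, -4, 2, -2⟩, ⟨28, 0, -4, 0⟩⟩,
  ⟨1, 22, 39, ⟨20, 4, 0, 0⟩, ⟨20, -4, 0, 0⟩, ⟨28, 0, -4, 0⟩, ⟨44, -4, -4, 0⟩⟩,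
  ⟨1, 23, 39, ⟨8, 0, 0, 0⟩, ⟨20, 4, 0, 0⟩, ⟨24, 2, -2, 0⟩, ⟨28, 0, -4, 0⟩⟩,
  ⟨1, 29, 39, ⟨14, 2, 0, 0⟩, ⟨24, 4, 0, 0⟩, ⟨28, 0, -4, 0⟩, ⟨28, 0, 4, 0⟩⟩,
  ⟨3, 10, 13, ⟨24, 4, 0, 0⟩, ⟨28, 0, -4, 0⟩, ⟨36, 6, -4, -2⟩, ⟨36, 2, 0, 2⟩⟩,
  ⟨1, 31, 39, ⟨8, 0, 0, 0⟩, ⟨24, 4, 0, 0⟩, ⟨24, 2, -2, 0⟩, ⟨24, 2, 2, 0⟩⟩,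
  ⟨3, 11, 13, ⟨14, 2, 0, 0⟩, ⟨26, 2, -2, -2⟩, ⟨26, -2, 2, -2⟩, ⟨28, 0, -4, 0⟩⟩,
  ⟨1, 34, 39, ⟨24, 4, 0, 0⟩, ⟨24, -4, 0, 0⟩, ⟨28, 0, -4, 0⟩, ⟨52, 0, -8, 0⟩⟩]

theorem tab7_1_ok : allB tab7_1 E.ok = true := by decide +kernel

def tab7_2 : List E := [
  ⟨1, 35, 39, ⟨24, 4, 0, 0⟩, ⟨28, 0, -4, 0⟩, ⟨28, -2, -2, 0⟩, ⟨28, 2, -2, 0⟩⟩,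
  ⟨1, 37, 39, ⟨14, 2, 0, 0⟩, ⟨28, 4, 0, 0⟩, ⟨28, 0, -4, 0⟩, ⟨38, 2, -4, 0⟩⟩,
  ⟨1, 38, 39, ⟨28, 4, 0, 0⟩, ⟨28, -4, 0, 0⟩, ⟨28, 0, -4, 0⟩, ⟨52, 0, -8, 0⟩⟩,
  ⟨1, 41, 39, ⟨14, 2, 0, 0⟩, ⟨14, -2, 0, 0⟩, ⟨28, 0, -4, 0⟩, ⟨38, -2, -4, 0⟩⟩,
  ⟨1, 53, 39, ⟨18, 2, 0, 0⟩, ⟨32, 4, 0, 0⟩, ⟨28, 0, -4, 0⟩, ⟨52, 0, -8, 0⟩⟩,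
  ⟨3, 19, 13, ⟨18, 2, 0, 0⟩, ⟨28, 0, -4, 0⟩, ⟨38, 2, 2, 2⟩, ⟨40, 4, -6, -2⟩⟩,
  ⟨1, 61, 39, ⟨18, 2, 0, 0⟩, ⟨32, 4, 0, 0⟩, ⟨28, 0, -4, 0⟩, ⟨52, 0, -8, 0⟩⟩,
  ⟨3, 23, 13, ⟨18, 2, 0, 0⟩, ⟨28, 0, -4, 0⟩, ⟨40, 4, -6, -2⟩, ⟨40, -4, -6, 2⟩⟩,
  ⟨1, 73, 39, ⟨18, 2, 0, 0⟩, ⟨18, -2, 0, 0⟩, ⟨28, 0, -4, 0⟩, ⟨52, 0, -8, 0⟩⟩,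
  ⟨1, 77, 39, ⟨8, 0, 0, 0⟩, ⟨18, 2, 0, 0⟩, ⟨28, 0, -4, 0⟩, ⟨52, 0, -8, 0⟩⟩]

theorem tab7_2_ok : allB tab7_2 E.ok = true := by decide +kernel

def tab7_3 : List E := [
  ⟨1, 85, 39, ⟨22, 2, 0, 0⟩, ⟨28, 0, -4, 0⟩, ⟨46, 2, -4, 0⟩, ⟨52, 0, -8, 0⟩⟩,
  ⟨1, 89, 39, ⟨22, 2, 0, 0⟩, ⟨22, -2, 0, 0⟩, ⟨28, 0, -4, 0⟩, ⟨52, 0, -8, 0⟩⟩,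
  ⟨3, 31, 13, ⟨22, 2, 0, 0⟩, ⟨28, 0, -4, 0⟩, ⟨44, 4, -6, -2⟩, ⟨44, -4, 6, -2⟩⟩,
  ⟨1, 97, 39, ⟨22, 2, 0, 0⟩, ⟨22, -2, 0, 0⟩, ⟨28, 0, -4, 0⟩, ⟨52, 0, -8, 0⟩⟩,
  ⟨1, 101, 39, ⟨22, 2, 0, 0⟩, ⟨22, -2, 0, 0⟩, ⟨28, 0, -4, 0⟩, ⟨52, 0, -8, 0⟩⟩,
  ⟨3, 35, 13, ⟨8, 0, 0, 0⟩, ⟨22, 2, 0, 0⟩, ⟨46, 2, -4, 0⟩, ⟨48, 4, -6, -2⟩⟩,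
  ⟨1, 109, 39, ⟨22, 2, 0, 0⟩, ⟨28, 0, -4, 0⟩, ⟨46, -2, -4, 0⟩, ⟨46, 2, 4, 0⟩⟩,
  ⟨1, 113, 39, ⟨22, 2, 0, 0⟩, ⟨22, -2, 0, 0⟩, ⟨28, 0, -4, 0⟩, ⟨52, 0, -8, 0⟩⟩,
  ⟨3, 43, 13, ⟨26, 2, 0, 0⟩, ⟨28, 0, 4, 0⟩, ⟨52, 0, 8, 0⟩, ⟨56, 4, -6, -2⟩⟩,
  ⟨1, 133, 39, ⟨26, 2, 0, 0⟩, ⟨28, 0, -4, 0⟩, ⟨50, 2, -4, 0⟩, ⟨52, 0, -8, 0⟩⟩]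

theorem tab7_3_ok : allB tab7_3 E.ok = true := by decide +kernel

def tab7_4 : List E := [
  ⟨1, 137, 39, ⟨26, 2, 0, 0⟩, ⟨26, -2, 0, 0⟩, ⟨28, 0, -4, 0⟩, ⟨52, 0, -8, 0⟩⟩,
  ⟨3, 47, 13, ⟨26, 2, 0, 0⟩, ⟨26, -2, 0, 0⟩, ⟨28, 0, -4, 0⟩, ⟨52, 0, -8, 0⟩⟩,
  ⟨1, 145, 39, ⟨26, 2, 0, 0⟩, ⟨26, -2, 0, 0⟩, ⟨28, 0, -4, 0⟩, ⟨52, 0, -8, 0⟩⟩,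
  ⟨1, 149, 39, ⟨8, 0, 0, 0⟩, ⟨26, 2, 0, 0⟩, ⟨50, 2, -4, 0⟩, ⟨50, 2, 4, 0⟩⟩,
  ⟨1, 2, 41, ⟨8, 4, 0, 0⟩, ⟨14, 0, -2, 0⟩, ⟨22, 10, -2, -2⟩, ⟨24, 2, 0, -2⟩⟩,
  ⟨1, 3, 41, ⟨8, 4, 0, 0⟩, ⟨14, 0, -2, 0⟩, ⟨26, 6, -2, -2⟩, ⟨26, -6, 2, -2⟩⟩,
  ⟨1, 5, 41, ⟨8, 0, 0, 0⟩, ⟨14, 0, -2, 0⟩, ⟨14, 0, 2, 0⟩, ⟨15, 3, -1, -1⟩⟩,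
  ⟨1, 6, 41, ⟨12, 4, 0, 0⟩, ⟨20, 8, 0, 0⟩, ⟨14, 0, -2, 0⟩, ⟨34, 6, -2, -2⟩⟩,
  ⟨1, 7, 41, ⟨8, 0, 0, 0⟩, ⟨12, 4, 0, 0⟩, ⟨14, 0, -2, 0⟩, ⟨34, -8, -2, 0⟩⟩,
  ⟨1, 10, 41, ⟨16, 4, 0, 0⟩, ⟨14, 0, -2, 0⟩, ⟨14, 0, 2, 0⟩, ⟨26, -4, -2, 0⟩⟩]

theorem tab7_4_ok : allB tab7_4 E.ok = true := by decide +kernel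

def tab7 : List E :=
  tab7_0 ++ (tab7_1 ++ (tab7_2 ++ (tab7_3 ++ (tab7_4))))

theorem tab7_ok : allB tab7 E.ok = true :=
  allB_append tab7_0_ok (allB_append tab7_1_ok (allB_append tab7_2_ok (allB_append tab7_3_ok
  tab7_4_ok)))

end BQN
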