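import Pool.Agent.BQN.App

/-! Table 8. -/

namespace BQN

def tab8_0 : List E := [
  ⟨1, 13, 41, ⟨10, 2, 0, 0⟩, ⟨14, 0, -2, 0⟩, ⟨27, -5, 3, -1⟩, ⟨29, -1, 1, -1⟩⟩,
  ⟨1, 17, 41, ⟨10, 2, 0, 0⟩, ⟨14, 0, -2, 0⟩, ⟨29, 1, -1, -1⟩, ⟨29, -1, 1, -1⟩⟩,
  ⟨1, 21, 41, ⟨8, 0, 0, 0⟩, ⟨10, 2, 0, 0⟩, ⟨14, 0, -2, 0⟩, ⟨14, 0, 2, 0⟩⟩,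
  ⟨1, 29, 41, ⟨14, 2, 0, 0⟩, ⟨14, 0, -2, 0⟩, ⟨14, 0, 2, 0⟩, ⟨24, -2, -2, 0⟩⟩,
  ⟨1, 33, 41, ⟨8, 0, 0, 0⟩, ⟨24, 4, 0, 0⟩, ⟨24, -4, 0, 0⟩, ⟨14, 0, -2, 0⟩⟩,
  ⟨1, 37, 41, ⟨8, 0, 0, 0⟩, ⟨14, 2, 0, 0⟩, ⟨14, -2, 0, 0⟩, ⟨14, 0, -2, 0⟩⟩,
  ⟨1, 5, 42, ⟨10, 2, 0, 0⟩, ⟨28, 0, -4, 0⟩, ⟨30, 6, -2, -2⟩, ⟨36, -4, -4, 0⟩⟩,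
  ⟨1, 11, 42, ⟨16, 4, 0, 0⟩, ⟨28, 0, -4, 0⟩, ⟨44, 12, -6, -2⟩, ⟨44, 4, -2, -2⟩⟩,
  ⟨1, 13, 42, ⟨10, 2, 0, 0⟩, ⟨10, -2, 0, 0⟩, ⟨28, 0, -4, 0⟩, ⟨34, -2, -4, 0⟩⟩,
  ⟨3, 5, 14, ⟨16, 4, 0, 0⟩, ⟨20, 4, -2, -2⟩, ⟨20, -4, 2, -2⟩, ⟨28, 0, -4, 0⟩⟩]

theorem tab8_0_ok : allB tab8_0 E.ok = true := by decide +kernel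

def tab8_1 : List E := [
  ⟨1, 17, 42, ⟨10, 2, 0, 0⟩, ⟨10, -2, 0, 0⟩, ⟨28, 0, -4, 0⟩, ⟨44, -4, -4, 0⟩⟩,
  ⟨1, 19, 42, ⟨20, 4, 0, 0⟩, ⟨28, 0, -4, 0⟩, ⟨44, 4, -4, 0⟩, ⟨52, 0, -8, 0⟩⟩,
  ⟨2, 11, 21, ⟨8, 0, 0, 0⟩, ⟨20, 4, 0, 0⟩, ⟨24, 2, -2, 0⟩, ⟨28, 0, -4, 0⟩⟩,
  ⟨1, 23, 42, ⟨20, 4, 0, 0⟩, ⟨20, -4, 0, 0⟩, ⟨28, 0, -4, 0⟩, ⟨52, 0, -8, 0⟩⟩,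
  ⟨2, 13, 21, ⟨24, 4, 0, 0⟩, ⟨24, 2, -2, 0⟩, ⟨28, 0, -4, 0⟩, ⟨34, 0, 0, 2⟩⟩,
  ⟨1, 29, 42, ⟨14, 2, 0, 0⟩, ⟨24, 4, 0, 0⟩, ⟨28, 0, -4, 0⟩, ⟨48, -4, -4, 0⟩⟩,
  ⟨1, 31, 42, ⟨24, 4, 0, 0⟩, ⟨24, -4, 0, 0⟩, ⟨28, 0, -4, 0⟩, ⟨52, 0, -8, 0⟩⟩,
  ⟨3, 11, 14, ⟨14, 2, 0, 0⟩, ⟨28, 0, -4, 0⟩, ⟨30, -2, 2, -2⟩, ⟨38, -2, -4, 0⟩⟩,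
  ⟨2, 17, 21, ⟨24, 4, 0, 0⟩, ⟨28, 0, -4, 0⟩, ⟨28, 2, -2, 0⟩, ⟨38, 0, 0, -2⟩⟩,
  ⟨1, 37, 42, ⟨14, -2, 0, 0⟩, ⟨28, 0, -4, 0⟩, ⟨52, 0, -8, 0⟩, ⟨52, -4, -4, 0⟩⟩]

theorem tab8_1_ok : allB tab8_1 E.ok = true := by decide +kernel

def tab8_2 : List E := [
  ⟨2, 19, 21, ⟨28, 4, 0, 0⟩, ⟨28, 0, -4, 0⟩, ⟨28, 2, -2, 0⟩, ⟨28, 2, 2, 0⟩⟩,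
  ⟨3, 13, 14, ⟨28, 4, 0, 0⟩, ⟨28, 0, -4, 0⟩, ⟨40, 0, -2, -2⟩, ⟨40, 0, -2, 2⟩⟩,
  ⟨1, 41, 42, ⟨14, 2, 0, 0⟩, ⟨28, 0, -4, 0⟩, ⟨52, 0, -8, 0⟩, ⟨52, -4, -4, 0⟩⟩,
  ⟨1, 53, 42, ⟨18, 2, 0, 0⟩, ⟨32, 4, 0, 0⟩, ⟨28, 0, -4, 0⟩, ⟨52, 0, -8, 0⟩⟩,
  ⟨3, 19, 14, ⟨18, 2, 0, 0⟩, ⟨28, 0, -4, 0⟩, ⟨38, 2, 2, 2⟩, ⟨44, -4, -6, 2⟩⟩,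
  ⟨1, 61, 42, ⟨18, 2, 0, 0⟩, ⟨32, 4, 0, 0⟩, ⟨28, 0, -4, 0⟩, ⟨42, 2, -4, 0⟩⟩,
  ⟨1, 65, 42, ⟨18, 2, 0, 0⟩, ⟨28, 0, -4, 0⟩, ⟨28, 0, 4, 0⟩, ⟨52, 0, -8, 0⟩⟩,
  ⟨3, 23, 14, ⟨18, 2, 0, 0⟩, ⟨28, 0, -4, 0⟩, ⟨42, -2, 2, -2⟩, ⟨44, 4, -6, -2⟩⟩,
  ⟨1, 73, 42, ⟨18, 2, 0, 0⟩, ⟨18, -2, 0, 0⟩, ⟨28, 0, -4, 0⟩, ⟨52, 0, -8, 0⟩⟩,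
  ⟨7, 11, 6, ⟨18, 2, 0, 0⟩, ⟨22, 2, -2, -2⟩, ⟨22, -2, 2, -2⟩, ⟨36, 0, 0, -4⟩⟩]

theorem tab8_2_ok : allB tab8_2 E.ok = true := by decide +kernel

def tab8_3 : List E := [
  ⟨1, 85, 42, ⟨22, 2, 0, 0⟩, ⟨28, 0, -4, 0⟩, ⟨46, 2, -4, 0⟩, ⟨52, 0, -8, 0⟩⟩,
  ⟨1, 89, 42, ⟨22, 2, 0, 0⟩, ⟨28, 0, -4, 0⟩, ⟨46, -2, -4, 0⟩, ⟨52, 0, -8, 0⟩⟩,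
  ⟨3, 31, 14, ⟨22, 2, 0, 0⟩, ⟨28, 0, -4, 0⟩, ⟨44, 4, -6, -2⟩, ⟨44, -4, 6, -2⟩⟩,
  ⟨1, 97, 42, ⟨22, 2, 0, 0⟩, ⟨28, 0, -4, 0⟩, ⟨46, -2, -4, 0⟩, ⟨52, 0, -8, 0⟩⟩,
  ⟨1, 101, 42, ⟨22, 2, 0, 0⟩, ⟨22, -2, 0, 0⟩, ⟨28, 0, -4, 0⟩, ⟨52, 0, -8, 0⟩⟩,
  ⟨1, 109, 42, ⟨22, 2, 0, 0⟩, ⟨22, -2, 0, 0⟩, ⟨28, 0, -4, 0⟩, ⟨52, 0, -8, 0⟩⟩,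
  ⟨1, 113, 42, ⟨22, 2, 0, 0⟩, ⟨22, -2, 0, 0⟩, ⟨28, 0, -4, 0⟩, ⟨52, 0, -8, 0⟩⟩,
  ⟨3, 43, 14, ⟨26, 2, 0, 0⟩, ⟨28, 0, 4, 0⟩, ⟨52, 0, -8, 0⟩, ⟨56, 4, -6, -2⟩⟩,
  ⟨7, 19, 6, ⟨26, 2, 0, 0⟩, ⟨28, 0, -4, 0⟩, ⟨34, 2, 2, 2⟩, ⟨36, 0, -2, 2⟩⟩,
  ⟨1, 137, 42, ⟨26, 2, 0, 0⟩, ⟨28, 0, -4, 0⟩, ⟨50, 2, -4, 0⟩, ⟨52, 0, -8, 0⟩⟩]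

theorem tab8_3_ok : allB tab8_3 E.ok = true := by decide +kernel

def tab8_4 : List E := [
  ⟨3, 47, 14, ⟨26, 2, 0, 0⟩, ⟨28, 0, -4, 0⟩, ⟨50, 2, -4, 0⟩, ⟨52, 0, -8, 0⟩⟩,
  ⟨1, 145, 42, ⟨26, 2, 0, 0⟩, ⟨26, -2, 0, 0⟩, ⟨28, 0, -4, 0⟩, ⟨52, 0, -8, 0⟩⟩,
  ⟨1, 149, 42, ⟨26, 2, 0, 0⟩, ⟨26, -2, 0, 0⟩, ⟨28, 0, -4, 0⟩, ⟨52, 0, -8, 0⟩⟩,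
  ⟨1, 157, 42, ⟨26, 2, 0, 0⟩, ⟨26, -2, 0, 0⟩, ⟨28, 0, -4, 0⟩, ⟨52, 0, -8, 0⟩⟩,
  ⟨7, 23, 6, ⟨26, 2, 0, 0⟩, ⟨28, 0, -4, 0⟩, ⟨38, 2, 2, 2⟩, ⟨40, 0, -2, 2⟩⟩,
  ⟨3, 55, 14, ⟨26, 2, 0, 0⟩, ⟨28, 0, -4, 0⟩, ⟨28, 0, 4, 0⟩, ⟨52, 0, -8, 0⟩⟩,
  ⟨1, 2, 43, ⟨8, 4, 0, 0⟩, ⟨24, -2, 0, -2⟩, ⟨28, 14, -4, -2⟩, ⟨28, 0, -4, 0⟩⟩,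
  ⟨1, 5, 43, ⟨8, 0, 0, 0⟩, ⟨28, 0, -4, 0⟩, ⟨30, 6, -2, -2⟩, ⟨30, -6, -2, 2⟩⟩,
  ⟨1, 6, 43, ⟨12, 4, 0, 0⟩, ⟨20, 8, 0, 0⟩, ⟨28, 0, -4, 0⟩, ⟨36, 10, -4, -2⟩⟩,
  ⟨1, 7, 43, ⟨8, 0, 0, 0⟩, ⟨12, 4, 0, 0⟩, ⟨20, 2, -2, 0⟩, ⟨28, 0, -4, 0⟩⟩]

theorem tab8_4_ok : allB tab8_4 E.ok = true := by decide +kernel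

def tab8 : List E :=
  tab8_0 ++ (tab8_1 ++ (tab8_2 ++ (tab8_3 ++ (tab8_4))))

theorem tab8_ok : allB tab8 E.ok = true :=
  allB_append tab8_0_ok (allB_append tab8_1_ok (allB_append tab8_2_ok (allB_append tab8_3_ok
  tab8_4_ok)))

end BQN
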