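import Pool.Agent.BQN.App

/-! Table 9. -/

namespace BQN

def tab9_0 : List E := [
  ⟨1, 10, 43, ⟨16, 4, 0, 0⟩, ⟨28, 0, 4, 0⟩, ⟨48, 10, -4, -2⟩, ⟨48, 2, 0, -2⟩⟩,
  ⟨1, 11, 43, ⟨16, 4, 0, 0⟩, ⟨20, -2, -2, 0⟩, ⟨20, 2, -2, 0⟩, ⟨20, -2, 2, 0⟩⟩,
  ⟨1, 13, 43, ⟨8, 0, 0, 0⟩, ⟨10, 2, 0, 0⟩, ⟨28, 0, -4, 0⟩, ⟨34, -2, -4, 0⟩⟩,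
  ⟨1, 14, 43, ⟨8, 0, 0, 0⟩, ⟨16, 4, 0, 0⟩, ⟨16, -4, 0, 0⟩, ⟨28, 0, -4, 0⟩⟩,
  ⟨1, 15, 43, ⟨16, 4, 0, 0⟩, ⟨24, -2, -2, 0⟩, ⟨24, 2, -2, 0⟩, ⟨28, 0, -4, 0⟩⟩,
  ⟨1, 17, 43, ⟨8, 0, 0, 0⟩, ⟨10, 2, 0, 0⟩, ⟨10, -2, 0, 0⟩, ⟨28, 0, -4, 0⟩⟩,
  ⟨1, 19, 43, ⟨20, 4, 0, 0⟩, ⟨24, 2, -2, 0⟩, ⟨28, 0, -4, 0⟩, ⟨40, -6, -2, 0⟩⟩,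
  ⟨1, 21, 43, ⟨8, 0, 0, 0⟩, ⟨10, 2, 0, 0⟩, ⟨28, 0, -4, 0⟩, ⟨28, 0, 4, 0⟩⟩,
  ⟨1, 22, 43, ⟨8, 0, 0, 0⟩, ⟨20, 4, 0, 0⟩, ⟨20, -4, 0, 0⟩, ⟨28, 0, -4, 0⟩⟩,
  ⟨1, 23, 43, ⟨8, 0, 0, 0⟩, ⟨20, 4, 0, 0⟩, ⟨24, 2, -2, 0⟩, ⟨28, 0, -4, 0⟩⟩]

theorem tab9_0_ok : allB tab9_0 E.ok = true := by decide +kernel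

def tab9_1 : List E := [
  ⟨1, 26, 43, ⟨8, 0, 0, 0⟩, ⟨24, 4, 0, 0⟩, ⟨28, 0, -4, 0⟩, ⟨48, -4, -4, 0⟩⟩,
  ⟨1, 29, 43, ⟨8, 0, 0, 0⟩, ⟨28, 0, -4, 0⟩, ⟨38, -2, -4, 0⟩, ⟨48, -4, -4, 0⟩⟩,
  ⟨1, 30, 43, ⟨24, 4, 0, 0⟩, ⟨24, -4, 0, 0⟩, ⟨28, 0, -4, 0⟩, ⟨28, 0, 4, 0⟩⟩,
  ⟨1, 31, 43, ⟨8, 0, 0, 0⟩, ⟨24, 4, 0, 0⟩, ⟨28, 0, -4, 0⟩, ⟨28, 2, -2, 0⟩⟩,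
  ⟨1, 33, 43, ⟨8, 0, 0, 0⟩, ⟨24, 4, 0, 0⟩, ⟨28, 0, -4, 0⟩, ⟨38, -2, -4, 0⟩⟩,
  ⟨1, 34, 43, ⟨8, 0, 0, 0⟩, ⟨24, 4, 0, 0⟩, ⟨24, -4, 0, 0⟩, ⟨28, 0, -4, 0⟩⟩,
  ⟨1, 35, 43, ⟨24, 4, 0, 0⟩, ⟨28, 0, -4, 0⟩, ⟨28, -2, -2, 0⟩, ⟨28, 2, -2, 0⟩⟩,
  ⟨1, 37, 43, ⟨8, 0, 0, 0⟩, ⟨14, -2, 0, 0⟩, ⟨28, 0, -4, 0⟩, ⟨52, -4, -4, 0⟩⟩,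
  ⟨1, 38, 43, ⟨8, 0, 0, 0⟩, ⟨28, 4, 0, 0⟩, ⟨28, 0, -4, 0⟩, ⟨52, -4, -4, 0⟩⟩,
  ⟨1, 39, 43, ⟨28, 4, 0, 0⟩, ⟨28, 0, -4, 0⟩, ⟨28, 2, -2, 0⟩, ⟨28, 2, 2, 0⟩⟩]

theorem tab9_1_ok : allB tab9_1 E.ok = true := by decide +kernel

def tab9_2 : List E := [
  ⟨1, 41, 43, ⟨8, 0, 0, 0⟩, ⟨14, 2, 0, 0⟩, ⟨28, 0, -4, 0⟩, ⟨52, -4, -4, 0⟩⟩,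
  ⟨1, 42, 43, ⟨28, 4, 0, 0⟩, ⟨28, -4, 0, 0⟩, ⟨28, 0, -4, 0⟩, ⟨28, 0, 4, 0⟩⟩,
  ⟨1, 53, 43, ⟨18, 2, 0, 0⟩, ⟨32, 4, 0, 0⟩, ⟨28, 0, -4, 0⟩, ⟨28, 0, 4, 0⟩⟩,
  ⟨1, 57, 43, ⟨8, 0, 0, 0⟩, ⟨32, 4, 0, 0⟩, ⟨28, 0, -4, 0⟩, ⟨42, 2, -4, 0⟩⟩,
  ⟨1, 61, 43, ⟨18, 2, 0, 0⟩, ⟨32, 4, 0, 0⟩, ⟨28, 0, -4, 0⟩, ⟨42, -2, -4, 0⟩⟩,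
  ⟨1, 65, 43, ⟨8, 0, 0, 0⟩, ⟨18, 2, 0, 0⟩, ⟨28, 0, -4, 0⟩, ⟨28, 0, 4, 0⟩⟩,
  ⟨1, 69, 43, ⟨8, 0, 0, 0⟩, ⟨18, 2, 0, 0⟩, ⟨18, -2, 0, 0⟩, ⟨28, 0, -4, 0⟩⟩,
  ⟨1, 73, 43, ⟨8, 0, 0, 0⟩, ⟨18, 2, 0, 0⟩, ⟨18, -2, 0, 0⟩, ⟨28, 0, -4, 0⟩⟩,
  ⟨1, 77, 43, ⟨8, 0, 0, 0⟩, ⟨18, 2, 0, 0⟩, ⟨28, 0, -4, 0⟩, ⟨28, 0, 4, 0⟩⟩,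
  ⟨1, 85, 43, ⟨8, 0, 0, 0⟩, ⟨22, 2, 0, 0⟩, ⟨28, 0, -4, 0⟩, ⟨46, -2, -4, 0⟩⟩]

theorem tab9_2_ok : allB tab9_2 E.ok = true := by decide +kernel

def tab9_3 : List E := [
  ⟨1, 89, 43, ⟨8, 0, 0, 0⟩, ⟨22, 2, 0, 0⟩, ⟨28, 0, -4, 0⟩, ⟨46, -2, -4, 0⟩⟩,
  ⟨1, 93, 43, ⟨8, 0, 0, 0⟩, ⟨22, 2, 0, 0⟩, ⟨28, 0, -4, 0⟩, ⟨46, 2, -4, 0⟩⟩,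
  ⟨1, 97, 43, ⟨22, 2, 0, 0⟩, ⟨28, 0, -4, 0⟩, ⟨46, -2, -4, 0⟩, ⟨46, 2, -4, 0⟩⟩,
  ⟨1, 101, 43, ⟨8, 0, 0, 0⟩, ⟨22, 2, 0, 0⟩, ⟨22, -2, 0, 0⟩, ⟨28, 0, -4, 0⟩⟩,
  ⟨1, 105, 43, ⟨8, 0, 0, 0⟩, ⟨22, 2, 0, 0⟩, ⟨28, 0, -4, 0⟩, ⟨28, 0, 4, 0⟩⟩,
  ⟨1, 109, 43, ⟨8, 0, 0, 0⟩, ⟨22, 2, 0, 0⟩, ⟨22, -2, 0, 0⟩, ⟨28, 0, -4, 0⟩⟩,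
  ⟨1, 113, 43, ⟨8, 0, 0, 0⟩, ⟨22, 2, 0, 0⟩, ⟨22, -2, 0, 0⟩, ⟨28, 0, -4, 0⟩⟩,
  ⟨1, 133, 43, ⟨8, 0, 0, 0⟩, ⟨28, 0, -4, 0⟩, ⟨50, -2, -4, 0⟩, ⟨50, 2, -4, 0⟩⟩,
  ⟨1, 137, 43, ⟨26, 2, 0, 0⟩, ⟨28, 0, -4, 0⟩, ⟨50, 2, -4, 0⟩, ⟨56, 0, -8, 0⟩⟩,
  ⟨1, 141, 43, ⟨26, 2, 0, 0⟩, ⟨28, 0, -4, 0⟩, ⟨50, -2, -4, 0⟩, ⟨50, 2, -4, 0⟩⟩]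

theorem tab9_3_ok : allB tab9_3 E.ok = true := by decide +kernel

def tab9_4 : List E := [
  ⟨1, 145, 43, ⟨8, 0, 0, 0⟩, ⟨26, 2, 0, 0⟩, ⟨26, -2, 0, 0⟩, ⟨28, 0, -4, 0⟩⟩,
  ⟨1, 149, 43, ⟨8, 0, 0, 0⟩, ⟨26, 2, 0, 0⟩, ⟨26, -2, 0, 0⟩, ⟨28, 0, -4, 0⟩⟩,
  ⟨1, 157, 43, ⟨8, 0, 0, 0⟩, ⟨26, 2, 0, 0⟩, ⟨26, -2, 0, 0⟩, ⟨28, 0, -4, 0⟩⟩,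
  ⟨1, 161, 43, ⟨8, 0, 0, 0⟩, ⟨26, 2, 0, 0⟩, ⟨26, -2, 0, 0⟩, ⟨28, 0, -4, 0⟩⟩,
  ⟨1, 165, 43, ⟨8, 0, 0, 0⟩, ⟨26, 2, 0, 0⟩, ⟨28, 0, -4, 0⟩, ⟨28, 0, 4, 0⟩⟩,
  ⟨1, 3, 46, ⟨8, 4, 0, 0⟩, ⟨24, 8, -2, -2⟩, ⟨24, -8, 2, -2⟩, ⟨28, 0, -4, 0⟩⟩,
  ⟨2, 5, 23, ⟨16, 4, 0, 0⟩, ⟨20, -2, -2, 0⟩, ⟨20, 2, -2, 0⟩, ⟨20, -2, 2, 0⟩⟩,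
  ⟨2, 11, 23, ⟨20, 4, 0, 0⟩, ⟨28, 0, -4, 0⟩, ⟨34, 0, 0, -2⟩, ⟨38, 2, -2, -2⟩⟩,
  ⟨2, 13, 23, ⟨24, 4, 0, 0⟩, ⟨24, -2, -2, 0⟩, ⟨24, 2, -2, 0⟩, ⟨28, 0, -4, 0⟩⟩,
  ⟨2, 15, 23, ⟨24, 4, 0, 0⟩, ⟨28, 0, -4, 0⟩, ⟨28, 2, -2, 0⟩, ⟨38, 0, 0, -2⟩⟩]

theorem tab9_4_ok : allB tab9_4 E.ok = true := by decide +kernel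

def tab9 : List E :=
  tab9_0 ++ (tab9_1 ++ (tab9_2 ++ (tab9_3 ++ (tab9_4))))

theorem tab9_ok : allB tab9 E.ok = true :=
  allB_append tab9_0_ok (allB_append tab9_1_ok (allB_append tab9_2_ok (allB_append tab9_3_ok
  tab9_4_ok)))

end BQN
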