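import Pool.Agent.BQN.App

/-! Table 44. -/

namespace BQN

def tab44_0 : List E := [
  ⟨1, 19, 139, ⟨20, 4, 0, 0⟩, ⟨20, -4, 0, 0⟩, ⟨36, -2, -2, 0⟩, ⟨48, 0, -4, 0⟩⟩,
  ⟨1, 23, 139, ⟨8, 0, 0, 0⟩, ⟨20, 4, 0, 0⟩, ⟨20, -4, 0, 0⟩, ⟨48, 0, -4, 0⟩⟩,
  ⟨2, 5, 71, ⟨8, 0, 0, 0⟩, ⟨32, -2, -2, 0⟩, ⟨44, -6, -2, 0⟩, ⟨48, 0, -4, 0⟩⟩,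
  ⟨1, 7, 143, ⟨12, 4, 0, 0⟩, ⟨32, 2, -2, 0⟩, ⟨40, 6, -2, 0⟩, ⟨48, 0, -4, 0⟩⟩,
  ⟨1, 15, 143, ⟨16, 4, 0, 0⟩, ⟨32, -2, -2, 0⟩, ⟨32, 2, -2, 0⟩, ⟨48, 0, -4, 0⟩⟩,
  ⟨2, 3, 73, ⟨12, 4, 0, 0⟩, ⟨20, 8, 0, 0⟩, ⟨32, 2, -2, 0⟩, ⟨40, 6, -2, 0⟩⟩,
  ⟨2, 7, 73, ⟨16, 4, 0, 0⟩, ⟨32, -2, -2, 0⟩, ⟨32, 2, -2, 0⟩, ⟨52, 0, -4, 0⟩⟩,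
  ⟨2, 11, 73, ⟨20, 4, 0, 0⟩, ⟨20, -4, 0, 0⟩, ⟨36, -2, -2, 0⟩, ⟨52, 0, -4, 0⟩⟩,
  ⟨2, 13, 73, ⟨24, -4, 0, 0⟩, ⟨36, -2, -2, 0⟩, ⟨52, 0, -4, 0⟩, ⟨56, -6, -2, 0⟩⟩,
  ⟨2, 15, 73, ⟨24, 4, 0, 0⟩, ⟨36, -2, -2, 0⟩, ⟨36, 2, -2, 0⟩, ⟨52, 0, -4, 0⟩⟩]

theorem tab44_0_ok : allB tab44_0 E.ok = true := by decide +kernel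

def tab44_1 : List E := [
  ⟨2, 17, 73, ⟨24, 4, 0, 0⟩, ⟨36, -2, -2, 0⟩, ⟨36, 2, -2, 0⟩, ⟨36, -2, 2, 0⟩⟩,
  ⟨2, 19, 73, ⟨28, 4, 0, 0⟩, ⟨40, -2, -2, 0⟩, ⟨40, 2, -2, 0⟩, ⟨52, 0, -4, 0⟩⟩,
  ⟨2, 21, 73, ⟨28, 4, 0, 0⟩, ⟨28, -4, 0, 0⟩, ⟨40, -2, -2, 0⟩, ⟨52, 0, -4, 0⟩⟩,
  ⟨2, 23, 73, ⟨28, 4, 0, 0⟩, ⟨28, -4, 0, 0⟩, ⟨40, -2, -2, 0⟩, ⟨52, 0, -4, 0⟩⟩,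
  ⟨1, 7, 151, ⟨8, 0, 0, 0⟩, ⟨12, 4, 0, 0⟩, ⟨12, -4, 0, 0⟩, ⟨32, -2, -2, 0⟩⟩,
  ⟨1, 11, 151, ⟨16, 4, 0, 0⟩, ⟨28, 8, 0, 0⟩, ⟨32, 2, -2, 0⟩, ⟨52, 0, -4, 0⟩⟩,
  ⟨1, 15, 151, ⟨16, 4, 0, 0⟩, ⟨36, -2, -2, 0⟩, ⟨48, 6, -2, 0⟩, ⟨52, 0, -4, 0⟩⟩,
  ⟨1, 19, 151, ⟨20, 4, 0, 0⟩, ⟨36, -2, -2, 0⟩, ⟨36, 2, -2, 0⟩, ⟨52, 0, -4, 0⟩⟩,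
  ⟨1, 23, 151, ⟨8, 0, 0, 0⟩, ⟨20, 4, 0, 0⟩, ⟨36, 2, -2, 0⟩, ⟨52, 0, -4, 0⟩⟩,
  ⟨1, 31, 151, ⟨24, 4, 0, 0⟩, ⟨36, -2, -2, 0⟩, ⟨36, 2, -2, 0⟩, ⟨52, 0, -4, 0⟩⟩]

theorem tab44_1_ok : allB tab44_1 E.ok = true := by decide +kernel

def tab44_2 : List E := [
  ⟨1, 35, 151, ⟨24, 4, 0, 0⟩, ⟨40, -2, -2, 0⟩, ⟨40, 2, -2, 0⟩, ⟨52, 0, -4, 0⟩⟩,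
  ⟨1, 39, 151, ⟨28, 4, 0, 0⟩, ⟨40, -2, -2, 0⟩, ⟨40, 2, -2, 0⟩, ⟨52, 0, -4, 0⟩⟩,
  ⟨2, 3, 77, ⟨12, 4, 0, 0⟩, ⟨20, 8, 0, 0⟩, ⟨40, -6, -2, 0⟩, ⟨40, 6, -2, 0⟩⟩,
  ⟨2, 13, 77, ⟨24, 4, 0, 0⟩, ⟨36, 2, -2, 0⟩, ⟨52, 0, -4, 0⟩, ⟨56, -6, -2, 0⟩⟩,
  ⟨2, 15, 77, ⟨24, 4, 0, 0⟩, ⟨36, -2, -2, 0⟩, ⟨36, 2, -2, 0⟩, ⟨52, 0, -4, 0⟩⟩,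
  ⟨2, 17, 77, ⟨24, 4, 0, 0⟩, ⟨40, 2, -2, 0⟩, ⟨52, 0, -4, 0⟩, ⟨60, -6, -2, 0⟩⟩,
  ⟨1, 7, 155, ⟨8, 0, 0, 0⟩, ⟨12, 4, 0, 0⟩, ⟨12, -4, 0, 0⟩, ⟨32, -2, -2, 0⟩⟩,
  ⟨1, 11, 155, ⟨16, 4, 0, 0⟩, ⟨32, -2, -2, 0⟩, ⟨32, 2, -2, 0⟩, ⟨52, 0, -4, 0⟩⟩,
  ⟨1, 19, 155, ⟨20, 4, 0, 0⟩, ⟨36, -2, -2, 0⟩, ⟨36, 2, -2, 0⟩, ⟨52, 0, -4, 0⟩⟩,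
  ⟨1, 23, 155, ⟨8, 0, 0, 0⟩, ⟨20, 4, 0, 0⟩, ⟨36, 2, -2, 0⟩, ⟨52, 0, -4, 0⟩⟩]

theorem tab44_2_ok : allB tab44_2 E.ok = true := by decide +kernel

def tab44_3 : List E := [
  ⟨2, 5, 79, ⟨16, 4, 0, 0⟩, ⟨32, -2, -2, 0⟩, ⟨32, 2, -2, 0⟩, ⟨52, 0, -4, 0⟩⟩,
  ⟨2, 11, 79, ⟨8, 0, 0, 0⟩, ⟨20, 4, 0, 0⟩, ⟨36, 2, -2, 0⟩, ⟨52, 0, -4, 0⟩⟩,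
  ⟨2, 13, 79, ⟨24, 4, 0, 0⟩, ⟨36, 2, -2, 0⟩, ⟨52, 0, -4, 0⟩, ⟨56, -6, -2, 0⟩⟩,
  ⟨2, 15, 79, ⟨24, 4, 0, 0⟩, ⟨24, -4, 0, 0⟩, ⟨40, -2, -2, 0⟩, ⟨52, 0, -4, 0⟩⟩,
  ⟨1, 7, 159, ⟨8, 0, 0, 0⟩, ⟨12, 4, 0, 0⟩, ⟨12, -4, 0, 0⟩, ⟨32, -2, -2, 0⟩⟩,
  ⟨1, 11, 159, ⟨16, 4, 0, 0⟩, ⟨32, -2, -2, 0⟩, ⟨32, 2, -2, 0⟩, ⟨52, 0, -4, 0⟩⟩,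
  ⟨1, 19, 159, ⟨20, 4, 0, 0⟩, ⟨36, -2, -2, 0⟩, ⟨52, 0, -4, 0⟩, ⟨52, 6, -2, 0⟩⟩,
  ⟨1, 23, 159, ⟨8, 0, 0, 0⟩, ⟨20, 4, 0, 0⟩, ⟨36, 2, -2, 0⟩, ⟨52, 0, -4, 0⟩⟩,
  ⟨1, 7, 163, ⟨8, 0, 0, 0⟩, ⟨12, 4, 0, 0⟩, ⟨32, -2, -2, 0⟩, ⟨32, 2, -2, 0⟩⟩,
  ⟨1, 11, 163, ⟨16, 4, 0, 0⟩, ⟨28, 8, 0, 0⟩, ⟨36, 2, -2, 0⟩, ⟨52, 0, -4, 0⟩⟩]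

theorem tab44_3_ok : allB tab44_3 E.ok = true := by decide +kernel

def tab44_4 : List E := [
  ⟨1, 15, 163, ⟨16, 4, 0, 0⟩, ⟨36, -2, -2, 0⟩, ⟨36, 2, -2, 0⟩, ⟨52, 0, -4, 0⟩⟩,
  ⟨1, 19, 163, ⟨20, 4, 0, 0⟩, ⟨36, 2, -2, 0⟩, ⟨52, 0, -4, 0⟩, ⟨52, -6, -2, 0⟩⟩,
  ⟨1, 23, 163, ⟨8, 0, 0, 0⟩, ⟨20, 4, 0, 0⟩, ⟨36, 2, -2, 0⟩, ⟨52, 0, -4, 0⟩⟩,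
  ⟨2, 5, 83, ⟨16, 4, 0, 0⟩, ⟨28, 8, 0, 0⟩, ⟨36, 2, -2, 0⟩, ⟨52, 0, -4, 0⟩⟩,
  ⟨1, 7, 167, ⟨8, 0, 0, 0⟩, ⟨12, 4, 0, 0⟩, ⟨32, -2, -2, 0⟩, ⟨32, 2, -2, 0⟩⟩,
  ⟨1, 11, 167, ⟨16, 4, 0, 0⟩, ⟨28, 8, 0, 0⟩, ⟨36, 2, -2, 0⟩, ⟨52, 0, -4, 0⟩⟩,
  ⟨1, 15, 167, ⟨16, 4, 0, 0⟩, ⟨36, -2, -2, 0⟩, ⟨36, 2, -2, 0⟩, ⟨52, 0, -4, 0⟩⟩,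
  ⟨2, 3, 85, ⟨12, 4, 0, 0⟩, ⟨20, 8, 0, 0⟩, ⟨32, -2, -2, 0⟩, ⟨32, 2, -2, 0⟩⟩,
  ⟨2, 7, 85, ⟨16, 4, 0, 0⟩, ⟨16, -4, 0, 0⟩, ⟨36, -2, -2, 0⟩, ⟨56, 0, -4, 0⟩⟩,
  ⟨2, 11, 85, ⟨20, 4, 0, 0⟩, ⟨36, -2, -2, 0⟩, ⟨36, 2, -2, 0⟩, ⟨56, 0, -4, 0⟩⟩]

theorem tab44_4_ok : allB tab44_4 E.ok = true := by decide +kernel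

def tab44 : List E :=
  tab44_0 ++ (tab44_1 ++ (tab44_2 ++ (tab44_3 ++ (tab44_4))))

theorem tab44_ok : allB tab44 E.ok = true :=
  allB_append tab44_0_ok (allB_append tab44_1_ok (allB_append tab44_2_ok (allB_append tab44_3_ok
  tab44_4_ok)))

end BQN
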