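import Pool.Agent.BQN.App

/-! Table 45. -/

namespace BQN

def tab45_0 : List E := [
  ⟨2, 13, 85, ⟨24, -4, 0, 0⟩, ⟨40, -2, -2, 0⟩, ⟨56, 0, -4, 0⟩, ⟨60, -6, -2, 0⟩⟩,
  ⟨2, 19, 85, ⟨28, 4, 0, 0⟩, ⟨40, -2, -2, 0⟩, ⟨40, 2, -2, 0⟩, ⟨56, 0, -4, 0⟩⟩,
  ⟨2, 21, 85, ⟨28, 4, 0, 0⟩, ⟨40, -2, -2, 0⟩, ⟨40, 2, -2, 0⟩, ⟨56, 0, -4, 0⟩⟩,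
  ⟨2, 5, 87, ⟨16, 4, 0, 0⟩, ⟨16, -4, 0, 0⟩, ⟨36, -2, -2, 0⟩, ⟨36, 2, -2, 0⟩⟩,
  ⟨2, 11, 87, ⟨20, 4, 0, 0⟩, ⟨36, -2, -2, 0⟩, ⟨36, 2, -2, 0⟩, ⟨56, 0, -4, 0⟩⟩,
  ⟨2, 13, 87, ⟨24, -4, 0, 0⟩, ⟨40, -2, -2, 0⟩, ⟨56, 0, -4, 0⟩, ⟨60, -6, -2, 0⟩⟩,
  ⟨2, 17, 87, ⟨8, 0, 0, 0⟩, ⟨24, 4, 0, 0⟩, ⟨40, 2, -2, 0⟩, ⟨56, 0, -4, 0⟩⟩,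
  ⟨2, 3, 89, ⟨12, 4, 0, 0⟩, ⟨20, 8, 0, 0⟩, ⟨32, -2, -2, 0⟩, ⟨32, 2, -2, 0⟩⟩,
  ⟨2, 7, 89, ⟨8, 0, 0, 0⟩, ⟨16, 4, 0, 0⟩, ⟨36, 2, -2, 0⟩, ⟨56, 0, -4, 0⟩⟩,
  ⟨2, 11, 89, ⟨20, 4, 0, 0⟩, ⟨40, 2, -2, 0⟩, ⟨56, 0, -4, 0⟩, ⟨56, 6, -2, 0⟩⟩]

theorem tab45_0_ok : allB tab45_0 E.ok = true := by decide +kernel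

def tab45_1 : List E := [
  ⟨2, 13, 89, ⟨24, -4, 0, 0⟩, ⟨40, -2, -2, 0⟩, ⟨56, 0, -4, 0⟩, ⟨60, -6, -2, 0⟩⟩,
  ⟨2, 15, 89, ⟨24, 4, 0, 0⟩, ⟨40, 2, -2, 0⟩, ⟨56, 0, -4, 0⟩, ⟨60, -6, -2, 0⟩⟩,
  ⟨1, 7, 179, ⟨8, 0, 0, 0⟩, ⟨12, 4, 0, 0⟩, ⟨12, -4, 0, 0⟩, ⟨44, -6, -2, 0⟩⟩,
  ⟨1, 11, 179, ⟨8, 0, 0, 0⟩, ⟨28, 8, 0, 0⟩, ⟨48, -6, -2, 0⟩, ⟨48, 6, -2, 0⟩⟩,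
  ⟨1, 15, 179, ⟨16, 4, 0, 0⟩, ⟨36, -2, -2, 0⟩, ⟨36, 2, -2, 0⟩, ⟨56, 0, -4, 0⟩⟩,
  ⟨1, 19, 179, ⟨20, 4, 0, 0⟩, ⟨36, -2, -2, 0⟩, ⟨36, 2, -2, 0⟩, ⟨56, 0, -4, 0⟩⟩,
  ⟨1, 23, 179, ⟨20, 4, 0, 0⟩, ⟨40, -2, -2, 0⟩, ⟨56, 0, -4, 0⟩, ⟨56, 6, -2, 0⟩⟩,
  ⟨1, 31, 179, ⟨24, 4, 0, 0⟩, ⟨40, -2, -2, 0⟩, ⟨40, 2, -2, 0⟩, ⟨56, 0, -4, 0⟩⟩,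
  ⟨2, 5, 91, ⟨16, 4, 0, 0⟩, ⟨16, -4, 0, 0⟩, ⟨36, -2, -2, 0⟩, ⟨36, 2, -2, 0⟩⟩,
  ⟨2, 11, 91, ⟨20, 4, 0, 0⟩, ⟨40, 2, -2, 0⟩, ⟨56, 0, -4, 0⟩, ⟨56, 6, -2, 0⟩⟩]

theorem tab45_1_ok : allB tab45_1 E.ok = true := by decide +kernel

def tab45_2 : List E := [
  ⟨1, 7, 183, ⟨8, 0, 0, 0⟩, ⟨12, 4, 0, 0⟩, ⟨12, -4, 0, 0⟩, ⟨44, -6, -2, 0⟩⟩,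
  ⟨1, 11, 183, ⟨8, 0, 0, 0⟩, ⟨28, 8, 0, 0⟩, ⟨48, -6, -2, 0⟩, ⟨48, 6, -2, 0⟩⟩,
  ⟨1, 19, 183, ⟨20, 4, 0, 0⟩, ⟨36, -2, -2, 0⟩, ⟨36, 2, -2, 0⟩, ⟨56, 0, -4, 0⟩⟩,
  ⟨1, 23, 183, ⟨20, 4, 0, 0⟩, ⟨40, 2, -2, 0⟩, ⟨56, 0, -4, 0⟩, ⟨56, -6, -2, 0⟩⟩,
  ⟨2, 7, 93, ⟨8, 0, 0, 0⟩, ⟨16, 4, 0, 0⟩, ⟨36, 2, -2, 0⟩, ⟨56, 0, -4, 0⟩⟩,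
  ⟨2, 11, 93, ⟨8, 0, 0, 0⟩, ⟨20, 4, 0, 0⟩, ⟨56, 0, -4, 0⟩, ⟨56, 6, -2, 0⟩⟩,
  ⟨1, 7, 187, ⟨8, 0, 0, 0⟩, ⟨12, 4, 0, 0⟩, ⟨12, -4, 0, 0⟩, ⟨44, -6, -2, 0⟩⟩,
  ⟨1, 15, 187, ⟨16, 4, 0, 0⟩, ⟨36, -2, -2, 0⟩, ⟨36, 2, -2, 0⟩, ⟨56, 0, -4, 0⟩⟩,
  ⟨1, 19, 187, ⟨20, 4, 0, 0⟩, ⟨20, -4, 0, 0⟩, ⟨40, -2, -2, 0⟩, ⟨56, 0, -4, 0⟩⟩,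
  ⟨1, 7, 191, ⟨8, 0, 0, 0⟩, ⟨12, 4, 0, 0⟩, ⟨44, -6, -2, 0⟩, ⟨44, 6, -2, 0⟩⟩]

theorem tab45_2_ok : allB tab45_2 E.ok = true := by decide +kernel

def tab45_3 : List E := [
  ⟨1, 11, 191, ⟨16, 4, 0, 0⟩, ⟨36, 2, -2, 0⟩, ⟨48, -6, -2, 0⟩, ⟨48, 6, -2, 0⟩⟩,
  ⟨1, 15, 191, ⟨16, 4, 0, 0⟩, ⟨36, -2, -2, 0⟩, ⟨36, 2, -2, 0⟩, ⟨56, 0, -4, 0⟩⟩,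
  ⟨2, 3, 97, ⟨12, 4, 0, 0⟩, ⟨20, 8, 0, 0⟩, ⟨36, 2, -2, 0⟩, ⟨44, 6, -2, 0⟩⟩,
  ⟨1, 7, 195, ⟨8, 0, 0, 0⟩, ⟨12, 4, 0, 0⟩, ⟨44, -6, -2, 0⟩, ⟨44, 6, -2, 0⟩⟩,
  ⟨1, 11, 195, ⟨16, 4, 0, 0⟩, ⟨36, 2, -2, 0⟩, ⟨48, -6, -2, 0⟩, ⟨48, 6, -2, 0⟩⟩,
  ⟨1, 7, 199, ⟨8, 0, 0, 0⟩, ⟨12, 4, 0, 0⟩, ⟨12, -4, 0, 0⟩, ⟨36, -2, -2, 0⟩⟩,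
  ⟨1, 11, 199, ⟨8, 0, 0, 0⟩, ⟨16, 4, 0, 0⟩, ⟨28, 8, 0, 0⟩, ⟨36, 2, -2, 0⟩⟩,
  ⟨1, 15, 199, ⟨8, 0, 0, 0⟩, ⟨16, 4, 0, 0⟩, ⟨36, -2, -2, 0⟩, ⟨36, 2, -2, 0⟩⟩,
  ⟨1, 19, 199, ⟨20, 4, 0, 0⟩, ⟨40, -2, -2, 0⟩, ⟨40, 2, -2, 0⟩, ⟨60, 0, -4, 0⟩⟩,
  ⟨1, 23, 199, ⟨20, 4, 0, 0⟩, ⟨20, -4, 0, 0⟩, ⟨40, -2, -2, 0⟩, ⟨60, 0, -4, 0⟩⟩]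

theorem tab45_3_ok : allB tab45_3 E.ok = true := by decide +kernel

def tab45_4 : List E := [
  ⟨1, 31, 199, ⟨24, 4, 0, 0⟩, ⟨40, -2, -2, 0⟩, ⟨40, 2, -2, 0⟩, ⟨60, 0, -4, 0⟩⟩,
  ⟨1, 35, 199, ⟨24, 4, 0, 0⟩, ⟨44, 2, -2, 0⟩, ⟨60, 0, -4, 0⟩, ⟨64, -6, -2, 0⟩⟩,
  ⟨2, 3, 101, ⟨12, 4, 0, 0⟩, ⟨20, 8, 0, 0⟩, ⟨36, 2, -2, 0⟩, ⟨44, 6, -2, 0⟩⟩,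
  ⟨2, 7, 101, ⟨8, 0, 0, 0⟩, ⟨16, 4, 0, 0⟩, ⟨36, -2, -2, 0⟩, ⟨36, 2, -2, 0⟩⟩,
  ⟨2, 11, 101, ⟨20, 4, 0, 0⟩, ⟨20, -4, 0, 0⟩, ⟨40, -2, -2, 0⟩, ⟨60, 0, -4, 0⟩⟩,
  ⟨2, 13, 101, ⟨24, 4, 0, 0⟩, ⟨40, 2, -2, 0⟩, ⟨60, 0, -4, 0⟩, ⟨60, 6, -2, 0⟩⟩,
  ⟨2, 15, 101, ⟨24, 4, 0, 0⟩, ⟨40, -2, -2, 0⟩, ⟨40, 2, -2, 0⟩, ⟨60, 0, -4, 0⟩⟩,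
  ⟨1, 11, 203, ⟨8, 0, 0, 0⟩, ⟨28, 8, 0, 0⟩, ⟨36, -2, -2, 0⟩, ⟨36, 2, -2, 0⟩⟩,
  ⟨1, 15, 203, ⟨8, 0, 0, 0⟩, ⟨16, 4, 0, 0⟩, ⟨52, -6, -2, 0⟩, ⟨52, 6, -2, 0⟩⟩,
  ⟨1, 19, 203, ⟨20, 4, 0, 0⟩, ⟨40, -2, -2, 0⟩, ⟨40, 2, -2, 0⟩, ⟨60, 0, -4, 0⟩⟩]

theorem tab45_4_ok : allB tab45_4 E.ok = true := by decide +kernel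

def tab45 : List E :=
  tab45_0 ++ (tab45_1 ++ (tab45_2 ++ (tab45_3 ++ (tab45_4))))

theorem tab45_ok : allB tab45 E.ok = true :=
  allB_append tab45_0_ok (allB_append tab45_1_ok (allB_append tab45_2_ok (allB_append tab45_3_ok
  tab45_4_ok)))

end BQN
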