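import Pool.Agent.BQN.App

/-! Table 46. -/

namespace BQN

def tab46_0 : List E := [
  ⟨1, 23, 203, ⟨8, 0, 0, 0⟩, ⟨20, 4, 0, 0⟩, ⟨40, 2, -2, 0⟩, ⟨60, 0, -4, 0⟩⟩,
  ⟨1, 31, 203, ⟨24, 4, 0, 0⟩, ⟨40, -2, -2, 0⟩, ⟨40, 2, -2, 0⟩, ⟨60, 0, -4, 0⟩⟩,
  ⟨2, 5, 103, ⟨36, -2, -2, 0⟩, ⟨36, 2, -2, 0⟩, ⟨48, -6, -2, 0⟩, ⟨48, 6, -2, 0⟩⟩,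
  ⟨2, 11, 103, ⟨8, 0, 0, 0⟩, ⟨20, 4, 0, 0⟩, ⟨40, 2, -2, 0⟩, ⟨60, 0, -4, 0⟩⟩,
  ⟨2, 13, 103, ⟨24, 4, 0, 0⟩, ⟨40, 2, -2, 0⟩, ⟨60, 0, -4, 0⟩, ⟨60, -6, -2, 0⟩⟩,
  ⟨2, 11, 105, ⟨8, 0, 0, 0⟩, ⟨20, 4, 0, 0⟩, ⟨40, 2, -2, 0⟩, ⟨60, 0, -4, 0⟩⟩,
  ⟨1, 7, 211, ⟨8, 0, 0, 0⟩, ⟨12, 4, 0, 0⟩, ⟨12, -4, 0, 0⟩, ⟨36, -2, -2, 0⟩⟩,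
  ⟨1, 11, 211, ⟨16, 4, 0, 0⟩, ⟨16, -4, 0, 0⟩, ⟨36, -2, -2, 0⟩, ⟨36, 2, -2, 0⟩⟩,
  ⟨1, 15, 211, ⟨16, 4, 0, 0⟩, ⟨40, -2, -2, 0⟩, ⟨40, 2, -2, 0⟩, ⟨60, 0, -4, 0⟩⟩,
  ⟨1, 19, 211, ⟨20, 4, 0, 0⟩, ⟨40, -2, -2, 0⟩, ⟨56, 6, -2, 0⟩, ⟨60, 0, -4, 0⟩⟩]

theorem tab46_0_ok : allB tab46_0 E.ok = true := by decide +kernel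

def tab46_1 : List E := [
  ⟨1, 23, 211, ⟨8, 0, 0, 0⟩, ⟨20, 4, 0, 0⟩, ⟨40, 2, -2, 0⟩, ⟨60, 0, -4, 0⟩⟩,
  ⟨2, 5, 107, ⟨16, 4, 0, 0⟩, ⟨16, -4, 0, 0⟩, ⟨36, -2, -2, 0⟩, ⟨36, 2, -2, 0⟩⟩,
  ⟨1, 7, 215, ⟨8, 0, 0, 0⟩, ⟨12, 4, 0, 0⟩, ⟨12, -4, 0, 0⟩, ⟨36, -2, -2, 0⟩⟩,
  ⟨1, 11, 215, ⟨8, 0, 0, 0⟩, ⟨28, 8, 0, 0⟩, ⟨36, -2, -2, 0⟩, ⟨36, 2, -2, 0⟩⟩,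
  ⟨1, 19, 215, ⟨8, 0, 0, 0⟩, ⟨40, -2, -2, 0⟩, ⟨56, 6, -2, 0⟩, ⟨60, 0, -4, 0⟩⟩,
  ⟨2, 3, 109, ⟨12, 4, 0, 0⟩, ⟨12, -4, 0, 0⟩, ⟨20, 8, 0, 0⟩, ⟨36, -2, -2, 0⟩⟩,
  ⟨2, 7, 109, ⟨16, 4, 0, 0⟩, ⟨40, 2, -2, 0⟩, ⟨52, -6, -2, 0⟩, ⟨52, 6, -2, 0⟩⟩,
  ⟨1, 7, 219, ⟨8, 0, 0, 0⟩, ⟨12, 4, 0, 0⟩, ⟨36, -2, -2, 0⟩, ⟨36, 2, -2, 0⟩⟩,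
  ⟨1, 11, 219, ⟨8, 0, 0, 0⟩, ⟨16, 4, 0, 0⟩, ⟨28, 8, 0, 0⟩, ⟨40, 2, -2, 0⟩⟩,
  ⟨2, 5, 111, ⟨16, 4, 0, 0⟩, ⟨16, -4, 0, 0⟩, ⟨40, -2, -2, 0⟩, ⟨40, 2, -2, 0⟩⟩]

theorem tab46_1_ok : allB tab46_1 E.ok = true := by decide +kernel

def tab46_2 : List E := [
  ⟨1, 7, 223, ⟨8, 0, 0, 0⟩, ⟨12, 4, 0, 0⟩, ⟨36, -2, -2, 0⟩, ⟨36, 2, -2, 0⟩⟩,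
  ⟨2, 3, 113, ⟨12, 4, 0, 0⟩, ⟨20, 8, 0, 0⟩, ⟨36, -2, -2, 0⟩, ⟨36, 2, -2, 0⟩⟩,
  ⟨2, 7, 113, ⟨8, 0, 0, 0⟩, ⟨16, 4, 0, 0⟩, ⟨16, -4, 0, 0⟩, ⟨40, -2, -2, 0⟩⟩,
  ⟨2, 11, 113, ⟨8, 0, 0, 0⟩, ⟨20, 4, 0, 0⟩, ⟨40, -2, -2, 0⟩, ⟨40, 2, -2, 0⟩⟩,
  ⟨2, 13, 113, ⟨24, 4, 0, 0⟩, ⟨44, 2, -2, 0⟩, ⟨64, 0, -4, 0⟩, ⟨64, 6, -2, 0⟩⟩,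
  ⟨2, 15, 113, ⟨24, 4, 0, 0⟩, ⟨44, 2, -2, 0⟩, ⟨64, 0, -4, 0⟩, ⟨64, 6, -2, 0⟩⟩,
  ⟨1, 7, 227, ⟨8, 0, 0, 0⟩, ⟨12, 4, 0, 0⟩, ⟨36, -2, -2, 0⟩, ⟨36, 2, -2, 0⟩⟩,
  ⟨1, 11, 227, ⟨8, 0, 0, 0⟩, ⟨28, 8, 0, 0⟩, ⟨28, -8, 0, 0⟩, ⟨52, -6, -2, 0⟩⟩,
  ⟨1, 15, 227, ⟨8, 0, 0, 0⟩, ⟨16, 4, 0, 0⟩, ⟨40, -2, -2, 0⟩, ⟨40, 2, -2, 0⟩⟩,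
  ⟨1, 19, 227, ⟨8, 0, 0, 0⟩, ⟨20, 4, 0, 0⟩, ⟨40, -2, -2, 0⟩, ⟨40, 2, -2, 0⟩⟩]

theorem tab46_2_ok : allB tab46_2 E.ok = true := by decide +kernel

def tab46_3 : List E := [
  ⟨1, 23, 227, ⟨8, 0, 0, 0⟩, ⟨20, 4, 0, 0⟩, ⟨40, -2, -2, 0⟩, ⟨40, 2, -2, 0⟩⟩,
  ⟨1, 31, 227, ⟨24, 4, 0, 0⟩, ⟨44, -2, -2, 0⟩, ⟨64, 0, -4, 0⟩, ⟨64, 6, -2, 0⟩⟩,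
  ⟨2, 11, 115, ⟨8, 0, 0, 0⟩, ⟨20, 4, 0, 0⟩, ⟨40, -2, -2, 0⟩, ⟨40, 2, -2, 0⟩⟩,
  ⟨2, 13, 115, ⟨24, 4, 0, 0⟩, ⟨44, 2, -2, 0⟩, ⟨64, 0, -4, 0⟩, ⟨64, 6, -2, 0⟩⟩,
  ⟨1, 19, 231, ⟨8, 0, 0, 0⟩, ⟨20, 4, 0, 0⟩, ⟨40, -2, -2, 0⟩, ⟨40, 2, -2, 0⟩⟩,
  ⟨1, 23, 231, ⟨8, 0, 0, 0⟩, ⟨20, 4, 0, 0⟩, ⟨40, -2, -2, 0⟩, ⟨40, 2, -2, 0⟩⟩,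
  ⟨1, 7, 235, ⟨8, 0, 0, 0⟩, ⟨12, 4, 0, 0⟩, ⟨36, -2, -2, 0⟩, ⟨36, 2, -2, 0⟩⟩,
  ⟨1, 11, 235, ⟨8, 0, 0, 0⟩, ⟨28, 8, 0, 0⟩, ⟨52, -6, -2, 0⟩, ⟨52, 6, -2, 0⟩⟩,
  ⟨1, 19, 235, ⟨8, 0, 0, 0⟩, ⟨20, 4, 0, 0⟩, ⟨40, -2, -2, 0⟩, ⟨40, 2, -2, 0⟩⟩,
  ⟨1, 23, 235, ⟨20, 4, 0, 0⟩, ⟨44, -2, -2, 0⟩, ⟨60, 6, -2, 0⟩, ⟨64, 0, -4, 0⟩⟩]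

theorem tab46_3_ok : allB tab46_3 E.ok = true := by decide +kernel

def tab46_4 : List E := [
  ⟨2, 5, 119, ⟨16, 4, 0, 0⟩, ⟨16, -4, 0, 0⟩, ⟨40, -2, -2, 0⟩, ⟨40, 2, -2, 0⟩⟩,
  ⟨2, 11, 119, ⟨20, 4, 0, 0⟩, ⟨44, 2, -2, 0⟩, ⟨60, 6, -2, 0⟩, ⟨64, 0, -4, 0⟩⟩,
  ⟨1, 7, 239, ⟨8, 0, 0, 0⟩, ⟨12, 4, 0, 0⟩, ⟨12, -4, 0, 0⟩, ⟨48, -6, -2, 0⟩⟩,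
  ⟨1, 11, 239, ⟨8, 0, 0, 0⟩, ⟨28, 8, 0, 0⟩, ⟨52, -6, -2, 0⟩, ⟨52, 6, -2, 0⟩⟩,
  ⟨1, 15, 239, ⟨8, 0, 0, 0⟩, ⟨16, 4, 0, 0⟩, ⟨40, -2, -2, 0⟩, ⟨40, 2, -2, 0⟩⟩,
  ⟨1, 19, 239, ⟨20, 4, 0, 0⟩, ⟨20, -4, 0, 0⟩, ⟨40, -2, -2, 0⟩, ⟨40, 2, -2, 0⟩⟩,
  ⟨2, 5, 123, ⟨16, 4, 0, 0⟩, ⟨16, -4, 0, 0⟩, ⟨40, -2, -2, 0⟩, ⟨40, 2, -2, 0⟩⟩,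
  ⟨1, 7, 247, ⟨8, 0, 0, 0⟩, ⟨12, 4, 0, 0⟩, ⟨12, -4, 0, 0⟩, ⟨48, -6, -2, 0⟩⟩,
  ⟨1, 11, 247, ⟨8, 0, 0, 0⟩, ⟨28, 8, 0, 0⟩, ⟨40, -2, -2, 0⟩, ⟨52, 6, -2, 0⟩⟩,
  ⟨1, 7, 251, ⟨8, 0, 0, 0⟩, ⟨12, 4, 0, 0⟩, ⟨48, -6, -2, 0⟩, ⟨48, 6, -2, 0⟩⟩]

theorem tab46_4_ok : allB tab46_4 E.ok = true := by decide +kernel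

def tab46 : List E :=
  tab46_0 ++ (tab46_1 ++ (tab46_2 ++ (tab46_3 ++ (tab46_4))))

theorem tab46_ok : allB tab46 E.ok = true :=
  allB_append tab46_0_ok (allB_append tab46_1_ok (allB_append tab46_2_ok (allB_append tab46_3_ok
  tab46_4_ok)))

end BQN
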