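import Pool.Agent.BQN.App

/-! Table 47. -/

namespace BQN

def tab47_0 : List E := [
  ⟨2, 5, 127, ⟨8, 0, 0, 0⟩, ⟨16, 4, 0, 0⟩, ⟨40, 2, -2, 0⟩, ⟨52, 6, -2, 0⟩⟩,
  ⟨2, 7, 129, ⟨8, 0, 0, 0⟩, ⟨16, 4, 0, 0⟩, ⟨40, -2, -2, 0⟩, ⟨40, 2, -2, 0⟩⟩,
  ⟨2, 11, 129, ⟨8, 0, 0, 0⟩, ⟨20, 4, 0, 0⟩, ⟨20, -4, 0, 0⟩, ⟨44, -2, -2, 0⟩⟩,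
  ⟨2, 13, 129, ⟨8, 0, 0, 0⟩, ⟨24, 4, 0, 0⟩, ⟨44, 2, -2, 0⟩, ⟨64, 6, -2, 0⟩⟩,
  ⟨1, 11, 259, ⟨8, 0, 0, 0⟩, ⟨16, 4, 0, 0⟩, ⟨28, 8, 0, 0⟩, ⟨40, 2, -2, 0⟩⟩,
  ⟨1, 15, 259, ⟨8, 0, 0, 0⟩, ⟨16, 4, 0, 0⟩, ⟨40, -2, -2, 0⟩, ⟨40, 2, -2, 0⟩⟩,
  ⟨1, 19, 259, ⟨20, 4, 0, 0⟩, ⟨20, -4, 0, 0⟩, ⟨44, -2, -2, 0⟩, ⟨44, 2, -2, 0⟩⟩,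
  ⟨1, 23, 259, ⟨8, 0, 0, 0⟩, ⟨20, 4, 0, 0⟩, ⟨20, -4, 0, 0⟩, ⟨44, -2, -2, 0⟩⟩,
  ⟨2, 5, 131, ⟨8, 0, 0, 0⟩, ⟨40, -2, -2, 0⟩, ⟨40, 2, -2, 0⟩, ⟨52, -6, -2, 0⟩⟩,
  ⟨2, 11, 131, ⟨8, 0, 0, 0⟩, ⟨20, 4, 0, 0⟩, ⟨20, -4, 0, 0⟩, ⟨44, -2, -2, 0⟩⟩]

theorem tab47_0_ok : allB tab47_0 E.ok = true := by decide +kernel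

def tab47_1 : List E := [
  ⟨1, 7, 263, ⟨8, 0, 0, 0⟩, ⟨12, 4, 0, 0⟩, ⟨12, -4, 0, 0⟩, ⟨40, -2, -2, 0⟩⟩,
  ⟨1, 11, 263, ⟨8, 0, 0, 0⟩, ⟨28, 8, 0, 0⟩, ⟨40, -2, -2, 0⟩, ⟨40, 2, -2, 0⟩⟩,
  ⟨1, 15, 263, ⟨8, 0, 0, 0⟩, ⟨16, 4, 0, 0⟩, ⟨56, -6, -2, 0⟩, ⟨56, 6, -2, 0⟩⟩,
  ⟨1, 19, 263, ⟨20, 4, 0, 0⟩, ⟨20, -4, 0, 0⟩, ⟨44, -2, -2, 0⟩, ⟨44, 2, -2, 0⟩⟩,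
  ⟨1, 23, 263, ⟨8, 0, 0, 0⟩, ⟨20, 4, 0, 0⟩, ⟨20, -4, 0, 0⟩, ⟨44, -2, -2, 0⟩⟩,
  ⟨2, 3, 133, ⟨12, 4, 0, 0⟩, ⟨12, -4, 0, 0⟩, ⟨20, 8, 0, 0⟩, ⟨48, -6, -2, 0⟩⟩,
  ⟨1, 7, 267, ⟨8, 0, 0, 0⟩, ⟨12, 4, 0, 0⟩, ⟨12, -4, 0, 0⟩, ⟨40, -2, -2, 0⟩⟩,
  ⟨1, 11, 267, ⟨8, 0, 0, 0⟩, ⟨28, 8, 0, 0⟩, ⟨40, -2, -2, 0⟩, ⟨40, 2, -2, 0⟩⟩,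
  ⟨1, 19, 267, ⟨20, 4, 0, 0⟩, ⟨20, -4, 0, 0⟩, ⟨44, -2, -2, 0⟩, ⟨44, 2, -2, 0⟩⟩,
  ⟨1, 7, 271, ⟨8, 0, 0, 0⟩, ⟨12, 4, 0, 0⟩, ⟨12, -4, 0, 0⟩, ⟨40, -2, -2, 0⟩⟩]

theorem tab47_1_ok : allB tab47_1 E.ok = true := by decide +kernel

def tab47_2 : List E := [
  ⟨1, 11, 271, ⟨16, 4, 0, 0⟩, ⟨16, -4, 0, 0⟩, ⟨40, -2, -2, 0⟩, ⟨40, 2, -2, 0⟩⟩,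
  ⟨1, 15, 271, ⟨8, 0, 0, 0⟩, ⟨16, 4, 0, 0⟩, ⟨44, -2, -2, 0⟩, ⟨44, 2, -2, 0⟩⟩,
  ⟨2, 3, 137, ⟨12, 4, 0, 0⟩, ⟨20, 8, 0, 0⟩, ⟨40, 2, -2, 0⟩, ⟨48, -6, -2, 0⟩⟩,
  ⟨2, 7, 137, ⟨8, 0, 0, 0⟩, ⟨16, 4, 0, 0⟩, ⟨16, -4, 0, 0⟩, ⟨56, -6, -2, 0⟩⟩,
  ⟨2, 5, 139, ⟨16, 4, 0, 0⟩, ⟨16, -4, 0, 0⟩, ⟨40, -2, -2, 0⟩, ⟨40, 2, -2, 0⟩⟩,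
  ⟨1, 7, 283, ⟨8, 0, 0, 0⟩, ⟨12, 4, 0, 0⟩, ⟨40, -2, -2, 0⟩, ⟨40, 2, -2, 0⟩⟩,
  ⟨2, 5, 143, ⟨16, 4, 0, 0⟩, ⟨16, -4, 0, 0⟩, ⟨44, -2, -2, 0⟩, ⟨44, 2, -2, 0⟩⟩,
  ⟨2, 3, 145, ⟨12, 4, 0, 0⟩, ⟨20, 8, 0, 0⟩, ⟨40, -2, -2, 0⟩, ⟨40, 2, -2, 0⟩⟩,
  ⟨2, 7, 145, ⟨8, 0, 0, 0⟩, ⟨16, 4, 0, 0⟩, ⟨16, -4, 0, 0⟩, ⟨44, -2, -2, 0⟩⟩,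
  ⟨2, 11, 145, ⟨8, 0, 0, 0⟩, ⟨20, 4, 0, 0⟩, ⟨44, -2, -2, 0⟩, ⟨44, 2, -2, 0⟩⟩]

theorem tab47_2_ok : allB tab47_2 E.ok = true := by decide +kernel

def tab47_3 : List E := [
  ⟨1, 7, 291, ⟨8, 0, 0, 0⟩, ⟨12, 4, 0, 0⟩, ⟨40, -2, -2, 0⟩, ⟨40, 2, -2, 0⟩⟩,
  ⟨1, 11, 291, ⟨8, 0, 0, 0⟩, ⟨28, 8, 0, 0⟩, ⟨28, -8, 0, 0⟩, ⟨56, -6, -2, 0⟩⟩,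
  ⟨1, 19, 291, ⟨8, 0, 0, 0⟩, ⟨20, 4, 0, 0⟩, ⟨44, -2, -2, 0⟩, ⟨44, 2, -2, 0⟩⟩,
  ⟨1, 7, 295, ⟨8, 0, 0, 0⟩, ⟨12, 4, 0, 0⟩, ⟨40, -2, -2, 0⟩, ⟨40, 2, -2, 0⟩⟩,
  ⟨1, 11, 295, ⟨8, 0, 0, 0⟩, ⟨28, 8, 0, 0⟩, ⟨28, -8, 0, 0⟩, ⟨56, -6, -2, 0⟩⟩,
  ⟨1, 19, 295, ⟨8, 0, 0, 0⟩, ⟨20, 4, 0, 0⟩, ⟨44, -2, -2, 0⟩, ⟨44, 2, -2, 0⟩⟩,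
  ⟨2, 3, 149, ⟨12, 4, 0, 0⟩, ⟨20, 8, 0, 0⟩, ⟨40, -2, -2, 0⟩, ⟨40, 2, -2, 0⟩⟩,
  ⟨2, 7, 149, ⟨8, 0, 0, 0⟩, ⟨16, 4, 0, 0⟩, ⟨16, -4, 0, 0⟩, ⟨44, -2, -2, 0⟩⟩,
  ⟨1, 7, 299, ⟨8, 0, 0, 0⟩, ⟨12, 4, 0, 0⟩, ⟨40, -2, -2, 0⟩, ⟨40, 2, -2, 0⟩⟩,
  ⟨1, 11, 299, ⟨8, 0, 0, 0⟩, ⟨28, 8, 0, 0⟩, ⟨56, -6, -2, 0⟩, ⟨56, 6, -2, 0⟩⟩]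

theorem tab47_3_ok : allB tab47_3 E.ok = true := by decide +kernel

def tab47_4 : List E := [
  ⟨1, 15, 299, ⟨8, 0, 0, 0⟩, ⟨16, 4, 0, 0⟩, ⟨44, -2, -2, 0⟩, ⟨44, 2, -2, 0⟩⟩,
  ⟨2, 5, 151, ⟨16, 4, 0, 0⟩, ⟨16, -4, 0, 0⟩, ⟨44, -2, -2, 0⟩, ⟨44, 2, -2, 0⟩⟩,
  ⟨1, 7, 303, ⟨8, 0, 0, 0⟩, ⟨12, 4, 0, 0⟩, ⟨12, -4, 0, 0⟩, ⟨52, -6, -2, 0⟩⟩,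
  ⟨1, 11, 303, ⟨8, 0, 0, 0⟩, ⟨28, 8, 0, 0⟩, ⟨56, -6, -2, 0⟩, ⟨56, 6, -2, 0⟩⟩,
  ⟨1, 7, 307, ⟨8, 0, 0, 0⟩, ⟨12, 4, 0, 0⟩, ⟨12, -4, 0, 0⟩, ⟨52, -6, -2, 0⟩⟩,
  ⟨1, 11, 307, ⟨8, 0, 0, 0⟩, ⟨28, 8, 0, 0⟩, ⟨56, -6, -2, 0⟩, ⟨56, 6, -2, 0⟩⟩,
  ⟨1, 7, 311, ⟨8, 0, 0, 0⟩, ⟨12, 4, 0, 0⟩, ⟨12, -4, 0, 0⟩, ⟨52, -6, -2, 0⟩⟩,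
  ⟨2, 3, 157, ⟨12, 4, 0, 0⟩, ⟨12, -4, 0, 0⟩, ⟨20, 8, 0, 0⟩, ⟨60, -10, -2, 0⟩⟩,
  ⟨2, 5, 159, ⟨16, 4, 0, 0⟩, ⟨16, -4, 0, 0⟩, ⟨44, -2, -2, 0⟩, ⟨44, 2, -2, 0⟩⟩,
  ⟨2, 5, 163, ⟨8, 0, 0, 0⟩, ⟨44, -2, -2, 0⟩, ⟨44, 2, -2, 0⟩, ⟨56, -6, -2, 0⟩⟩]

theorem tab47_4_ok : allB tab47_4 E.ok = true := by decide +kernel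

def tab47 : List E :=
  tab47_0 ++ (tab47_1 ++ (tab47_2 ++ (tab47_3 ++ (tab47_4))))

theorem tab47_ok : allB tab47 E.ok = true :=
  allB_append tab47_0_ok (allB_append tab47_1_ok (allB_append tab47_2_ok (allB_append tab47_3_ok
  tab47_4_ok)))

end BQN
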