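import Pool.Agent.BQN.App

/-! Table 48. -/

namespace BQN

def tab48_0 : List E := [
  ⟨1, 7, 327, ⟨8, 0, 0, 0⟩, ⟨12, 4, 0, 0⟩, ⟨12, -4, 0, 0⟩, ⟨44, -2, -2, 0⟩⟩,
  ⟨1, 11, 327, ⟨8, 0, 0, 0⟩, ⟨16, 4, 0, 0⟩, ⟨28, 8, 0, 0⟩, ⟨44, 2, -2, 0⟩⟩,
  ⟨2, 7, 165, ⟨8, 0, 0, 0⟩, ⟨16, 4, 0, 0⟩, ⟨44, -2, -2, 0⟩, ⟨44, 2, -2, 0⟩⟩,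
  ⟨1, 7, 331, ⟨8, 0, 0, 0⟩, ⟨12, 4, 0, 0⟩, ⟨12, -4, 0, 0⟩, ⟨44, -2, -2, 0⟩⟩,
  ⟨1, 11, 331, ⟨8, 0, 0, 0⟩, ⟨28, 8, 0, 0⟩, ⟨44, -2, -2, 0⟩, ⟨44, 2, -2, 0⟩⟩,
  ⟨1, 15, 331, ⟨8, 0, 0, 0⟩, ⟨16, 4, 0, 0⟩, ⟨48, -2, -2, 0⟩, ⟨60, 6, -2, 0⟩⟩,
  ⟨2, 5, 167, ⟨8, 0, 0, 0⟩, ⟨44, -2, -2, 0⟩, ⟨44, 2, -2, 0⟩, ⟨56, -6, -2, 0⟩⟩,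
  ⟨1, 7, 335, ⟨8, 0, 0, 0⟩, ⟨12, 4, 0, 0⟩, ⟨12, -4, 0, 0⟩, ⟨44, -2, -2, 0⟩⟩,
  ⟨1, 11, 335, ⟨8, 0, 0, 0⟩, ⟨28, 8, 0, 0⟩, ⟨44, -2, -2, 0⟩, ⟨44, 2, -2, 0⟩⟩,
  ⟨1, 7, 339, ⟨8, 0, 0, 0⟩, ⟨12, 4, 0, 0⟩, ⟨12, -4, 0, 0⟩, ⟨44, -2, -2, 0⟩⟩]

theorem tab48_0_ok : allB tab48_0 E.ok = true := by decide +kernel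

def tab48_1 : List E := [
  ⟨1, 11, 339, ⟨16, 4, 0, 0⟩, ⟨16, -4, 0, 0⟩, ⟨44, -2, -2, 0⟩, ⟨44, 2, -2, 0⟩⟩,
  ⟨2, 3, 173, ⟨12, 4, 0, 0⟩, ⟨20, 8, 0, 0⟩, ⟨44, 2, -2, 0⟩, ⟨52, -6, -2, 0⟩⟩,
  ⟨1, 7, 347, ⟨8, 0, 0, 0⟩, ⟨12, 4, 0, 0⟩, ⟨12, -4, 0, 0⟩, ⟨44, -2, -2, 0⟩⟩,
  ⟨2, 5, 179, ⟨16, 4, 0, 0⟩, ⟨16, -4, 0, 0⟩, ⟨48, -2, -2, 0⟩, ⟨48, 2, -2, 0⟩⟩,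
  ⟨2, 3, 181, ⟨12, 4, 0, 0⟩, ⟨20, 8, 0, 0⟩, ⟨44, -2, -2, 0⟩, ⟨44, 2, -2, 0⟩⟩,
  ⟨2, 7, 181, ⟨8, 0, 0, 0⟩, ⟨16, 4, 0, 0⟩, ⟨16, -4, 0, 0⟩, ⟨48, -2, -2, 0⟩⟩,
  ⟨2, 5, 183, ⟨16, 4, 0, 0⟩, ⟨16, -4, 0, 0⟩, ⟨48, -2, -2, 0⟩, ⟨48, 2, -2, 0⟩⟩,
  ⟨1, 7, 367, ⟨8, 0, 0, 0⟩, ⟨12, 4, 0, 0⟩, ⟨44, -2, -2, 0⟩, ⟨44, 2, -2, 0⟩⟩,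
  ⟨1, 11, 367, ⟨8, 0, 0, 0⟩, ⟨28, 8, 0, 0⟩, ⟨28, -8, 0, 0⟩, ⟨60, -6, -2, 0⟩⟩,
  ⟨2, 3, 185, ⟨12, 4, 0, 0⟩, ⟨20, 8, 0, 0⟩, ⟨44, -2, -2, 0⟩, ⟨44, 2, -2, 0⟩⟩]

theorem tab48_1_ok : allB tab48_1 E.ok = true := by decide +kernel

def tab48_2 : List E := [
  ⟨2, 5, 187, ⟨16, 4, 0, 0⟩, ⟨16, -4, 0, 0⟩, ⟨48, -2, -2, 0⟩, ⟨48, 2, -2, 0⟩⟩,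
  ⟨1, 7, 379, ⟨8, 0, 0, 0⟩, ⟨12, 4, 0, 0⟩, ⟨12, -4, 0, 0⟩, ⟨56, -6, -2, 0⟩⟩,
  ⟨2, 5, 191, ⟨16, 4, 0, 0⟩, ⟨16, -4, 0, 0⟩, ⟨48, -2, -2, 0⟩, ⟨48, 2, -2, 0⟩⟩,
  ⟨2, 5, 199, ⟨8, 0, 0, 0⟩, ⟨16, 4, 0, 0⟩, ⟨48, 2, -2, 0⟩, ⟨60, 6, -2, 0⟩⟩,
  ⟨1, 7, 403, ⟨8, 0, 0, 0⟩, ⟨12, 4, 0, 0⟩, ⟨12, -4, 0, 0⟩, ⟨48, -2, -2, 0⟩⟩,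
  ⟨2, 5, 203, ⟨8, 0, 0, 0⟩, ⟨48, -2, -2, 0⟩, ⟨48, 2, -2, 0⟩, ⟨60, -6, -2, 0⟩⟩,
  ⟨1, 7, 407, ⟨8, 0, 0, 0⟩, ⟨12, 4, 0, 0⟩, ⟨12, -4, 0, 0⟩, ⟨48, -2, -2, 0⟩⟩,
  ⟨2, 3, 205, ⟨12, 4, 0, 0⟩, ⟨20, 8, 0, 0⟩, ⟨48, 2, -2, 0⟩, ⟨56, 6, -2, 0⟩⟩,
  ⟨1, 7, 411, ⟨8, 0, 0, 0⟩, ⟨12, 4, 0, 0⟩, ⟨12, -4, 0, 0⟩, ⟨48, -2, -2, 0⟩⟩,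
  ⟨2, 5, 211, ⟨8, 0, 0, 0⟩, ⟨16, 4, 0, 0⟩, ⟨48, -2, -2, 0⟩, ⟨48, 2, -2, 0⟩⟩]

theorem tab48_2_ok : allB tab48_2 E.ok = true := by decide +kernel

def tab48_3 : List E := [
  ⟨2, 5, 219, ⟨16, 4, 0, 0⟩, ⟨16, -4, 0, 0⟩, ⟨52, -2, -2, 0⟩, ⟨52, 2, -2, 0⟩⟩,
  ⟨2, 3, 221, ⟨12, 4, 0, 0⟩, ⟨20, 8, 0, 0⟩, ⟨48, -2, -2, 0⟩, ⟨48, 2, -2, 0⟩⟩,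
  ⟨1, 7, 443, ⟨8, 0, 0, 0⟩, ⟨12, 4, 0, 0⟩, ⟨48, -2, -2, 0⟩, ⟨48, 2, -2, 0⟩⟩,
  ⟨2, 5, 223, ⟨16, 4, 0, 0⟩, ⟨16, -4, 0, 0⟩, ⟨52, -2, -2, 0⟩, ⟨52, 2, -2, 0⟩⟩,
  ⟨2, 5, 227, ⟨16, 4, 0, 0⟩, ⟨16, -4, 0, 0⟩, ⟨52, -2, -2, 0⟩, ⟨52, 2, -2, 0⟩⟩,
  ⟨2, 5, 231, ⟨16, 4, 0, 0⟩, ⟨16, -4, 0, 0⟩, ⟨52, -2, -2, 0⟩, ⟨52, 2, -2, 0⟩⟩,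
  ⟨2, 5, 239, ⟨8, 0, 0, 0⟩, ⟨16, 4, 0, 0⟩, ⟨52, -2, -2, 0⟩, ⟨52, 2, -2, 0⟩⟩,
  ⟨2, 5, 247, ⟨8, 0, 0, 0⟩, ⟨52, -2, -2, 0⟩, ⟨52, 2, -2, 0⟩, ⟨64, -6, -2, 0⟩⟩,
  ⟨2, 5, 251, ⟨52, -2, -2, 0⟩, ⟨52, 2, -2, 0⟩, ⟨64, -6, -2, 0⟩, ⟨64, 6, -2, 0⟩⟩,
  ⟨2, 5, 259, ⟨16, 4, 0, 0⟩, ⟨16, -4, 0, 0⟩, ⟨52, -2, -2, 0⟩, ⟨52, 2, -2, 0⟩⟩]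

theorem tab48_3_ok : allB tab48_3 E.ok = true := by decide +kernel

def tab48_4 : List E := [
  ⟨2, 5, 263, ⟨16, 4, 0, 0⟩, ⟨16, -4, 0, 0⟩, ⟨56, -2, -2, 0⟩, ⟨56, 2, -2, 0⟩⟩,
  ⟨2, 5, 267, ⟨16, 4, 0, 0⟩, ⟨16, -4, 0, 0⟩, ⟨56, -2, -2, 0⟩, ⟨56, 2, -2, 0⟩⟩,
  ⟨2, 5, 271, ⟨16, 4, 0, 0⟩, ⟨16, -4, 0, 0⟩, ⟨56, -2, -2, 0⟩, ⟨56, 2, -2, 0⟩⟩,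
  ⟨2, 5, 283, ⟨16, 4, 0, 0⟩, ⟨16, -4, 0, 0⟩, ⟨56, -2, -2, 0⟩, ⟨56, 2, -2, 0⟩⟩,
  ⟨2, 5, 291, ⟨8, 0, 0, 0⟩, ⟨56, -2, -2, 0⟩, ⟨56, 2, -2, 0⟩, ⟨68, -6, -2, 0⟩⟩,
  ⟨2, 5, 299, ⟨16, 4, 0, 0⟩, ⟨56, 2, -2, 0⟩, ⟨68, -6, -2, 0⟩, ⟨68, 6, -2, 0⟩⟩,
  ⟨2, 5, 303, ⟨16, 4, 0, 0⟩, ⟨16, -4, 0, 0⟩, ⟨56, -2, -2, 0⟩, ⟨56, 2, -2, 0⟩⟩,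
  ⟨2, 5, 307, ⟨16, 4, 0, 0⟩, ⟨28, 8, 0, 0⟩, ⟨56, -2, -2, 0⟩, ⟨56, 2, -2, 0⟩⟩,
  ⟨2, 5, 319, ⟨16, 4, 0, 0⟩, ⟨16, -4, 0, 0⟩, ⟨60, -2, -2, 0⟩, ⟨60, 2, -2, 0⟩⟩,
  ⟨2, 5, 323, ⟨16, 4, 0, 0⟩, ⟨16, -4, 0, 0⟩, ⟨60, -2, -2, 0⟩, ⟨60, 2, -2, 0⟩⟩]

theorem tab48_4_ok : allB tab48_4 E.ok = true := by decide +kernel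

def tab48 : List E :=
  tab48_0 ++ (tab48_1 ++ (tab48_2 ++ (tab48_3 ++ (tab48_4))))

theorem tab48_ok : allB tab48 E.ok = true :=
  allB_append tab48_0_ok (allB_append tab48_1_ok (allB_append tab48_2_ok (allB_append tab48_3_ok
  tab48_4_ok)))

end BQN
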