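import Pool.Agent.BQN.App

/-! Table 49. -/

namespace BQN

def tab49_0 : List E := [
  ⟨2, 5, 327, ⟨16, 4, 0, 0⟩, ⟨16, -4, 0, 0⟩, ⟨60, -2, -2, 0⟩, ⟨60, 2, -2, 0⟩⟩,
  ⟨2, 5, 339, ⟨8, 0, 0, 0⟩, ⟨60, -2, -2, 0⟩, ⟨60, 2, -2, 0⟩, ⟨72, -6, -2, 0⟩⟩,
  ⟨2, 5, 347, ⟨60, -2, -2, 0⟩, ⟨60, 2, -2, 0⟩, ⟨72, -6, -2, 0⟩, ⟨72, 6, -2, 0⟩⟩,
  ⟨2, 5, 367, ⟨16, 4, 0, 0⟩, ⟨16, -4, 0, 0⟩, ⟨64, -2, -2, 0⟩, ⟨64, 2, -2, 0⟩⟩,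
  ⟨2, 5, 371, ⟨16, 4, 0, 0⟩, ⟨16, -4, 0, 0⟩, ⟨64, -2, -2, 0⟩, ⟨64, 2, -2, 0⟩⟩,
  ⟨2, 5, 399, ⟨8, 0, 0, 0⟩, ⟨16, 4, 0, 0⟩, ⟨64, 2, -2, 0⟩, ⟨76, -6, -2, 0⟩⟩]

theorem tab49_0_ok : allB tab49_0 E.ok = true := by decide +kernel

def tab49 : List E :=
  tab49_0

theorem tab49_ok : allB tab49 E.ok = true :=
  tab49_0_ok

end BQN
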