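import Pool.Agent.BQN.App

/-! Table 51. -/

namespace BQN

def tab51_0 : List E := [
  ⟨3, 1, 487, ⟨8, 4, 0, 0⟩, ⟨16, 4, 0, 0⟩, ⟨48, -2, 0, -2⟩, ⟨48, 2, 0, -2⟩⟩,
  ⟨3, 1, 491, ⟨8, 4, 0, 0⟩, ⟨16, 4, 0, 0⟩, ⟨48, -2, 0, -2⟩, ⟨48, 2, 0, -2⟩⟩,
  ⟨3, 1, 499, ⟨8, 4, 0, 0⟩, ⟨52, -2, 0, -2⟩, ⟨52, 2, 0, -2⟩, ⟨56, -6, 0, -2⟩⟩,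
  ⟨3, 1, 503, ⟨8, 4, 0, 0⟩, ⟨52, -2, 0, -2⟩, ⟨56, -6, 0, -2⟩, ⟨56, 6, 0, -2⟩⟩,
  ⟨3, 1, 511, ⟨8, 4, 0, 0⟩, ⟨52, -2, 0, -2⟩, ⟨56, -6, 0, -2⟩, ⟨56, 6, 0, -2⟩⟩,
  ⟨3, 1, 515, ⟨8, 4, 0, 0⟩, ⟨52, -2, 0, -2⟩, ⟨56, -6, 0, -2⟩, ⟨56, 6, 0, -2⟩⟩,
  ⟨3, 1, 523, ⟨8, 4, 0, 0⟩, ⟨52, -2, 0, -2⟩, ⟨52, 2, 0, -2⟩, ⟨64, -10, 0, -2⟩⟩,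
  ⟨3, 1, 527, ⟨8, 4, 0, 0⟩, ⟨52, -2, 0, -2⟩, ⟨52, 2, 0, -2⟩, ⟨64, -10, 0, -2⟩⟩,
  ⟨3, 1, 535, ⟨8, 4, 0, 0⟩, ⟨52, -2, 0, -2⟩, ⟨64, -10, 0, -2⟩, ⟨64, 10, 0, -2⟩⟩,
  ⟨3, 1, 547, ⟨8, 4, 0, 0⟩, ⟨16, 4, 0, 0⟩, ⟨52, -2, 0, -2⟩, ⟨52, 2, 0, -2⟩⟩]

theorem tab51_0_ok : allB tab51_0 E.ok = true := by decide +kernel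

def tab51_1 : List E := [
  ⟨3, 1, 551, ⟨8, 4, 0, 0⟩, ⟨16, 4, 0, 0⟩, ⟨52, -2, 0, -2⟩, ⟨52, 2, 0, -2⟩⟩,
  ⟨3, 1, 563, ⟨8, 4, 0, 0⟩, ⟨20, 8, 0, 0⟩, ⟨52, -2, 0, -2⟩, ⟨52, 2, 0, -2⟩⟩,
  ⟨3, 1, 571, ⟨8, 4, 0, 0⟩, ⟨16, 4, 0, 0⟩, ⟨52, -2, 0, -2⟩, ⟨52, 2, 0, -2⟩⟩,
  ⟨3, 1, 583, ⟨8, 4, 0, 0⟩, ⟨16, 4, 0, 0⟩, ⟨52, -2, 0, -2⟩, ⟨52, 2, 0, -2⟩⟩,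
  ⟨3, 1, 587, ⟨8, 4, 0, 0⟩, ⟨52, -2, 0, -2⟩, ⟨52, 2, 0, -2⟩, ⟨52, -2, 0, 2⟩⟩,
  ⟨3, 1, 595, ⟨8, 4, 0, 0⟩, ⟨56, -2, 0, -2⟩, ⟨60, -6, 0, -2⟩, ⟨60, 6, 0, -2⟩⟩,
  ⟨3, 1, 599, ⟨8, 4, 0, 0⟩, ⟨56, -2, 0, -2⟩, ⟨60, -6, 0, -2⟩, ⟨60, 6, 0, -2⟩⟩,
  ⟨3, 1, 619, ⟨8, 4, 0, 0⟩, ⟨56, -2, 0, -2⟩, ⟨56, 2, 0, -2⟩, ⟨68, -10, 0, -2⟩⟩,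
  ⟨3, 1, 623, ⟨8, 4, 0, 0⟩, ⟨56, -2, 0, -2⟩, ⟨56, 2, 0, -2⟩, ⟨68, -10, 0, -2⟩⟩,
  ⟨3, 1, 631, ⟨8, 4, 0, 0⟩, ⟨56, -2, 0, -2⟩, ⟨68, -10, 0, -2⟩, ⟨68, 10, 0, -2⟩⟩]

theorem tab51_1_ok : allB tab51_1 E.ok = true := by decide +kernel

def tab51_2 : List E := [
  ⟨3, 1, 635, ⟨8, 4, 0, 0⟩, ⟨56, -2, 0, -2⟩, ⟨68, -10, 0, -2⟩, ⟨68, 10, 0, -2⟩⟩,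
  ⟨3, 1, 643, ⟨8, 4, 0, 0⟩, ⟨16, 4, 0, 0⟩, ⟨56, -2, 0, -2⟩, ⟨56, 2, 0, -2⟩⟩,
  ⟨3, 1, 647, ⟨8, 4, 0, 0⟩, ⟨16, 4, 0, 0⟩, ⟨56, -2, 0, -2⟩, ⟨56, 2, 0, -2⟩⟩,
  ⟨3, 1, 679, ⟨8, 4, 0, 0⟩, ⟨16, 4, 0, 0⟩, ⟨56, -2, 0, -2⟩, ⟨56, 2, 0, -2⟩⟩,
  ⟨3, 1, 683, ⟨8, 4, 0, 0⟩, ⟨16, 4, 0, 0⟩, ⟨56, -2, 0, -2⟩, ⟨56, 2, 0, -2⟩⟩,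
  ⟨3, 1, 691, ⟨8, 4, 0, 0⟩, ⟨60, -2, 0, -2⟩, ⟨60, 2, 0, -2⟩, ⟨64, -6, 0, -2⟩⟩,
  ⟨3, 1, 695, ⟨8, 4, 0, 0⟩, ⟨60, -2, 0, -2⟩, ⟨60, 2, 0, -2⟩, ⟨64, -6, 0, -2⟩⟩,
  ⟨3, 1, 739, ⟨8, 4, 0, 0⟩, ⟨60, -2, 0, -2⟩, ⟨72, -10, 0, -2⟩, ⟨72, 10, 0, -2⟩⟩,
  ⟨3, 1, 743, ⟨8, 4, 0, 0⟩, ⟨60, -2, 0, -2⟩, ⟨72, -10, 0, -2⟩, ⟨72, 10, 0, -2⟩⟩,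
  ⟨7, 2, 71, ⟨16, 4, 0, 0⟩, ⟨32, 2, 0, -2⟩, ⟨46, 6, -2, -2⟩, ⟨46, -6, 2, -2⟩⟩]

theorem tab51_2_ok : allB tab51_2 E.ok = true := by decide +kernel

def tab51_3 : List E := [
  ⟨7, 2, 79, ⟨16, 4, 0, 0⟩, ⟨36, 2, 0, -2⟩, ⟨48, -6, 0, -2⟩, ⟨50, 6, -2, -2⟩⟩,
  ⟨7, 2, 83, ⟨16, 4, 0, 0⟩, ⟨36, 2, 0, -2⟩, ⟨50, 0, 2, 0⟩, ⟨52, 0, 0, -4⟩⟩,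
  ⟨7, 2, 87, ⟨8, 0, 0, 0⟩, ⟨16, 4, 0, 0⟩, ⟨16, -4, 0, 0⟩, ⟨50, 0, -2, 0⟩⟩,
  ⟨7, 2, 95, ⟨8, 0, 0, 0⟩, ⟨16, 4, 0, 0⟩, ⟨36, -2, 0, -2⟩, ⟨36, 2, 0, -2⟩⟩,
  ⟨5, 2, 97, ⟨8, 0, 0, 0⟩, ⟨36, -2, 0, -2⟩, ⟨46, 0, -2, 0⟩, ⟨48, -6, 0, -2⟩⟩,
  ⟨5, 2, 101, ⟨16, 4, 0, 0⟩, ⟨36, 2, 0, 2⟩, ⟨46, 0, -2, 0⟩, ⟨50, 10, -2, -2⟩⟩,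
  ⟨7, 2, 103, ⟨8, 0, 0, 0⟩, ⟨16, 4, 0, 0⟩, ⟨52, 6, 0, -2⟩, ⟨54, 0, -2, 0⟩⟩,
  ⟨7, 2, 107, ⟨8, 0, 0, 0⟩, ⟨16, 4, 0, 0⟩, ⟨52, -6, 0, -2⟩, ⟨52, 6, 0, -2⟩⟩,
  ⟨5, 2, 109, ⟨16, 4, 0, 0⟩, ⟨36, -2, 0, -2⟩, ⟨36, 2, 0, -2⟩, ⟨50, 10, -2, -2⟩⟩,
  ⟨7, 2, 111, ⟨16, 4, 0, 0⟩, ⟨16, -4, 0, 0⟩, ⟨40, -2, 0, -2⟩, ⟨58, 0, -2, 0⟩⟩]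

theorem tab51_3_ok : allB tab51_3 E.ok = true := by decide +kernel

def tab51_4 : List E := [
  ⟨5, 2, 113, ⟨16, 4, 0, 0⟩, ⟨40, 2, 0, -2⟩, ⟨50, -10, 2, -2⟩, ⟨50, 0, 2, 0⟩⟩,
  ⟨7, 2, 115, ⟨8, 0, 0, 0⟩, ⟨16, 4, 0, 0⟩, ⟨16, -4, 0, 0⟩, ⟨58, 0, -2, 0⟩⟩,
  ⟨1, 2, 123, ⟨8, 4, 0, 0⟩, ⟨40, -6, 0, -2⟩, ⟨40, 6, 0, -2⟩, ⟨48, 22, -4, -2⟩⟩,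
  ⟨7, 2, 123, ⟨8, 0, 0, 0⟩, ⟨16, 4, 0, 0⟩, ⟨16, -4, 0, 0⟩, ⟨40, -2, 0, -2⟩⟩,
  ⟨1, 2, 127, ⟨8, 4, 0, 0⟩, ⟨36, -2, 0, -2⟩, ⟨48, -22, 4, -2⟩, ⟨48, 0, 4, 0⟩⟩,
  ⟨7, 2, 127, ⟨8, 0, 0, 0⟩, ⟨16, 4, 0, 0⟩, ⟨40, -2, 0, -2⟩, ⟨40, 2, 0, -2⟩⟩,
  ⟨5, 2, 129, ⟨16, 4, 0, 0⟩, ⟨40, 2, 0, -2⟩, ⟨52, 6, 0, -2⟩, ⟨54, -10, 2, -2⟩⟩,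
  ⟨1, 2, 131, ⟨8, 4, 0, 0⟩, ⟨36, -2, 0, -2⟩, ⟨36, 2, 0, -2⟩, ⟨48, 22, -4, -2⟩⟩,
  ⟨7, 2, 131, ⟨8, 0, 0, 0⟩, ⟨16, 4, 0, 0⟩, ⟨40, -2, 0, -2⟩, ⟨40, 2, 0, -2⟩⟩,
  ⟨5, 2, 133, ⟨40, -2, 0, -2⟩, ⟨40, 2, 0, -2⟩, ⟨52, -6, 0, -2⟩, ⟨52, 6, 0, -2⟩⟩]

theorem tab51_4_ok : allB tab51_4 E.ok = true := by decide +kernel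

def tab51 : List E :=
  tab51_0 ++ (tab51_1 ++ (tab51_2 ++ (tab51_3 ++ (tab51_4))))

theorem tab51_ok : allB tab51 E.ok = true :=
  allB_append tab51_0_ok (allB_append tab51_1_ok (allB_append tab51_2_ok (allB_append tab51_3_ok
  tab51_4_ok)))

end BQN
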