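import Pool.Agent.BQN.App

/-! Table 52. -/

namespace BQN

def tab52_0 : List E := [
  ⟨5, 2, 137, ⟨16, 4, 0, 0⟩, ⟨40, 2, 0, -2⟩, ⟨54, 10, -2, -2⟩, ⟨54, -10, 2, -2⟩⟩,
  ⟨1, 2, 139, ⟨8, 4, 0, 0⟩, ⟨48, -10, 0, -2⟩, ⟨48, 10, 0, -2⟩, ⟨48, 0, -4, 0⟩⟩,
  ⟨7, 2, 139, ⟨16, 4, 0, 0⟩, ⟨44, 2, 0, -2⟩, ⟨56, -6, 0, -2⟩, ⟨56, 6, 0, -2⟩⟩,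
  ⟨5, 2, 141, ⟨16, 4, 0, 0⟩, ⟨40, -2, 0, -2⟩, ⟨40, 2, 0, -2⟩, ⟨54, 0, -2, 0⟩⟩,
  ⟨1, 2, 143, ⟨8, 4, 0, 0⟩, ⟨48, -10, 0, -2⟩, ⟨48, 10, 0, -2⟩, ⟨48, 0, -4, 0⟩⟩,
  ⟨7, 2, 143, ⟨8, 0, 0, 0⟩, ⟨16, 4, 0, 0⟩, ⟨16, -4, 0, 0⟩, ⟨44, -2, 0, -2⟩⟩,
  ⟨5, 2, 149, ⟨16, 4, 0, 0⟩, ⟨44, 2, 0, -2⟩, ⟨58, -10, 2, -2⟩, ⟨58, 0, 2, 0⟩⟩,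
  ⟨1, 2, 151, ⟨8, 4, 0, 0⟩, ⟨44, -6, 0, -2⟩, ⟨44, 6, 0, -2⟩, ⟨52, 26, -4, -2⟩⟩,
  ⟨7, 2, 151, ⟨8, 0, 0, 0⟩, ⟨16, 4, 0, 0⟩, ⟨16, -4, 0, 0⟩, ⟨44, -2, 0, -2⟩⟩,
  ⟨1, 2, 155, ⟨8, 4, 0, 0⟩, ⟨44, -6, 0, -2⟩, ⟨44, 6, 0, -2⟩, ⟨52, 26, -4, -2⟩⟩]

theorem tab52_0_ok : allB tab52_0 E.ok = true := by decide +kernel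

def tab52_1 : List E := [
  ⟨7, 2, 155, ⟨8, 0, 0, 0⟩, ⟨16, 4, 0, 0⟩, ⟨16, -4, 0, 0⟩, ⟨44, -2, 0, -2⟩⟩,
  ⟨5, 2, 157, ⟨16, 4, 0, 0⟩, ⟨28, 8, 0, 0⟩, ⟨44, 2, 0, -2⟩, ⟨58, 0, 2, 0⟩⟩,
  ⟨1, 2, 159, ⟨8, 4, 0, 0⟩, ⟨40, -2, 0, -2⟩, ⟨52, 26, -4, -2⟩, ⟨52, 0, -4, 0⟩⟩,
  ⟨7, 2, 159, ⟨8, 0, 0, 0⟩, ⟨16, 4, 0, 0⟩, ⟨44, -2, 0, -2⟩, ⟨44, 2, 0, -2⟩⟩,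
  ⟨5, 2, 161, ⟨8, 0, 0, 0⟩, ⟨16, 4, 0, 0⟩, ⟨44, 2, 0, -2⟩, ⟨58, 0, 2, 0⟩⟩,
  ⟨1, 2, 163, ⟨8, 4, 0, 0⟩, ⟨40, -2, 0, -2⟩, ⟨40, 2, 0, -2⟩, ⟨52, 26, -4, -2⟩⟩,
  ⟨7, 2, 163, ⟨8, 0, 0, 0⟩, ⟨16, 4, 0, 0⟩, ⟨44, -2, 0, -2⟩, ⟨44, 2, 0, -2⟩⟩,
  ⟨1, 2, 167, ⟨8, 4, 0, 0⟩, ⟨40, -2, 0, -2⟩, ⟨40, 2, 0, -2⟩, ⟨52, 26, -4, -2⟩⟩,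
  ⟨7, 2, 167, ⟨8, 0, 0, 0⟩, ⟨16, 4, 0, 0⟩, ⟨16, -4, 0, 0⟩, ⟨60, -6, 0, -2⟩⟩,
  ⟨5, 2, 173, ⟨16, 4, 0, 0⟩, ⟨44, -2, 0, -2⟩, ⟨44, 2, 0, -2⟩, ⟨62, 0, -2, 0⟩⟩]

theorem tab52_1_ok : allB tab52_1 E.ok = true := by decide +kernel

def tab52_2 : List E := [
  ⟨5, 2, 177, ⟨16, 4, 0, 0⟩, ⟨44, -2, 0, -2⟩, ⟨44, 2, 0, -2⟩, ⟨62, 0, -2, 0⟩⟩,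
  ⟨1, 2, 179, ⟨8, 4, 0, 0⟩, ⟨52, -10, 0, -2⟩, ⟨52, 10, 0, -2⟩, ⟨56, 26, -4, -2⟩⟩,
  ⟨7, 2, 179, ⟨8, 0, 0, 0⟩, ⟨16, 4, 0, 0⟩, ⟨16, -4, 0, 0⟩, ⟨48, -2, 0, -2⟩⟩,
  ⟨5, 2, 181, ⟨16, 4, 0, 0⟩, ⟨28, 8, 0, 0⟩, ⟨48, 2, 0, -2⟩, ⟨62, 0, 2, 0⟩⟩,
  ⟨1, 2, 183, ⟨8, 4, 0, 0⟩, ⟨48, -6, 0, -2⟩, ⟨56, 26, -4, -2⟩, ⟨56, -26, 4, -2⟩⟩,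
  ⟨7, 2, 183, ⟨8, 0, 0, 0⟩, ⟨16, 4, 0, 0⟩, ⟨16, -4, 0, 0⟩, ⟨48, -2, 0, -2⟩⟩,
  ⟨1, 2, 187, ⟨8, 4, 0, 0⟩, ⟨48, -6, 0, -2⟩, ⟨48, 6, 0, -2⟩, ⟨56, 0, -4, 0⟩⟩,
  ⟨7, 2, 187, ⟨8, 0, 0, 0⟩, ⟨16, 4, 0, 0⟩, ⟨16, -4, 0, 0⟩, ⟨48, -2, 0, -2⟩⟩,
  ⟨1, 2, 191, ⟨8, 4, 0, 0⟩, ⟨48, -6, 0, -2⟩, ⟨48, 6, 0, -2⟩, ⟨56, 0, -4, 0⟩⟩,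
  ⟨7, 2, 191, ⟨8, 0, 0, 0⟩, ⟨16, 4, 0, 0⟩, ⟨16, -4, 0, 0⟩, ⟨48, -2, 0, -2⟩⟩]

theorem tab52_2_ok : allB tab52_2 E.ok = true := by decide +kernel

def tab52_3 : List E := [
  ⟨5, 2, 193, ⟨16, 4, 0, 0⟩, ⟨16, -4, 0, 0⟩, ⟨48, -2, 0, -2⟩, ⟨48, 2, 0, -2⟩⟩,
  ⟨7, 2, 195, ⟨8, 0, 0, 0⟩, ⟨16, 4, 0, 0⟩, ⟨16, -4, 0, 0⟩, ⟨48, -2, 0, -2⟩⟩,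
  ⟨5, 2, 197, ⟨8, 0, 0, 0⟩, ⟨16, 4, 0, 0⟩, ⟨48, -2, 0, -2⟩, ⟨48, 2, 0, -2⟩⟩,
  ⟨1, 2, 199, ⟨12, 0, 0, 0⟩, ⟨44, -2, 0, -2⟩, ⟨44, 2, 0, -2⟩, ⟨52, -6, 0, -2⟩⟩,
  ⟨7, 2, 199, ⟨8, 0, 0, 0⟩, ⟨16, 4, 0, 0⟩, ⟨48, -2, 0, -2⟩, ⟨48, 2, 0, -2⟩⟩,
  ⟨5, 2, 201, ⟨8, 0, 0, 0⟩, ⟨48, -2, 0, -2⟩, ⟨48, 2, 0, -2⟩, ⟨60, -6, 0, -2⟩⟩,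
  ⟨1, 2, 203, ⟨8, 4, 0, 0⟩, ⟨12, 0, 0, 0⟩, ⟨44, -2, 0, -2⟩, ⟨44, 2, 0, -2⟩⟩,
  ⟨5, 2, 209, ⟨48, -2, 0, -2⟩, ⟨48, 2, 0, -2⟩, ⟨60, -6, 0, -2⟩, ⟨60, 6, 0, -2⟩⟩,
  ⟨1, 2, 211, ⟨8, 4, 0, 0⟩, ⟨44, -2, 0, -2⟩, ⟨44, 2, 0, -2⟩, ⟨44, -2, 0, 2⟩⟩,
  ⟨7, 2, 211, ⟨8, 0, 0, 0⟩, ⟨16, 4, 0, 0⟩, ⟨16, -4, 0, 0⟩, ⟨64, -6, 0, -2⟩⟩]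

theorem tab52_3_ok : allB tab52_3 E.ok = true := by decide +kernel

def tab52_4 : List E := [
  ⟨5, 2, 213, ⟨16, 4, 0, 0⟩, ⟨48, -2, 0, -2⟩, ⟨48, 2, 0, -2⟩, ⟨66, 0, -2, 0⟩⟩,
  ⟨1, 2, 215, ⟨8, 4, 0, 0⟩, ⟨56, -10, 0, -2⟩, ⟨56, 10, 0, -2⟩, ⟨60, 30, -4, -2⟩⟩,
  ⟨7, 2, 215, ⟨16, 4, 0, 0⟩, ⟨52, 2, 0, -2⟩, ⟨64, -6, 0, -2⟩, ⟨64, 6, 0, -2⟩⟩,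
  ⟨5, 2, 217, ⟨16, 4, 0, 0⟩, ⟨48, -2, 0, -2⟩, ⟨48, 2, 0, -2⟩, ⟨66, 0, -2, 0⟩⟩,
  ⟨7, 2, 219, ⟨8, 0, 0, 0⟩, ⟨16, 4, 0, 0⟩, ⟨16, -4, 0, 0⟩, ⟨52, -2, 0, -2⟩⟩,
  ⟨5, 2, 221, ⟨16, 4, 0, 0⟩, ⟨16, -4, 0, 0⟩, ⟨52, -2, 0, -2⟩, ⟨52, 2, 0, -2⟩⟩,
  ⟨7, 2, 223, ⟨8, 0, 0, 0⟩, ⟨16, 4, 0, 0⟩, ⟨16, -4, 0, 0⟩, ⟨52, -2, 0, -2⟩⟩,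
  ⟨1, 2, 227, ⟨8, 4, 0, 0⟩, ⟨48, -2, 0, -2⟩, ⟨52, -6, 0, -2⟩, ⟨52, 6, 0, -2⟩⟩,
  ⟨7, 2, 227, ⟨8, 0, 0, 0⟩, ⟨16, 4, 0, 0⟩, ⟨16, -4, 0, 0⟩, ⟨52, -2, 0, -2⟩⟩,
  ⟨5, 2, 229, ⟨16, 4, 0, 0⟩, ⟨16, -4, 0, 0⟩, ⟨52, -2, 0, -2⟩, ⟨52, 2, 0, -2⟩⟩]

theorem tab52_4_ok : allB tab52_4 E.ok = true := by decide +kernel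

def tab52 : List E :=
  tab52_0 ++ (tab52_1 ++ (tab52_2 ++ (tab52_3 ++ (tab52_4))))

theorem tab52_ok : allB tab52 E.ok = true :=
  allB_append tab52_0_ok (allB_append tab52_1_ok (allB_append tab52_2_ok (allB_append tab52_3_ok
  tab52_4_ok)))

end BQN
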