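import Pool.Agent.BQN.App

/-! Table 53. -/

namespace BQN

def tab53_0 : List E := [
  ⟨1, 2, 231, ⟨8, 4, 0, 0⟩, ⟨48, -2, 0, -2⟩, ⟨52, -6, 0, -2⟩, ⟨52, 6, 0, -2⟩⟩,
  ⟨5, 2, 233, ⟨16, 4, 0, 0⟩, ⟨16, -4, 0, 0⟩, ⟨52, -2, 0, -2⟩, ⟨52, 2, 0, -2⟩⟩,
  ⟨1, 2, 235, ⟨8, 4, 0, 0⟩, ⟨48, -2, 0, -2⟩, ⟨52, -6, 0, -2⟩, ⟨52, 6, 0, -2⟩⟩,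
  ⟨7, 2, 235, ⟨8, 0, 0, 0⟩, ⟨16, 4, 0, 0⟩, ⟨16, -4, 0, 0⟩, ⟨52, -2, 0, -2⟩⟩,
  ⟨5, 2, 237, ⟨16, 4, 0, 0⟩, ⟨16, -4, 0, 0⟩, ⟨52, -2, 0, -2⟩, ⟨52, 2, 0, -2⟩⟩,
  ⟨1, 2, 239, ⟨8, 4, 0, 0⟩, ⟨64, 30, -4, -2⟩, ⟨64, 0, -4, 0⟩, ⟨68, -4, -4, 0⟩⟩,
  ⟨5, 2, 241, ⟨8, 0, 0, 0⟩, ⟨16, 4, 0, 0⟩, ⟨52, 2, 0, -2⟩, ⟨64, 6, 0, -2⟩⟩,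
  ⟨7, 2, 247, ⟨8, 0, 0, 0⟩, ⟨16, 4, 0, 0⟩, ⟨52, -2, 0, -2⟩, ⟨52, 2, 0, -2⟩⟩,
  ⟨5, 2, 249, ⟨52, -2, 0, -2⟩, ⟨52, 2, 0, -2⟩, ⟨64, -6, 0, -2⟩, ⟨64, 6, 0, -2⟩⟩,
  ⟨7, 2, 251, ⟨8, 0, 0, 0⟩, ⟨16, 4, 0, 0⟩, ⟨16, -4, 0, 0⟩, ⟨68, -6, 0, -2⟩⟩]

theorem tab53_0_ok : allB tab53_0 E.ok = true := by decide +kernel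

def tab53_1 : List E := [
  ⟨5, 2, 253, ⟨16, 4, 0, 0⟩, ⟨52, 2, 0, -2⟩, ⟨64, -6, 0, -2⟩, ⟨64, 6, 0, -2⟩⟩,
  ⟨7, 2, 255, ⟨8, 0, 0, 0⟩, ⟨16, 4, 0, 0⟩, ⟨16, -4, 0, 0⟩, ⟨68, -6, 0, -2⟩⟩,
  ⟨5, 2, 257, ⟨16, 4, 0, 0⟩, ⟨16, -4, 0, 0⟩, ⟨52, -2, 0, -2⟩, ⟨52, 2, 0, -2⟩⟩,
  ⟨1, 2, 259, ⟨8, 4, 0, 0⟩, ⟨56, -6, 0, -2⟩, ⟨60, -10, 0, -2⟩, ⟨60, 10, 0, -2⟩⟩,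
  ⟨1, 2, 263, ⟨8, 4, 0, 0⟩, ⟨68, 34, -4, -2⟩, ⟨68, 0, -4, 0⟩, ⟨72, 30, -4, -2⟩⟩,
  ⟨7, 2, 267, ⟨8, 0, 0, 0⟩, ⟨16, 4, 0, 0⟩, ⟨16, -4, 0, 0⟩, ⟨56, -2, 0, -2⟩⟩,
  ⟨5, 2, 269, ⟨16, 4, 0, 0⟩, ⟨16, -4, 0, 0⟩, ⟨56, -2, 0, -2⟩, ⟨56, 2, 0, -2⟩⟩,
  ⟨7, 2, 271, ⟨8, 0, 0, 0⟩, ⟨16, 4, 0, 0⟩, ⟨16, -4, 0, 0⟩, ⟨56, -2, 0, -2⟩⟩,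
  ⟨5, 2, 273, ⟨16, 4, 0, 0⟩, ⟨16, -4, 0, 0⟩, ⟨56, -2, 0, -2⟩, ⟨56, 2, 0, -2⟩⟩,
  ⟨5, 2, 277, ⟨16, 4, 0, 0⟩, ⟨16, -4, 0, 0⟩, ⟨56, -2, 0, -2⟩, ⟨56, 2, 0, -2⟩⟩]

theorem tab53_1_ok : allB tab53_1 E.ok = true := by decide +kernel

def tab53_2 : List E := [
  ⟨5, 2, 281, ⟨16, 4, 0, 0⟩, ⟨16, -4, 0, 0⟩, ⟨56, -2, 0, -2⟩, ⟨56, 2, 0, -2⟩⟩,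
  ⟨7, 2, 291, ⟨8, 0, 0, 0⟩, ⟨16, 4, 0, 0⟩, ⟨56, -2, 0, -2⟩, ⟨56, 2, 0, -2⟩⟩,
  ⟨5, 2, 293, ⟨8, 0, 0, 0⟩, ⟨56, -2, 0, -2⟩, ⟨56, 2, 0, -2⟩, ⟨68, -6, 0, -2⟩⟩,
  ⟨7, 2, 295, ⟨8, 0, 0, 0⟩, ⟨16, 4, 0, 0⟩, ⟨16, -4, 0, 0⟩, ⟨72, -6, 0, -2⟩⟩,
  ⟨5, 2, 301, ⟨8, 0, 0, 0⟩, ⟨16, 4, 0, 0⟩, ⟨56, -2, 0, -2⟩, ⟨56, 2, 0, -2⟩⟩,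
  ⟨5, 2, 309, ⟨16, 4, 0, 0⟩, ⟨16, -4, 0, 0⟩, ⟨60, -2, 0, -2⟩, ⟨60, 2, 0, -2⟩⟩,
  ⟨5, 2, 313, ⟨16, 4, 0, 0⟩, ⟨16, -4, 0, 0⟩, ⟨60, -2, 0, -2⟩, ⟨60, 2, 0, -2⟩⟩,
  ⟨5, 2, 317, ⟨16, 4, 0, 0⟩, ⟨16, -4, 0, 0⟩, ⟨60, -2, 0, -2⟩, ⟨60, 2, 0, -2⟩⟩,
  ⟨5, 2, 321, ⟨16, 4, 0, 0⟩, ⟨16, -4, 0, 0⟩, ⟨60, -2, 0, -2⟩, ⟨60, 2, 0, -2⟩⟩,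
  ⟨5, 2, 329, ⟨16, 4, 0, 0⟩, ⟨16, -4, 0, 0⟩, ⟨60, -2, 0, -2⟩, ⟨60, 2, 0, -2⟩⟩]

theorem tab53_2_ok : allB tab53_2 E.ok = true := by decide +kernel

def tab53_3 : List E := [
  ⟨5, 2, 337, ⟨8, 0, 0, 0⟩, ⟨60, -2, 0, -2⟩, ⟨60, 2, 0, -2⟩, ⟨72, -6, 0, -2⟩⟩,
  ⟨5, 2, 341, ⟨8, 0, 0, 0⟩, ⟨60, -2, 0, -2⟩, ⟨60, 2, 0, -2⟩, ⟨72, -6, 0, -2⟩⟩,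
  ⟨5, 2, 349, ⟨60, -2, 0, -2⟩, ⟨60, 2, 0, -2⟩, ⟨72, -6, 0, -2⟩, ⟨72, 6, 0, -2⟩⟩,
  ⟨5, 2, 353, ⟨16, 4, 0, 0⟩, ⟨16, -4, 0, 0⟩, ⟨60, -2, 0, -2⟩, ⟨60, 2, 0, -2⟩⟩,
  ⟨5, 2, 357, ⟨16, 4, 0, 0⟩, ⟨16, -4, 0, 0⟩, ⟨60, -2, 0, -2⟩, ⟨60, 2, 0, -2⟩⟩,
  ⟨5, 2, 373, ⟨16, 4, 0, 0⟩, ⟨16, -4, 0, 0⟩, ⟨64, -2, 0, -2⟩, ⟨64, 2, 0, -2⟩⟩,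
  ⟨5, 2, 377, ⟨16, 4, 0, 0⟩, ⟨16, -4, 0, 0⟩, ⟨64, -2, 0, -2⟩, ⟨64, 2, 0, -2⟩⟩,
  ⟨5, 2, 381, ⟨16, 4, 0, 0⟩, ⟨16, -4, 0, 0⟩, ⟨64, -2, 0, -2⟩, ⟨64, 2, 0, -2⟩⟩,
  ⟨5, 2, 409, ⟨16, 4, 0, 0⟩, ⟨16, -4, 0, 0⟩, ⟨64, -2, 0, -2⟩, ⟨64, 2, 0, -2⟩⟩,
  ⟨5, 2, 413, ⟨16, 4, 0, 0⟩, ⟨16, -4, 0, 0⟩, ⟨64, -2, 0, -2⟩, ⟨64, 2, 0, -2⟩⟩]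

theorem tab53_3_ok : allB tab53_3 E.ok = true := by decide +kernel

def tab53_4 : List E := [
  ⟨5, 3, 97, ⟨16, 4, 0, 0⟩, ⟨44, -2, 0, -2⟩, ⟨46, 0, -2, 0⟩, ⟨50, -10, -2, 2⟩⟩,
  ⟨5, 3, 109, ⟨16, 4, 0, 0⟩, ⟨44, -2, 0, -2⟩, ⟨44, 2, 0, -2⟩, ⟨50, 10, -2, -2⟩⟩,
  ⟨19, 5, 31, ⟨40, 4, 0, 0⟩, ⟨48, 2, 0, -2⟩, ⟨52, 0, 0, -4⟩, ⟨54, 2, -2, -2⟩⟩,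
  ⟨19, 5, 39, ⟨8, 0, 0, 0⟩, ⟨40, 4, 0, 0⟩, ⟨48, 2, 0, -2⟩, ⟨56, 0, 0, -4⟩⟩,
  ⟨19, 5, 43, ⟨40, 4, 0, 0⟩, ⟨52, 2, 0, -2⟩, ⟨58, 0, 2, 0⟩, ⟨60, 0, 0, -4⟩⟩,
  ⟨11, 5, 47, ⟨32, 4, 0, 0⟩, ⟨46, 0, -2, 0⟩, ⟨48, 2, 0, 2⟩, ⟨62, 6, -2, -2⟩⟩,
  ⟨19, 5, 47, ⟨40, 4, 0, 0⟩, ⟨52, 2, 0, -2⟩, ⟨62, 0, 2, 0⟩, ⟨64, 0, 0, -4⟩⟩,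
  ⟨11, 5, 51, ⟨32, 4, 0, 0⟩, ⟨48, 2, 0, 2⟩, ⟨50, 0, -2, 0⟩, ⟨62, 6, -2, -2⟩⟩,
  ⟨19, 5, 51, ⟨40, 4, 0, 0⟩, ⟨52, 2, 0, -2⟩, ⟨64, 0, 0, -4⟩, ⟨66, 0, 2, 0⟩⟩,
  ⟨11, 5, 59, ⟨32, 4, 0, 0⟩, ⟨52, 2, 0, -2⟩, ⟨54, 0, 2, 0⟩, ⟨62, 6, 2, 2⟩⟩]

theorem tab53_4_ok : allB tab53_4 E.ok = true := by decide +kernel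

def tab53 : List E :=
  tab53_0 ++ (tab53_1 ++ (tab53_2 ++ (tab53_3 ++ (tab53_4))))

theorem tab53_ok : allB tab53 E.ok = true :=
  allB_append tab53_0_ok (allB_append tab53_1_ok (allB_append tab53_2_ok (allB_append tab53_3_ok
  tab53_4_ok)))

end BQN
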