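import Pool.Agent.BQN.App

/-! Table 54. -/

namespace BQN

def tab54_0 : List E := [
  ⟨19, 5, 59, ⟨40, 4, 0, 0⟩, ⟨56, 2, 0, -2⟩, ⟨70, 0, 2, 0⟩, ⟨72, 0, 0, -4⟩⟩,
  ⟨11, 5, 67, ⟨32, 4, 0, 0⟩, ⟨52, 2, 0, -2⟩, ⟨58, 0, 2, 0⟩, ⟨66, 6, 2, 2⟩⟩,
  ⟨19, 5, 67, ⟨40, 4, 0, 0⟩, ⟨60, 2, 0, -2⟩, ⟨74, 0, 2, 0⟩, ⟨76, 0, 0, -4⟩⟩,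
  ⟨11, 5, 71, ⟨32, 4, 0, 0⟩, ⟨56, 2, 0, -2⟩, ⟨58, 0, 2, 0⟩, ⟨66, 6, 2, 2⟩⟩,
  ⟨19, 5, 71, ⟨40, 4, 0, 0⟩, ⟨60, 2, 0, -2⟩, ⟨74, 0, 2, 0⟩, ⟨76, 0, 0, -4⟩⟩,
  ⟨11, 5, 79, ⟨32, 4, 0, 0⟩, ⟨56, 2, 0, -2⟩, ⟨62, 0, 2, 0⟩, ⟨66, 6, 2, 2⟩⟩,
  ⟨19, 5, 79, ⟨40, 4, 0, 0⟩, ⟨60, 2, 0, -2⟩, ⟨78, 0, 2, 0⟩, ⟨80, 0, 0, -4⟩⟩,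
  ⟨19, 5, 83, ⟨40, 4, 0, 0⟩, ⟨64, 2, 0, -2⟩, ⟨82, 0, 2, 0⟩, ⟨84, 0, 0, -4⟩⟩,
  ⟨19, 5, 87, ⟨40, 4, 0, 0⟩, ⟨64, 2, 0, -2⟩, ⟨82, 0, 2, 0⟩, ⟨84, 0, 0, -4⟩⟩,
  ⟨19, 5, 91, ⟨8, 0, 0, 0⟩, ⟨40, 4, 0, 0⟩, ⟨64, 2, 0, -2⟩, ⟨86, 0, 2, 0⟩⟩]

theorem tab54_0_ok : allB tab54_0 E.ok = true := by decide +kernel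

def tab54_1 : List E := [
  ⟨19, 5, 103, ⟨8, 0, 0, 0⟩, ⟨40, 4, 0, 0⟩, ⟨68, 2, 0, -2⟩, ⟨90, 0, 2, 0⟩⟩,
  ⟨19, 5, 107, ⟨8, 0, 0, 0⟩, ⟨40, 4, 0, 0⟩, ⟨40, -4, 0, 0⟩, ⟨68, -2, 0, -2⟩⟩,
  ⟨19, 5, 111, ⟨8, 0, 0, 0⟩, ⟨40, 4, 0, 0⟩, ⟨68, -2, 0, -2⟩, ⟨68, 2, 0, -2⟩⟩,
  ⟨19, 5, 119, ⟨8, 0, 0, 0⟩, ⟨40, 4, 0, 0⟩, ⟨40, -4, 0, 0⟩, ⟨72, -2, 0, -2⟩⟩,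
  ⟨19, 5, 127, ⟨8, 0, 0, 0⟩, ⟨40, 4, 0, 0⟩, ⟨40, -4, 0, 0⟩, ⟨72, -2, 0, -2⟩⟩,
  ⟨17, 6, 29, ⟨44, 4, 0, 0⟩, ⟨46, 0, -2, 0⟩, ⟨48, 2, 0, 2⟩, ⟨56, 0, 0, 4⟩⟩,
  ⟨5, 6, 31, ⟨24, 4, 0, 0⟩, ⟨40, 2, 0, -2⟩, ⟨52, 0, 4, 0⟩, ⟨56, 0, 0, -4⟩⟩,
  ⟨19, 6, 31, ⟨44, 4, 0, 0⟩, ⟨50, 0, -2, 0⟩, ⟨56, 0, 0, 4⟩, ⟨58, -2, -2, 2⟩⟩,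
  ⟨23, 6, 31, ⟨48, 4, 0, 0⟩, ⟨52, 2, 0, -2⟩, ⟨56, 0, 0, -4⟩, ⟨62, -4, 2, -4⟩⟩,
  ⟨19, 6, 35, ⟨44, 4, 0, 0⟩, ⟨54, 0, -2, 0⟩, ⟨60, 0, 0, 4⟩, ⟨62, -2, -2, 2⟩⟩]

theorem tab54_1_ok : allB tab54_1 E.ok = true := by decide +kernel

def tab54_2 : List E := [
  ⟨23, 6, 35, ⟨48, 4, 0, 0⟩, ⟨58, 0, -2, 0⟩, ⟨60, 0, 0, -4⟩, ⟨66, 2, -2, -2⟩⟩,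
  ⟨17, 6, 37, ⟨44, 4, 0, 0⟩, ⟨54, 0, -2, 0⟩, ⟨60, 0, 0, -4⟩, ⟨62, -2, -2, 2⟩⟩,
  ⟨13, 6, 41, ⟨36, 4, 0, 0⟩, ⟨50, 0, 2, 0⟩, ⟨52, 2, 0, -2⟩, ⟨64, 0, 0, -4⟩⟩,
  ⟨17, 6, 41, ⟨44, 4, 0, 0⟩, ⟨52, 2, 0, -2⟩, ⟨54, 0, 2, 0⟩, ⟨64, 0, 0, -4⟩⟩,
  ⟨5, 6, 43, ⟨24, 4, 0, 0⟩, ⟨44, 2, 0, -2⟩, ⟨60, -6, 4, -2⟩, ⟨60, 0, 4, 0⟩⟩,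
  ⟨19, 6, 43, ⟨44, 4, 0, 0⟩, ⟨56, 2, 0, -2⟩, ⟨58, 0, 2, 0⟩, ⟨68, 0, 0, -4⟩⟩,
  ⟨23, 6, 43, ⟨48, 4, 0, 0⟩, ⟨56, 2, 0, -2⟩, ⟨66, 0, -2, 0⟩, ⟨68, 0, 0, -4⟩⟩,
  ⟨5, 6, 47, ⟨24, 4, 0, 0⟩, ⟨48, 2, 0, -2⟩, ⟨64, -6, 4, -2⟩, ⟨64, 0, 4, 0⟩⟩,
  ⟨19, 6, 47, ⟨44, 4, 0, 0⟩, ⟨56, 2, 0, -2⟩, ⟨62, 0, 2, 0⟩, ⟨68, 0, 0, -4⟩⟩,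
  ⟨23, 6, 47, ⟨48, 4, 0, 0⟩, ⟨60, 2, 0, -2⟩, ⟨66, 0, -2, 0⟩, ⟨68, 0, 0, -4⟩⟩]

theorem tab54_2_ok : allB tab54_2 E.ok = true := by decide +kernel

def tab54_3 : List E := [
  ⟨13, 6, 53, ⟨36, 4, 0, 0⟩, ⟨54, 0, -2, 0⟩, ⟨56, 2, 0, 2⟩, ⟨70, 6, -2, -2⟩⟩,
  ⟨17, 6, 53, ⟨44, 4, 0, 0⟩, ⟨56, -2, 0, -2⟩, ⟨56, 2, 0, -2⟩, ⟨56, -2, 0, 2⟩⟩,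
  ⟨19, 6, 55, ⟨44, 4, 0, 0⟩, ⟨60, 2, 0, -2⟩, ⟨66, 0, 2, 0⟩, ⟨76, 0, 0, -4⟩⟩,
  ⟨23, 6, 55, ⟨48, 4, 0, 0⟩, ⟨60, 2, 0, -2⟩, ⟨74, 0, 2, 0⟩, ⟨76, 0, 0, -4⟩⟩,
  ⟨5, 6, 59, ⟨24, 4, 0, 0⟩, ⟨24, -4, 0, 0⟩, ⟨52, -2, 0, -2⟩, ⟨72, 0, -4, 0⟩⟩,
  ⟨11, 6, 59, ⟨36, 4, 0, 0⟩, ⟨54, 0, -2, 0⟩, ⟨56, 2, 0, 2⟩, ⟨66, 6, -2, -2⟩⟩,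
  ⟨19, 6, 59, ⟨44, 4, 0, 0⟩, ⟨60, 2, 0, -2⟩, ⟨70, 0, 2, 0⟩, ⟨76, 0, 0, -4⟩⟩,
  ⟨23, 6, 59, ⟨48, 4, 0, 0⟩, ⟨64, 2, 0, -2⟩, ⟨74, 0, 2, 0⟩, ⟨76, 0, 0, -4⟩⟩,
  ⟨17, 6, 61, ⟨8, 0, 0, 0⟩, ⟨44, 4, 0, 0⟩, ⟨60, 2, 0, -2⟩, ⟨66, 0, 2, 0⟩⟩,
  ⟨17, 6, 65, ⟨44, 4, 0, 0⟩, ⟨60, -2, 0, -2⟩, ⟨60, 2, 0, -2⟩, ⟨70, 0, -2, 0⟩⟩]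

theorem tab54_3_ok : allB tab54_3 E.ok = true := by decide +kernel

def tab54_4 : List E := [
  ⟨5, 6, 67, ⟨8, 0, 0, 0⟩, ⟨24, 4, 0, 0⟩, ⟨52, -2, 0, -2⟩, ⟨52, 2, 0, -2⟩⟩,
  ⟨19, 6, 67, ⟨44, 4, 0, 0⟩, ⟨44, -4, 0, 0⟩, ⟨64, -2, 0, -2⟩, ⟨74, 0, -2, 0⟩⟩,
  ⟨23, 6, 67, ⟨48, 4, 0, 0⟩, ⟨64, 2, 0, -2⟩, ⟨82, 0, 2, 0⟩, ⟨84, 0, 0, -4⟩⟩,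
  ⟨5, 6, 71, ⟨24, 4, 0, 0⟩, ⟨24, -4, 0, 0⟩, ⟨56, -2, 0, -2⟩, ⟨76, 0, -4, 0⟩⟩,
  ⟨23, 6, 71, ⟨48, 4, 0, 0⟩, ⟨68, 2, 0, -2⟩, ⟨82, 0, 2, 0⟩, ⟨84, 0, 0, -4⟩⟩,
  ⟨17, 6, 73, ⟨8, 0, 0, 0⟩, ⟨44, 4, 0, 0⟩, ⟨64, 2, 0, -2⟩, ⟨74, 0, 2, 0⟩⟩,
  ⟨23, 6, 79, ⟨48, 4, 0, 0⟩, ⟨68, 2, 0, -2⟩, ⟨86, 0, 2, 0⟩, ⟨88, 0, 0, -4⟩⟩,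
  ⟨5, 6, 83, ⟨8, 0, 0, 0⟩, ⟨24, 4, 0, 0⟩, ⟨56, -2, 0, -2⟩, ⟨56, 2, 0, -2⟩⟩,
  ⟨19, 6, 83, ⟨44, 4, 0, 0⟩, ⟨44, -4, 0, 0⟩, ⟨68, -2, 0, -2⟩, ⟨82, 0, -2, 0⟩⟩,
  ⟨23, 6, 83, ⟨48, 4, 0, 0⟩, ⟨72, 2, 0, -2⟩, ⟨90, 0, 2, 0⟩, ⟨92, 0, 0, -4⟩⟩]

theorem tab54_4_ok : allB tab54_4 E.ok = true := by decide +kernel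

def tab54 : List E :=
  tab54_0 ++ (tab54_1 ++ (tab54_2 ++ (tab54_3 ++ (tab54_4))))

theorem tab54_ok : allB tab54 E.ok = true :=
  allB_append tab54_0_ok (allB_append tab54_1_ok (allB_append tab54_2_ok (allB_append tab54_3_ok
  tab54_4_ok)))

end BQN
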