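import Pool.Agent.BQN.App

/-! Table 55. -/

namespace BQN

def tab55_0 : List E := [
  ⟨5, 6, 91, ⟨24, 4, 0, 0⟩, ⟨60, -2, 0, -2⟩, ⟨60, 2, 0, -2⟩, ⟨80, 6, 0, -2⟩⟩,
  ⟨23, 6, 91, ⟨8, 0, 0, 0⟩, ⟨48, 4, 0, 0⟩, ⟨72, 2, 0, -2⟩, ⟨94, 0, 2, 0⟩⟩,
  ⟨17, 7, 29, ⟨44, 4, 0, 0⟩, ⟨46, 0, -2, 0⟩, ⟨52, 2, 0, 2⟩, ⟨58, -4, 2, -4⟩⟩,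
  ⟨17, 7, 33, ⟨44, 4, 0, 0⟩, ⟨50, 0, -2, 0⟩, ⟨58, 2, -2, -2⟩, ⟨64, 0, 0, -4⟩⟩,
  ⟨17, 7, 37, ⟨44, 4, 0, 0⟩, ⟨44, -4, 0, 0⟩, ⟨54, 0, -2, 0⟩, ⟨62, 2, -2, -2⟩⟩,
  ⟨13, 7, 41, ⟨40, 4, 0, 0⟩, ⟨50, 0, -2, 0⟩, ⟨56, 2, 0, 2⟩, ⟨62, -2, -2, 2⟩⟩,
  ⟨17, 7, 41, ⟨44, 4, 0, 0⟩, ⟨54, 0, -2, 0⟩, ⟨56, 2, 0, 2⟩, ⟨66, 2, -2, -2⟩⟩,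
  ⟨17, 7, 53, ⟨8, 0, 0, 0⟩, ⟨44, 4, 0, 0⟩, ⟨62, 0, -2, 0⟩, ⟨78, 2, -2, -2⟩⟩,
  ⟨17, 7, 57, ⟨44, 4, 0, 0⟩, ⟨64, 2, 0, -2⟩, ⟨66, 0, 2, 0⟩, ⟨80, 0, 0, -4⟩⟩,
  ⟨17, 7, 65, ⟨44, 4, 0, 0⟩, ⟨44, -4, 0, 0⟩, ⟨68, -2, 0, -2⟩, ⟨70, 0, -2, 0⟩⟩]

theorem tab55_0_ok : allB tab55_0 E.ok = true := by decide +kernel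

def tab55_1 : List E := [
  ⟨7, 10, 29, ⟨8, 0, 0, 0⟩, ⟨36, 4, 0, 0⟩, ⟨52, 2, 0, -2⟩, ⟨60, 0, 4, 0⟩⟩,
  ⟨7, 10, 33, ⟨36, 4, 0, 0⟩, ⟨36, -4, 0, 0⟩, ⟨56, -2, 0, -2⟩, ⟨64, 0, -4, 0⟩⟩,
  ⟨7, 10, 37, ⟨36, 4, 0, 0⟩, ⟨56, -2, 0, -2⟩, ⟨56, 2, 0, 2⟩, ⟨68, 0, -4, 0⟩⟩,
  ⟨21, 10, 41, ⟨60, 4, 0, 0⟩, ⟨62, 0, -2, 0⟩, ⟨72, 2, 0, 2⟩, ⟨74, -2, -2, 2⟩⟩,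
  ⟨29, 10, 41, ⟨72, 4, 0, 0⟩, ⟨70, 0, -2, 0⟩, ⟨76, 2, 0, 2⟩, ⟨82, -4, 2, -4⟩⟩,
  ⟨33, 10, 41, ⟨76, 4, 0, 0⟩, ⟨74, 0, -2, 0⟩, ⟨78, -2, -2, 2⟩, ⟨82, 4, -2, -4⟩⟩,
  ⟨37, 10, 41, ⟨80, 4, 0, 0⟩, ⟨78, 0, -2, 0⟩, ⟨80, 2, 0, -2⟩, ⟨82, 4, -2, -4⟩⟩,
  ⟨23, 10, 43, ⟨64, 4, 0, 0⟩, ⟨66, 0, -2, 0⟩, ⟨72, -2, 0, -2⟩, ⟨78, -2, -2, 2⟩⟩,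
  ⟨31, 10, 43, ⟨72, 4, 0, 0⟩, ⟨74, 0, -2, 0⟩, ⟨80, 2, 0, 2⟩, ⟨84, 0, 0, 4⟩⟩,
  ⟨39, 10, 43, ⟨80, 4, 0, 0⟩, ⟨82, 0, -2, 0⟩, ⟨84, 0, 0, -4⟩, ⟨84, 2, 0, -2⟩⟩]

theorem tab55_1_ok : allB tab55_1 E.ok = true := by decide +kernel

def tab55_2 : List E := [
  ⟨31, 10, 47, ⟨72, 4, 0, 0⟩, ⟨78, 0, -2, 0⟩, ⟨86, -2, -2, 2⟩, ⟨88, 0, 0, 4⟩⟩,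
  ⟨39, 10, 47, ⟨80, 4, 0, 0⟩, ⟨84, 2, 0, -2⟩, ⟨88, 0, 0, -4⟩, ⟨94, 4, -2, -4⟩⟩,
  ⟨31, 10, 51, ⟨72, 4, 0, 0⟩, ⟨82, 0, -2, 0⟩, ⟨90, -2, -2, 2⟩, ⟨92, 0, 0, 4⟩⟩,
  ⟨29, 10, 53, ⟨72, 4, 0, 0⟩, ⟨82, 0, 2, 0⟩, ⟨94, -2, 2, -2⟩, ⟨96, 0, 0, -4⟩⟩,
  ⟨33, 10, 53, ⟨76, 4, 0, 0⟩, ⟨84, 2, 0, -2⟩, ⟨94, -2, 2, -2⟩, ⟨96, 0, 0, -4⟩⟩,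
  ⟨37, 10, 53, ⟨80, 4, 0, 0⟩, ⟨90, 0, -2, 0⟩, ⟨96, 0, 0, 4⟩, ⟨98, -2, -2, 2⟩⟩,
  ⟨37, 10, 57, ⟨80, 4, 0, 0⟩, ⟨88, 2, 0, -2⟩, ⟨96, 0, 0, -4⟩, ⟨102, -2, 2, -2⟩⟩,
  ⟨39, 10, 59, ⟨80, 4, 0, 0⟩, ⟨98, 0, 2, 0⟩, ⟨100, 0, 0, -4⟩, ⟨106, -2, 2, -2⟩⟩,
  ⟨37, 10, 61, ⟨80, 4, 0, 0⟩, ⟨88, 2, 0, -2⟩, ⟨98, 0, 2, 0⟩, ⟨100, 0, 0, -4⟩⟩,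
  ⟨39, 10, 67, ⟨8, 0, 0, 0⟩, ⟨80, 4, 0, 0⟩, ⟨92, 2, 0, -2⟩, ⟨104, 0, 0, -4⟩⟩]

theorem tab55_2_ok : allB tab55_2 E.ok = true := by decide +kernel

def tab55_3 : List E := [
  ⟨13, 14, 15, ⟨56, 4, 0, 0⟩, ⟨56, -2, 0, -2⟩, ⟨56, 2, 0, -2⟩, ⟨56, 0, -4, 0⟩⟩,
  ⟨11, 14, 17, ⟨52, 4, 0, 0⟩, ⟨56, 2, 0, -2⟩, ⟨56, 0, 4, 0⟩, ⟨64, 0, 0, -4⟩⟩,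
  ⟨13, 14, 19, ⟨56, 4, 0, 0⟩, ⟨60, 2, 0, -2⟩, ⟨64, 0, 4, 0⟩, ⟨68, 0, 0, -4⟩⟩,
  ⟨13, 14, 23, ⟨56, -4, 0, 0⟩, ⟨72, 0, 0, -4⟩, ⟨72, 0, -4, 0⟩, ⟨80, 2, -4, -2⟩⟩,
  ⟨13, 14, 31, ⟨56, 4, 0, 0⟩, ⟨72, 2, 0, -2⟩, ⟨84, 0, 0, -4⟩, ⟨84, 0, 4, 0⟩⟩,
  ⟨11, 14, 37, ⟨52, 4, 0, 0⟩, ⟨72, 2, 0, -2⟩, ⟨84, 0, 4, 0⟩, ⟨92, 0, 0, -4⟩⟩]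

theorem tab55_3_ok : allB tab55_3 E.ok = true := by decide +kernel

def tab55 : List E :=
  tab55_0 ++ (tab55_1 ++ (tab55_2 ++ (tab55_3)))

theorem tab55_ok : allB tab55 E.ok = true :=
  allB_append tab55_0_ok (allB_append tab55_1_ok (allB_append tab55_2_ok tab55_3_ok))

end BQN
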