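import Pool.Agent.BQN.App

/-! Table 0. -/

namespace BQN

def tab0_0 : List E := [
  ⟨1, 5, 2, ⟨10, 2, 0, 0⟩, ⟨8, 0, -4, 0⟩, ⟨10, 2, -2, -2⟩, ⟨10, -2, -2, 2⟩⟩,
  ⟨1, 2, 3, ⟨8, -2, 0, -2⟩, ⟨12, 0, 0, -4⟩, ⟨12, 2, -4, -2⟩, ⟨12, 6, -4, -2⟩⟩,
  ⟨1, 5, 3, ⟨12, 0, -2, 2⟩, ⟨12, -4, -6, 2⟩, ⟨14, 2, 6, 2⟩, ⟨32, 4, -6, -6⟩⟩,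
  ⟨1, 5, 6, ⟨12, 0, -4, 0⟩, ⟨14, 2, -2, -2⟩, ⟨14, -2, -2, 2⟩, ⟨16, 0, -2, -2⟩⟩,
  ⟨1, 13, 6, ⟨10, 2, 0, 0⟩, ⟨12, 0, -4, 0⟩, ⟨20, 4, -6, -2⟩, ⟨20, -4, 6, -2⟩⟩,
  ⟨1, 17, 6, ⟨10, 2, 0, 0⟩, ⟨12, 0, -4, 0⟩, ⟨20, 0, -8, 0⟩, ⟨24, 4, -6, -2⟩⟩,
  ⟨3, 7, 2, ⟨10, 2, 0, 0⟩, ⟨12, 0, -4, 0⟩, ⟨14, -2, 2, -2⟩, ⟨16, 0, 0, -4⟩⟩,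
  ⟨1, 2, 7, ⟨8, 4, 0, 0⟩, ⟨12, 6, -4, -2⟩, ⟨16, 8, -4, -4⟩, ⟨16, 2, -4, -2⟩⟩,
  ⟨1, 5, 7, ⟨12, 0, -4, 0⟩, ⟨14, 2, -2, -2⟩, ⟨14, -2, 2, -2⟩, ⟨20, 4, -6, -2⟩⟩,
  ⟨1, 6, 7, ⟨12, 4, 0, 0⟩, ⟨20, 8, 0, 0⟩, ⟨12, 0, -4, 0⟩, ⟨20, 6, -4, -2⟩⟩]

theorem tab0_0_ok : allB tab0_0 E.ok = true := by decide +kernel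

def tab0_1 : List E := [
  ⟨1, 13, 7, ⟨10, 2, 0, 0⟩, ⟨12, 0, -4, 0⟩, ⟨18, -2, -4, 0⟩, ⟨18, 2, 4, 0⟩⟩,
  ⟨1, 17, 7, ⟨10, 2, 0, 0⟩, ⟨12, 0, -4, 0⟩, ⟨24, 4, -6, -2⟩, ⟨24, -4, 6, -2⟩⟩,
  ⟨1, 3, 10, ⟨8, 4, 0, 0⟩, ⟨12, 4, -2, -2⟩, ⟨12, -4, 2, -2⟩, ⟨20, -4, -4, 0⟩⟩,
  ⟨2, 3, 5, ⟨12, 4, 0, 0⟩, ⟨20, 8, 0, 0⟩, ⟨12, 2, -2, 0⟩, ⟨12, 2, 2, 0⟩⟩,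
  ⟨1, 7, 10, ⟨12, 4, 0, 0⟩, ⟨16, 0, -4, 0⟩, ⟨24, 8, -6, -2⟩, ⟨24, -8, -6, 2⟩⟩,
  ⟨1, 13, 10, ⟨10, 2, 0, 0⟩, ⟨16, 0, -4, 0⟩, ⟨26, 6, -6, -2⟩, ⟨26, 2, -2, -2⟩⟩,
  ⟨1, 17, 10, ⟨10, 2, 0, 0⟩, ⟨10, -2, 0, 0⟩, ⟨28, 0, -8, 0⟩, ⟨30, 2, -2, -2⟩⟩,
  ⟨1, 21, 10, ⟨10, 2, 0, 0⟩, ⟨16, 0, -4, 0⟩, ⟨22, -2, 4, 0⟩, ⟨32, -4, 6, -2⟩⟩,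
  ⟨1, 29, 10, ⟨14, 2, 0, 0⟩, ⟨24, 4, 0, 0⟩, ⟨16, 0, -4, 0⟩, ⟨28, 0, -8, 0⟩⟩,
  ⟨1, 33, 10, ⟨14, 2, 0, 0⟩, ⟨24, 4, 0, 0⟩, ⟨16, 0, -4, 0⟩, ⟨28, 0, -8, 0⟩⟩]

theorem tab0_1_ok : allB tab0_1 E.ok = true := by decide +kernel

def tab0_2 : List E := [
  ⟨1, 37, 10, ⟨14, 2, 0, 0⟩, ⟨14, -2, 0, 0⟩, ⟨16, 0, -4, 0⟩, ⟨28, 0, -8, 0⟩⟩,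
  ⟨1, 2, 11, ⟨8, 4, 0, 0⟩, ⟨16, 6, -4, -2⟩, ⟨20, 0, 0, -4⟩, ⟨20, 2, -4, -2⟩⟩,
  ⟨1, 5, 11, ⟨18, 2, -2, -2⟩, ⟨18, -2, -4, 0⟩, ⟨18, 2, 4, 0⟩, ⟨20, 4, -2, -2⟩⟩,
  ⟨1, 6, 11, ⟨12, 4, 0, 0⟩, ⟨20, 8, 0, 0⟩, ⟨16, 0, -4, 0⟩, ⟨20, 6, -4, -2⟩⟩,
  ⟨1, 7, 11, ⟨12, 4, 0, 0⟩, ⟨12, -2, -2, 0⟩, ⟨12, 2, -2, 0⟩, ⟨16, 0, -4, 0⟩⟩,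
  ⟨1, 10, 11, ⟨16, 4, 0, 0⟩, ⟨16, 0, -4, 0⟩, ⟨28, 2, -4, -2⟩, ⟨28, 2, 0, 2⟩⟩,
  ⟨1, 13, 11, ⟨10, 2, 0, 0⟩, ⟨16, 0, -4, 0⟩, ⟨26, 6, -6, -2⟩, ⟨26, 2, -2, -2⟩⟩,
  ⟨1, 17, 11, ⟨10, 2, 0, 0⟩, ⟨16, 0, -4, 0⟩, ⟨22, -2, -4, 0⟩, ⟨30, 2, -2, -2⟩⟩,
  ⟨1, 21, 11, ⟨10, 2, 0, 0⟩, ⟨16, 0, -4, 0⟩, ⟨32, 4, -6, -2⟩, ⟨32, -4, 6, -2⟩⟩,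
  ⟨1, 29, 11, ⟨14, 2, 0, 0⟩, ⟨24, 4, 0, 0⟩, ⟨16, 0, -4, 0⟩, ⟨28, 0, -8, 0⟩⟩]

theorem tab0_2_ok : allB tab0_2 E.ok = true := by decide +kernel

def tab0_3 : List E := [
  ⟨1, 37, 11, ⟨8, 0, 0, 0⟩, ⟨14, 2, 0, 0⟩, ⟨26, -2, -4, 0⟩, ⟨28, 0, -8, 0⟩⟩,
  ⟨1, 41, 11, ⟨8, 0, 0, 0⟩, ⟨14, 2, 0, 0⟩, ⟨14, -2, 0, 0⟩, ⟨28, 0, -8, 0⟩⟩,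
  ⟨1, 2, 13, ⟨8, 4, 0, 0⟩, ⟨10, 0, -2, 0⟩, ⟨14, 6, -2, -2⟩, ⟨14, -4, -2, 0⟩⟩,
  ⟨1, 3, 13, ⟨8, 4, 0, 0⟩, ⟨10, 0, -2, 0⟩, ⟨16, -2, 0, -2⟩, ⟨18, 2, -2, -2⟩⟩,
  ⟨1, 5, 13, ⟨10, 2, 0, 0⟩, ⟨10, 0, -2, 0⟩, ⟨12, -2, -2, 0⟩, ⟨12, 2, -2, 0⟩⟩,
  ⟨1, 3, 14, ⟨8, 4, 0, 0⟩, ⟨16, 4, -2, -2⟩, ⟨16, -4, 2, -2⟩, ⟨16, 0, -4, 0⟩⟩,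
  ⟨1, 5, 14, ⟨16, 0, -4, 0⟩, ⟨20, 4, -2, -2⟩, ⟨24, -4, -4, 0⟩, ⟨24, 4, 4, 0⟩⟩,
  ⟨2, 5, 7, ⟨16, 4, 0, 0⟩, ⟨16, 0, -4, 0⟩, ⟨16, 2, -2, 0⟩, ⟨28, -4, -4, 0⟩⟩,
  ⟨1, 11, 14, ⟨16, 4, 0, 0⟩, ⟨16, 0, -4, 0⟩, ⟨32, 8, -6, -2⟩, ⟨32, 4, -2, -2⟩⟩,
  ⟨1, 13, 14, ⟨10, 2, 0, 0⟩, ⟨16, 0, -4, 0⟩, ⟨30, 6, -6, -2⟩, ⟨30, 2, -2, -2⟩⟩]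

theorem tab0_3_ok : allB tab0_3 E.ok = true := by decide +kernel

def tab0_4 : List E := [
  ⟨1, 17, 14, ⟨10, 2, 0, 0⟩, ⟨16, 0, -4, 0⟩, ⟨32, -4, -4, 0⟩, ⟨34, 6, -6, -2⟩⟩,
  ⟨1, 29, 14, ⟨8, 0, 0, 0⟩, ⟨16, 0, -4, 0⟩, ⟨26, -2, -4, 0⟩, ⟨26, 2, 4, 0⟩⟩,
  ⟨1, 33, 14, ⟨8, 0, 0, 0⟩, ⟨24, 4, 0, 0⟩, ⟨24, -4, 0, 0⟩, ⟨16, 0, -4, 0⟩⟩,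
  ⟨1, 37, 14, ⟨8, 0, 0, 0⟩, ⟨14, 2, 0, 0⟩, ⟨14, -2, 0, 0⟩, ⟨16, 0, -4, 0⟩⟩,
  ⟨1, 41, 14, ⟨8, 0, 0, 0⟩, ⟨14, 2, 0, 0⟩, ⟨14, -2, 0, 0⟩, ⟨16, 0, -4, 0⟩⟩,
  ⟨1, 53, 14, ⟨18, 2, 0, 0⟩, ⟨16, 0, -4, 0⟩, ⟨16, 0, 4, 0⟩, ⟨30, -2, -4, 0⟩⟩,
  ⟨1, 2, 15, ⟨8, 4, 0, 0⟩, ⟨16, 0, -4, 0⟩, ⟨20, -6, 0, -2⟩, ⟨20, 6, 0, -2⟩⟩,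
  ⟨1, 7, 15, ⟨12, 4, 0, 0⟩, ⟨16, 0, -4, 0⟩, ⟨24, -6, -2, 0⟩, ⟨26, -2, -2, 2⟩⟩,
  ⟨1, 11, 15, ⟨16, 4, 0, 0⟩, ⟨16, 0, -4, 0⟩, ⟨16, 2, -2, 0⟩, ⟨28, 6, -2, 0⟩⟩,
  ⟨1, 13, 15, ⟨10, 2, 0, 0⟩, ⟨16, 0, -4, 0⟩, ⟨30, 6, -6, -2⟩, ⟨30, 2, -2, -2⟩⟩]

theorem tab0_4_ok : allB tab0_4 E.ok = true := by decide +kernel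

def tab0 : List E :=
  tab0_0 ++ (tab0_1 ++ (tab0_2 ++ (tab0_3 ++ (tab0_4))))

theorem tab0_ok : allB tab0 E.ok = true :=
  allB_append tab0_0_ok (allB_append tab0_1_ok (allB_append tab0_2_ok (allB_append tab0_3_ok
  tab0_4_ok)))

end BQN
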