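import Pool.Agent.BQN.App

/-! Table 16. -/

namespace BQN

def tab16_0 : List E := [
  ⟨2, 17, 37, ⟨8, 0, 0, 0⟩, ⟨24, 4, 0, 0⟩, ⟨24, -4, 0, 0⟩, ⟨36, 0, -4, 0⟩⟩,
  ⟨2, 19, 37, ⟨28, 4, 0, 0⟩, ⟨32, 2, -2, 0⟩, ⟨36, 0, -4, 0⟩, ⟨36, 0, 4, 0⟩⟩,
  ⟨2, 21, 37, ⟨8, 0, 0, 0⟩, ⟨28, 4, 0, 0⟩, ⟨32, 2, -2, 0⟩, ⟨36, 0, -4, 0⟩⟩,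
  ⟨1, 2, 77, ⟨8, 4, 0, 0⟩, ⟨18, 0, -2, 0⟩, ⟨28, -2, 0, -2⟩, ⟨28, 2, 0, -2⟩⟩,
  ⟨1, 3, 77, ⟨8, 4, 0, 0⟩, ⟨18, 0, -2, 0⟩, ⟨34, 10, -2, -2⟩, ⟨34, -10, 2, -2⟩⟩,
  ⟨1, 5, 77, ⟨18, 0, -2, 0⟩, ⟨23, 3, -1, -1⟩, ⟨23, -3, 1, -1⟩, ⟨25, 5, -1, -1⟩⟩,
  ⟨1, 6, 77, ⟨12, 4, 0, 0⟩, ⟨12, -4, 0, 0⟩, ⟨20, 8, 0, 0⟩, ⟨18, 0, -2, 0⟩⟩,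
  ⟨1, 10, 77, ⟨16, 4, 0, 0⟩, ⟨28, 8, 0, 0⟩, ⟨18, 0, -2, 0⟩, ⟨36, 0, -4, 0⟩⟩,
  ⟨1, 13, 77, ⟨10, 2, 0, 0⟩, ⟨18, 0, -2, 0⟩, ⟨33, 7, -3, -1⟩, ⟨33, -7, 3, -1⟩⟩,
  ⟨7, 2, 11, ⟨16, 4, 0, 0⟩, ⟨18, 0, -2, 0⟩, ⟨20, 0, 0, -4⟩, ⟨20, 2, 0, -2⟩⟩]

theorem tab16_0_ok : allB tab16_0 E.ok = true := by decide +kernel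

def tab16_1 : List E := [
  ⟨1, 15, 77, ⟨8, 0, 0, 0⟩, ⟨16, 4, 0, 0⟩, ⟨18, 0, -2, 0⟩, ⟨36, 0, -4, 0⟩⟩,
  ⟨1, 17, 77, ⟨8, 0, 0, 0⟩, ⟨10, 2, 0, 0⟩, ⟨10, -2, 0, 0⟩, ⟨18, 0, -2, 0⟩⟩,
  ⟨1, 19, 77, ⟨20, 4, 0, 0⟩, ⟨20, -4, 0, 0⟩, ⟨18, 0, -2, 0⟩, ⟨36, 0, -4, 0⟩⟩,
  ⟨1, 29, 77, ⟨14, 2, 0, 0⟩, ⟨24, 4, 0, 0⟩, ⟨18, 0, -2, 0⟩, ⟨36, 0, -4, 0⟩⟩,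
  ⟨1, 37, 77, ⟨8, 0, 0, 0⟩, ⟨14, 2, 0, 0⟩, ⟨14, -2, 0, 0⟩, ⟨18, 0, -2, 0⟩⟩,
  ⟨1, 41, 77, ⟨8, 0, 0, 0⟩, ⟨14, 2, 0, 0⟩, ⟨14, -2, 0, 0⟩, ⟨18, 0, -2, 0⟩⟩,
  ⟨1, 53, 77, ⟨18, 2, 0, 0⟩, ⟨32, 4, 0, 0⟩, ⟨18, 0, -2, 0⟩, ⟨36, 0, -4, 0⟩⟩,
  ⟨1, 57, 77, ⟨8, 0, 0, 0⟩, ⟨32, 4, 0, 0⟩, ⟨18, 0, -2, 0⟩, ⟨36, 0, -4, 0⟩⟩,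
  ⟨1, 61, 77, ⟨18, 2, 0, 0⟩, ⟨32, 4, 0, 0⟩, ⟨18, 0, -2, 0⟩, ⟨36, 0, -4, 0⟩⟩,
  ⟨1, 65, 77, ⟨8, 0, 0, 0⟩, ⟨18, 2, 0, 0⟩, ⟨18, 0, -2, 0⟩, ⟨36, 0, -4, 0⟩⟩]

theorem tab16_1_ok : allB tab16_1 E.ok = true := by decide +kernel

def tab16_2 : List E := [
  ⟨1, 69, 77, ⟨8, 0, 0, 0⟩, ⟨18, 2, 0, 0⟩, ⟨18, -2, 0, 0⟩, ⟨18, 0, -2, 0⟩⟩,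
  ⟨1, 73, 77, ⟨8, 0, 0, 0⟩, ⟨18, 2, 0, 0⟩, ⟨18, -2, 0, 0⟩, ⟨18, 0, -2, 0⟩⟩,
  ⟨2, 5, 39, ⟨16, 4, 0, 0⟩, ⟨24, -2, -2, 0⟩, ⟨24, 2, -2, 0⟩, ⟨36, 0, -4, 0⟩⟩,
  ⟨2, 11, 39, ⟨20, 4, 0, 0⟩, ⟨28, 2, -2, 0⟩, ⟨36, 0, -4, 0⟩, ⟨42, 0, 0, -2⟩⟩,
  ⟨2, 17, 39, ⟨8, 0, 0, 0⟩, ⟨24, 4, 0, 0⟩, ⟨24, -4, 0, 0⟩, ⟨36, 0, -4, 0⟩⟩,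
  ⟨1, 2, 79, ⟨8, 4, 0, 0⟩, ⟨28, -2, 0, -2⟩, ⟨28, 2, 0, -2⟩, ⟨28, -2, 0, 2⟩⟩,
  ⟨1, 7, 79, ⟨8, 0, 0, 0⟩, ⟨12, 4, 0, 0⟩, ⟨24, 2, -2, 0⟩, ⟨36, 0, -4, 0⟩⟩,
  ⟨1, 11, 79, ⟨8, 0, 0, 0⟩, ⟨28, 8, 0, 0⟩, ⟨36, 0, -4, 0⟩, ⟨36, 0, 4, 0⟩⟩,
  ⟨1, 15, 79, ⟨16, 4, 0, 0⟩, ⟨28, -2, -2, 0⟩, ⟨28, 2, -2, 0⟩, ⟨36, 0, -4, 0⟩⟩,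
  ⟨1, 19, 79, ⟨20, 4, 0, 0⟩, ⟨28, 2, -2, 0⟩, ⟨36, 0, -4, 0⟩, ⟨44, -6, -2, 0⟩⟩]

theorem tab16_2_ok : allB tab16_2 E.ok = true := by decide +kernel

def tab16_3 : List E := [
  ⟨1, 23, 79, ⟨8, 0, 0, 0⟩, ⟨20, 4, 0, 0⟩, ⟨28, 2, -2, 0⟩, ⟨36, 0, -4, 0⟩⟩,
  ⟨1, 3, 82, ⟨8, 4, 0, 0⟩, ⟨36, 8, -2, -2⟩, ⟨36, 12, -2, -2⟩, ⟨36, -12, 2, -2⟩⟩,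
  ⟨2, 3, 41, ⟨12, 4, 0, 0⟩, ⟨20, 8, 0, 0⟩, ⟨24, 2, -2, 0⟩, ⟨40, 0, -4, 0⟩⟩,
  ⟨2, 7, 41, ⟨16, 4, 0, 0⟩, ⟨16, -4, 0, 0⟩, ⟨28, -2, -2, 0⟩, ⟨40, 0, -4, 0⟩⟩,
  ⟨2, 11, 41, ⟨20, 4, 0, 0⟩, ⟨28, -2, -2, 0⟩, ⟨28, 2, -2, 0⟩, ⟨40, 0, -4, 0⟩⟩,
  ⟨2, 13, 41, ⟨24, 4, 0, 0⟩, ⟨32, -2, -2, 0⟩, ⟨32, 2, -2, 0⟩, ⟨40, 0, -4, 0⟩⟩,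
  ⟨2, 15, 41, ⟨24, 4, 0, 0⟩, ⟨24, -4, 0, 0⟩, ⟨32, -2, -2, 0⟩, ⟨40, 0, -4, 0⟩⟩,
  ⟨2, 17, 41, ⟨24, 4, 0, 0⟩, ⟨24, -4, 0, 0⟩, ⟨32, -2, -2, 0⟩, ⟨40, 0, -4, 0⟩⟩,
  ⟨2, 19, 41, ⟨28, 4, 0, 0⟩, ⟨32, -2, -2, 0⟩, ⟨32, 2, -2, 0⟩, ⟨40, 0, -4, 0⟩⟩,
  ⟨2, 21, 41, ⟨28, 4, 0, 0⟩, ⟨32, -2, -2, 0⟩, ⟨32, 2, -2, 0⟩, ⟨40, 0, -4, 0⟩⟩]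

theorem tab16_3_ok : allB tab16_3 E.ok = true := by decide +kernel

def tab16_4 : List E := [
  ⟨2, 23, 41, ⟨8, 0, 0, 0⟩, ⟨28, 4, 0, 0⟩, ⟨32, 2, -2, 0⟩, ⟨32, 2, 2, 0⟩⟩,
  ⟨2, 29, 41, ⟨32, 4, 0, 0⟩, ⟨32, -4, 0, 0⟩, ⟨36, -2, -2, 0⟩, ⟨40, 0, -4, 0⟩⟩,
  ⟨1, 2, 83, ⟨8, 4, 0, 0⟩, ⟨40, 18, -4, -2⟩, ⟨40, -10, 0, -2⟩, ⟨40, 10, 0, -2⟩⟩,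
  ⟨1, 7, 83, ⟨12, 4, 0, 0⟩, ⟨24, -2, -2, 0⟩, ⟨24, 2, -2, 0⟩, ⟨40, 0, -4, 0⟩⟩,
  ⟨1, 10, 83, ⟨16, -4, 0, 0⟩, ⟨40, 0, -4, 0⟩, ⟨64, 10, -4, -2⟩, ⟨64, -2, 0, -2⟩⟩,
  ⟨1, 11, 83, ⟨16, 4, 0, 0⟩, ⟨28, 8, 0, 0⟩, ⟨28, 2, -2, 0⟩, ⟨40, 0, -4, 0⟩⟩,
  ⟨1, 15, 83, ⟨16, 4, 0, 0⟩, ⟨28, -2, -2, 0⟩, ⟨28, 2, -2, 0⟩, ⟨40, 0, -4, 0⟩⟩,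
  ⟨1, 19, 83, ⟨20, 4, 0, 0⟩, ⟨28, -2, -2, 0⟩, ⟨28, 2, -2, 0⟩, ⟨40, 0, -4, 0⟩⟩,
  ⟨1, 23, 83, ⟨20, 4, 0, 0⟩, ⟨28, -2, -2, 0⟩, ⟨28, 2, -2, 0⟩, ⟨28, -2, 2, 0⟩⟩,
  ⟨1, 31, 83, ⟨24, 4, 0, 0⟩, ⟨24, -4, 0, 0⟩, ⟨32, -2, -2, 0⟩, ⟨40, 0, -4, 0⟩⟩]

theorem tab16_4_ok : allB tab16_4 E.ok = true := by decide +kernel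

def tab16 : List E :=
  tab16_0 ++ (tab16_1 ++ (tab16_2 ++ (tab16_3 ++ (tab16_4))))

theorem tab16_ok : allB tab16 E.ok = true :=
  allB_append tab16_0_ok (allB_append tab16_1_ok (allB_append tab16_2_ok (allB_append tab16_3_ok
  tab16_4_ok)))

end BQN
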