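import Pool.Agent.BQN.App

/-! Table 32. -/

namespace BQN

def tab32_0 : List E := [
  ⟨1, 11, 181, ⟨16, -4, 0, 0⟩, ⟨28, -8, 0, 0⟩, ⟨30, 0, -2, 0⟩, ⟨54, -8, -2, 0⟩⟩,
  ⟨1, 13, 181, ⟨10, 2, 0, 0⟩, ⟨10, -2, 0, 0⟩, ⟨30, 0, -2, 0⟩, ⟨42, -4, -2, 0⟩⟩,
  ⟨1, 14, 181, ⟨16, 4, 0, 0⟩, ⟨30, 0, -2, 0⟩, ⟨42, -4, -2, 0⟩, ⟨42, 4, 2, 0⟩⟩,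
  ⟨1, 15, 181, ⟨8, 0, 0, 0⟩, ⟨16, 4, 0, 0⟩, ⟨30, 0, -2, 0⟩, ⟨30, 0, 2, 0⟩⟩,
  ⟨1, 17, 181, ⟨8, 0, 0, 0⟩, ⟨10, 2, 0, 0⟩, ⟨10, -2, 0, 0⟩, ⟨36, -2, -2, 0⟩⟩,
  ⟨1, 19, 181, ⟨20, 4, 0, 0⟩, ⟨20, -4, 0, 0⟩, ⟨30, 0, -2, 0⟩, ⟨30, 0, 2, 0⟩⟩,
  ⟨1, 21, 181, ⟨8, 0, 0, 0⟩, ⟨10, 2, 0, 0⟩, ⟨46, -4, -2, 0⟩, ⟨46, 4, 2, 0⟩⟩,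
  ⟨1, 22, 181, ⟨8, 0, 0, 0⟩, ⟨20, 4, 0, 0⟩, ⟨20, -4, 0, 0⟩, ⟨46, -4, -2, 0⟩⟩,
  ⟨1, 23, 181, ⟨20, 4, 0, 0⟩, ⟨20, -4, 0, 0⟩, ⟨30, 0, -2, 0⟩, ⟨56, 0, -4, 0⟩⟩,
  ⟨1, 26, 181, ⟨24, 4, 0, 0⟩, ⟨24, -4, 0, 0⟩, ⟨30, 0, -2, 0⟩, ⟨56, 0, -4, 0⟩⟩]

theorem tab32_0_ok : allB tab32_0 E.ok = true := by decide +kernel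

def tab32_1 : List E := [
  ⟨1, 29, 181, ⟨14, 2, 0, 0⟩, ⟨24, 4, 0, 0⟩, ⟨30, 0, -2, 0⟩, ⟨30, 0, 2, 0⟩⟩,
  ⟨1, 30, 181, ⟨24, 4, 0, 0⟩, ⟨24, -4, 0, 0⟩, ⟨30, 0, -2, 0⟩, ⟨56, 0, -4, 0⟩⟩,
  ⟨1, 31, 181, ⟨24, 4, 0, 0⟩, ⟨24, -4, 0, 0⟩, ⟨30, 0, -2, 0⟩, ⟨56, 0, -4, 0⟩⟩,
  ⟨1, 33, 181, ⟨14, 2, 0, 0⟩, ⟨30, 0, -2, 0⟩, ⟨50, 4, -2, 0⟩, ⟨50, -4, 2, 0⟩⟩,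
  ⟨1, 34, 181, ⟨24, 4, 0, 0⟩, ⟨24, -4, 0, 0⟩, ⟨30, 0, -2, 0⟩, ⟨56, 0, -4, 0⟩⟩,
  ⟨1, 35, 181, ⟨8, 0, 0, 0⟩, ⟨24, 4, 0, 0⟩, ⟨30, 0, -2, 0⟩, ⟨56, 0, -4, 0⟩⟩,
  ⟨1, 37, 181, ⟨8, 0, 0, 0⟩, ⟨14, 2, 0, 0⟩, ⟨14, -2, 0, 0⟩, ⟨30, 0, -2, 0⟩⟩,
  ⟨1, 38, 181, ⟨28, 4, 0, 0⟩, ⟨28, -4, 0, 0⟩, ⟨30, 0, -2, 0⟩, ⟨56, 0, -4, 0⟩⟩,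
  ⟨1, 39, 181, ⟨28, 4, 0, 0⟩, ⟨28, -4, 0, 0⟩, ⟨30, 0, -2, 0⟩, ⟨56, 0, -4, 0⟩⟩,
  ⟨1, 41, 181, ⟨8, 0, 0, 0⟩, ⟨14, 2, 0, 0⟩, ⟨14, -2, 0, 0⟩, ⟨40, -2, -2, 0⟩⟩]

theorem tab32_1_ok : allB tab32_1 E.ok = true := by decide +kernel

def tab32_2 : List E := [
  ⟨1, 42, 181, ⟨28, 4, 0, 0⟩, ⟨28, -4, 0, 0⟩, ⟨30, 0, -2, 0⟩, ⟨56, 0, -4, 0⟩⟩,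
  ⟨1, 43, 181, ⟨28, 4, 0, 0⟩, ⟨28, -4, 0, 0⟩, ⟨30, 0, -2, 0⟩, ⟨56, 0, -4, 0⟩⟩,
  ⟨1, 53, 181, ⟨18, 2, 0, 0⟩, ⟨32, 4, 0, 0⟩, ⟨30, 0, -2, 0⟩, ⟨30, 0, 2, 0⟩⟩,
  ⟨1, 57, 181, ⟨18, 2, 0, 0⟩, ⟨32, 4, 0, 0⟩, ⟨30, 0, -2, 0⟩, ⟨30, 0, 2, 0⟩⟩,
  ⟨1, 61, 181, ⟨18, 2, 0, 0⟩, ⟨32, 4, 0, 0⟩, ⟨30, 0, -2, 0⟩, ⟨30, 0, 2, 0⟩⟩,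
  ⟨1, 65, 181, ⟨8, 0, 0, 0⟩, ⟨18, 2, 0, 0⟩, ⟨30, 0, -2, 0⟩, ⟨44, 2, -2, 0⟩⟩,
  ⟨1, 69, 181, ⟨8, 0, 0, 0⟩, ⟨18, 2, 0, 0⟩, ⟨44, 2, -2, 0⟩, ⟨44, 2, 2, 0⟩⟩,
  ⟨1, 73, 181, ⟨18, 2, 0, 0⟩, ⟨30, 0, -2, 0⟩, ⟨44, -2, -2, 0⟩, ⟨44, 2, -2, 0⟩⟩,
  ⟨1, 77, 181, ⟨8, 0, 0, 0⟩, ⟨18, 2, 0, 0⟩, ⟨30, 0, -2, 0⟩, ⟨56, 0, -4, 0⟩⟩,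
  ⟨1, 85, 181, ⟨22, 2, 0, 0⟩, ⟨30, 0, -2, 0⟩, ⟨48, 2, -2, 0⟩, ⟨56, 0, -4, 0⟩⟩]

theorem tab32_2_ok : allB tab32_2 E.ok = true := by decide +kernel

def tab32_3 : List E := [
  ⟨1, 89, 181, ⟨22, 2, 0, 0⟩, ⟨22, -2, 0, 0⟩, ⟨30, 0, -2, 0⟩, ⟨56, 0, -4, 0⟩⟩,
  ⟨1, 93, 181, ⟨22, 2, 0, 0⟩, ⟨22, -2, 0, 0⟩, ⟨30, 0, -2, 0⟩, ⟨56, 0, -4, 0⟩⟩,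
  ⟨1, 97, 181, ⟨22, 2, 0, 0⟩, ⟨22, -2, 0, 0⟩, ⟨30, 0, -2, 0⟩, ⟨56, 0, -4, 0⟩⟩,
  ⟨1, 101, 181, ⟨22, 2, 0, 0⟩, ⟨22, -2, 0, 0⟩, ⟨30, 0, -2, 0⟩, ⟨56, 0, -4, 0⟩⟩,
  ⟨1, 105, 181, ⟨8, 0, 0, 0⟩, ⟨22, 2, 0, 0⟩, ⟨30, 0, -2, 0⟩, ⟨48, 2, -2, 0⟩⟩,
  ⟨1, 109, 181, ⟨22, 2, 0, 0⟩, ⟨22, -2, 0, 0⟩, ⟨30, 0, -2, 0⟩, ⟨48, -2, -2, 0⟩⟩,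
  ⟨1, 113, 181, ⟨22, 2, 0, 0⟩, ⟨22, -2, 0, 0⟩, ⟨30, 0, -2, 0⟩, ⟨56, 0, -4, 0⟩⟩,
  ⟨1, 129, 181, ⟨26, 2, 0, 0⟩, ⟨26, -2, 0, 0⟩, ⟨30, 0, -2, 0⟩, ⟨56, 0, -4, 0⟩⟩,
  ⟨1, 133, 181, ⟨26, 2, 0, 0⟩, ⟨30, 0, -2, 0⟩, ⟨52, 2, -2, 0⟩, ⟨56, 0, -4, 0⟩⟩,
  ⟨1, 137, 181, ⟨26, 2, 0, 0⟩, ⟨26, -2, 0, 0⟩, ⟨30, 0, -2, 0⟩, ⟨56, 0, -4, 0⟩⟩]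

theorem tab32_3_ok : allB tab32_3 E.ok = true := by decide +kernel

def tab32_4 : List E := [
  ⟨1, 141, 181, ⟨26, 2, 0, 0⟩, ⟨26, -2, 0, 0⟩, ⟨30, 0, -2, 0⟩, ⟨56, 0, -4, 0⟩⟩,
  ⟨1, 145, 181, ⟨26, 2, 0, 0⟩, ⟨26, -2, 0, 0⟩, ⟨30, 0, -2, 0⟩, ⟨56, 0, -4, 0⟩⟩,
  ⟨1, 149, 181, ⟨26, 2, 0, 0⟩, ⟨26, -2, 0, 0⟩, ⟨30, 0, -2, 0⟩, ⟨56, 0, -4, 0⟩⟩,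
  ⟨1, 157, 181, ⟨26, 2, 0, 0⟩, ⟨26, -2, 0, 0⟩, ⟨30, 0, -2, 0⟩, ⟨52, -2, -2, 0⟩⟩,
  ⟨1, 161, 181, ⟨26, 2, 0, 0⟩, ⟨26, -2, 0, 0⟩, ⟨30, 0, -2, 0⟩, ⟨56, 0, -4, 0⟩⟩,
  ⟨1, 165, 181, ⟨8, 0, 0, 0⟩, ⟨26, 2, 0, 0⟩, ⟨30, 0, -2, 0⟩, ⟨56, 0, -4, 0⟩⟩,
  ⟨1, 173, 181, ⟨30, 2, 0, 0⟩, ⟨30, -2, 0, 0⟩, ⟨30, 0, -2, 0⟩, ⟨56, 0, -4, 0⟩⟩,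
  ⟨1, 177, 181, ⟨30, 2, 0, 0⟩, ⟨30, -2, 0, 0⟩, ⟨30, 0, -2, 0⟩, ⟨56, 0, -4, 0⟩⟩,
  ⟨1, 2, 185, ⟨8, 4, 0, 0⟩, ⟨30, 0, -2, 0⟩, ⟨34, -4, -2, 0⟩, ⟨42, 18, -2, -2⟩⟩,
  ⟨1, 3, 185, ⟨8, 4, 0, 0⟩, ⟨30, 0, -2, 0⟩, ⟨42, -8, -2, 0⟩, ⟨42, 8, -2, 0⟩⟩]

theorem tab32_4_ok : allB tab32_4 E.ok = true := by decide +kernel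

def tab32 : List E :=
  tab32_0 ++ (tab32_1 ++ (tab32_2 ++ (tab32_3 ++ (tab32_4))))

theorem tab32_ok : allB tab32 E.ok = true :=
  allB_append tab32_0_ok (allB_append tab32_1_ok (allB_append tab32_2_ok (allB_append tab32_3_ok
  tab32_4_ok)))

end BQN
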