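import Pool.Agent.BQN.App

/-! Table 43. -/

namespace BQN

def tab43_0 : List E := [
  ⟨2, 3, 61, ⟨12, 4, 0, 0⟩, ⟨20, 8, 0, 0⟩, ⟨28, -2, -2, 0⟩, ⟨28, 2, -2, 0⟩⟩,
  ⟨2, 7, 61, ⟨16, 4, 0, 0⟩, ⟨16, -4, 0, 0⟩, ⟨32, -2, -2, 0⟩, ⟨48, 0, -4, 0⟩⟩,
  ⟨2, 11, 61, ⟨20, 4, 0, 0⟩, ⟨32, -2, -2, 0⟩, ⟨32, 2, -2, 0⟩, ⟨48, 0, -4, 0⟩⟩,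
  ⟨2, 13, 61, ⟨24, -4, 0, 0⟩, ⟨36, -2, -2, 0⟩, ⟨48, 0, -4, 0⟩, ⟨56, -6, -2, 0⟩⟩,
  ⟨2, 15, 61, ⟨24, -4, 0, 0⟩, ⟨36, -2, -2, 0⟩, ⟨48, 0, -4, 0⟩, ⟨56, -6, -2, 0⟩⟩,
  ⟨2, 17, 61, ⟨24, 4, 0, 0⟩, ⟨24, -4, 0, 0⟩, ⟨36, -2, -2, 0⟩, ⟨48, 0, -4, 0⟩⟩,
  ⟨2, 19, 61, ⟨28, 4, 0, 0⟩, ⟨36, -2, -2, 0⟩, ⟨36, 2, -2, 0⟩, ⟨48, 0, -4, 0⟩⟩,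
  ⟨2, 21, 61, ⟨28, 4, 0, 0⟩, ⟨36, -2, -2, 0⟩, ⟨36, 2, -2, 0⟩, ⟨48, 0, -4, 0⟩⟩,
  ⟨2, 23, 61, ⟨8, 0, 0, 0⟩, ⟨28, 4, 0, 0⟩, ⟨36, 2, -2, 0⟩, ⟨36, 2, 2, 0⟩⟩,
  ⟨1, 7, 123, ⟨8, 0, 0, 0⟩, ⟨12, 4, 0, 0⟩, ⟨28, -2, -2, 0⟩, ⟨28, 2, -2, 0⟩⟩]

theorem tab43_0_ok : allB tab43_0 E.ok = true := by decide +kernel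

def tab43_1 : List E := [
  ⟨1, 11, 123, ⟨16, 4, 0, 0⟩, ⟨28, 8, 0, 0⟩, ⟨32, 2, -2, 0⟩, ⟨48, 0, -4, 0⟩⟩,
  ⟨1, 19, 123, ⟨20, 4, 0, 0⟩, ⟨32, -2, -2, 0⟩, ⟨32, 2, -2, 0⟩, ⟨48, 0, -4, 0⟩⟩,
  ⟨1, 23, 123, ⟨20, 4, 0, 0⟩, ⟨32, -2, -2, 0⟩, ⟨32, 2, -2, 0⟩, ⟨48, 0, -4, 0⟩⟩,
  ⟨1, 31, 123, ⟨24, 4, 0, 0⟩, ⟨36, 2, -2, 0⟩, ⟨48, 0, -4, 0⟩, ⟨56, -6, -2, 0⟩⟩,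
  ⟨1, 35, 123, ⟨24, 4, 0, 0⟩, ⟨36, -2, -2, 0⟩, ⟨36, 2, -2, 0⟩, ⟨48, 0, -4, 0⟩⟩,
  ⟨3, 13, 41, ⟨28, 4, 0, 0⟩, ⟨36, 2, -2, 0⟩, ⟨48, 0, -4, 0⟩, ⟨50, 0, 0, 2⟩⟩,
  ⟨1, 43, 123, ⟨8, 0, 0, 0⟩, ⟨28, 4, 0, 0⟩, ⟨36, 2, -2, 0⟩, ⟨36, 2, 2, 0⟩⟩,
  ⟨1, 47, 123, ⟨28, 4, 0, 0⟩, ⟨36, -2, -2, 0⟩, ⟨36, 2, -2, 0⟩, ⟨36, -2, 2, 0⟩⟩,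
  ⟨1, 7, 127, ⟨8, 0, 0, 0⟩, ⟨12, 4, 0, 0⟩, ⟨28, -2, -2, 0⟩, ⟨28, 2, -2, 0⟩⟩,
  ⟨1, 11, 127, ⟨16, 4, 0, 0⟩, ⟨28, 8, 0, 0⟩, ⟨32, 2, -2, 0⟩, ⟨48, 0, -4, 0⟩⟩]

theorem tab43_1_ok : allB tab43_1 E.ok = true := by decide +kernel

def tab43_2 : List E := [
  ⟨1, 15, 127, ⟨16, 4, 0, 0⟩, ⟨32, -2, -2, 0⟩, ⟨32, 2, -2, 0⟩, ⟨48, 0, -4, 0⟩⟩,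
  ⟨1, 19, 127, ⟨20, 4, 0, 0⟩, ⟨32, -2, -2, 0⟩, ⟨32, 2, -2, 0⟩, ⟨48, 0, -4, 0⟩⟩,
  ⟨1, 23, 127, ⟨20, 4, 0, 0⟩, ⟨36, -2, -2, 0⟩, ⟨48, 0, -4, 0⟩, ⟨52, 6, -2, 0⟩⟩,
  ⟨1, 31, 127, ⟨24, 4, 0, 0⟩, ⟨36, 2, -2, 0⟩, ⟨48, 0, -4, 0⟩, ⟨56, -6, -2, 0⟩⟩,
  ⟨1, 35, 127, ⟨24, 4, 0, 0⟩, ⟨36, -2, -2, 0⟩, ⟨36, 2, -2, 0⟩, ⟨48, 0, -4, 0⟩⟩,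
  ⟨1, 39, 127, ⟨28, 4, 0, 0⟩, ⟨36, -2, -2, 0⟩, ⟨36, 2, -2, 0⟩, ⟨48, 0, -4, 0⟩⟩,
  ⟨1, 43, 127, ⟨8, 0, 0, 0⟩, ⟨28, 4, 0, 0⟩, ⟨36, 2, -2, 0⟩, ⟨36, 2, 2, 0⟩⟩,
  ⟨2, 3, 65, ⟨12, 4, 0, 0⟩, ⟨20, 8, 0, 0⟩, ⟨28, -2, -2, 0⟩, ⟨28, 2, -2, 0⟩⟩,
  ⟨2, 7, 65, ⟨8, 0, 0, 0⟩, ⟨16, 4, 0, 0⟩, ⟨32, 2, -2, 0⟩, ⟨48, 0, -4, 0⟩⟩,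
  ⟨2, 11, 65, ⟨20, 4, 0, 0⟩, ⟨36, 2, -2, 0⟩, ⟨48, 0, -4, 0⟩, ⟨52, 6, -2, 0⟩⟩]

theorem tab43_2_ok : allB tab43_2 E.ok = true := by decide +kernel

def tab43_3 : List E := [
  ⟨2, 17, 65, ⟨8, 0, 0, 0⟩, ⟨24, 4, 0, 0⟩, ⟨36, 2, -2, 0⟩, ⟨48, 0, -4, 0⟩⟩,
  ⟨2, 19, 65, ⟨28, 4, 0, 0⟩, ⟨36, -2, -2, 0⟩, ⟨36, 2, -2, 0⟩, ⟨48, 0, -4, 0⟩⟩,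
  ⟨1, 7, 131, ⟨12, 4, 0, 0⟩, ⟨32, 2, -2, 0⟩, ⟨40, 6, -2, 0⟩, ⟨48, 0, -4, 0⟩⟩,
  ⟨1, 11, 131, ⟨16, 4, 0, 0⟩, ⟨28, 8, 0, 0⟩, ⟨32, 2, -2, 0⟩, ⟨48, 0, -4, 0⟩⟩,
  ⟨1, 15, 131, ⟨16, 4, 0, 0⟩, ⟨32, -2, -2, 0⟩, ⟨32, 2, -2, 0⟩, ⟨48, 0, -4, 0⟩⟩,
  ⟨1, 19, 131, ⟨20, 4, 0, 0⟩, ⟨32, -2, -2, 0⟩, ⟨32, 2, -2, 0⟩, ⟨48, 0, -4, 0⟩⟩,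
  ⟨1, 23, 131, ⟨20, 4, 0, 0⟩, ⟨36, 2, -2, 0⟩, ⟨48, 0, -4, 0⟩, ⟨52, -6, -2, 0⟩⟩,
  ⟨1, 31, 131, ⟨8, 0, 0, 0⟩, ⟨24, 4, 0, 0⟩, ⟨36, 2, -2, 0⟩, ⟨48, 0, -4, 0⟩⟩,
  ⟨1, 35, 131, ⟨24, 4, 0, 0⟩, ⟨36, -2, -2, 0⟩, ⟨36, 2, -2, 0⟩, ⟨48, 0, -4, 0⟩⟩,
  ⟨2, 5, 67, ⟨16, 4, 0, 0⟩, ⟨28, 8, 0, 0⟩, ⟨32, 2, -2, 0⟩, ⟨48, 0, -4, 0⟩⟩]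

theorem tab43_3_ok : allB tab43_3 E.ok = true := by decide +kernel

def tab43_4 : List E := [
  ⟨2, 11, 67, ⟨8, 0, 0, 0⟩, ⟨20, 4, 0, 0⟩, ⟨48, 0, -4, 0⟩, ⟨52, 6, -2, 0⟩⟩,
  ⟨2, 13, 67, ⟨24, 4, 0, 0⟩, ⟨36, -2, -2, 0⟩, ⟨36, 2, -2, 0⟩, ⟨48, 0, -4, 0⟩⟩,
  ⟨2, 15, 67, ⟨8, 0, 0, 0⟩, ⟨24, 4, 0, 0⟩, ⟨36, 2, -2, 0⟩, ⟨48, 0, -4, 0⟩⟩,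
  ⟨2, 17, 67, ⟨8, 0, 0, 0⟩, ⟨24, 4, 0, 0⟩, ⟨36, 2, -2, 0⟩, ⟨48, 0, -4, 0⟩⟩,
  ⟨2, 7, 69, ⟨8, 0, 0, 0⟩, ⟨16, 4, 0, 0⟩, ⟨32, 2, -2, 0⟩, ⟨48, 0, -4, 0⟩⟩,
  ⟨2, 11, 69, ⟨20, 4, 0, 0⟩, ⟨36, 2, -2, 0⟩, ⟨48, 0, -4, 0⟩, ⟨52, -6, -2, 0⟩⟩,
  ⟨2, 13, 69, ⟨24, 4, 0, 0⟩, ⟨36, -2, -2, 0⟩, ⟨36, 2, -2, 0⟩, ⟨48, 0, -4, 0⟩⟩,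
  ⟨1, 7, 139, ⟨8, 0, 0, 0⟩, ⟨12, 4, 0, 0⟩, ⟨40, -6, -2, 0⟩, ⟨48, 0, -4, 0⟩⟩,
  ⟨1, 11, 139, ⟨16, 4, 0, 0⟩, ⟨32, 2, -2, 0⟩, ⟨44, -6, -2, 0⟩, ⟨48, 0, -4, 0⟩⟩,
  ⟨1, 15, 139, ⟨16, 4, 0, 0⟩, ⟨32, -2, -2, 0⟩, ⟨32, 2, -2, 0⟩, ⟨48, 0, -4, 0⟩⟩]

theorem tab43_4_ok : allB tab43_4 E.ok = true := by decide +kernel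

def tab43 : List E :=
  tab43_0 ++ (tab43_1 ++ (tab43_2 ++ (tab43_3 ++ (tab43_4))))

theorem tab43_ok : allB tab43 E.ok = true :=
  allB_append tab43_0_ok (allB_append tab43_1_ok (allB_append tab43_2_ok (allB_append tab43_3_ok
  tab43_4_ok)))

end BQN
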