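import Pool.Agent.BQN.App

/-! Table 50. -/

namespace BQN

def tab50_0 : List E := [
  ⟨3, 1, 163, ⟨8, 4, 0, 0⟩, ⟨32, -2, 0, -2⟩, ⟨36, -6, 0, -2⟩, ⟨36, 6, 0, -2⟩⟩,
  ⟨3, 1, 167, ⟨8, 4, 0, 0⟩, ⟨32, -2, 0, -2⟩, ⟨32, 2, 0, -2⟩, ⟨44, -10, 0, -2⟩⟩,
  ⟨3, 1, 179, ⟨8, 4, 0, 0⟩, ⟨32, -2, 0, -2⟩, ⟨32, 2, 0, -2⟩, ⟨32, -2, 0, 2⟩⟩,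
  ⟨3, 1, 187, ⟨8, 4, 0, 0⟩, ⟨20, 8, 0, 0⟩, ⟨32, -2, 0, -2⟩, ⟨32, 2, 0, -2⟩⟩,
  ⟨3, 1, 191, ⟨8, 4, 0, 0⟩, ⟨16, 4, 0, 0⟩, ⟨32, -2, 0, -2⟩, ⟨32, 2, 0, -2⟩⟩,
  ⟨3, 1, 199, ⟨8, 4, 0, 0⟩, ⟨16, 4, 0, 0⟩, ⟨32, -2, 0, -2⟩, ⟨32, 2, 0, -2⟩⟩,
  ⟨3, 1, 203, ⟨8, 4, 0, 0⟩, ⟨32, -2, 0, -2⟩, ⟨32, 2, 0, -2⟩, ⟨32, -2, 0, 2⟩⟩,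
  ⟨3, 1, 211, ⟨8, 4, 0, 0⟩, ⟨36, -2, 0, -2⟩, ⟨40, -6, 0, -2⟩, ⟨40, 6, 0, -2⟩⟩,
  ⟨3, 1, 215, ⟨8, 4, 0, 0⟩, ⟨36, -2, 0, -2⟩, ⟨40, -6, 0, -2⟩, ⟨40, 6, 0, -2⟩⟩,
  ⟨3, 1, 223, ⟨8, 4, 0, 0⟩, ⟨36, -2, 0, -2⟩, ⟨36, 2, 0, -2⟩, ⟨48, -10, 0, -2⟩⟩]

theorem tab50_0_ok : allB tab50_0 E.ok = true := by decide +kernel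

def tab50_1 : List E := [
  ⟨3, 1, 227, ⟨8, 4, 0, 0⟩, ⟨36, -2, 0, -2⟩, ⟨36, 2, 0, -2⟩, ⟨48, -10, 0, -2⟩⟩,
  ⟨3, 1, 235, ⟨8, 4, 0, 0⟩, ⟨36, -2, 0, -2⟩, ⟨48, -10, 0, -2⟩, ⟨48, 10, 0, -2⟩⟩,
  ⟨3, 1, 239, ⟨8, 4, 0, 0⟩, ⟨16, 4, 0, 0⟩, ⟨36, -2, 0, -2⟩, ⟨36, 2, 0, -2⟩⟩,
  ⟨3, 1, 247, ⟨8, 4, 0, 0⟩, ⟨20, 8, 0, 0⟩, ⟨36, -2, 0, -2⟩, ⟨36, 2, 0, -2⟩⟩,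
  ⟨3, 1, 251, ⟨8, 4, 0, 0⟩, ⟨16, 4, 0, 0⟩, ⟨36, -2, 0, -2⟩, ⟨36, 2, 0, -2⟩⟩,
  ⟨3, 1, 259, ⟨8, 4, 0, 0⟩, ⟨16, 4, 0, 0⟩, ⟨36, -2, 0, -2⟩, ⟨36, 2, 0, -2⟩⟩,
  ⟨3, 1, 263, ⟨8, 4, 0, 0⟩, ⟨36, -2, 0, -2⟩, ⟨36, 2, 0, -2⟩, ⟨36, -2, 0, 2⟩⟩,
  ⟨3, 1, 271, ⟨8, 4, 0, 0⟩, ⟨40, -2, 0, -2⟩, ⟨44, -6, 0, -2⟩, ⟨44, 6, 0, -2⟩⟩,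
  ⟨3, 1, 283, ⟨8, 4, 0, 0⟩, ⟨40, -2, 0, -2⟩, ⟨40, 2, 0, -2⟩, ⟨52, -10, 0, -2⟩⟩,
  ⟨3, 1, 287, ⟨8, 4, 0, 0⟩, ⟨40, -2, 0, -2⟩, ⟨40, 2, 0, -2⟩, ⟨52, -10, 0, -2⟩⟩]

theorem tab50_1_ok : allB tab50_1 E.ok = true := by decide +kernel

def tab50_2 : List E := [
  ⟨3, 1, 295, ⟨8, 4, 0, 0⟩, ⟨40, -2, 0, -2⟩, ⟨52, -10, 0, -2⟩, ⟨52, 10, 0, -2⟩⟩,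
  ⟨3, 1, 299, ⟨8, 4, 0, 0⟩, ⟨40, 2, 0, -2⟩, ⟨52, 10, 0, -2⟩, ⟨52, -10, 0, 2⟩⟩,
  ⟨3, 1, 307, ⟨8, 4, 0, 0⟩, ⟨16, 4, 0, 0⟩, ⟨40, -2, 0, -2⟩, ⟨40, 2, 0, -2⟩⟩,
  ⟨3, 1, 311, ⟨8, 4, 0, 0⟩, ⟨20, 8, 0, 0⟩, ⟨40, -2, 0, -2⟩, ⟨40, 2, 0, -2⟩⟩,
  ⟨3, 1, 319, ⟨8, 4, 0, 0⟩, ⟨16, 4, 0, 0⟩, ⟨40, -2, 0, -2⟩, ⟨40, 2, 0, -2⟩⟩,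
  ⟨3, 1, 323, ⟨8, 4, 0, 0⟩, ⟨16, 4, 0, 0⟩, ⟨40, -2, 0, -2⟩, ⟨40, 2, 0, -2⟩⟩,
  ⟨3, 1, 331, ⟨8, 4, 0, 0⟩, ⟨40, -2, 0, -2⟩, ⟨40, 2, 0, -2⟩, ⟨40, -2, 0, 2⟩⟩,
  ⟨3, 1, 335, ⟨8, 4, 0, 0⟩, ⟨44, -2, 0, -2⟩, ⟨44, 2, 0, -2⟩, ⟨48, -6, 0, -2⟩⟩,
  ⟨3, 1, 347, ⟨8, 4, 0, 0⟩, ⟨44, -2, 0, -2⟩, ⟨48, -6, 0, -2⟩, ⟨48, 6, 0, -2⟩⟩,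
  ⟨3, 1, 355, ⟨8, 4, 0, 0⟩, ⟨44, -2, 0, -2⟩, ⟨44, 2, 0, -2⟩, ⟨56, -10, 0, -2⟩⟩]

theorem tab50_2_ok : allB tab50_2 E.ok = true := by decide +kernel

def tab50_3 : List E := [
  ⟨3, 1, 359, ⟨8, 4, 0, 0⟩, ⟨44, -2, 0, -2⟩, ⟨44, 2, 0, -2⟩, ⟨56, -10, 0, -2⟩⟩,
  ⟨3, 1, 367, ⟨8, 4, 0, 0⟩, ⟨44, -2, 0, -2⟩, ⟨56, -10, 0, -2⟩, ⟨56, 10, 0, -2⟩⟩,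
  ⟨3, 1, 371, ⟨8, 4, 0, 0⟩, ⟨44, -2, 0, -2⟩, ⟨56, -10, 0, -2⟩, ⟨56, 10, 0, -2⟩⟩,
  ⟨3, 1, 379, ⟨8, 4, 0, 0⟩, ⟨16, 4, 0, 0⟩, ⟨44, -2, 0, -2⟩, ⟨44, 2, 0, -2⟩⟩,
  ⟨3, 1, 383, ⟨8, 4, 0, 0⟩, ⟨20, 8, 0, 0⟩, ⟨44, -2, 0, -2⟩, ⟨44, 2, 0, -2⟩⟩,
  ⟨3, 1, 391, ⟨8, 4, 0, 0⟩, ⟨20, 8, 0, 0⟩, ⟨44, -2, 0, -2⟩, ⟨44, 2, 0, -2⟩⟩,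
  ⟨3, 1, 395, ⟨8, 4, 0, 0⟩, ⟨16, 4, 0, 0⟩, ⟨44, -2, 0, -2⟩, ⟨44, 2, 0, -2⟩⟩,
  ⟨3, 1, 403, ⟨8, 4, 0, 0⟩, ⟨16, 4, 0, 0⟩, ⟨44, -2, 0, -2⟩, ⟨44, 2, 0, -2⟩⟩,
  ⟨3, 1, 407, ⟨8, 4, 0, 0⟩, ⟨16, 4, 0, 0⟩, ⟨44, -2, 0, -2⟩, ⟨44, 2, 0, -2⟩⟩,
  ⟨3, 1, 415, ⟨8, 4, 0, 0⟩, ⟨48, -2, 0, -2⟩, ⟨48, 2, 0, -2⟩, ⟨52, -6, 0, -2⟩⟩]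

theorem tab50_3_ok : allB tab50_3 E.ok = true := by decide +kernel

def tab50_4 : List E := [
  ⟨3, 1, 419, ⟨8, 4, 0, 0⟩, ⟨48, -2, 0, -2⟩, ⟨52, -6, 0, -2⟩, ⟨52, 6, 0, -2⟩⟩,
  ⟨3, 1, 427, ⟨8, 4, 0, 0⟩, ⟨48, -2, 0, -2⟩, ⟨52, -6, 0, -2⟩, ⟨52, 6, 0, -2⟩⟩,
  ⟨3, 1, 431, ⟨8, 4, 0, 0⟩, ⟨48, -2, 0, -2⟩, ⟨52, -6, 0, -2⟩, ⟨52, 6, 0, -2⟩⟩,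
  ⟨3, 1, 439, ⟨8, 4, 0, 0⟩, ⟨48, -2, 0, -2⟩, ⟨48, 2, 0, -2⟩, ⟨60, -10, 0, -2⟩⟩,
  ⟨3, 1, 443, ⟨8, 4, 0, 0⟩, ⟨48, -2, 0, -2⟩, ⟨48, 2, 0, -2⟩, ⟨60, -10, 0, -2⟩⟩,
  ⟨3, 1, 451, ⟨8, 4, 0, 0⟩, ⟨48, -2, 0, -2⟩, ⟨60, -10, 0, -2⟩, ⟨60, 10, 0, -2⟩⟩,
  ⟨3, 1, 455, ⟨8, 4, 0, 0⟩, ⟨48, -2, 0, -2⟩, ⟨60, -10, 0, -2⟩, ⟨60, 10, 0, -2⟩⟩,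
  ⟨3, 1, 463, ⟨8, 4, 0, 0⟩, ⟨16, 4, 0, 0⟩, ⟨48, -2, 0, -2⟩, ⟨48, 2, 0, -2⟩⟩,
  ⟨3, 1, 467, ⟨8, 4, 0, 0⟩, ⟨20, 8, 0, 0⟩, ⟨48, -2, 0, -2⟩, ⟨48, 2, 0, -2⟩⟩,
  ⟨3, 1, 479, ⟨8, 4, 0, 0⟩, ⟨16, 4, 0, 0⟩, ⟨48, -2, 0, -2⟩, ⟨48, 2, 0, -2⟩⟩]

theorem tab50_4_ok : allB tab50_4 E.ok = true := by decide +kernel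

def tab50 : List E :=
  tab50_0 ++ (tab50_1 ++ (tab50_2 ++ (tab50_3 ++ (tab50_4))))

theorem tab50_ok : allB tab50 E.ok = true :=
  allB_append tab50_0_ok (allB_append tab50_1_ok (allB_append tab50_2_ok (allB_append tab50_3_ok
  tab50_4_ok)))

end BQN
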